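import Pool.Agent.helper85.L21.General

/-! # The graphs of dumbbell type over all finite abelian groups: conclusion -/

set_option autoImplicit false

namespace Pool.Agent.helper85.L21

/-- A walk on the cycle of length `a` with step `β ≤ a / 2` meets the middle half. -/
theorem walkmod (a β lo L : ℕ) (ha : 0 < a) (hβ : 0 < β) (hβ2 : 2 * β ≤ a)
    (hL : a ≤ 2 * (β * L)) :
    ∃ j, j ≤ L ∧ a ≤ 4 * ((β * (lo + j)) % a) ∧ 4 * ((β * (lo + j)) % a) ≤ 3 * a := by
  obtain ⟨r, hr⟩ : ∃ r, r = (β * lo) % a := ⟨_, rfl⟩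
  have hra : r < a := by rw [hr]; exact Nat.mod_lt _ ha
  have hmod : ∀ j, (β * (lo + j)) % a = (r + β * j) % a := by
    intro j; rw [Nat.mul_add, hr, Nat.mod_add_mod]
  have hL1 : 1 ≤ L := by
    rcases Nat.eq_zero_or_pos L with h | h
    · subst h; simp at hL; omega
    · exact h
  by_cases c1 : 4 * r < a
  · obtain ⟨j, hj⟩ : ∃ j, j = (a - 4 * r + 4 * β - 1) / (4 * β) := ⟨_, rfl⟩
    have e1 : a - 4 * r + 4 * β - 1 < 4 * β * (j + 1) := by
      rw [hj]; exact Nat.lt_mul_div_succ _ (by omega)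
    have e2 : 4 * β * j ≤ a - 4 * r + 4 * β - 1 := by
      rw [hj]; exact Nat.mul_div_le _ _
    have e3 : 4 * β * (j + 1) = 4 * (β * j) + 4 * β := by ring
    have e4 : 4 * β * j = 4 * (β * j) := by ring
    refine ⟨j, ?_, ?_⟩
    · by_contra hcon
      have h1 : L + 1 ≤ j := by omega
      have h2 : β * (L + 1) ≤ β * j := Nat.mul_le_mul_left _ h1
      rw [Nat.mul_add] at h2
      omega
    · rw [hmod, Nat.mod_eq_of_lt (by omega)]
      omega
  by_cases c2 : 4 * r ≤ 3 * a
  · refine ⟨0, by omega, ?_⟩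
    rw [hmod, Nat.mul_zero, Nat.add_zero, Nat.mod_eq_of_lt hra]
    omega
  · obtain ⟨j, hj⟩ : ∃ j, j = (5 * a - 4 * r + 4 * β - 1) / (4 * β) := ⟨_, rfl⟩
    have e1 : 5 * a - 4 * r + 4 * β - 1 < 4 * β * (j + 1) := by
      rw [hj]; exact Nat.lt_mul_div_succ _ (by omega)
    have e2 : 4 * β * j ≤ 5 * a - 4 * r + 4 * β - 1 := by
      rw [hj]; exact Nat.mul_div_le _ _
    have e3 : 4 * β * (j + 1) = 4 * (β * j) + 4 * β := by ring
    have e4 : 4 * β * j = 4 * (β * j) := by ring
    refine ⟨j, ?_, ?_⟩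
    · by_contra hcon
      have h1 : L + 1 ≤ j := by omega
      have h2 : β * (L + 1) ≤ β * j := Nat.mul_le_mul_left _ h1
      rw [Nat.mul_add] at h2
      omega
    · have h5 : (r + β * j) % a = r + β * j - a := by
        rw [Nat.mod_eq_sub_mod (by omega), Nat.mod_eq_of_lt (by omega)]
      rw [hmod, h5]
      omega

theorem mirror (a β i : ℕ) (ha : 0 < a) (hβ : β ≤ a) :
    (β * i) % a + ((a - β) * i) % a = 0 ∨ (β * i) % a + ((a - β) * i) % a = a := by
  have h1 : β * i + (a - β) * i = a * i := by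
    rw [← Nat.add_mul]; congr 1; omega
  have h2 : ((β * i) % a + ((a - β) * i) % a) % a = 0 := by
    rw [← Nat.add_mod, h1, Nat.mul_mod_right]
  have h3 : (β * i) % a < a := Nat.mod_lt _ ha
  have h4 : ((a - β) * i) % a < a := Nat.mod_lt _ ha
  generalize (β * i) % a = x at *
  generalize ((a - β) * i) % a = y at *
  by_cases h5 : x + y < a
  · rw [Nat.mod_eq_of_lt h5] at h2; left; exact h2
  · rw [Nat.mod_eq_sub_mod (by omega), Nat.mod_eq_of_lt (by omega)] at h2
    right; omega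

/-- The residues in a window meet the middle half of the cycle. -/
theorem window (a β lo L : ℕ) (ha : 0 < a) (b0 : ℕ) (hb0 : 0 < b0) (hb1 : b0 ≤ β)
    (hb2 : β + b0 ≤ a) (hL : a ≤ 2 * (b0 * L)) :
    ∃ i, lo ≤ i ∧ i ≤ lo + L ∧ a ≤ 4 * ((β * i) % a) ∧ 4 * ((β * i) % a) ≤ 3 * a := by
  by_cases h : 2 * β ≤ a
  · have h1 : b0 * L ≤ β * L := Nat.mul_le_mul_right _ hb1
    obtain ⟨j, hj, h2, h3⟩ := walkmod a β lo L ha (by omega) h (by omega)
    exact ⟨lo + j, by omega, by omega, h2, h3⟩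
  · have h1 : b0 * L ≤ (a - β) * L := Nat.mul_le_mul_right _ (by omega)
    obtain ⟨j, hj, h2, h3⟩ := walkmod a (a - β) lo L ha (by omega) (by omega) (by omega)
    refine ⟨lo + j, by omega, by omega, ?_⟩
    rcases mirror a β (lo + j) ha (by omega) with h4 | h4 <;> omega

theorem chr2_large (a β : ℕ) (ha : 24 ≤ a) (hβ : 0 < β) (hβa : β < a)
    (h1 : β ≠ 1) (h1' : β ≠ a - 1) : Chr a 2 β := by
  have key : ∃ i, a ≤ 8 * i ∧ 8 * i ≤ 3 * a ∧ a ≤ 4 * ((β * i) % a) ∧
      4 * ((β * i) % a) ≤ 3 * a := by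
    by_cases h2 : β = 2
    · subst h2
      refine ⟨(a + 7) / 8, by omega, by omega, ?_⟩
      rw [Nat.mod_eq_of_lt (by omega)]; omega
    by_cases h2' : β = a - 2
    · refine ⟨(a + 7) / 8, by omega, by omega, ?_⟩
      have := mirror a β ((a + 7) / 8) (by omega) (by omega)
      have e : a - β = 2 := by omega
      rw [e, Nat.mod_eq_of_lt (show 2 * ((a + 7) / 8) < a by omega)] at this
      have hlt : (β * ((a + 7) / 8)) % a < a := Nat.mod_lt _ (by omega)
      generalize (β * ((a + 7) / 8)) % a = r at *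
      omega
    · obtain ⟨i, i1, i2, i3, i4⟩ := window a β ((a + 7) / 8) (3 * a / 8 - (a + 7) / 8)
        (by omega) 3 (by norm_num) (by omega) (by omega) (by omega)
      exact ⟨i, by omega, by omega, i3, i4⟩
  obtain ⟨i, i1, i2, i3, i4⟩ := key
  exact chr2 a β i (by omega) i1 i2 i3 i4

theorem chr3_large (a β : ℕ) (ha : 48 ≤ a) (hβa : β < a)
    (h1 : β ≠ 1) (h1' : β ≠ a - 1) : Chr a 3 β := by
  by_cases h0 : β = 0
  · subst h0
    refine chr3b a 0 ((a + 3) / 4) (by omega) (by omega) (by omega) ?_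
    left
    rw [Nat.zero_mul, Nat.zero_mod]; omega
  have key : ∃ i, a ≤ 8 * i ∧ 8 * i ≤ 2 * a ∧ a ≤ 4 * ((β * i) % a) ∧
      4 * ((β * i) % a) ≤ 3 * a := by
    have small : ∀ b, 2 ≤ b → b ≤ 5 → a ≤ 4 * (b * ((a + 7) / 8)) ∧
        4 * (b * ((a + 7) / 8)) ≤ 3 * a := by
      intro b hb1 hb2
      interval_cases b <;> omega
    by_cases h2 : β ≤ 5
    · obtain ⟨s1, s2⟩ := small β (by omega) h2
      refine ⟨(a + 7) / 8, by omega, by omega, ?_⟩
      rw [Nat.mod_eq_of_lt (by omega)]; exact ⟨s1, s2⟩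
    by_cases h2' : a ≤ β + 5
    · obtain ⟨s1, s2⟩ := small (a - β) (by omega) (by omega)
      refine ⟨(a + 7) / 8, by omega, by omega, ?_⟩
      have := mirror a β ((a + 7) / 8) (by omega) (by omega)
      rw [Nat.mod_eq_of_lt (show (a - β) * ((a + 7) / 8) < a by omega)] at this
      have hlt : (β * ((a + 7) / 8)) % a < a := Nat.mod_lt _ (by omega)
      generalize (β * ((a + 7) / 8)) % a = r at *
      generalize (a - β) * ((a + 7) / 8) = r' at *
      omega
    · obtain ⟨i, i1, i2, i3, i4⟩ := window a β ((a + 7) / 8) (a / 4 - (a + 7) / 8)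
        (by omega) 6 (by norm_num) (by omega) (by omega) (by omega)
      exact ⟨i, by omega, by omega, i3, i4⟩
  obtain ⟨i, i1, i2, i3, i4⟩ := key
  exact chr3a a β i (by omega) i1 i2 i3 i4

theorem mod_succ_cases (a β x : ℕ) (ha : 0 < a) (hβ : β < a) :
    (x + β) % a = x % a + β ∨ (x + β) % a + a = x % a + β := by
  rw [Nat.add_mod, Nat.mod_eq_of_lt hβ]
  have h := Nat.mod_lt x ha
  generalize x % a = r at *
  by_cases h1 : r + β < a
  · rw [Nat.mod_eq_of_lt h1]; left; rfl
  · rw [Nat.mod_eq_sub_mod (by omega), Nat.mod_eq_of_lt (by omega)]; right; omega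

theorem chr5_large (a β : ℕ) (ha : 16 ≤ a) (hβa : β < a) : Chr a 5 β := by
  obtain ⟨i, hi⟩ : ∃ i, i = a / 4 - 1 := ⟨_, rfl⟩
  have e1 := mod_succ_cases a β (β * i) (by omega) hβa
  have e2 := mod_succ_cases a β (β * (i + 1)) (by omega) hβa
  rw [← Nat.mul_succ] at e1 e2
  have f0 := chr5a a β i (by omega) (by omega) (by omega)
  have f1 := chr5a a β (i + 1) (by omega) (by omega) (by omega)
  have f2 := chr5b a β (i + 1 + 1) (by omega) (by omega) (by omega)
  have l0 : (β * i) % a < a := Nat.mod_lt _ (by omega)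
  have l1 : (β * (i + 1)) % a < a := Nat.mod_lt _ (by omega)
  have l2 : (β * (i + 1 + 1)) % a < a := Nat.mod_lt _ (by omega)
  simp only [Nat.succ_eq_add_one] at e1 e2
  generalize (β * i) % a = r0 at *
  generalize (β * (i + 1)) % a = r1 at *
  generalize (β * (i + 1 + 1)) % a = r2 at *
  by_contra hcon
  have g0 : ¬ (8 * r0 ≤ 3 * a ∨ 5 * a ≤ 8 * r0) := fun h => hcon (f0 h)
  have g1 : ¬ (8 * r1 ≤ 3 * a ∨ 5 * a ≤ 8 * r1) := fun h => hcon (f1 h)
  have g2 : ¬ (a ≤ 8 * r2 ∧ 8 * r2 ≤ 7 * a) := fun h => hcon (f2 h.1 h.2)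
  clear f0 f1 f2 hcon
  omega

/-- Boolean search for a good character. -/
def genSrch (a d β : ℕ) : Bool :=
  (List.range a).any fun i => (List.range d).any fun l =>
    let m := a * d
    let x := d * i
    let y := (β * i) % a + a * l
    (Nat.ble m (8 * x) && Nat.ble (8 * x) (2 * m) &&
        ((Nat.ble m (8 * y) && Nat.ble (8 * y) (2 * m)) ||
          (Nat.ble (6 * m) (8 * y) && Nat.ble (8 * y) (7 * m)))) ||
      (Nat.ble (2 * m) (8 * x) && Nat.ble (8 * x) (3 * m) &&
        ((Nat.ble (2 * m) (8 * y) && Nat.ble (8 * y) (3 * m)) ||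
          (Nat.ble (5 * m) (8 * y) && Nat.ble (8 * y) (6 * m))))

theorem genSrch_spec {a d β : ℕ} (h : genSrch a d β = true) : Chr a d β := by
  unfold genSrch at h
  rw [List.any_eq_true] at h
  obtain ⟨i, hi, h⟩ := h
  rw [List.any_eq_true] at h
  obtain ⟨l, hl, h⟩ := h
  refine ⟨i, l, List.mem_range.1 hi, List.mem_range.1 hl, ?_⟩
  simp only [Bool.or_eq_true, Bool.and_eq_true, Nat.ble_eq] at h
  unfold GoodXY
  omega

/-- The exceptional lattices. -/
def lexc : List (ℕ × ℕ × ℕ) :=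
  [(10, 2, 4), (10, 2, 6), (5, 3, 0), (10, 3, 5), (3, 5, 0), (6, 5, 3)]

theorem small2 : ∀ a ∈ List.range 24, 3 ≤ a → ∀ β ∈ List.range a, β ≠ 0 → Nat.gcd a β ≠ 1 →
    genSrch a 2 β = true ∨ (a, 2, β) ∈ lexc := by
  decide +kernel

theorem small3 : ∀ a ∈ List.range 48, 3 ≤ a → ∀ β ∈ List.range a, Nat.gcd a β ≠ 1 →
    genSrch a 3 β = true ∨ (a, 3, β) ∈ lexc := by
  decide +kernel

theorem small5 : ∀ a ∈ List.range 16, 3 ≤ a → ∀ β ∈ List.range a, Nat.gcd a β ≠ 1 →
    genSrch a 5 β = true ∨ (a, 5, β) ∈ lexc := by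
  decide +kernel

/-- The number theory for lattices of non-cyclic shape. -/
theorem chr_all (a d β : ℕ) (ha : 3 ≤ a) (hd : 2 ≤ d) (hβ : β < a) (hg : Nat.gcd a β ≠ 1)
    (h2 : d = 2 → β ≠ 0) : Chr a d β ∨ (a, d, β) ∈ lexc := by
  have hβ1 : β ≠ 1 := by rintro rfl; simp at hg
  have hβ1' : β ≠ a - 1 := by
    rintro rfl
    apply hg
    have h : Nat.Coprime (a - 1 + 1) (a - 1) := by simp
    rw [Nat.sub_add_cancel (by omega)] at h
    exact h
  have w1 : a ≤ 8 * ((a + 7) / 8) := by omega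
  have w2 : 8 * ((a + 7) / 8) ≤ 3 * a := by omega
  by_cases d8 : 8 ≤ d
  · left; exact chr_ge8 a d β _ (by omega) d8 w1 w2
  have hd' : d = 2 ∨ d = 3 ∨ d = 4 ∨ d = 5 ∨ d = 6 ∨ d = 7 := by omega
  rcases hd' with rfl | rfl | rfl | rfl | rfl | rfl
  · by_cases c : 24 ≤ a
    · left; exact chr2_large a β c (by have := h2 rfl; omega) hβ hβ1 hβ1'
    · rcases small2 a (List.mem_range.2 (by omega)) ha β (List.mem_range.2 hβ) (h2 rfl) hg with
        h | h
      · left; exact genSrch_spec h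
      · right; exact h
  · by_cases c : 48 ≤ a
    · left; exact chr3_large a β c hβ hβ1 hβ1'
    · rcases small3 a (List.mem_range.2 (by omega)) ha β (List.mem_range.2 hβ) hg with h | h
      · left; exact genSrch_spec h
      · right; exact h
  · left; exact chr4 a β _ (by omega) w1 w2
  · by_cases c : 16 ≤ a
    · left; exact chr5_large a β c hβ
    · rcases small5 a (List.mem_range.2 (by omega)) ha β (List.mem_range.2 hβ) hg with h | h
      · left; exact genSrch_spec h
      · right; exact h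
  · left; exact chr6 a β _ (by omega) w1 w2
  · left; exact chr7 a β _ (by omega) w1 w2

theorem dumOK_of_lattice' {G K : Type*} [AddCommGroup G] [AddCommGroup K] {s t : G} {a d β : ℕ}
    (hrel : ∀ u v : ℤ, u • s + v • t = 0 → ∃ w z : ℤ, u = -(w * β) + a * z ∧ v = d * w)
    (x y : K) (hx : (a : ℤ) • x = 0) (hy : (d : ℤ) • y = (β : ℤ) • x) (h : DumOK x y) :
    DumOK s t := by
  apply dumOK_of_rel _ h
  intro u v huv
  obtain ⟨w, z, rfl, rfl⟩ := hrel u v huv
  have e1 : ((a : ℤ) * z) • x = 0 := by rw [mul_comm, mul_smul, hx, smul_zero]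
  have e2 : ((d : ℤ) * w) • y = (w * (β : ℤ)) • x := by
    rw [mul_comm, mul_smul, hy, ← mul_smul]
  rw [add_smul, neg_smul, e1, e2]
  abel

theorem dir15 : DumOK (5 : ZMod 15) (3 : ZMod 15) :=
  dumOK_direct (N := 15) (by norm_num) (AddMonoidHom.id _) (x := 5) (y := 3) rfl rfl
    [4,0,4,4,0,2,7,0,0,2,0,2,2,2,4] [1,4,1,6,6,6,3,3,3,5,5,5,7,7,7] (by decide +kernel)

theorem dir30 : DumOK (5 : ZMod 30) (3 : ZMod 30) :=
  dumOK_direct (N := 30) (by norm_num) (AddMonoidHom.id _) (x := 5) (y := 3) rfl rfl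
    [0,3,2,4,6,6,5,5,2,2,2,0,0,0,0,0,2,2,4,4,4,6,6,6,1,2,1,0,1,3]
    [3,0,4,6,4,1,1,1,5,7,7,7,3,3,3,5,5,5,7,7,7,3,3,3,5,5,5,7,7,7] (by decide +kernel)

/-- All finite abelian groups: the graph of dumbbell type with cycle directions `s`, `t`. -/
theorem dum_all {G : Type*} [AddCommGroup G] [Finite G] (s t : G) (hs : s + s ≠ 0)
    (ht : t + t ≠ 0) (hP : ¬ (addOrderOf s = 5 ∧ (t = s + s ∨ t = -(s + s)))) : DumOK s t := by
  -- the cyclic case
  have cyclic : ∀ s t : G, s + s ≠ 0 → t + t ≠ 0 →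
      ¬ (addOrderOf s = 5 ∧ (t = s + s ∨ t = -(s + s))) → t ∈ AddSubgroup.zmultiples s →
      DumOK s t := by
    intro s t hs ht hP hts
    obtain ⟨k, rfl⟩ := AddSubgroup.mem_zmultiples_iff.1 hts
    obtain ⟨n, hn⟩ : ∃ n, n = addOrderOf s := ⟨_, rfl⟩
    have hn0 : 0 < n := by rw [hn]; exact addOrderOf_pos s
    have hz : ∀ u : ℤ, u • s = 0 ↔ (u : ZMod n) = 0 := by
      intro u
      rw [ZMod.intCast_zmod_eq_zero_iff_dvd, hn, addOrderOf_dvd_iff_zsmul_eq_zero]
    have hn3 : 3 ≤ n := by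
      by_contra hcon
      have : n = 1 ∨ n = 2 := by omega
      apply hs
      have h2 : (2 : ℤ) • s = 0 := by
        rw [hz]
        rcases this with h | h
        · rw [h]; rfl
        · rw [h]; rfl
      rwa [two_zsmul] at h2
    apply dumOK_of_rel (x := (1 : ZMod n)) (y := (k : ZMod n))
    · intro u v huv
      have h1 : (u + v * k) • s = 0 := by
        rw [add_smul, mul_smul]; exact huv
      rw [hz] at h1
      push_cast at h1
      rw [zsmul_eq_mul, zsmul_eq_mul, mul_one]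
      exact h1
    · apply cyc n hn3
      · intro h
        apply ht
        have h2 : (2 * k) • s = 0 := by rw [hz]; push_cast; exact h
        rw [mul_smul, two_zsmul] at h2
        exact h2
      · rintro ⟨h5, h | h⟩
        · apply hP
          refine ⟨by rw [← hn, h5], Or.inl ?_⟩
          have h2 : (k - 2) • s = 0 := by rw [hz]; push_cast; rw [h, sub_self]
          rw [sub_smul, two_zsmul] at h2
          exact sub_eq_zero.1 h2
        · apply hP
          refine ⟨by rw [← hn, h5], Or.inr ?_⟩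
          have h2 : (k + 2) • s = 0 := by rw [hz]; push_cast; rw [h, neg_add_cancel]
          rw [add_smul, two_zsmul] at h2
          exact eq_neg_of_add_eq_zero_left h2
  by_cases c1 : t ∈ AddSubgroup.zmultiples s
  · exact cyclic s t hs ht hP c1
  by_cases c2 : s ∈ AddSubgroup.zmultiples t
  · apply DumOK.swap
    apply cyclic t s ht hs _ c2
    rintro ⟨h5, h⟩
    apply c1
    have h5t : (5 : ℤ) • t = 0 := by
      have := addOrderOf_nsmul_eq_zero t
      rw [h5] at this
      exact_mod_cast this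
    rcases h with h | h
    · rw [AddSubgroup.mem_zmultiples_iff]
      refine ⟨3, ?_⟩
      rw [h]
      calc (3 : ℤ) • (t + t) = (5 : ℤ) • t + t := by abel
        _ = t := by rw [h5t, zero_add]
    · rw [AddSubgroup.mem_zmultiples_iff]
      refine ⟨-3, ?_⟩
      rw [h]
      calc (-3 : ℤ) • (-(t + t)) = (5 : ℤ) • t + t := by abel
        _ = t := by rw [h5t, zero_add]
  · obtain ⟨a, d, β, ha0, hd0, hβ, haddo, hdt, hd1, hrel⟩ := rel_lattice s t
    have hd2 : 2 ≤ d := by
      by_contra hcon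
      exact c1 (hd1 (by omega))
    have has : (a : ℤ) • s = 0 := by
      have := addOrderOf_nsmul_eq_zero s
      rw [← haddo] at this
      exact_mod_cast this
    have ha3 : 3 ≤ a := by
      by_contra hcon
      have : a = 1 ∨ a = 2 := by omega
      apply hs
      rcases this with h | h
      · rw [h] at has
        have h' : s = 0 := by simpa using has
        rw [h', add_zero]
      · rw [h] at has
        have h' : (2 : ℤ) • s = 0 := by exact_mod_cast has
        rwa [two_zsmul] at h'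
    have hg : Nat.gcd a β ≠ 1 := by
      intro hg
      apply c2
      have hb := Nat.gcd_eq_gcd_ab a β
      rw [hg] at hb
      have : s = (Nat.gcdB a β * d) • t := by
        calc s = ((1 : ℕ) : ℤ) • s := by simp
          _ = ((a : ℤ) * Nat.gcdA a β + (β : ℤ) * Nat.gcdB a β) • s := by rw [hb]
          _ = Nat.gcdA a β • ((a : ℤ) • s) + Nat.gcdB a β • ((β : ℤ) • s) := by
              rw [add_smul, mul_comm (a : ℤ), mul_comm (β : ℤ), mul_smul, mul_smul]
          _ = (Nat.gcdB a β * d) • t := by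
              rw [has, smul_zero, zero_add, ← hdt, ← mul_smul]
      rw [this]
      exact AddSubgroup.zsmul_mem_zmultiples t _
    have h2 : d = 2 → β ≠ 0 := by
      rintro rfl rfl
      apply ht
      have : (2 : ℤ) • t = 0 := by simpa using hdt
      rwa [two_zsmul] at this
    rcases chr_all a d β ha3 hd2 hβ hg h2 with h | h
    · exact dumOK_of_lattice ha0 hd0 hrel h
    · simp only [lexc, List.mem_cons, Prod.mk.injEq, List.not_mem_nil, or_false] at h
      rcases h with ⟨rfl, rfl, rfl⟩ | ⟨rfl, rfl, rfl⟩ | ⟨rfl, rfl, rfl⟩ | ⟨rfl, rfl, rfl⟩ |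
        ⟨rfl, rfl, rfl⟩ | ⟨rfl, rfl, rfl⟩
      · exact dumOK_of_lattice' hrel (1 : ZMod 10) (2 : ZMod 10) (by decide) (by decide)
          (cyc 10 (by norm_num) 2 (by decide) (by norm_num))
      · exact dumOK_of_lattice' hrel (1 : ZMod 10) (3 : ZMod 10) (by decide) (by decide)
          (cyc 10 (by norm_num) 3 (by decide) (by norm_num))
      · exact dumOK_of_lattice' hrel (3 : ZMod 15) (5 : ZMod 15) (by decide) (by decide) dir15.swap
      · exact dumOK_of_lattice' hrel (3 : ZMod 30) (5 : ZMod 30) (by decide) (by decide) dir30.swap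
      · exact dumOK_of_lattice' hrel (5 : ZMod 15) (3 : ZMod 15) (by decide) (by decide) dir15
      · exact dumOK_of_lattice' hrel (5 : ZMod 30) (3 : ZMod 30) (by decide) (by decide) dir30

end Pool.Agent.helper85.L21
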