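import Pool.Agent.helper85.L21.ThetaCyc
import Pool.Agent.helper85.L21.DumAll

/-! # The bipartite family over all finite abelian groups -/

set_option autoImplicit false

namespace Pool.Agent.helper85.L21

/-- There is a good character of the group with relation lattice generated by `(a,0)`,
`(-β,d)`. -/
def ChrT (a d β : ℕ) : Prop := ∃ i l : ℕ, i < a ∧ l < d ∧
  GoodT (a * d) (d * i) ((β * i) % a + a * l)

theorem theOK_of_lattice' {G K : Type*} [AddCommGroup G] [AddCommGroup K] {s t : G} {a d β : ℕ}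
    (hrel : ∀ u v : ℤ, u • s + v • t = 0 → ∃ w z : ℤ, u = -(w * β) + a * z ∧ v = d * w)
    (x y : K) (hx : (a : ℤ) • x = 0) (hy : (d : ℤ) • y = (β : ℤ) • x) (h : TheOK x y) :
    TheOK s t := by
  apply theOK_of_rel _ h
  intro u v huv
  obtain ⟨w, z, rfl, rfl⟩ := hrel u v huv
  have e1 : ((a : ℤ) * z) • x = 0 := by rw [mul_comm, mul_smul, hx, smul_zero]
  have e2 : ((d : ℤ) * w) • y = (w * (β : ℤ)) • x := by
    rw [mul_comm, mul_smul, hy, ← mul_smul]
  rw [add_smul, neg_smul, e1, e2]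
  abel

/-- The elements of the cyclic group given by a good character. -/
theorem chrT_elts {a d β : ℕ} (ha : 0 < a) (hd : 0 < d) (h : ChrT a d β) :
    ∃ x y : ZMod (a * d), (a : ℤ) • x = 0 ∧ (d : ℤ) • y = (β : ℤ) • x ∧ TheOK x y := by
  obtain ⟨i, l, hi, hl, hg⟩ := h
  have hm : 0 < a * d := Nat.mul_pos ha hd
  have hne : NeZero (a * d) := ⟨hm.ne'⟩
  obtain ⟨q, hq⟩ : ∃ q : ℕ, β * i = (β * i) % a + a * q := ⟨_, (Nat.mod_add_div _ _).symm⟩
  have hz : (a : ZMod (a * d)) * (d : ZMod (a * d)) = 0 := by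
    rw [← Nat.cast_mul]; exact ZMod.natCast_self _
  have hq' : ((β * i : ℕ) : ZMod (a * d)) = (((β * i) % a + a * q : ℕ) : ZMod (a * d)) :=
    congrArg _ hq
  push_cast at hq'
  refine ⟨((d * i : ℕ) : ZMod (a * d)), (((β * i) % a + a * l : ℕ) : ZMod (a * d)), ?_, ?_, ?_⟩
  · rw [zsmul_eq_mul]; push_cast
    linear_combination (i : ZMod (a * d)) * hz
  · rw [zsmul_eq_mul, zsmul_eq_mul]; push_cast
    linear_combination (-(d : ZMod (a * d))) * hq' + ((l : ZMod (a * d)) - q) * hz
  · apply theOK_of_goodT hm (AddMonoidHom.id _)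
    simp only [AddMonoidHom.id_apply]
    rw [ZMod.val_natCast, ZMod.val_natCast, Nat.mod_eq_of_lt, Nat.mod_eq_of_lt]
    · exact hg
    · have h1 : (β * i) % a < a := Nat.mod_lt _ ha
      have h2 : a * (l + 1) ≤ a * d := Nat.mul_le_mul_left a hl
      rw [Nat.mul_add] at h2
      omega
    · rw [Nat.mul_comm a d]
      exact Nat.mul_lt_mul_of_pos_left hi hd

theorem chrT_ge8 (a d β : ℕ) (ha : 2 ≤ a) (hd : 8 ≤ d) : ChrT a d β := by
  obtain ⟨i, hi⟩ : ∃ i, i = a / 2 := ⟨_, rfl⟩
  have h1 : a ≤ 8 * i := by omega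
  have h2 : 8 * i ≤ 4 * a := by omega
  have hr : (β * i) % a < a := Nat.mod_lt _ (by omega)
  obtain ⟨r, hr'⟩ : ∃ r, r = (β * i) % a := ⟨_, rfl⟩
  rw [← hr'] at hr
  obtain ⟨m, hm⟩ : ∃ m, m = a * d := ⟨_, rfl⟩
  have hm8 : 8 * a ≤ m := by rw [hm, Nat.mul_comm 8]; exact Nat.mul_le_mul_left a hd
  have key : ∀ T : ℕ, 1 ≤ T → T ≤ 5 → ∃ l, l < d ∧ T * m ≤ 8 * (r + a * l) ∧
      8 * (r + a * l) ≤ (T + 1) * m := by
    intro T hT1 hT2
    obtain ⟨l, hl⟩ : ∃ l, l = (T * m - 8 * r + 8 * a - 1) / (8 * a) := ⟨_, rfl⟩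
    have hTm : m ≤ T * m := Nat.le_mul_of_pos_left m hT1
    have e1 : T * m - 8 * r + 8 * a - 1 < 8 * a * (l + 1) := by
      rw [hl]; exact Nat.lt_mul_div_succ _ (by omega)
    have e2 : 8 * a * l ≤ T * m - 8 * r + 8 * a - 1 := by
      rw [hl]; exact Nat.mul_div_le _ _
    have e3 : 8 * a * (l + 1) = 8 * (a * l) + 8 * a := by ring
    have e4 : 8 * a * l = 8 * (a * l) := by ring
    have e5 : (T + 1) * m = T * m + m := by ring
    refine ⟨l, ?_, by omega, by omega⟩
    have e6 : T * m ≤ 5 * m := Nat.mul_le_mul_right m hT2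
    have e7 : a * l < a * d := by rw [← hm]; omega
    exact Nat.lt_of_mul_lt_mul_left e7
  have hdi : ∀ c : ℕ, c * a ≤ 8 * i → c * m ≤ 8 * (d * i) := by
    intro c hc
    have := Nat.mul_le_mul_left d hc
    rw [hm]; nlinarith
  have hdi' : ∀ c : ℕ, 8 * i ≤ c * a → 8 * (d * i) ≤ c * m := by
    intro c hc
    have := Nat.mul_le_mul_left d hc
    rw [hm]; nlinarith
  by_cases h3 : 8 * i ≤ 2 * a
  · obtain ⟨l, hl, k1, k2⟩ := key 3 (by norm_num) (by norm_num)
    refine ⟨i, l, by omega, hl, ?_⟩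
    rw [← hr', ← hm]
    left
    have d1 := hdi 1 (by omega)
    have d2 := hdi' 2 h3
    exact ⟨by omega, by omega, Or.inl ⟨by omega, by omega⟩⟩
  by_cases h4 : 8 * i ≤ 3 * a
  · obtain ⟨l, hl, k1, k2⟩ := key 5 (by norm_num) (by norm_num)
    refine ⟨i, l, by omega, hl, ?_⟩
    rw [← hr', ← hm]
    right; left
    have d1 := hdi 2 (by omega)
    have d2 := hdi' 3 h4
    exact ⟨by omega, by omega, by omega, by omega⟩
  · obtain ⟨l, hl, k1, k2⟩ := key 1 (by norm_num) (by norm_num)
    refine ⟨i, l, by omega, hl, ?_⟩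
    rw [← hr', ← hm]
    right; right
    have d1 := hdi 3 (by omega)
    have d2 := hdi' 4 h2
    exact ⟨by omega, by omega, by omega, by omega⟩

theorem chrT_of (a d β i l : ℕ) (hi : i < a) (hl : l < d)
    (h : GoodT (a * d) (d * i) ((β * i) % a + a * l)) : ChrT a d β := ⟨i, l, hi, hl, h⟩

theorem chrT4 (a β i : ℕ) (ha : 0 < a) (h1 : a ≤ 8 * i) (h2 : 8 * i ≤ 2 * a) : ChrT a 4 β := by
  have hr : (β * i) % a < a := Nat.mod_lt _ ha
  by_contra hcon
  have f : ∀ l, l < 4 → ¬ GoodT (a * 4) (4 * i) ((β * i) % a + a * l) :=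
    fun l hl h => hcon (chrT_of a 4 β i l (by omega) hl h)
  clear hcon
  generalize (β * i) % a = r at *
  have g0 := f 0 (by norm_num)
  have g1 := f 1 (by norm_num)
  have g2 := f 2 (by norm_num)
  have g3 := f 3 (by norm_num)
  clear f
  unfold GoodT at *
  omega

theorem chrT6 (a β i : ℕ) (ha : 0 < a) (h1 : a ≤ 8 * i) (h2 : 8 * i ≤ 2 * a) : ChrT a 6 β := by
  have hr : (β * i) % a < a := Nat.mod_lt _ ha
  by_contra hcon
  have f : ∀ l, l < 6 → ¬ GoodT (a * 6) (6 * i) ((β * i) % a + a * l) :=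
    fun l hl h => hcon (chrT_of a 6 β i l (by omega) hl h)
  clear hcon
  generalize (β * i) % a = r at *
  have g0 := f 0 (by norm_num)
  have g1 := f 1 (by norm_num)
  have g2 := f 2 (by norm_num)
  have g3 := f 3 (by norm_num)
  have g4 := f 4 (by norm_num)
  have g5 := f 5 (by norm_num)
  clear f
  unfold GoodT at *
  omega

theorem chrT7 (a β i : ℕ) (ha : 0 < a) (h1 : a ≤ 8 * i) (h2 : 8 * i ≤ 2 * a) : ChrT a 7 β := by
  have hr : (β * i) % a < a := Nat.mod_lt _ ha
  by_contra hcon
  have f : ∀ l, l < 7 → ¬ GoodT (a * 7) (7 * i) ((β * i) % a + a * l) :=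
    fun l hl h => hcon (chrT_of a 7 β i l (by omega) hl h)
  clear hcon
  generalize (β * i) % a = r at *
  have g0 := f 0 (by norm_num)
  have g1 := f 1 (by norm_num)
  have g2 := f 2 (by norm_num)
  have g3 := f 3 (by norm_num)
  have g4 := f 4 (by norm_num)
  have g5 := f 5 (by norm_num)
  have g6 := f 6 (by norm_num)
  clear f
  unfold GoodT at *
  omega

theorem chrT2a (a β i : ℕ) (ha : 0 < a) (h1 : a ≤ 8 * i) (h2 : 8 * i ≤ 2 * a)
    (h3 : a ≤ 2 * ((β * i) % a) ∨ ((β * i) % a) = 0) : ChrT a 2 β := by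
  have hr : (β * i) % a < a := Nat.mod_lt _ ha
  by_contra hcon
  have f : ∀ l, l < 2 → ¬ GoodT (a * 2) (2 * i) ((β * i) % a + a * l) :=
    fun l hl h => hcon (chrT_of a 2 β i l (by omega) hl h)
  clear hcon
  generalize (β * i) % a = r at *
  have g0 := f 0 (by norm_num)
  have g1 := f 1 (by norm_num)
  clear f
  unfold GoodT at *
  omega

theorem chrT2c (a β i : ℕ) (ha : 0 < a) (h1 : 3 * a ≤ 8 * i) (h2 : 8 * i ≤ 4 * a)
    (h3 : a ≤ 4 * ((β * i) % a)) (h4 : 4 * ((β * i) % a) ≤ 2 * a) : ChrT a 2 β := by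
  have hr : (β * i) % a < a := Nat.mod_lt _ ha
  by_contra hcon
  have f : ∀ l, l < 2 → ¬ GoodT (a * 2) (2 * i) ((β * i) % a + a * l) :=
    fun l hl h => hcon (chrT_of a 2 β i l (by omega) hl h)
  clear hcon
  generalize (β * i) % a = r at *
  have g0 := f 0 (by norm_num)
  have g1 := f 1 (by norm_num)
  clear f
  unfold GoodT at *
  omega

theorem chrT3a (a β i : ℕ) (ha : 0 < a) (h1 : a ≤ 8 * i) (h2 : 8 * i ≤ 2 * a)
    (h3 : a ≤ 8 * ((β * i) % a)) (h4 : 8 * ((β * i) % a) ≤ 5 * a) : ChrT a 3 β := by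
  have hr : (β * i) % a < a := Nat.mod_lt _ ha
  by_contra hcon
  have f : ∀ l, l < 3 → ¬ GoodT (a * 3) (3 * i) ((β * i) % a + a * l) :=
    fun l hl h => hcon (chrT_of a 3 β i l (by omega) hl h)
  clear hcon
  generalize (β * i) % a = r at *
  have g0 := f 0 (by norm_num)
  have g1 := f 1 (by norm_num)
  have g2 := f 2 (by norm_num)
  clear f
  unfold GoodT at *
  omega

theorem chrT3b (a β i : ℕ) (ha : 0 < a) (h1 : 2 * a ≤ 8 * i) (h2 : 8 * i ≤ 3 * a)
    (h3 : ((β * i) % a) = 0) : ChrT a 3 β := by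
  have hr : (β * i) % a < a := Nat.mod_lt _ ha
  by_contra hcon
  have f : ∀ l, l < 3 → ¬ GoodT (a * 3) (3 * i) ((β * i) % a + a * l) :=
    fun l hl h => hcon (chrT_of a 3 β i l (by omega) hl h)
  clear hcon
  generalize (β * i) % a = r at *
  have g0 := f 0 (by norm_num)
  have g1 := f 1 (by norm_num)
  have g2 := f 2 (by norm_num)
  clear f
  unfold GoodT at *
  omega

theorem chrT5a (a β i : ℕ) (ha : 0 < a) (h1 : a ≤ 8 * i) (h2 : 8 * i ≤ 2 * a)
    (h3 : 2 * ((β * i) % a) ≤ a ∨ 3 * a ≤ 4 * ((β * i) % a)) : ChrT a 5 β := by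
  have hr : (β * i) % a < a := Nat.mod_lt _ ha
  by_contra hcon
  have f : ∀ l, l < 5 → ¬ GoodT (a * 5) (5 * i) ((β * i) % a + a * l) :=
    fun l hl h => hcon (chrT_of a 5 β i l (by omega) hl h)
  clear hcon
  generalize (β * i) % a = r at *
  have g0 := f 0 (by norm_num)
  have g1 := f 1 (by norm_num)
  have g2 := f 2 (by norm_num)
  have g3 := f 3 (by norm_num)
  have g4 := f 4 (by norm_num)
  clear f
  unfold GoodT at *
  omega

theorem chrT5b (a β i : ℕ) (ha : 0 < a) (h1 : 2 * a ≤ 8 * i) (h2 : 8 * i ≤ 3 * a)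
    (h3 : a ≤ 8 * ((β * i) % a)) (h4 : 4 * ((β * i) % a) ≤ 3 * a) : ChrT a 5 β := by
  have hr : (β * i) % a < a := Nat.mod_lt _ ha
  by_contra hcon
  have f : ∀ l, l < 5 → ¬ GoodT (a * 5) (5 * i) ((β * i) % a + a * l) :=
    fun l hl h => hcon (chrT_of a 5 β i l (by omega) hl h)
  clear hcon
  generalize (β * i) % a = r at *
  have g0 := f 0 (by norm_num)
  have g1 := f 1 (by norm_num)
  have g2 := f 2 (by norm_num)
  have g3 := f 3 (by norm_num)
  have g4 := f 4 (by norm_num)
  clear f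
  unfold GoodT at *
  omega

/-- The arc from `T / 8` to `(T + 4) / 8` of the cycle. -/
def InArc (a T r : ℕ) : Prop :=
  (T * a ≤ 8 * r ∧ 8 * r ≤ (T + 4) * a) ∨ (T * a ≤ 8 * (r + a) ∧ 8 * (r + a) ≤ (T + 4) * a)

/-- A walk with step `β ≤ a / 2` meets every arc of half the length. -/
theorem walkhalf (a β lo L T : ℕ) (ha : 0 < a) (hβ : 0 < β) (hβ2 : 2 * β ≤ a) (hT : T < 8)
    (hL : a ≤ 2 * (β * L)) : ∃ j, j ≤ L ∧ InArc a T ((β * (lo + j)) % a) := by
  obtain ⟨r, hr⟩ : ∃ r, r = (β * lo) % a := ⟨_, rfl⟩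
  have hra : r < a := by rw [hr]; exact Nat.mod_lt _ ha
  have hmod : ∀ j, (β * (lo + j)) % a = (r + β * j) % a := by
    intro j; rw [Nat.mul_add, hr, Nat.mod_add_mod]
  have hL1 : 1 ≤ L := by
    rcases Nat.eq_zero_or_pos L with h | h
    · subst h; simp at hL; omega
    · exact h
  by_cases hin : InArc a T r
  · refine ⟨0, by omega, ?_⟩
    rw [hmod, Nat.mul_zero, Nat.add_zero, Nat.mod_eq_of_lt hra]
    exact hin
  -- the target, in eighths
  obtain ⟨T', hT', h1, h2⟩ : ∃ T', (T' = T ∨ T' = T + 8) ∧ 8 * r < T' * a ∧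
      T' * a < 8 * r + 4 * a := by
    unfold InArc at hin
    interval_cases T
    · exact ⟨8, by omega, by omega, by omega⟩
    · by_cases h : 8 * r < 1 * a
      · exact ⟨1, by omega, by omega, by omega⟩
      · exact ⟨9, by omega, by omega, by omega⟩
    · by_cases h : 8 * r < 2 * a
      · exact ⟨2, by omega, by omega, by omega⟩
      · exact ⟨10, by omega, by omega, by omega⟩
    · by_cases h : 8 * r < 3 * a
      · exact ⟨3, by omega, by omega, by omega⟩
      · exact ⟨11, by omega, by omega, by omega⟩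
    · exact ⟨4, by omega, by omega, by omega⟩
    · exact ⟨5, by omega, by omega, by omega⟩
    · exact ⟨6, by omega, by omega, by omega⟩
    · exact ⟨7, by omega, by omega, by omega⟩
  obtain ⟨j, hj⟩ : ∃ j, j = (T' * a - 8 * r + 8 * β - 1) / (8 * β) := ⟨_, rfl⟩
  have e1 : T' * a - 8 * r + 8 * β - 1 < 8 * β * (j + 1) := by
    rw [hj]; exact Nat.lt_mul_div_succ _ (by omega)
  have e2 : 8 * β * j ≤ T' * a - 8 * r + 8 * β - 1 := by
    rw [hj]; exact Nat.mul_div_le _ _
  have e3 : 8 * β * (j + 1) = 8 * (β * j) + 8 * β := by ring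
  have e4 : 8 * β * j = 8 * (β * j) := by ring
  refine ⟨j, ?_, ?_⟩
  · by_contra hcon
    have h1 : L + 1 ≤ j := by omega
    have h2 : β * (L + 1) ≤ β * j := Nat.mul_le_mul_left _ h1
    rw [Nat.mul_add] at h2
    omega
  · rw [hmod]
    have g1 : T' * a ≤ 8 * (r + β * j) := by omega
    have g2 : 8 * (r + β * j) ≤ T' * a + 4 * a := by omega
    generalize r + β * j = y at *
    have g3 : y < 3 * a := by
      have : T' * a ≤ 15 * a := Nat.mul_le_mul_right a (by omega)
      omega
    have g4 : y % a = y ∧ y < a ∨ y % a = y - a ∧ a ≤ y ∧ y < 2 * a ∨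
        y % a = y - 2 * a ∧ 2 * a ≤ y := by
      by_cases k1 : y < a
      · left; exact ⟨Nat.mod_eq_of_lt k1, k1⟩
      by_cases k2 : y < 2 * a
      · right; left
        exact ⟨by rw [Nat.mod_eq_sub_mod (by omega), Nat.mod_eq_of_lt (by omega)], by omega, k2⟩
      · right; right
        refine ⟨?_, by omega⟩
        rw [Nat.mod_eq_sub_mod (by omega), Nat.mod_eq_sub_mod (by omega),
          Nat.mod_eq_of_lt (by omega)]
        omega
    unfold InArc
    generalize y % a = y' at *
    clear hj e1 e2 e3 e4 hin hmod hL h1 h2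
    rcases hT' with rfl | rfl
    · interval_cases T' <;> omega
    · interval_cases T <;> omega

theorem windowT (a β lo L T T' : ℕ) (ha : 0 < a) (b0 : ℕ) (hb0 : 0 < b0) (hb1 : b0 ≤ β)
    (hb2 : β + b0 ≤ a) (hL : a ≤ 2 * (b0 * L)) (hT : T < 8) (hT' : T' < 8)
    (hTT : T + T' = 4 ∨ T + T' = 12) :
    ∃ i, lo ≤ i ∧ i ≤ lo + L ∧ InArc a T ((β * i) % a) := by
  by_cases h : 2 * β ≤ a
  · have h1 : b0 * L ≤ β * L := Nat.mul_le_mul_right _ hb1
    obtain ⟨j, hj, h2⟩ := walkhalf a β lo L T ha (by omega) h hT (by omega)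
    exact ⟨lo + j, by omega, by omega, h2⟩
  · have h1 : b0 * L ≤ (a - β) * L := Nat.mul_le_mul_right _ (by omega)
    obtain ⟨j, hj, h2⟩ := walkhalf a (a - β) lo L T' ha (by omega) (by omega) hT' (by omega)
    refine ⟨lo + j, by omega, by omega, ?_⟩
    have h3 := mirror a β (lo + j) ha (by omega)
    have h4 : (β * (lo + j)) % a < a := Nat.mod_lt _ ha
    unfold InArc at h2 ⊢
    generalize (β * (lo + j)) % a = r at *
    generalize ((a - β) * (lo + j)) % a = r' at *
    clear hL hb0 hb1 hb2 h h1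
    interval_cases T <;> interval_cases T' <;> omega

theorem chrT2_large (a β : ℕ) (ha : 66 ≤ a) (hβa : β < a) (h1 : β ≠ 1) (h1' : β ≠ a - 1)
    (h2 : β ≠ 2) : ChrT a 2 β := by
  by_cases c0 : β = 0
  · subst c0
    refine chrT2a a 0 (a / 4) (by omega) (by omega) (by omega) (Or.inr ?_)
    rw [Nat.zero_mul, Nat.zero_mod]
  by_cases c3 : β = 3
  · subst c3
    refine chrT2a a 3 (a / 4) (by omega) (by omega) (by omega) (Or.inl ?_)
    rw [Nat.mod_eq_of_lt (by omega)]; omega
  by_cases c4 : β = 4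
  · subst c4
    refine chrT2a a 4 ((a + 7) / 8) (by omega) (by omega) (by omega) (Or.inl ?_)
    rw [Nat.mod_eq_of_lt (by omega)]; omega
  by_cases m2 : β = a - 2
  · refine chrT2a a β ((a + 7) / 8) (by omega) (by omega) (by omega) (Or.inl ?_)
    have h := mirror a β ((a + 7) / 8) (by omega) (by omega)
    have e : a - β = 2 := by omega
    rw [e, Nat.mod_eq_of_lt (show 2 * ((a + 7) / 8) < a by omega)] at h
    generalize (β * ((a + 7) / 8)) % a = r at *
    omega
  by_cases m3 : β = a - 3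
  · refine chrT2a a β ((a + 7) / 8) (by omega) (by omega) (by omega) (Or.inl ?_)
    have h := mirror a β ((a + 7) / 8) (by omega) (by omega)
    have e : a - β = 3 := by omega
    rw [e, Nat.mod_eq_of_lt (show 3 * ((a + 7) / 8) < a by omega)] at h
    generalize (β * ((a + 7) / 8)) % a = r at *
    omega
  by_cases m4 : β = a - 4
  · have h := mirror a β ((3 * a + 7) / 8) (by omega) (by omega)
    have e : a - β = 4 := by omega
    have e2 : 4 * ((3 * a + 7) / 8) % a = 4 * ((3 * a + 7) / 8) - a := by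
      rw [Nat.mod_eq_sub_mod (by omega), Nat.mod_eq_of_lt (by omega)]
    have h3 : (β * ((3 * a + 7) / 8)) % a < a := Nat.mod_lt _ (by omega)
    rw [e, e2] at h
    refine chrT2c a β ((3 * a + 7) / 8) (by omega) (by omega) (by omega) ?_ ?_ <;>
    · generalize (β * ((3 * a + 7) / 8)) % a = r at *
      omega
  · obtain ⟨i, i1, i2, i3⟩ := windowT a β ((a + 7) / 8) (a / 4 - (a + 7) / 8) 4 0 (by omega) 5
      (by norm_num) (by omega) (by omega) (by omega) (by norm_num) (by norm_num) (by norm_num)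
    refine chrT2a a β i (by omega) (by omega) (by omega) ?_
    unfold InArc at i3
    generalize (β * i) % a = r at *
    omega

theorem chrT3_large (a β : ℕ) (ha : 66 ≤ a) (hβa : β < a) (h1 : β ≠ 1) (h1' : β ≠ a - 1) :
    ChrT a 3 β := by
  by_cases c0 : β = 0
  · subst c0
    refine chrT3b a 0 ((a + 3) / 4) (by omega) (by omega) (by omega) ?_
    rw [Nat.zero_mul, Nat.zero_mod]
  by_cases c4 : β ≤ 4
  · refine chrT3a a β ((a + 7) / 8) (by omega) (by omega) (by omega) ?_ ?_ <;>
    · have hb : β = 2 ∨ β = 3 ∨ β = 4 := by omega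
      rcases hb with rfl | rfl | rfl <;> rw [Nat.mod_eq_of_lt (by omega)] <;> omega
  by_cases m3 : β = a - 2 ∨ β = a - 3
  · have h := mirror a β (a / 4) (by omega) (by omega)
    have e : a - β = 2 ∨ a - β = 3 := by omega
    have h3 : (β * (a / 4)) % a < a := Nat.mod_lt _ (by omega)
    rcases e with e | e
    · rw [e, Nat.mod_eq_of_lt (show 2 * (a / 4) < a by omega)] at h
      refine chrT3a a β (a / 4) (by omega) (by omega) (by omega) ?_ ?_ <;>
      · generalize (β * (a / 4)) % a = r at *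
        omega
    · rw [e, Nat.mod_eq_of_lt (show 3 * (a / 4) < a by omega)] at h
      refine chrT3a a β (a / 4) (by omega) (by omega) (by omega) ?_ ?_ <;>
      · generalize (β * (a / 4)) % a = r at *
        omega
  by_cases m4 : β = a - 4
  · have h := mirror a β ((a + 7) / 8) (by omega) (by omega)
    have e : a - β = 4 := by omega
    have h3 : (β * ((a + 7) / 8)) % a < a := Nat.mod_lt _ (by omega)
    rw [e, Nat.mod_eq_of_lt (show 4 * ((a + 7) / 8) < a by omega)] at h
    refine chrT3a a β ((a + 7) / 8) (by omega) (by omega) (by omega) ?_ ?_ <;>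
    · generalize (β * ((a + 7) / 8)) % a = r at *
      omega
  · obtain ⟨i, i1, i2, i3⟩ := windowT a β ((a + 7) / 8) (a / 4 - (a + 7) / 8) 1 3 (by omega) 5
      (by norm_num) (by omega) (by omega) (by omega) (by norm_num) (by norm_num) (by norm_num)
    have h3 : (β * i) % a < a := Nat.mod_lt _ (by omega)
    unfold InArc at i3
    refine chrT3a a β i (by omega) (by omega) (by omega) ?_ ?_ <;>
    · generalize (β * i) % a = r at *
      omega

theorem chrT5_large (a β : ℕ) (ha : 66 ≤ a) (hβa : β < a) (h1 : β ≠ 1) (h1' : β ≠ a - 1) :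
    ChrT a 5 β := by
  by_cases c3 : β = 0 ∨ β = 2 ∨ β = 3
  · refine chrT5a a β ((a + 7) / 8) (by omega) (by omega) (by omega) (Or.inl ?_)
    rcases c3 with rfl | rfl | rfl
    · rw [Nat.zero_mul, Nat.zero_mod]; omega
    · rw [Nat.mod_eq_of_lt (by omega)]; omega
    · rw [Nat.mod_eq_of_lt (by omega)]; omega
  by_cases c4 : β = 4
  · subst c4
    refine chrT5a a 4 (a / 4) (by omega) (by omega) (by omega) ?_
    by_cases h : 4 * (a / 4) = a
    · left; rw [h, Nat.mod_self]; omega
    · right; rw [Nat.mod_eq_of_lt (by omega)]; omega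
  by_cases m2 : β = a - 2
  · have h := mirror a β ((a + 3) / 4) (by omega) (by omega)
    have e : a - β = 2 := by omega
    have h3 : (β * ((a + 3) / 4)) % a < a := Nat.mod_lt _ (by omega)
    rw [e, Nat.mod_eq_of_lt (show 2 * ((a + 3) / 4) < a by omega)] at h
    refine chrT5b a β ((a + 3) / 4) (by omega) (by omega) (by omega) ?_ ?_ <;>
    · generalize (β * ((a + 3) / 4)) % a = r at *
      omega
  by_cases m3 : β = a - 3
  · have h := mirror a β (a / 4) (by omega) (by omega)
    have e : a - β = 3 := by omega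
    have h3 : (β * (a / 4)) % a < a := Nat.mod_lt _ (by omega)
    rw [e, Nat.mod_eq_of_lt (show 3 * (a / 4) < a by omega)] at h
    refine chrT5a a β (a / 4) (by omega) (by omega) (by omega) (Or.inl ?_)
    generalize (β * (a / 4)) % a = r at *
    omega
  by_cases m4 : β = a - 4
  · have h := mirror a β ((a + 7) / 8) (by omega) (by omega)
    have e : a - β = 4 := by omega
    have h3 : (β * ((a + 7) / 8)) % a < a := Nat.mod_lt _ (by omega)
    rw [e, Nat.mod_eq_of_lt (show 4 * ((a + 7) / 8) < a by omega)] at h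
    refine chrT5a a β ((a + 7) / 8) (by omega) (by omega) (by omega) (Or.inl ?_)
    generalize (β * ((a + 7) / 8)) % a = r at *
    omega
  · obtain ⟨i, i1, i2, i3⟩ := windowT a β ((a + 7) / 8) (a / 4 - (a + 7) / 8) 0 4 (by omega) 5
      (by norm_num) (by omega) (by omega) (by omega) (by norm_num) (by norm_num) (by norm_num)
    have h3 : (β * i) % a < a := Nat.mod_lt _ (by omega)
    unfold InArc at i3
    refine chrT5a a β i (by omega) (by omega) (by omega) ?_
    generalize (β * i) % a = r at *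
    omega

/-- Boolean search for a good character. -/
def genSrchT (a d β : ℕ) : Bool :=
  (List.range a).any fun i => (List.range d).any fun l =>
    goodTb (a * d) (d * i) ((β * i) % a + a * l)

theorem genSrchT_spec {a d β : ℕ} (h : genSrchT a d β = true) : ChrT a d β := by
  unfold genSrchT at h
  rw [List.any_eq_true] at h
  obtain ⟨i, hi, h⟩ := h
  rw [List.any_eq_true] at h
  obtain ⟨l, hl, h⟩ := h
  exact ⟨i, l, List.mem_range.1 hi, List.mem_range.1 hl, goodTb_spec h⟩

theorem smallT2 : ∀ a ∈ List.range 66, 2 ≤ a → ∀ β ∈ List.range a, Nat.gcd a β ≠ 1 →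
    Nat.gcd a (β + 2 * (a - 1)) ≠ 1 →
    genSrchT a 2 β = true ∨ genSrchT a 2 ((2 + a - β) % a) = true ∨ (a = 2 ∧ β = 0) := by
  decide +kernel

theorem smallT3 : ∀ a ∈ List.range 66, 2 ≤ a → ∀ β ∈ List.range a, Nat.gcd a β ≠ 1 →
    Nat.gcd a (β + 3 * (a - 1)) ≠ 1 → genSrchT a 3 β = true := by
  decide +kernel

theorem smallT5 : ∀ a ∈ List.range 66, 2 ≤ a → ∀ β ∈ List.range a, Nat.gcd a β ≠ 1 →
    Nat.gcd a (β + 5 * (a - 1)) ≠ 1 → genSrchT a 5 β = true := by
  decide +kernel

theorem smallT467 : ∀ d ∈ [4, 6, 7], ∀ a ∈ [2, 3], ∀ β ∈ List.range a, Nat.gcd a β ≠ 1 →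
    Nat.gcd a (β + d * (a - 1)) ≠ 1 → genSrchT a d β = true := by
  decide +kernel

/-- The number theory for lattices of non-cyclic shape. -/
theorem chrT_all (a d β : ℕ) (ha : 2 ≤ a) (hd : 2 ≤ d) (hβ : β < a) (hg : Nat.gcd a β ≠ 1)
    (hg' : Nat.gcd a (β + d * (a - 1)) ≠ 1) :
    ChrT a d β ∨ ChrT a d ((d + d * a - β) % a) ∨ (a = 2 ∧ d = 2 ∧ β = 0) := by
  have hβ1 : β ≠ 1 := by rintro rfl; simp at hg
  have hβ1' : β ≠ a - 1 := by
    rintro rfl
    apply hg
    have h : Nat.Coprime (a - 1 + 1) (a - 1) := by simp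
    rw [Nat.sub_add_cancel (by omega)] at h
    exact h
  by_cases d8 : 8 ≤ d
  · left; exact chrT_ge8 a d β ha d8
  have hd' : d = 2 ∨ d = 3 ∨ d = 5 ∨ (d = 4 ∨ d = 6 ∨ d = 7) := by omega
  have hmod : (2 + 2 * a - β) % a = (2 + a - β) % a := by
    have : 2 + 2 * a - β = 2 + a - β + a := by omega
    rw [this, Nat.add_mod_right]
  rcases hd' with rfl | rfl | rfl | hd'
  · rw [hmod]
    by_cases c : 66 ≤ a
    · by_cases h2 : β = 2
      · right; left
        subst h2
        have : (2 + a - 2) % a = 0 := by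
          rw [Nat.add_sub_cancel_left, Nat.mod_self]
        rw [this]
        exact chrT2_large a 0 c (by omega) (by omega) (by omega) (by omega)
      · left; exact chrT2_large a β c hβ hβ1 hβ1' h2
    · rcases smallT2 a (List.mem_range.2 (by omega)) ha β (List.mem_range.2 hβ) hg hg' with
        h | h | h
      · left; exact genSrchT_spec h
      · right; left; exact genSrchT_spec h
      · right; right; exact ⟨h.1, rfl, h.2⟩
  · left
    by_cases c : 66 ≤ a
    · exact chrT3_large a β c hβ hβ1 hβ1'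
    · exact genSrchT_spec
        (smallT3 a (List.mem_range.2 (by omega)) ha β (List.mem_range.2 hβ) hg hg')
  · left
    by_cases c : 66 ≤ a
    · exact chrT5_large a β c hβ hβ1 hβ1'
    · exact genSrchT_spec
        (smallT5 a (List.mem_range.2 (by omega)) ha β (List.mem_range.2 hβ) hg hg')
  · left
    by_cases c : 4 ≤ a
    · rcases hd' with rfl | rfl | rfl
      · exact chrT4 a β (a / 4) (by omega) (by omega) (by omega)
      · exact chrT6 a β (a / 4) (by omega) (by omega) (by omega)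
      · exact chrT7 a β (a / 4) (by omega) (by omega) (by omega)
    · apply genSrchT_spec
      have ha' : a ∈ [2, 3] := by
        have : a = 2 ∨ a = 3 := by omega
        simpa using this
      have hd'' : d ∈ [4, 6, 7] := by simpa using hd'
      exact smallT467 d hd'' a ha' β (List.mem_range.2 hβ) hg hg'

/-- All finite abelian groups: the bipartite graph with connection set `0, s, t`. -/
theorem theta_all {G : Type*} [AddCommGroup G] [Finite G] (s t : G) (hs : s ≠ 0)
    (ht : t ≠ 0) (hst : s ≠ t) : TheOK s t := by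
  -- the cyclic case
  have cyclic : ∀ s t : G, s ≠ 0 → t ≠ 0 → s ≠ t → t ∈ AddSubgroup.zmultiples s →
      TheOK s t := by
    intro s t hs ht hst hts
    obtain ⟨k, rfl⟩ := AddSubgroup.mem_zmultiples_iff.1 hts
    obtain ⟨n, hn⟩ : ∃ n, n = addOrderOf s := ⟨_, rfl⟩
    have hn0 : 0 < n := by rw [hn]; exact addOrderOf_pos s
    have hz : ∀ u : ℤ, u • s = 0 ↔ (u : ZMod n) = 0 := by
      intro u
      rw [ZMod.intCast_zmod_eq_zero_iff_dvd, hn, addOrderOf_dvd_iff_zsmul_eq_zero]
    have k0 : (k : ZMod n) ≠ 0 := by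
      intro h; exact ht ((hz k).2 h)
    have k1 : (k : ZMod n) ≠ 1 := by
      intro h
      apply hst
      have h2 : (k - 1) • s = 0 := by rw [hz]; push_cast; rw [h, sub_self]
      rw [sub_smul, one_smul] at h2
      exact (sub_eq_zero.1 h2).symm
    have hn3 : 3 ≤ n := by
      by_contra hcon
      have : n = 1 ∨ n = 2 := by omega
      rcases this with h | h
      · apply hs
        have h2 : (1 : ℤ) • s = 0 := by rw [hz, h]; rfl
        simpa using h2
      · have hk : (k : ZMod n) = 0 ∨ (k : ZMod n) = 1 := by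
          generalize (k : ZMod n) = κ
          subst h
          revert κ
          decide
        rcases hk with hk | hk
        · exact k0 hk
        · exact k1 hk
    apply theOK_of_rel (x := (1 : ZMod n)) (y := (k : ZMod n))
    · intro u v huv
      have h1 : (u + v * k) • s = 0 := by
        rw [add_smul, mul_smul]; exact huv
      rw [hz] at h1
      push_cast at h1
      rw [zsmul_eq_mul, zsmul_eq_mul, mul_one]
      exact h1
    · exact cycT n hn3 _ k0 k1
  by_cases c1 : t ∈ AddSubgroup.zmultiples s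
  · exact cyclic s t hs ht hst c1
  by_cases c2 : s ∈ AddSubgroup.zmultiples t
  · exact (cyclic t s ht hs hst.symm c2).swap
  by_cases c3 : t ∈ AddSubgroup.zmultiples (s - t)
  · have h1 : TheOK (s - t) (-t) := by
      apply cyclic
      · exact sub_ne_zero.2 hst
      · exact neg_ne_zero.2 ht
      · intro h
        apply hs
        have : s = s - t + t := by abel
        rw [this, h]; abel
      · exact AddSubgroup.neg_mem _ c3
    have h2 := h1.swap.shift.swap
    have e1 : -(-t) = t := neg_neg t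
    have e2 : s - t - -t = s := by abel
    rwa [e1, e2] at h2
  · obtain ⟨a, d, β, ha0, hd0, hβ, haddo, hdt, hd1, hrel⟩ := rel_lattice s t
    have hd2 : 2 ≤ d := by
      by_contra hcon
      exact c1 (hd1 (by omega))
    have has : (a : ℤ) • s = 0 := by
      have := addOrderOf_nsmul_eq_zero s
      rw [← haddo] at this
      exact_mod_cast this
    have ha2 : 2 ≤ a := by
      by_contra hcon
      have : a = 1 := by omega
      rw [this] at has
      apply hs
      simpa using has
    have hg : Nat.gcd a β ≠ 1 := by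
      intro hg
      apply c2
      have hb := Nat.gcd_eq_gcd_ab a β
      rw [hg] at hb
      have : s = (Nat.gcdB a β * d) • t := by
        calc s = ((1 : ℕ) : ℤ) • s := by simp
          _ = ((a : ℤ) * Nat.gcdA a β + (β : ℤ) * Nat.gcdB a β) • s := by rw [hb]
          _ = Nat.gcdA a β • ((a : ℤ) • s) + Nat.gcdB a β • ((β : ℤ) • s) := by
              rw [add_smul, mul_comm (a : ℤ), mul_comm (β : ℤ), mul_smul, mul_smul]
          _ = (Nat.gcdB a β * d) • t := by
              rw [has, smul_zero, zero_add, ← hdt, ← mul_smul]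
      rw [this]
      exact AddSubgroup.zsmul_mem_zmultiples t _
    have hg' : Nat.gcd a (β + d * (a - 1)) ≠ 1 := by
      intro hg
      apply c3
      obtain ⟨γ, hγ⟩ : ∃ γ, γ = β + d * (a - 1) := ⟨_, rfl⟩
      rw [← hγ] at hg
      have hb := Nat.gcd_eq_gcd_ab a γ
      rw [hg] at hb
      have hγs : (γ : ℤ) • s = (-(d : ℤ)) • (s - t) := by
        have e : (γ : ℤ) = β - d + a * d := by
          rw [hγ]; push_cast
          rw [Nat.cast_sub (by omega)]; push_cast; ring
        rw [e, add_smul, mul_comm (a : ℤ), mul_smul, has, smul_zero, add_zero, sub_smul, ← hdt,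
          neg_smul, smul_sub]
        abel
      have : s = (Nat.gcdB a γ * (-(d : ℤ))) • (s - t) := by
        calc s = ((1 : ℕ) : ℤ) • s := by simp
          _ = ((a : ℤ) * Nat.gcdA a γ + (γ : ℤ) * Nat.gcdB a γ) • s := by rw [hb]
          _ = Nat.gcdA a γ • ((a : ℤ) • s) + Nat.gcdB a γ • ((γ : ℤ) • s) := by
              rw [add_smul, mul_comm (a : ℤ), mul_comm (γ : ℤ), mul_smul, mul_smul]
          _ = _ := by
              rw [has, smul_zero, zero_add, hγs, ← mul_smul]
      have hsm : s ∈ AddSubgroup.zmultiples (s - t) := by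
        have h5 := AddSubgroup.zsmul_mem_zmultiples (s - t) (Nat.gcdB a γ * (-(d : ℤ)))
        rwa [← this] at h5
      have h6 : s - (s - t) = t := by abel
      have h7 := AddSubgroup.sub_mem _ hsm (AddSubgroup.mem_zmultiples (s - t))
      rwa [h6] at h7
    rcases chrT_all a d β ha2 hd2 hβ hg hg' with h | h | ⟨rfl, rfl, rfl⟩
    · obtain ⟨x, y, hx, hy, hxy⟩ := chrT_elts ha0 hd0 h
      exact theOK_of_lattice' hrel x y hx hy hxy
    · obtain ⟨q, hq⟩ : ∃ q : ℕ, d + d * a - β = (d + d * a - β) % a + a * q :=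
        ⟨_, (Nat.mod_add_div _ _).symm⟩
      generalize (d + d * a - β) % a = r' at *
      obtain ⟨x, y, hx, hy, hxy⟩ := chrT_elts ha0 hd0 h
      apply theOK_of_lattice' hrel x (x - y) hx
      · rw [smul_sub, hy]
        have hle : β ≤ d + d * a := by nlinarith
        have e : (r' : ℤ) = (d : ℤ) - β + a * (d - q) := by
          have h1 : ((d + d * a - β : ℕ) : ℤ) = ((r' + a * q : ℕ) : ℤ) := by
            rw [hq]
          rw [Nat.cast_sub hle] at h1
          push_cast at h1
          linarith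
        rw [e, add_smul, mul_comm (a : ℤ), mul_smul, hx, smul_zero, add_zero, sub_smul]
        abel
      · apply TheOK.flip
        have : x - (x - y) = y := by abel
        rw [this]; exact hxy
    · -- the Klein four group
      apply theOK_of_lattice' hrel ((1, 0) : ZMod 2 × ZMod 2) ((0, 1) : ZMod 2 × ZMod 2)
        (by decide) (by decide)
      refine ⟨fun p => p.1.val + 2 * p.2.val, fun p => 4 + p.1.val + 2 * p.2.val, ?_⟩
      constructor <;> decide

end Pool.Agent.helper85.L21
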