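import Pool.Agent.helper85.L21.FourT
import Pool.Agent.helper85.L21.ThetaAll

/-! # All graphs with at most two orbits, in terms of connection sets -/

set_option autoImplicit false

namespace Pool.Agent.helper85.L21

/-- Valid labels for the graph with edges `U_g U_{g+c}` (`c ∈ R`), `V_g V_{g+c}` (`c ∈ L`),
`U_g V_{g+c}` (`c ∈ S`). -/
structure Bi {G : Type*} [AddCommGroup G] (R L S : Finset G) (A B : G → ℕ) : Prop where
  leA : ∀ g, A g ≤ 7
  leB : ∀ g, B g ≤ 7
  aa : ∀ g, ∀ c ∈ R, Far (A g) (A (g + c))
  bb : ∀ g, ∀ c ∈ L, Far (B g) (B (g + c))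
  ab : ∀ g, ∀ c ∈ S, Far (A g) (B (g + c))
  uu1 : ∀ g, ∀ c ∈ R, ∀ c' ∈ R, c ≠ c' → A (g + c) ≠ A (g + c')
  uv1 : ∀ g, ∀ c ∈ R, ∀ c' ∈ S, A (g + c) ≠ B (g + c')
  vv1 : ∀ g, ∀ c ∈ S, ∀ c' ∈ S, c ≠ c' → B (g + c) ≠ B (g + c')
  vv2 : ∀ g, ∀ c ∈ L, ∀ c' ∈ L, c ≠ c' → B (g + c) ≠ B (g + c')
  uv2 : ∀ g, ∀ c ∈ L, ∀ c' ∈ S, B (g + c) ≠ A (g - c')
  uu2 : ∀ g, ∀ c ∈ S, ∀ c' ∈ S, c ≠ c' → A (g - c) ≠ A (g - c')

def BiOK {G : Type*} [AddCommGroup G] (R L S : Finset G) : Prop := ∃ A B : G → ℕ, Bi R L S A B

section
variable {G : Type*} [AddCommGroup G]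

theorem BiOK.shift {R L S S' : Finset G} (c : G) (hS : ∀ x ∈ S', x - c ∈ S) (h : BiOK R L S) :
    BiOK R L S' := by
  obtain ⟨A, B, h⟩ := h
  refine ⟨A, fun g => B (g - c), ?_⟩
  have e1 : ∀ g x : G, g + x - c = g + (x - c) := fun g x => by abel
  have e2 : ∀ g x : G, g + x - c = g - c + x := fun g x => by abel
  have e3 : ∀ g x : G, g - c - (x - c) = g - x := fun g x => by abel
  have e4 : ∀ x y : G, x ≠ y → x - c ≠ y - c := fun x y hxy h => hxy (sub_left_injective h)
  constructor
  · exact h.leA
  · intro g; exact h.leB _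
  · exact h.aa
  · intro g x hx; simp only [e2]; exact h.bb _ x hx
  · intro g x hx; simp only [e1]; exact h.ab _ _ (hS x hx)
  · exact h.uu1
  · intro g x hx y hy; simp only [e1]; exact h.uv1 _ x hx _ (hS y hy)
  · intro g x hx y hy hxy; simp only [e1]; exact h.vv1 _ _ (hS x hx) _ (hS y hy) (e4 x y hxy)
  · intro g x hx y hy hxy; simp only [e2]; exact h.vv2 _ x hx y hy hxy
  · intro g x hx y hy
    have := h.uv2 (g - c) x hx (y - c) (hS y hy)
    rw [e3] at this
    simp only [e2]; exact this
  · intro g x hx y hy hxy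
    have := h.uu2 (g - c) (x - c) (hS x hx) (y - c) (hS y hy) (e4 x y hxy)
    rwa [e3, e3] at this

theorem BiOK.swap {R L S S' : Finset G} (hS : ∀ x ∈ S', -x ∈ S) (h : BiOK R L S) :
    BiOK L R S' := by
  obtain ⟨A, B, h⟩ := h
  refine ⟨B, A, ?_⟩
  constructor
  · exact h.leB
  · exact h.leA
  · exact h.bb
  · exact h.aa
  · intro g x hx
    have := h.ab (g + x) (-x) (hS x hx)
    rw [add_neg_cancel_right] at this
    exact this.symm
  · exact h.vv2
  · intro g x hx y hy
    have := h.uv2 g x hx (-y) (hS y hy)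
    rwa [sub_neg_eq_add] at this
  · intro g x hx y hy hxy
    have := h.uu2 g (-x) (hS x hx) (-y) (hS y hy) (fun h => hxy (neg_injective h))
    rwa [sub_neg_eq_add, sub_neg_eq_add] at this
  · exact h.uu1
  · intro g x hx y hy
    have := h.uv1 g x hx (-y) (hS y hy)
    rwa [← sub_eq_add_neg] at this
  · intro g x hx y hy hxy
    have := h.vv1 g (-x) (hS x hx) (-y) (hS y hy) (fun h => hxy (neg_injective h))
    rwa [← sub_eq_add_neg, ← sub_eq_add_neg] at this

variable [DecidableEq G]

theorem bi_of_dum {s t : G} (h : DumOK s t) : BiOK {s, -s} {t, -t} {0} := by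
  obtain ⟨A, B, h⟩ := h
  refine ⟨A, B, ?_⟩
  have ns : ∀ (g x : G), g + -x + x = g := fun g x => by abel
  have aa' : ∀ g, Far (A g) (A (g + -s)) := fun g => by
    have := h.aa (g + -s); rw [ns] at this; exact this.symm
  have bb' : ∀ g, Far (B g) (B (g + -t)) := fun g => by
    have := h.bb (g + -t); rw [ns] at this; exact this.symm
  have aa2' : ∀ g, A (g + -s) ≠ A (g + s) := fun g => by
    have := h.aa2 (g + -s); rwa [ns] at this
  have bb2' : ∀ g, B (g + -t) ≠ B (g + t) := fun g => by
    have := h.bb2 (g + -t); rwa [ns] at this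
  have s1' : ∀ g, A (g + -s) ≠ B g := fun g => by
    have := h.s1 (g + -s); rwa [ns] at this
  have t2' : ∀ g, B (g + -t) ≠ A g := fun g => by
    have := h.t2 (g + -t); rw [ns] at this; exact this.symm
  constructor
  · exact h.leA
  · exact h.leB
  · intro g c hc
    simp only [Finset.mem_insert, Finset.mem_singleton] at hc
    rcases hc with rfl | rfl
    · exact h.aa g
    · exact aa' g
  · intro g c hc
    simp only [Finset.mem_insert, Finset.mem_singleton] at hc
    rcases hc with rfl | rfl
    · exact h.bb g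
    · exact bb' g
  · intro g c hc
    simp only [Finset.mem_singleton] at hc
    subst hc
    rw [add_zero]; exact h.ab g
  · intro g c hc c' hc' hcc
    simp only [Finset.mem_insert, Finset.mem_singleton] at hc hc'
    rcases hc with rfl | rfl <;> rcases hc' with rfl | rfl
    · exact absurd rfl hcc
    · exact (aa2' g).symm
    · exact aa2' g
    · exact absurd rfl hcc
  · intro g c hc c' hc'
    simp only [Finset.mem_insert, Finset.mem_singleton] at hc hc'
    subst hc'
    rw [add_zero]
    rcases hc with rfl | rfl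
    · exact h.s2 g
    · exact s1' g
  · intro g c hc c' hc' hcc
    simp only [Finset.mem_singleton] at hc hc'
    subst hc; subst hc'; exact absurd rfl hcc
  · intro g c hc c' hc' hcc
    simp only [Finset.mem_insert, Finset.mem_singleton] at hc hc'
    rcases hc with rfl | rfl <;> rcases hc' with rfl | rfl
    · exact absurd rfl hcc
    · exact (bb2' g).symm
    · exact bb2' g
    · exact absurd rfl hcc
  · intro g c hc c' hc'
    simp only [Finset.mem_insert, Finset.mem_singleton] at hc hc'
    subst hc'
    rw [sub_zero]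
    rcases hc with rfl | rfl
    · exact (h.t1 g).symm
    · exact t2' g
  · intro g c hc c' hc' hcc
    simp only [Finset.mem_singleton] at hc hc'
    subst hc; subst hc'; exact absurd rfl hcc

theorem bi_of_the {s t : G} (h : TheOK s t) : BiOK ∅ ∅ {0, s, t} := by
  obtain ⟨A, B, h⟩ := h
  refine ⟨A, B, ?_⟩
  constructor
  · exact h.leA
  · exact h.leB
  · intro g c hc; simp at hc
  · intro g c hc; simp at hc
  · intro g c hc
    simp only [Finset.mem_insert, Finset.mem_singleton] at hc
    rcases hc with rfl | rfl | rfl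
    · rw [add_zero]; exact h.f0 g
    · exact h.f1 g
    · exact h.f2 g
  · intro g c hc; simp at hc
  · intro g c hc; simp at hc
  · intro g c hc c' hc' hcc
    simp only [Finset.mem_insert, Finset.mem_singleton] at hc hc'
    rcases hc with rfl | rfl | rfl <;> rcases hc' with rfl | rfl | rfl
    · exact absurd rfl hcc
    · rw [add_zero]; exact h.b1 g
    · rw [add_zero]; exact h.b2 g
    · rw [add_zero]; exact (h.b1 g).symm
    · exact absurd rfl hcc
    · exact h.b3 g
    · rw [add_zero]; exact (h.b2 g).symm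
    · exact (h.b3 g).symm
    · exact absurd rfl hcc
  · intro g c hc; simp at hc
  · intro g c hc; simp at hc
  · intro g c hc c' hc' hcc
    have k1 : A g ≠ A (g - s) := by
      have := h.a1 (g - s); rw [sub_add_cancel] at this; exact this.symm
    have k2 : A g ≠ A (g - t) := by
      have := h.a2 (g - t); rw [sub_add_cancel] at this; exact this.symm
    have k3 : A (g - s) ≠ A (g - t) := by
      have := h.a3 (g - s - t)
      have e1 : g - s - t + s = g - t := by abel
      have e2 : g - s - t + t = g - s := by abel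
      rw [e1, e2] at this; exact this.symm
    simp only [Finset.mem_insert, Finset.mem_singleton] at hc hc'
    rcases hc with rfl | rfl | rfl <;> rcases hc' with rfl | rfl | rfl
    · exact absurd rfl hcc
    · rw [sub_zero]; exact k1
    · rw [sub_zero]; exact k2
    · rw [sub_zero]; exact k1.symm
    · exact absurd rfl hcc
    · exact k3
    · rw [sub_zero]; exact k2.symm
    · exact k3.symm
    · exact absurd rfl hcc

theorem bi_of_two {τ τ' s : G} (h : TwoOK τ τ' s) : BiOK {τ} {τ'} {0, s} := by
  obtain ⟨A, B, h⟩ := h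
  refine ⟨A, B, ?_⟩
  constructor
  · exact h.leA
  · exact h.leB
  · intro g c hc
    simp only [Finset.mem_singleton] at hc
    subst hc; exact h.a g
  · intro g c hc
    simp only [Finset.mem_singleton] at hc
    subst hc; exact h.b g
  · intro g c hc
    simp only [Finset.mem_insert, Finset.mem_singleton] at hc
    rcases hc with rfl | rfl
    · rw [add_zero]; exact h.ab0 g
    · exact h.abs g
  · intro g c hc c' hc' hcc
    simp only [Finset.mem_singleton] at hc hc'
    subst hc; subst hc'; exact absurd rfl hcc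
  · intro g c hc c' hc'
    simp only [Finset.mem_insert, Finset.mem_singleton] at hc hc'
    subst hc
    rcases hc' with rfl | rfl
    · rw [add_zero]; exact h.u1 g
    · exact h.u2 g
  · intro g c hc c' hc' hcc
    simp only [Finset.mem_insert, Finset.mem_singleton] at hc hc'
    rcases hc with rfl | rfl <;> rcases hc' with rfl | rfl
    · exact absurd rfl hcc
    · rw [add_zero]; exact h.bb g
    · rw [add_zero]; exact (h.bb g).symm
    · exact absurd rfl hcc
  · intro g c hc c' hc' hcc
    simp only [Finset.mem_singleton] at hc hc'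
    subst hc; subst hc'; exact absurd rfl hcc
  · intro g c hc c' hc'
    simp only [Finset.mem_insert, Finset.mem_singleton] at hc hc'
    subst hc
    rcases hc' with rfl | rfl
    · rw [sub_zero]; exact h.v1 g
    · have := h.v2 (g - c')
      rw [sub_add_cancel] at this
      exact this
  · intro g c hc c' hc' hcc
    have k1 : A g ≠ A (g - s) := by
      have := h.aa (g - s); rw [sub_add_cancel] at this; exact this.symm
    simp only [Finset.mem_insert, Finset.mem_singleton] at hc hc'
    rcases hc with rfl | rfl <;> rcases hc' with rfl | rfl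
    · exact absurd rfl hcc
    · rw [sub_zero]; exact k1
    · rw [sub_zero]; exact k1.symm
    · exact absurd rfl hcc

theorem bi_of_mix {r t1 t2 : G} (h : MixOK r t1 t2) : BiOK {r, -r} {t1, t2} {0} := by
  obtain ⟨A, B, h⟩ := h
  refine ⟨A, B, ?_⟩
  have ns : ∀ (g x : G), g + -x + x = g := fun g x => by abel
  have aa' : ∀ g, Far (A g) (A (g + -r)) := fun g => by
    have := h.aa (g + -r); rw [ns] at this; exact this.symm
  have aa2' : ∀ g, A (g + -r) ≠ A (g + r) := fun g => by
    have := h.aa2 (g + -r); rwa [ns] at this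
  have s1' : ∀ g, A (g + -r) ≠ B g := fun g => by
    have := h.r1 (g + -r); rwa [ns] at this
  constructor
  · exact h.leA
  · exact h.leB
  · intro g c hc
    simp only [Finset.mem_insert, Finset.mem_singleton] at hc
    rcases hc with rfl | rfl
    · exact h.aa g
    · exact aa' g
  · intro g c hc
    simp only [Finset.mem_insert, Finset.mem_singleton] at hc
    rcases hc with rfl | rfl
    · exact h.b1 g
    · exact h.b2 g
  · intro g c hc
    simp only [Finset.mem_singleton] at hc
    subst hc
    rw [add_zero]; exact h.ab g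
  · intro g c hc c' hc' hcc
    simp only [Finset.mem_insert, Finset.mem_singleton] at hc hc'
    rcases hc with rfl | rfl <;> rcases hc' with rfl | rfl
    · exact absurd rfl hcc
    · exact (aa2' g).symm
    · exact aa2' g
    · exact absurd rfl hcc
  · intro g c hc c' hc'
    simp only [Finset.mem_insert, Finset.mem_singleton] at hc hc'
    subst hc'
    rw [add_zero]
    rcases hc with rfl | rfl
    · exact h.r2 g
    · exact s1' g
  · intro g c hc c' hc' hcc
    simp only [Finset.mem_singleton] at hc hc'
    subst hc; subst hc'; exact absurd rfl hcc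
  · intro g c hc c' hc' hcc
    simp only [Finset.mem_insert, Finset.mem_singleton] at hc hc'
    rcases hc with rfl | rfl <;> rcases hc' with rfl | rfl
    · exact absurd rfl hcc
    · exact h.b12 g
    · exact (h.b12 g).symm
    · exact absurd rfl hcc
  · intro g c hc c' hc'
    simp only [Finset.mem_insert, Finset.mem_singleton] at hc hc'
    subst hc'
    rw [sub_zero]
    rcases hc with rfl | rfl
    · exact h.u1 g
    · exact h.u2 g
  · intro g c hc c' hc' hcc
    simp only [Finset.mem_singleton] at hc hc'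
    subst hc; subst hc'; exact absurd rfl hcc

theorem bi_of_four {t1 t2 t3 t4 : G} (h : FourOK t1 t2 t3 t4) :
    BiOK {t1, t2} {t3, t4} {0} := by
  obtain ⟨A, B, h⟩ := h
  refine ⟨A, B, ?_⟩
  constructor
  · exact h.leA
  · exact h.leB
  · intro g c hc
    simp only [Finset.mem_insert, Finset.mem_singleton] at hc
    rcases hc with rfl | rfl
    · exact h.a1 g
    · exact h.a2 g
  · intro g c hc
    simp only [Finset.mem_insert, Finset.mem_singleton] at hc
    rcases hc with rfl | rfl
    · exact h.b3 g
    · exact h.b4 g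
  · intro g c hc
    simp only [Finset.mem_singleton] at hc
    subst hc
    rw [add_zero]; exact h.ab g
  · intro g c hc c' hc' hcc
    simp only [Finset.mem_insert, Finset.mem_singleton] at hc hc'
    rcases hc with rfl | rfl <;> rcases hc' with rfl | rfl
    · exact absurd rfl hcc
    · exact h.a12 g
    · exact (h.a12 g).symm
    · exact absurd rfl hcc
  · intro g c hc c' hc'
    simp only [Finset.mem_insert, Finset.mem_singleton] at hc hc'
    subst hc'
    rw [add_zero]
    rcases hc with rfl | rfl
    · exact h.u1 g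
    · exact h.u2 g
  · intro g c hc c' hc' hcc
    simp only [Finset.mem_singleton] at hc hc'
    subst hc; subst hc'; exact absurd rfl hcc
  · intro g c hc c' hc' hcc
    simp only [Finset.mem_insert, Finset.mem_singleton] at hc hc'
    rcases hc with rfl | rfl <;> rcases hc' with rfl | rfl
    · exact absurd rfl hcc
    · exact h.b34 g
    · exact (h.b34 g).symm
    · exact absurd rfl hcc
  · intro g c hc c' hc'
    simp only [Finset.mem_insert, Finset.mem_singleton] at hc hc'
    subst hc'
    rw [sub_zero]
    rcases hc with rfl | rfl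
    · exact h.v3 g
    · exact h.v4 g
  · intro g c hc c' hc' hcc
    simp only [Finset.mem_singleton] at hc hc'
    subst hc; subst hc'; exact absurd rfl hcc

end

/-- Valid labels for the graph on `G` with connection set `C`. -/
structure Uni {G : Type*} [AddCommGroup G] (C : Finset G) (f : G → ℕ) : Prop where
  le : ∀ g, f g ≤ 7
  ff : ∀ g, ∀ c ∈ C, Far (f g) (f (g + c))
  ne : ∀ g, ∀ c ∈ C, ∀ c' ∈ C, c ≠ c' → f (g + c) ≠ f (g + c')

theorem bi_of_uni {G : Type*} [AddCommGroup G] {R L : Finset G} {A B : G → ℕ}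
    (hA : Uni R A) (hB : Uni L B) : Bi R L ∅ A B := by
  constructor
  · exact hA.le
  · exact hB.le
  · exact hA.ff
  · exact hB.ff
  · intro g c hc; simp at hc
  · exact hA.ne
  · intro g c _ c' hc'; simp at hc'
  · intro g c hc; simp at hc
  · exact hB.ne
  · intro g c _ c' hc'; simp at hc'
  · intro g c hc; simp at hc

/-- Symmetric sets with two elements and without zero. -/
theorem sym_two {G : Type*} [AddCommGroup G] [DecidableEq G] {R : Finset G}
    (hR : ∀ c ∈ R, -c ∈ R) (h0 : (0 : G) ∉ R) (hc : R.card = 2) :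
    (∃ r, r + r ≠ 0 ∧ R = {r, -r}) ∨
      (∃ t1 t2, t1 + t1 = 0 ∧ t2 + t2 = 0 ∧ t1 ≠ 0 ∧ t2 ≠ 0 ∧ t1 ≠ t2 ∧ R = {t1, t2}) := by
  obtain ⟨x, y, hxy, rfl⟩ := Finset.card_eq_two.1 hc
  have hx := hR x (by simp)
  have hy := hR y (by simp)
  simp only [Finset.mem_insert, Finset.mem_singleton] at hx hy h0
  have dbl : ∀ z : G, -z = z → z + z = 0 := by
    intro z hz
    calc z + z = -z + z := by rw [hz]
      _ = 0 := neg_add_cancel z
  rcases hx with hx | hx
  · right
    have hy' : -y = y := by
      rcases hy with h | h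
      · exfalso; apply hxy
        calc x = -x := hx.symm
          _ = - -y := by rw [h]
          _ = y := neg_neg y
      · exact h
    refine ⟨x, y, dbl x hx, dbl y hy', ?_, ?_, hxy, rfl⟩
    · rintro rfl; exact h0 (Or.inl rfl)
    · rintro rfl; exact h0 (Or.inr rfl)
  · left
    refine ⟨x, ?_, by rw [hx]⟩
    intro h
    apply hxy
    rw [← hx]
    exact eq_neg_of_add_eq_zero_left h

theorem sym_one {G : Type*} [AddCommGroup G] [DecidableEq G] {R : Finset G}
    (hR : ∀ c ∈ R, -c ∈ R) (h0 : (0 : G) ∉ R) (hc : R.card = 1) :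
    ∃ t, t + t = 0 ∧ t ≠ 0 ∧ R = {t} := by
  obtain ⟨x, rfl⟩ := Finset.card_eq_one.1 hc
  have hx := hR x (by simp)
  simp only [Finset.mem_singleton] at hx h0
  refine ⟨x, ?_, ?_, rfl⟩
  · calc x + x = -x + x := by rw [hx]
      _ = 0 := neg_add_cancel x
  · rintro rfl; exact h0 rfl

/-- Symmetric sets with three elements and without zero. -/
theorem sym_three {G : Type*} [AddCommGroup G] [DecidableEq G] {R : Finset G}
    (hR : ∀ c ∈ R, -c ∈ R) (h0 : (0 : G) ∉ R) (hc : R.card = 3) :
    (∃ r t, r + r ≠ 0 ∧ t + t = 0 ∧ t ≠ 0 ∧ R = {r, -r, t}) ∨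
      (∃ t1 t2 t3, t1 + t1 = 0 ∧ t2 + t2 = 0 ∧ t3 + t3 = 0 ∧ t1 ≠ 0 ∧ t2 ≠ 0 ∧ t3 ≠ 0 ∧
        t1 ≠ t2 ∧ t1 ≠ t3 ∧ t2 ≠ t3 ∧ R = {t1, t2, t3}) := by
  obtain ⟨x, y, z, hxy, hxz, hyz, rfl⟩ := Finset.card_eq_three.1 hc
  have hx := hR x (by simp)
  have hy := hR y (by simp)
  have hz := hR z (by simp)
  simp only [Finset.mem_insert, Finset.mem_singleton] at hx hy hz h0
  simp only [not_or] at h0
  obtain ⟨x0, y0, z0⟩ := h0
  have dbl : ∀ z : G, -z = z → z + z = 0 := by
    intro z hz
    calc z + z = -z + z := by rw [hz]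
      _ = 0 := neg_add_cancel z
  have inv : ∀ a b : G, -a = b → -b = a := by
    intro a b h; rw [← h, neg_neg]
  -- if `-a = b ≠ a` then `a + a ≠ 0`
  have nd : ∀ a b : G, -a = b → a ≠ b → a + a ≠ 0 := by
    intro a b h hab h2
    apply hab
    rw [← h]; exact eq_neg_of_add_eq_zero_left h2
  have fix : ∀ a b c : G, a ≠ b → a ≠ c → b ≠ c → -a = b → (-c = a ∨ -c = b ∨ -c = c) →
      -c = c := by
    intro a b c hab hac hbc h h'
    rcases h' with h' | h' | h'
    · exfalso; apply hbc
      rw [← h]
      exact (inv c a h')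
    · exfalso; apply hac
      have := inv a b h
      rw [← this, ← h', neg_neg]
    · exact h'
  rcases hx with hx | hx | hx
  · -- x fixed
    rcases hy with hy | hy | hy
    · exfalso; apply hxy
      have := inv y x hy
      rw [← this]; exact hx.symm
    · -- y fixed
      have hz' : -z = z := by
        rcases hz with hz | hz | hz
        · exfalso; apply hxz
          have := inv z x hz
          rw [← this]; exact hx.symm
        · exfalso; apply hyz
          have := inv z y hz
          rw [← this]; exact hy.symm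
        · exact hz
      right
      exact ⟨x, y, z, dbl x hx, dbl y hy, dbl z hz', fun h => x0 h.symm, fun h => y0 h.symm,
        fun h => z0 h.symm, hxy, hxz, hyz, rfl⟩
    · -- y, z swapped
      left
      refine ⟨y, x, nd y z hy hyz, dbl x hx, fun h => x0 h.symm, ?_⟩
      rw [hy]
      ext w
      simp only [Finset.mem_insert, Finset.mem_singleton]
      tauto
  · -- x, y swapped
    left
    have hz' := fix x y z hxy hxz hyz hx hz
    refine ⟨x, z, nd x y hx hxy, dbl z hz', fun h => z0 h.symm, ?_⟩
    rw [hx]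
  · -- x, z swapped
    left
    have hy' : -y = y := by
      rcases hy with h | h | h
      · exfalso; apply hyz
        have := inv y x h
        rw [← hx, this]
      · exact h
      · exfalso; apply hxy
        have := inv y z h
        rw [← this, ← hx, neg_neg]
    refine ⟨x, y, nd x z hx hxz, dbl y hy', fun h => y0 h.symm, ?_⟩
    rw [hx]
    ext w
    simp only [Finset.mem_insert, Finset.mem_singleton]
    tauto

theorem uni_all {G : Type*} [AddCommGroup G] [Finite G] [DecidableEq G] {C : Finset G}
    (hC : ∀ c ∈ C, -c ∈ C) (h0 : (0 : G) ∉ C) (hc : C.card = 3) : ∃ f : G → ℕ, Uni C f := by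
  rcases sym_three hC h0 hc with ⟨r, t, hr, ht, ht0, rfl⟩ |
    ⟨t1, t2, t3, h1, h2, h3, h10, h20, h30, h12, h13, h23, rfl⟩
  · obtain ⟨f, hf⟩ := cay_all r t hr ht ht0
    refine ⟨f, ?_⟩
    have ns : ∀ (g x : G), g + -x + x = g := fun g x => by abel
    have k1 : ∀ g, f (g + -r) ≠ f (g + r) := fun g => by
      have := hf.fr2 (g + -r); rwa [ns] at this
    have k2 : ∀ g, f (g + -r) ≠ f (g + t) := fun g => by
      have := hf.c2 (g + -r); rwa [ns] at this
    constructor
    · exact hf.le
    · intro g c hc
      simp only [Finset.mem_insert, Finset.mem_singleton] at hc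
      rcases hc with rfl | rfl | rfl
      · exact hf.fr g
      · have := hf.fr (g + -r); rw [ns] at this; exact this.symm
      · exact hf.ft g
    · intro g c hc c' hc' hcc
      simp only [Finset.mem_insert, Finset.mem_singleton] at hc hc'
      rcases hc with rfl | rfl | rfl <;> rcases hc' with rfl | rfl | rfl
      · exact absurd rfl hcc
      · exact (k1 g).symm
      · exact hf.c1 g
      · exact k1 g
      · exact absurd rfl hcc
      · exact k2 g
      · exact (hf.c1 g).symm
      · exact (k2 g).symm
      · exact absurd rfl hcc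
  · obtain ⟨f, hf⟩ := cay3_all t1 t2 t3 h1 h2 h3 h10 h20 h30 h12 h13 h23
    refine ⟨f, ?_⟩
    constructor
    · exact hf.le
    · intro g c hc
      simp only [Finset.mem_insert, Finset.mem_singleton] at hc
      rcases hc with rfl | rfl | rfl
      · exact hf.fa g
      · exact hf.fb g
      · exact hf.fc g
    · intro g c hc c' hc' hcc
      simp only [Finset.mem_insert, Finset.mem_singleton] at hc hc'
      rcases hc with rfl | rfl | rfl <;> rcases hc' with rfl | rfl | rfl
      · exact absurd rfl hcc
      · exact hf.ab g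
      · exact hf.ac g
      · exact (hf.ab g).symm
      · exact absurd rfl hcc
      · exact hf.bc g
      · exact (hf.ac g).symm
      · exact (hf.bc g).symm
      · exact absurd rfl hcc

/-- Every pair of connection sets: a labelling exists, except for the Petersen shape. -/
theorem bi_all {G : Type*} [AddCommGroup G] [Finite G] [DecidableEq G] {R L S : Finset G}
    (hR : ∀ c ∈ R, -c ∈ R) (hL : ∀ c ∈ L, -c ∈ L) (h0R : (0 : G) ∉ R) (h0L : (0 : G) ∉ L)
    (c1 : R.card + S.card = 3) (c2 : L.card + S.card = 3) :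
    BiOK R L S ∨ ∃ s c : G, addOrderOf s = 5 ∧ R = {s, -s} ∧ L = {s + s, -(s + s)} ∧ S = {c} := by
  have hS : S.card = 0 ∨ S.card = 1 ∨ S.card = 2 ∨ S.card = 3 := by omega
  rcases hS with hS | hS | hS | hS
  · left
    obtain ⟨A, hA⟩ := uni_all hR h0R (by omega)
    obtain ⟨B, hB⟩ := uni_all hL h0L (by omega)
    have : S = ∅ := Finset.card_eq_zero.1 hS
    subst this
    exact ⟨A, B, bi_of_uni hA hB⟩
  · obtain ⟨c, rfl⟩ := Finset.card_eq_one.1 hS
    have sh : BiOK R L {0} → BiOK R L {c} := by
      intro h
      apply h.shift c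
      intro x hx
      rw [Finset.mem_singleton] at hx ⊢
      rw [hx, sub_self]
    have sw : BiOK L R {0} → BiOK R L {0} := by
      intro h
      apply h.swap
      intro x hx
      rw [Finset.mem_singleton] at hx ⊢
      rw [hx, neg_zero]
    rcases sym_two hR h0R (by omega) with ⟨s, hs, rfl⟩ | ⟨t1, t2, h1, h2, h10, h20, h12, rfl⟩
    · rcases sym_two hL h0L (by omega) with ⟨t, ht, rfl⟩ | ⟨t3, t4, h3, h4, h30, h40, h34, rfl⟩
      · by_cases hP : addOrderOf s = 5 ∧ (t = s + s ∨ t = -(s + s))
        · right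
          obtain ⟨h5, h | h⟩ := hP
          · refine ⟨s, c, h5, rfl, ?_, rfl⟩
            rw [h]
          · refine ⟨s, c, h5, rfl, ?_, rfl⟩
            rw [h, neg_neg, Finset.pair_comm]
        · left
          exact sh (bi_of_dum (dum_all s t hs ht hP))
      · left
        exact sh (bi_of_mix (mix_all s t3 t4 hs h3 h4 h30 h40 h34))
    · rcases sym_two hL h0L (by omega) with ⟨t, ht, rfl⟩ | ⟨t3, t4, h3, h4, h30, h40, h34, rfl⟩
      · left
        exact sh (sw (bi_of_mix (mix_all t t1 t2 ht h1 h2 h10 h20 h12)))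
      · left
        exact sh (bi_of_four (four_all t1 t2 t3 t4 h1 h2 h3 h4 h10 h20 h30 h40 h12 h34))
  · left
    obtain ⟨c, d, hcd, rfl⟩ := Finset.card_eq_two.1 hS
    obtain ⟨τ, hτ, hτ0, rfl⟩ := sym_one hR h0R (by omega)
    obtain ⟨τ', hτ', hτ0', rfl⟩ := sym_one hL h0L (by omega)
    apply (bi_of_two (two_all τ τ' (d - c) hτ hτ' hτ0 hτ0' (sub_ne_zero.2 hcd.symm))).shift c
    intro x hx
    simp only [Finset.mem_insert, Finset.mem_singleton] at hx ⊢
    rcases hx with rfl | rfl
    · left; exact sub_self _
    · right; rfl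
  · left
    obtain ⟨c, d, e, hcd, hce, hde, rfl⟩ := Finset.card_eq_three.1 hS
    have hR0 : R = ∅ := Finset.card_eq_zero.1 (by omega)
    have hL0 : L = ∅ := Finset.card_eq_zero.1 (by omega)
    subst hR0; subst hL0
    have h1 : d - c ≠ 0 := sub_ne_zero.2 hcd.symm
    have h2 : e - c ≠ 0 := sub_ne_zero.2 hce.symm
    have h3 : d - c ≠ e - c := fun h => hde (sub_left_injective h)
    apply (bi_of_the (theta_all (d - c) (e - c) h1 h2 h3)).shift c
    intro x hx
    simp only [Finset.mem_insert, Finset.mem_singleton] at hx ⊢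
    rcases hx with rfl | rfl | rfl
    · left; exact sub_self _
    · right; left; rfl
    · right; right; rfl

end Pool.Agent.helper85.L21
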