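import Pool.Agent.helper85.L21.Small

/-! # The cyclic case -/

set_option autoImplicit false

namespace Pool.Agent.helper85.L21

theorem dumOK_of_mult {n : ℕ} (hn : 0 < n) {k c : ℕ} (hc : c < n)
    (h : GoodXY n c (c * k % n)) : DumOK (1 : ZMod n) (k : ZMod n) := by
  have : NeZero n := ⟨hn.ne'⟩
  apply dumOK_of_goodXY hn (AddMonoidHom.mulLeft (c : ZMod n))
  simp only [AddMonoidHom.coe_mulLeft, mul_one]
  rw [← Nat.cast_mul, ZMod.val_natCast, ZMod.val_natCast, Nat.mod_eq_of_lt hc]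
  exact h

theorem fam3_large {n : ℕ} (hn : 36 ≤ n) : DumOK (1 : ZMod n) (3 : ZMod n) := by
  have hn0 : 0 < n := by omega
  have : NeZero n := ⟨hn0.ne'⟩
  obtain ⟨c, hc1, hc2⟩ : ∃ c : ℕ, 8 * n ≤ 36 * c ∧ 36 * c ≤ 9 * n :=
    ⟨(8 * n + 35) / 36, by omega, by omega⟩
  rw [← dumOK_neg_right]
  have hv1 : ((AddMonoidHom.mulLeft (c : ZMod n)) 1).val = c := by
    simp only [AddMonoidHom.coe_mulLeft, mul_one]
    rw [ZMod.val_natCast, Nat.mod_eq_of_lt (by omega)]
  have hv2 : ((AddMonoidHom.mulLeft (c : ZMod n)) (-3)).val = n - 3 * c := by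
    simp only [AddMonoidHom.coe_mulLeft]
    have e1 : (c : ZMod n) * (-3) = ((n - 3 * c : ℕ) : ZMod n) := by
      rw [Nat.cast_sub (by omega)]; push_cast; rw [ZMod.natCast_self]; ring
    rw [e1, ZMod.val_natCast, Nat.mod_eq_of_lt (by omega)]
  have a1 : 8 * n ≤ 36 * ((AddMonoidHom.mulLeft (c : ZMod n)) 1).val := by rw [hv1]; omega
  have a2 : 36 * ((AddMonoidHom.mulLeft (c : ZMod n)) 1).val ≤ (8 + 1) * n := by rw [hv1]; omega
  have b1 : 9 * n ≤ 36 * ((AddMonoidHom.mulLeft (c : ZMod n)) (-3)).val := by rw [hv2]; omega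
  have b2 : 36 * ((AddMonoidHom.mulLeft (c : ZMod n)) (-3)).val ≤ 12 * n := by rw [hv2]; omega
  by_cases d1 : 36 * ((AddMonoidHom.mulLeft (c : ZMod n)) (-3)).val ≤ 10 * n
  · exact dumOK_coarse hn0 (AddMonoidHom.mulLeft (c : ZMod n)) 36 (by norm_num) 8 9 1 1
      [3,7,6,6,6,7,7,5,1,1,2,2,2,2,2,2,7,4,4,0,0,0,0,0,0,2,6,6,5,4,4,4,3,5,0,3]
      [0,0,0,0,0,0,1,1,5,5,5,4,4,4,4,4,4,7,7,7,7,7,7,7,6,6,2,2,2,2,2,2,5,3,3,0] (by decide +kernel) a1 a2 b1 (by omega)
  by_cases d2 : 36 * ((AddMonoidHom.mulLeft (c : ZMod n)) (-3)).val ≤ 11 * n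
  · exact dumOK_coarse hn0 (AddMonoidHom.mulLeft (c : ZMod n)) 36 (by norm_num) 8 10 1 1
      [2,6,6,5,5,5,5,0,0,0,3,3,7,7,7,7,5,5,5,1,1,2,2,2,2,7,7,7,4,4,0,0,0,0,2,2]
      [6,2,2,2,3,3,3,3,3,3,0,0,0,0,0,1,1,1,1,5,5,5,4,4,4,4,4,4,7,7,7,7,7,6,6,6] (by decide +kernel) a1 a2 (by omega) (by omega)
  · exact dumOK_coarse hn0 (AddMonoidHom.mulLeft (c : ZMod n)) 36 (by norm_num) 8 11 1 1
      [6,6,6,6,6,6,1,4,4,4,4,4,4,4,4,7,2,2,2,2,2,2,2,2,5,0,0,0,0,0,0,0,0,3,6,6]
      [3,2,2,1,1,1,5,1,1,1,0,0,7,7,7,3,7,7,7,6,6,5,5,5,1,5,5,5,4,4,3,3,3,7,3,3] (by decide +kernel) a1 a2 (by omega) (by omega)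

theorem fam3 {n : ℕ} (hn : 7 ≤ n) : DumOK (1 : ZMod n) (3 : ZMod n) := by
  by_cases h : 36 ≤ n
  · exact fam3_large h
  · have := dumOK_of_dirs (n := n) (k := 3) (by omega)
      (threes_dirs n (List.mem_range.2 (by omega)) hn)
    simpa using this

/-- If the first generator is plus or minus three times the second one. -/
theorem fam3_swap {n : ℕ} (hn : 7 ≤ n) (k : ZMod n) (h : 3 * k = 1 ∨ 3 * k = -1) :
    DumOK (1 : ZMod n) k := by
  apply DumOK.swap
  rcases h with h | h
  · apply DumOK.comap (AddMonoidHom.mulLeft (3 : ZMod n))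
    simp only [AddMonoidHom.coe_mulLeft, mul_one, h]
    exact fam3 hn
  · apply DumOK.comap (AddMonoidHom.mulLeft (3 : ZMod n))
    simp only [AddMonoidHom.coe_mulLeft, mul_one, h]
    exact (fam3 hn).negLeft

theorem dumOK_one_one {n : ℕ} (hn : 3 ≤ n) (h : n ≤ 8) : DumOK (1 : ZMod n) (1 : ZMod n) := by
  by_cases h4 : 4 ≤ n
  · have := dumOK_of_mult (n := n) (k := 1) (c := 1) (by omega) (by omega)
      (by rw [one_mul, Nat.mod_eq_of_lt (by omega)]; unfold GoodXY; omega)
    simpa using this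
  · have h3 : n = 3 := by omega
    subst h3
    have := dumOK_of_mult (n := 3) (k := 1) (c := 1) (by omega) (by omega)
      (by decide)
    simpa using this

theorem cyc_nat (n k : ℕ) (hn : 3 ≤ n) (hk : k ≤ n / 2) (h2 : (2 * k) % n ≠ 0)
    (hP : ¬ (n = 5 ∧ k = 2)) : DumOK (1 : ZMod n) (k : ZMod n) := by
  have hn0 : 0 < n := by omega
  have hne : NeZero n := ⟨hn0.ne'⟩
  by_cases h5 : n = 5
  · subst h5
    have hk1 : k = 1 := by
      have : k = 0 ∨ k = 1 ∨ k = 2 := by omega
      rcases this with rfl | rfl | rfl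
      · simp at h2
      · rfl
      · simp at hP
    subst hk1
    simpa using dumOK_one_one (n := 5) (by norm_num) (by norm_num)
  by_cases h4 : n = 4
  · subst h4
    have hk1 : k = 1 := by
      have : k = 0 ∨ k = 1 ∨ k = 2 := by omega
      rcases this with rfl | rfl | rfl
      · simp at h2
      · rfl
      · simp at h2
    subst hk1
    simpa using dumOK_one_one (n := 4) (by norm_num) (by norm_num)
  have fin3 : (k : ZMod n) = 3 → 7 ≤ n → DumOK (1 : ZMod n) (k : ZMod n) := by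
    intro h h7; rw [h]; exact fam3 h7
  have fin3' : (k : ZMod n) = -3 → 7 ≤ n → DumOK (1 : ZMod n) (k : ZMod n) := by
    intro h h7; rw [h]; exact (fam3 h7).negRight
  by_cases big : 344 ≤ n
  · rcases large (n : ℤ) (k : ℤ) (by exact_mod_cast big) with ⟨c, hc⟩ | h | h | h | h | h
    · have hc0 : 0 ≤ c := by unfold GoodZ at hc; omega
      lift c to ℕ using hc0
      have hm : ((c : ℤ) * (k : ℤ)) % (n : ℤ) = ((c * k % n : ℕ) : ℤ) := by push_cast; rfl
      rw [hm] at hc
      apply dumOK_of_mult hn0 (c := c)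
      · unfold GoodZ at hc; omega
      · unfold GoodZ at hc; unfold GoodXY; omega
    · exfalso
      apply h2
      have h' : n ∣ 2 * k := by exact_mod_cast h
      exact Nat.mod_eq_zero_of_dvd h'
    · apply fin3 _ (by omega)
      have h' : (((k : ℤ) - 3 : ℤ) : ZMod n) = 0 := (ZMod.intCast_zmod_eq_zero_iff_dvd _ n).2 h
      push_cast at h'
      exact sub_eq_zero.1 h'
    · apply fin3' _ (by omega)
      have h' : (((k : ℤ) + 3 : ℤ) : ZMod n) = 0 := (ZMod.intCast_zmod_eq_zero_iff_dvd _ n).2 h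
      push_cast at h'
      exact eq_neg_of_add_eq_zero_left h'
    · apply fam3_swap (by omega)
      left
      have h' : ((3 * (k : ℤ) - 1 : ℤ) : ZMod n) = 0 :=
        (ZMod.intCast_zmod_eq_zero_iff_dvd _ n).2 h
      push_cast at h'
      exact sub_eq_zero.1 h'
    · apply fam3_swap (by omega)
      right
      have h' : ((3 * (k : ℤ) + 1 : ℤ) : ZMod n) = 0 :=
        (ZMod.intCast_zmod_eq_zero_iff_dvd _ n).2 h
      push_cast at h'
      exact eq_neg_of_add_eq_zero_left h'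
  · have hs := small_all n hn (by omega)
    unfold smallAll at hs
    rw [List.all_eq_true] at hs
    have hs' := hs k (List.mem_range.2 (by omega))
    unfold smallChk at hs'
    simp only [Bool.or_eq_true, Nat.beq_eq] at hs'
    rcases hs' with ((((((h | h) | h) | h) | h) | h) | h) | h
    · exact absurd h h2
    · -- k = 3
      subst h
      by_cases h7 : 7 ≤ n
      · exact fin3 (by norm_num) h7
      · exfalso
        have : n = 6 := by omega
        subst this
        simp at h2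
    · by_cases h7 : 7 ≤ n
      · exfalso
        rw [Nat.mod_eq_of_lt (by omega)] at h
        omega
      · exfalso
        have : n = 3 ∨ n = 6 := by omega
        rcases this with rfl | rfl <;> omega
    · by_cases h7 : 7 ≤ n
      · apply fam3_swap h7
        left
        have h' : ((3 * k : ℕ) : ZMod n) = ((1 : ℕ) : ZMod n) := by
          rw [ZMod.natCast_eq_natCast_iff', h, Nat.mod_eq_of_lt (by omega)]
        push_cast at h'
        exact h'
      · exfalso
        have : n = 3 ∨ n = 6 := by omega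
        rcases this with rfl | rfl <;> omega
    · by_cases h7 : 7 ≤ n
      · apply fam3_swap h7
        right
        have h' : ((3 * k + 1 : ℕ) : ZMod n) = 0 := by
          rw [ZMod.natCast_eq_zero_iff]
          exact Nat.dvd_of_mod_eq_zero h
        push_cast at h'
        exact eq_neg_of_add_eq_zero_left h'
      · exfalso
        have : n = 3 ∨ n = 6 := by omega
        rcases this with rfl | rfl <;> omega
    · exact absurd h h5
    · have h' : (n, k) ∈ excs := by simpa using h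
      exact dumOK_of_dirs hn0 (excs_dirs (n, k) h')
    · obtain ⟨c, hc⟩ := srch_spec n k _ _ h
      apply dumOK_of_mult hn0 (c := c) _ hc
      unfold GoodXY at hc; omega

/-- The cyclic case. -/
theorem cyc (n : ℕ) (hn : 3 ≤ n) (k : ZMod n) (h2 : 2 * k ≠ 0)
    (hP : ¬ (n = 5 ∧ (k = 2 ∨ k = -2))) : DumOK (1 : ZMod n) k := by
  have hn0 : 0 < n := by omega
  have hne : NeZero n := ⟨hn0.ne'⟩
  have key : ∀ k : ZMod n, 2 * k ≠ 0 → ¬ (n = 5 ∧ (k = 2 ∨ k = -2)) → k.val ≤ n / 2 →
      DumOK (1 : ZMod n) k := by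
    intro k h2 hP hle
    have := cyc_nat n k.val hn hle ?_ ?_
    · rwa [ZMod.natCast_zmod_val] at this
    · intro h
      apply h2
      have h' : ((2 * k.val : ℕ) : ZMod n) = 0 := by
        rw [ZMod.natCast_eq_zero_iff]; exact Nat.dvd_of_mod_eq_zero h
      push_cast at h'
      rwa [ZMod.natCast_zmod_val] at h'
    · rintro ⟨h5, hk⟩
      apply hP
      refine ⟨h5, Or.inl ?_⟩
      rw [← ZMod.natCast_zmod_val k, hk]
      norm_num
  by_cases hle : k.val ≤ n / 2
  · exact key k h2 hP hle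
  · rw [← dumOK_neg_right]
    apply key
    · intro h
      apply h2
      have : 2 * -k = -(2 * k) := by ring
      rw [this, neg_eq_zero] at h
      exact h
    · rintro ⟨h5, h | h⟩
      · exact hP ⟨h5, Or.inr (by rw [← h, neg_neg])⟩
      · exact hP ⟨h5, Or.inl (neg_injective h)⟩
    · have hk0 : 0 < k.val := by omega
      rw [val_neg_of_pos k hn0 hk0]
      omega

end Pool.Agent.helper85.L21
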