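import Pool.Agent.helper85.L21.Patterns

/-! # Maps compatible with two generators, and the relation lattice -/

set_option autoImplicit false

namespace Pool.Agent.helper85.L21

/-- If every relation between `s, t` holds between `x, y`, there is a map on the group that moves
by `x` along `s` and by `y` along `t`. -/
theorem exists_phi {G K : Type*} [AddCommGroup G] [AddCommGroup K] (s t : G) (x y : K)
    (h : ∀ u v : ℤ, u • s + v • t = 0 → u • x + v • y = 0) :
    ∃ φ : G → K, (∀ g, φ (g + s) = φ g + x) ∧ (∀ g, φ (g + t) = φ g + y) := by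
  classical
  let H : AddSubgroup G := AddSubgroup.zmultiples s ⊔ AddSubgroup.zmultiples t
  have hH : ∀ g : G, g ∈ H → ∃ p : ℤ × ℤ, p.1 • s + p.2 • t = g := by
    intro g hg
    obtain ⟨a, ha, b, hb, hab⟩ := AddSubgroup.mem_sup.1 hg
    obtain ⟨u, rfl⟩ := AddSubgroup.mem_zmultiples_iff.1 ha
    obtain ⟨v, rfl⟩ := AddSubgroup.mem_zmultiples_iff.1 hb
    exact ⟨(u, v), hab⟩
  let rep : G → G := fun g => (QuotientAddGroup.mk g : G ⧸ H).out
  have hrep : ∀ g, -rep g + g ∈ H := by
    intro g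
    have : (QuotientAddGroup.mk (rep g) : G ⧸ H) = QuotientAddGroup.mk g :=
      Quotient.out_eq _
    exact QuotientAddGroup.eq.1 this
  choose p hp using fun g => hH _ (hrep g)
  have hadd : ∀ g z, z ∈ H → rep (g + z) = rep g := by
    intro g z hz
    have : (QuotientAddGroup.mk (g + z) : G ⧸ H) = QuotientAddGroup.mk g := by
      apply QuotientAddGroup.eq.2
      have : -(g + z) + g = -z := by abel
      rw [this]; exact H.neg_mem hz
    simp only [rep, this]
  have hs : s ∈ H := AddSubgroup.mem_sup_left (AddSubgroup.mem_zmultiples s)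
  have ht : t ∈ H := AddSubgroup.mem_sup_right (AddSubgroup.mem_zmultiples t)
  refine ⟨fun g => (p g).1 • x + (p g).2 • y, ?_, ?_⟩
  · intro g
    have h1 := hp g
    have h2 := hp (g + s)
    rw [hadd g s hs] at h2
    have h3 : ((p (g + s)).1 - (p g).1 - 1) • s + ((p (g + s)).2 - (p g).2) • t = 0 := by
      rw [sub_smul, sub_smul, sub_smul, one_smul]
      have : (p (g + s)).1 • s + (p (g + s)).2 • t = (p g).1 • s + (p g).2 • t + s := by
        rw [h1, h2]; abel
      calc _ = ((p (g + s)).1 • s + (p (g + s)).2 • t) - ((p g).1 • s + (p g).2 • t) - s := by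
            abel
        _ = 0 := by rw [this]; abel
    have h4 := h _ _ h3
    rw [sub_smul, sub_smul, sub_smul, one_smul] at h4
    calc (p (g + s)).1 • x + (p (g + s)).2 • y
        = ((p (g + s)).1 • x - (p g).1 • x - x + ((p (g + s)).2 • y - (p g).2 • y)) +
          ((p g).1 • x + (p g).2 • y + x) := by abel
      _ = _ := by rw [h4, zero_add]
  · intro g
    have h1 := hp g
    have h2 := hp (g + t)
    rw [hadd g t ht] at h2
    have h3 : ((p (g + t)).1 - (p g).1) • s + ((p (g + t)).2 - (p g).2 - 1) • t = 0 := by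
      rw [sub_smul, sub_smul, sub_smul, one_smul]
      have : (p (g + t)).1 • s + (p (g + t)).2 • t = (p g).1 • s + (p g).2 • t + t := by
        rw [h1, h2]; abel
      calc _ = ((p (g + t)).1 • s + (p (g + t)).2 • t) - ((p g).1 • s + (p g).2 • t) - t := by
            abel
        _ = 0 := by rw [this]; abel
    have h4 := h _ _ h3
    rw [sub_smul, sub_smul, sub_smul, one_smul] at h4
    calc (p (g + t)).1 • x + (p (g + t)).2 • y
        = ((p (g + t)).1 • x - (p g).1 • x + ((p (g + t)).2 • y - (p g).2 • y - y)) +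
          ((p g).1 • x + (p g).2 • y + y) := by abel
      _ = _ := by rw [h4, zero_add]

/-- The relation lattice of two elements of a finite abelian group. -/
theorem rel_lattice {G : Type*} [AddCommGroup G] [Finite G] (s t : G) :
    ∃ a d β : ℕ, 0 < a ∧ 0 < d ∧ β < a ∧ a = addOrderOf s ∧ (d : ℤ) • t = (β : ℤ) • s ∧
      (d = 1 → t ∈ AddSubgroup.zmultiples s) ∧
      ∀ u v : ℤ, u • s + v • t = 0 → ∃ w z : ℤ, u = -(w * β) + a * z ∧ v = d * w := by
  obtain ⟨a, ha⟩ : ∃ a, a = addOrderOf s := ⟨_, rfl⟩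
  obtain ⟨d, hd⟩ : ∃ d, d = addOrderOf (QuotientAddGroup.mk t : G ⧸ AddSubgroup.zmultiples s) :=
    ⟨_, rfl⟩
  have ha0 : 0 < a := by rw [ha]; exact addOrderOf_pos s
  have hd0 : 0 < d := by rw [hd]; exact addOrderOf_pos _
  have hz : ∀ v : ℤ, v • t ∈ AddSubgroup.zmultiples s ↔ (d : ℤ) ∣ v := by
    intro v
    rw [hd, addOrderOf_dvd_iff_zsmul_eq_zero, ← QuotientAddGroup.mk_zsmul,
      QuotientAddGroup.eq_zero_iff]
  obtain ⟨b, hb⟩ := AddSubgroup.mem_zmultiples_iff.1 ((hz d).2 (dvd_refl _))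
  have hb0 : 0 ≤ b % (a : ℤ) := Int.emod_nonneg _ (by omega)
  have hb1 : b % (a : ℤ) < a := Int.emod_lt_of_pos _ (by omega)
  obtain ⟨β, hβ⟩ : ∃ β : ℕ, (β : ℤ) = b % (a : ℤ) := ⟨(b % (a : ℤ)).toNat, Int.toNat_of_nonneg hb0⟩
  have hbs : (d : ℤ) • t = (β : ℤ) • s := by
    rw [← hb, hβ, ha, mod_addOrderOf_zsmul]
  refine ⟨a, d, β, ha0, hd0, by omega, ha, hbs, ?_, ?_⟩
  · intro h1
    have := (hz 1).2 (by rw [h1]; norm_num)
    simpa using this
  · intro u v huv
    have hv : v • t ∈ AddSubgroup.zmultiples s := by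
      have : v • t = (-u) • s := by
        rw [neg_smul]; exact eq_neg_of_add_eq_zero_right huv
      rw [this]; exact AddSubgroup.zsmul_mem_zmultiples s _
    obtain ⟨w, hw⟩ := (hz v).1 hv
    have h1 : (u + w * β) • s = 0 := by
      rw [add_smul, mul_smul, ← hbs, ← mul_smul, mul_comm w, ← hw]
      exact huv
    have h2 : (a : ℤ) ∣ u + w * β := by
      rw [ha]; exact addOrderOf_dvd_iff_zsmul_eq_zero.2 h1
    obtain ⟨z, hz'⟩ := h2
    exact ⟨w, z, by omega, hw⟩

theorem dumOK_of_phi {G K : Type*} [AddCommGroup G] [AddCommGroup K] {s t : G} {x y : K}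
    (φ : G → K) (h1 : ∀ g, φ (g + s) = φ g + x) (h2 : ∀ g, φ (g + t) = φ g + y)
    (h : DumOK x y) : DumOK s t := by
  obtain ⟨A, B, h⟩ := h
  refine ⟨fun g => A (φ g), fun g => B (φ g), ?_⟩
  constructor
  · intro g; exact h.leA _
  · intro g; exact h.leB _
  · intro g; simpa only [h1] using h.aa (φ g)
  · intro g; simpa only [h1] using h.aa2 (φ g)
  · intro g; simpa only [h2] using h.bb (φ g)
  · intro g; simpa only [h2] using h.bb2 (φ g)
  · intro g; exact h.ab _
  · intro g; simpa only [h1] using h.s1 (φ g)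
  · intro g; simpa only [h1] using h.s2 (φ g)
  · intro g; simpa only [h2] using h.t1 (φ g)
  · intro g; simpa only [h2] using h.t2 (φ g)

theorem dumOK_of_rel {G K : Type*} [AddCommGroup G] [AddCommGroup K] {s t : G} {x y : K}
    (h : ∀ u v : ℤ, u • s + v • t = 0 → u • x + v • y = 0) (hxy : DumOK x y) : DumOK s t := by
  obtain ⟨φ, h1, h2⟩ := exists_phi s t x y h
  exact dumOK_of_phi φ h1 h2 hxy

end Pool.Agent.helper85.L21
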