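import Pool.Agent.helper85.L21.PhiFin
import Pool.Agent.helper85.L21.Phi
import Pool.Agent.helper85.L21.Cyc

/-! # Cubic graphs with one orbit, and two orbits joined by two matchings -/

set_option autoImplicit false

namespace Pool.Agent.helper85.L21

/-- Valid labels for the graph on `G` with connection set `r, -r, τ`. -/
structure Cay {G : Type*} [AddCommGroup G] (r τ : G) (f : G → ℕ) : Prop where
  le : ∀ g, f g ≤ 7
  fr : ∀ g, Far (f g) (f (g + r))
  fr2 : ∀ g, f g ≠ f (g + r + r)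
  ft : ∀ g, Far (f g) (f (g + τ))
  c1 : ∀ g, f (g + r) ≠ f (g + τ)
  c2 : ∀ g, f g ≠ f (g + r + τ)

/-- Some label function works. -/
def CayOK {G : Type*} [AddCommGroup G] (r τ : G) : Prop := ∃ f : G → ℕ, Cay r τ f

theorem cayOK_of_phi {G K : Type*} [AddCommGroup G] [AddCommGroup K] {s t : G} {x y : K}
    (φ : G → K) (h1 : ∀ g, φ (g + s) = φ g + x) (h2 : ∀ g, φ (g + t) = φ g + y)
    (h : CayOK x y) : CayOK s t := by
  obtain ⟨f, h⟩ := h
  refine ⟨fun g => f (φ g), ?_⟩
  constructor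
  · intro g; exact h.le _
  · intro g; simpa only [h1] using h.fr (φ g)
  · intro g; simpa only [h1] using h.fr2 (φ g)
  · intro g; simpa only [h2] using h.ft (φ g)
  · intro g; simpa only [h1, h2] using h.c1 (φ g)
  · intro g; simpa only [h1, h2] using h.c2 (φ g)

theorem cayOK_of_rel {G K : Type*} [AddCommGroup G] [AddCommGroup K] {s t : G} {x y : K}
    (h : ∀ u v : ℤ, u • s + v • t = 0 → u • x + v • y = 0) (hxy : CayOK x y) : CayOK s t := by
  obtain ⟨φ, h1, h2⟩ := exists_phi s t x y h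
  exact cayOK_of_phi φ h1 h2 hxy

theorem prism_ok (n : ℕ) (hn : 3 ≤ n) :
    CayOK ((1, 0) : ZMod n × ZMod 2) ((0, 1) : ZMod n × ZMod 2) := by
  have hne : NeZero n := ⟨by omega⟩
  have h2 : ∀ k : ℕ, 0 < k → k < n → ((k : ℕ) : ZMod n) ≠ 0 := by
    intro k hk hkn h
    have := (ZMod.natCast_eq_zero_iff k n).1 h
    exact absurd (Nat.le_of_dvd hk this) (by omega)
  obtain ⟨A, B, h⟩ := cyc n hn 1 (by
      rw [mul_one]
      have := h2 2 (by norm_num) (by omega)
      exact_mod_cast this) (by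
      rintro ⟨rfl, h | h⟩ <;> revert h <;> decide)
  refine ⟨fun p => if p.2 = 0 then A p.1 else B p.1, ?_⟩
  have two : ∀ z : ZMod 2, z = 0 ∨ z = 1 := by decide
  have e01 : (1 : ZMod 2) ≠ 0 := by decide
  have e11 : (1 : ZMod 2) + 1 = 0 := by decide
  constructor
  · rintro ⟨i, z⟩
    rcases two z with rfl | rfl
    · simpa using h.leA i
    · simpa using h.leB i
  · rintro ⟨i, z⟩
    rcases two z with rfl | rfl
    · simpa using h.aa i
    · simpa using h.bb i
  · rintro ⟨i, z⟩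
    rcases two z with rfl | rfl
    · simpa using h.aa2 i
    · simpa using h.bb2 i
  · rintro ⟨i, z⟩
    rcases two z with rfl | rfl
    · simpa using h.ab i
    · simpa [e11] using (h.ab i).symm
  · rintro ⟨i, z⟩
    rcases two z with rfl | rfl
    · simpa using h.s2 i
    · simpa [e11] using (h.s1 i).symm
  · rintro ⟨i, z⟩
    rcases two z with rfl | rfl
    · simpa using h.s1 i
    · simpa [e11] using (h.s2 i).symm

/-- Label function `f` checked for steps `e ∈ E` and the exact step `x`. -/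
structure CheckC {K : Type*} [AddCommGroup K] (E : List K) (x : K) (f : K → ℕ) : Prop where
  le : ∀ j, f j ≤ 7
  fr : ∀ j, ∀ e ∈ E, Far (f j) (f (j + e))
  fr2 : ∀ j, ∀ e ∈ E, ∀ e' ∈ E, f j ≠ f (j + e + e')
  ft : ∀ j, Far (f j) (f (j + x))
  c1 : ∀ j, ∀ e ∈ E, f (j + e) ≠ f (j + x)
  c2 : ∀ j, ∀ e ∈ E, f j ≠ f (j + e + x)

theorem cayOK_of_check {G K : Type*} [AddCommGroup G] [AddCommGroup K] (φ : G → K) {r τ : G}
    {E : List K} {x : K} (hs : Steps φ r E) (ht : ∀ g, φ (g + τ) = φ g + x) {f : K → ℕ}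
    (h : CheckC E x f) : CayOK r τ := by
  refine ⟨fun g => f (φ g), ?_⟩
  constructor
  · intro g; exact h.le _
  · intro g
    obtain ⟨e, he, h1⟩ := hs g
    simp only [h1]; exact h.fr _ e he
  · intro g
    obtain ⟨e, he, h1⟩ := hs g
    obtain ⟨e', he', h2⟩ := hs (g + r)
    simp only [h2, h1]; exact h.fr2 _ e he e' he'
  · intro g
    simp only [ht]; exact h.ft _
  · intro g
    obtain ⟨e, he, h1⟩ := hs g
    simp only [h1, ht]; exact h.c1 _ e he
  · intro g
    obtain ⟨e, he, h1⟩ := hs g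
    simp only [ht, h1]; exact h.c2 _ e he

theorem moebius_check : CheckC ([1, 2] : List (ZMod 8)) (4 : ZMod 8)
    (lab 8 [0, 3, 6, 1, 4, 7, 2, 5]) := by
  constructor <;> decide +kernel

theorem moebius_ten : CayOK (1 : ZMod 10) (5 : ZMod 10) := by
  refine ⟨lab 10 [0, 2, 4, 0, 2, 4, 6, 1, 3, 5], ?_⟩
  constructor <;> decide +kernel

theorem moebius_ok (m : ℕ) (hm : 2 ≤ m) : CayOK (1 : ZMod (2 * m)) (m : ZMod (2 * m)) := by
  by_cases h5 : m = 5
  · subst h5
    exact moebius_ten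
  obtain ⟨w, h1, h2⟩ : ∃ w : ℕ, m ≤ 4 * (2 * w + 1) ∧ 4 * (2 * w + 1) ≤ 2 * m := by
    by_cases h6 : 6 ≤ m
    · exact ⟨(m + 4) / 8, by omega, by omega⟩
    · exact ⟨0, by omega, by omega⟩
  have hm0 : 0 < 2 * m := by omega
  have hne : NeZero (2 * m) := ⟨hm0.ne'⟩
  obtain ⟨c, hc⟩ : ∃ c, c = 2 * w + 1 := ⟨_, rfl⟩
  rw [← hc] at h1 h2
  have hv : ((AddMonoidHom.mulLeft (c : ZMod (2 * m))) 1).val = c := by
    simp only [AddMonoidHom.coe_mulLeft, mul_one]
    rw [ZMod.val_natCast, Nat.mod_eq_of_lt (by omega)]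
  have hcm : (c : ZMod (2 * m)) * (m : ZMod (2 * m)) = (m : ZMod (2 * m)) := by
    have h0 : ((2 * m : ℕ) : ZMod (2 * m)) = 0 := ZMod.natCast_self _
    rw [hc]; push_cast at h0 ⊢
    linear_combination (w : ZMod (2 * m)) * h0
  refine cayOK_of_check (fun z => coarse 8 (2 * m) (AddMonoidHom.mulLeft (c : ZMod (2 * m)) z))
    (E := [1, 2]) (x := 4) ?_ ?_ moebius_check
  · have := steps_coarse 8 (2 * m) hm0 (AddMonoidHom.mulLeft (c : ZMod (2 * m))) 1 1 1
      (by rw [hv]; omega) (by rw [hv]; omega)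
    exact this
  · intro g
    rw [map_add]
    have e : (AddMonoidHom.mulLeft (c : ZMod (2 * m))) (m : ZMod (2 * m)) = (m : ZMod (2 * m)) := by
      simp only [AddMonoidHom.coe_mulLeft]; exact hcm
    rw [e]
    have hvm : ((m : ZMod (2 * m))).val = m := by
      rw [ZMod.val_natCast, Nat.mod_eq_of_lt (by omega)]
    obtain ⟨e, he1, he2, he3⟩ := coarse_step 8 (2 * m) hm0 (m : ZMod (2 * m)) 4 4
      (by rw [hvm]; omega) (by rw [hvm]; omega)
      ((AddMonoidHom.mulLeft (c : ZMod (2 * m))) g)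
    have e4 : e = 4 := by omega
    rw [he3, e4]
    rfl

/-- Connection set `r, -r, τ` in any finite abelian group. -/
theorem cay_all {G : Type*} [AddCommGroup G] [Finite G] (r τ : G) (hr : r + r ≠ 0)
    (hτ : τ + τ = 0) (hτ0 : τ ≠ 0) : CayOK r τ := by
  by_cases hm : τ ∈ AddSubgroup.zmultiples r
  · obtain ⟨m, hm0, ha, rfl⟩ := invol_in_cyclic hτ hτ0 hm
    have hm2 : 2 ≤ m := by
      by_contra hcon
      have hm1 : m = 1 := by omega
      subst hm1
      apply hr
      have := addOrderOf_nsmul_eq_zero r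
      rw [ha] at this
      simpa [two_nsmul] using this
    apply cayOK_of_rel (x := (1 : ZMod (2 * m))) (y := (m : ZMod (2 * m))) _ (moebius_ok m hm2)
    intro u v huv
    rw [← mul_smul, ← add_smul] at huv
    have h1 := addOrderOf_dvd_iff_zsmul_eq_zero.2 huv
    rw [ha] at h1
    have h2 := (ZMod.intCast_zmod_eq_zero_iff_dvd _ (2 * m)).2 h1
    push_cast at h2
    rw [zsmul_eq_mul, zsmul_eq_mul, mul_one]
    exact h2
  · obtain ⟨n, hn⟩ : ∃ n, n = addOrderOf r := ⟨_, rfl⟩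
    have hn0 : 0 < n := by rw [hn]; exact addOrderOf_pos r
    have hn3 : 3 ≤ n := by
      by_contra hcon
      apply hr
      have := addOrderOf_nsmul_eq_zero r
      rw [← hn] at this
      have h12 : n = 1 ∨ n = 2 := by omega
      rcases h12 with h | h
      · rw [h, one_nsmul] at this; rw [this, add_zero]
      · rw [h, two_nsmul] at this; exact this
    apply cayOK_of_rel (x := ((1, 0) : ZMod n × ZMod 2)) (y := ((0, 1) : ZMod n × ZMod 2)) _
      (prism_ok n hn3)
    intro u v huv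
    rcases zsmul_invol hτ v with ⟨hv, hv'⟩ | ⟨hv, hv'⟩
    · rw [hv', add_zero] at huv
      have h1 := addOrderOf_dvd_iff_zsmul_eq_zero.2 huv
      rw [← hn] at h1
      have h2 := (ZMod.intCast_zmod_eq_zero_iff_dvd u n).2 h1
      have h3 := (ZMod.intCast_zmod_eq_zero_iff_dvd v 2).2 (Int.dvd_of_emod_eq_zero hv)
      rw [Prod.smul_mk, Prod.smul_mk, smul_zero, smul_zero, Prod.mk_add_mk, zero_add, add_zero]
      simp only [zsmul_eq_mul, mul_one, h2, h3]
      rfl
    · exfalso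
      apply hm
      rw [hv'] at huv
      have : τ = (-u) • r := by
        rw [neg_smul]; exact eq_neg_of_add_eq_zero_right huv
      rw [this]
      exact AddSubgroup.zsmul_mem_zmultiples _ _

/-- Valid labels for three involutions. -/
structure Cay3 {G : Type*} [AddCommGroup G] (a b c : G) (f : G → ℕ) : Prop where
  le : ∀ g, f g ≤ 7
  fa : ∀ g, Far (f g) (f (g + a))
  fb : ∀ g, Far (f g) (f (g + b))
  fc : ∀ g, Far (f g) (f (g + c))
  ab : ∀ g, f (g + a) ≠ f (g + b)
  ac : ∀ g, f (g + a) ≠ f (g + c)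
  bc : ∀ g, f (g + b) ≠ f (g + c)

theorem cay3_all {G : Type*} [AddCommGroup G] (a b c : G) (ha : a + a = 0) (hb : b + b = 0)
    (hc : c + c = 0) (ha0 : a ≠ 0) (hb0 : b ≠ 0) (hc0 : c ≠ 0) (hab : a ≠ b) (hac : a ≠ c)
    (hbc : b ≠ c) : ∃ f : G → ℕ, Cay3 a b c f := by
  have e2 : ∀ u : ℤ, u % 2 = 0 → ((u : ℤ) : ZMod 2) = 0 := fun u hu =>
    (ZMod.intCast_zmod_eq_zero_iff_dvd u 2).2 (Int.dvd_of_emod_eq_zero hu)
  have e1 : ∀ u : ℤ, u % 2 = 1 → ((u : ℤ) : ZMod 2) = 1 := by
    intro u hu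
    have h := (ZMod.intCast_zmod_eq_zero_iff_dvd (u - 1) 2).2 (by omega)
    push_cast at h
    exact sub_eq_zero.1 h
  by_cases h : c = a + b
  · obtain ⟨φ, p1, p2, p3⟩ := exists_phi3 a b c ((1, 0) : ZMod 2 × ZMod 2)
      ((0, 1) : ZMod 2 × ZMod 2) ((1, 1) : ZMod 2 × ZMod 2) (by
      intro u v w huvw
      simp only [Prod.smul_mk, smul_zero, Prod.mk_add_mk, add_zero, zero_add, zsmul_eq_mul,
        mul_one]
      rcases zsmul_invol ha u with ⟨hu, hu'⟩ | ⟨hu, hu'⟩ <;>
      rcases zsmul_invol hb v with ⟨hv, hv'⟩ | ⟨hv, hv'⟩ <;>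
      rcases zsmul_invol hc w with ⟨hw, hw'⟩ | ⟨hw, hw'⟩ <;>
      rw [hu', hv', hw'] at huvw
      · rw [e2 u hu, e2 v hv, e2 w hw]; rfl
      · exfalso; apply hc0; simpa using huvw
      · exfalso; apply hb0; simpa using huvw
      · exfalso; apply hbc
        rw [zero_add] at huvw
        calc b = b + c + c := by rw [add_assoc, hc, add_zero]
          _ = c := by rw [huvw, zero_add]
      · exfalso; apply ha0; simpa using huvw
      · exfalso; apply hac
        rw [add_zero] at huvw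
        calc a = a + c + c := by rw [add_assoc, hc, add_zero]
          _ = c := by rw [huvw, zero_add]
      · exfalso; apply hab
        rw [add_zero] at huvw
        calc a = a + b + b := by rw [add_assoc, hb, add_zero]
          _ = b := by rw [huvw, zero_add]
      · rw [e1 u hu, e1 v hv, e1 w hw]; decide)
    refine ⟨fun g => 2 * (φ g).1.val + 4 * (φ g).2.val, ?_⟩
    have key : ∀ p : ZMod 2 × ZMod 2, 2 * p.1.val + 4 * p.2.val ≤ 7 ∧
        Far (2 * p.1.val + 4 * p.2.val) (2 * (p + (1, 0)).1.val + 4 * (p + (1, 0)).2.val) ∧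
        Far (2 * p.1.val + 4 * p.2.val) (2 * (p + (0, 1)).1.val + 4 * (p + (0, 1)).2.val) ∧
        Far (2 * p.1.val + 4 * p.2.val) (2 * (p + (1, 1)).1.val + 4 * (p + (1, 1)).2.val) ∧
        2 * (p + (1, 0)).1.val + 4 * (p + (1, 0)).2.val ≠
          2 * (p + (0, 1)).1.val + 4 * (p + (0, 1)).2.val ∧
        2 * (p + (1, 0)).1.val + 4 * (p + (1, 0)).2.val ≠
          2 * (p + (1, 1)).1.val + 4 * (p + (1, 1)).2.val ∧
        2 * (p + (0, 1)).1.val + 4 * (p + (0, 1)).2.val ≠
          2 * (p + (1, 1)).1.val + 4 * (p + (1, 1)).2.val := by decide +kernel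
    constructor <;> intro g <;> try simp only [p1, p2, p3]
    · exact (key _).1
    · exact (key _).2.1
    · exact (key _).2.2.1
    · exact (key _).2.2.2.1
    · exact (key _).2.2.2.2.1
    · exact (key _).2.2.2.2.2.1
    · exact (key _).2.2.2.2.2.2
  · obtain ⟨φ, p1, p2, p3⟩ := exists_phi3 a b c ((1, 0, 0) : ZMod 2 × ZMod 2 × ZMod 2)
      ((0, 1, 0) : ZMod 2 × ZMod 2 × ZMod 2) ((0, 0, 1) : ZMod 2 × ZMod 2 × ZMod 2) (by
      intro u v w huvw
      simp only [Prod.smul_mk, smul_zero, Prod.mk_add_mk, add_zero, zero_add, zsmul_eq_mul,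
        mul_one]
      rcases zsmul_invol ha u with ⟨hu, hu'⟩ | ⟨hu, hu'⟩ <;>
      rcases zsmul_invol hb v with ⟨hv, hv'⟩ | ⟨hv, hv'⟩ <;>
      rcases zsmul_invol hc w with ⟨hw, hw'⟩ | ⟨hw, hw'⟩ <;>
      rw [hu', hv', hw'] at huvw
      · rw [e2 u hu, e2 v hv, e2 w hw]; rfl
      · exfalso; apply hc0; simpa using huvw
      · exfalso; apply hb0; simpa using huvw
      · exfalso; apply hbc
        rw [zero_add] at huvw
        calc b = b + c + c := by rw [add_assoc, hc, add_zero]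
          _ = c := by rw [huvw, zero_add]
      · exfalso; apply ha0; simpa using huvw
      · exfalso; apply hac
        rw [add_zero] at huvw
        calc a = a + c + c := by rw [add_assoc, hc, add_zero]
          _ = c := by rw [huvw, zero_add]
      · exfalso; apply hab
        rw [add_zero] at huvw
        calc a = a + b + b := by rw [add_assoc, hb, add_zero]
          _ = b := by rw [huvw, zero_add]
      · exfalso; apply h
        calc c = a + b + c + (a + b) - (a + a) - (b + b) := by abel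
          _ = a + b := by rw [huvw, ha, hb]; abel)
    let F : ZMod 2 × ZMod 2 × ZMod 2 → ℕ := fun p =>
      [0, 2, 3, 5, 4, 6, 7, 1].getD (4 * p.1.val + 2 * p.2.1.val + p.2.2.val) 0
    refine ⟨fun g => F (φ g), ?_⟩
    have key : ∀ p : ZMod 2 × ZMod 2 × ZMod 2, F p ≤ 7 ∧
        Far (F p) (F (p + (1, 0, 0))) ∧ Far (F p) (F (p + (0, 1, 0))) ∧
        Far (F p) (F (p + (0, 0, 1))) ∧ F (p + (1, 0, 0)) ≠ F (p + (0, 1, 0)) ∧
        F (p + (1, 0, 0)) ≠ F (p + (0, 0, 1)) ∧ F (p + (0, 1, 0)) ≠ F (p + (0, 0, 1)) := by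
      decide +kernel
    constructor <;> intro g <;> try simp only [p1, p2, p3]
    · exact (key _).1
    · exact (key _).2.1
    · exact (key _).2.2.1
    · exact (key _).2.2.2.1
    · exact (key _).2.2.2.2.1
    · exact (key _).2.2.2.2.2.1
    · exact (key _).2.2.2.2.2.2

end Pool.Agent.helper85.L21
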