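import Mathlib

/-! # Labellings with a condition at distance two: pulled back periodic labellings -/

set_option autoImplicit false

namespace Pool.Agent.helper85.L21

/-- The labels `a` and `b` differ by at least two. -/
def Far (a b : ℕ) : Prop := a + 2 ≤ b ∨ b + 2 ≤ a

instance : DecidableRel Far := fun a b => by unfold Far; infer_instance

theorem Far.symm {a b : ℕ} (h : Far a b) : Far b a := Or.symm h

/-- The two label functions `A`, `B` on the group `G` give a valid labelling with labels `0..7` of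
the cubic graph with vertices `U_g`, `V_g` and edges `U_g U_{g+s}`, `V_g V_{g+t}`, `U_g V_g`. -/
structure Dum {G : Type*} [AddCommGroup G] (s t : G) (A B : G → ℕ) : Prop where
  leA : ∀ g, A g ≤ 7
  leB : ∀ g, B g ≤ 7
  aa : ∀ g, Far (A g) (A (g + s))
  aa2 : ∀ g, A g ≠ A (g + s + s)
  bb : ∀ g, Far (B g) (B (g + t))
  bb2 : ∀ g, B g ≠ B (g + t + t)
  ab : ∀ g, Far (A g) (B g)
  s1 : ∀ g, A g ≠ B (g + s)
  s2 : ∀ g, A (g + s) ≠ B g
  t1 : ∀ g, A g ≠ B (g + t)
  t2 : ∀ g, A (g + t) ≠ B g

/-- Some pair of label functions works. -/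
def DumOK {G : Type*} [AddCommGroup G] (s t : G) : Prop := ∃ A B : G → ℕ, Dum s t A B

section basic
variable {G H : Type*} [AddCommGroup G] [AddCommGroup H]

theorem DumOK.comap (f : G →+ H) {s t : G} (h : DumOK (f s) (f t)) : DumOK s t := by
  obtain ⟨A, B, h⟩ := h
  refine ⟨fun g => A (f g), fun g => B (f g), ?_⟩
  constructor
  · intro g; exact h.leA _
  · intro g; exact h.leB _
  · intro g; simpa using h.aa (f g)
  · intro g; simpa using h.aa2 (f g)
  · intro g; simpa using h.bb (f g)
  · intro g; simpa using h.bb2 (f g)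
  · intro g; exact h.ab _
  · intro g; simpa using h.s1 (f g)
  · intro g; simpa using h.s2 (f g)
  · intro g; simpa using h.t1 (f g)
  · intro g; simpa using h.t2 (f g)

theorem DumOK.swap {s t : G} (h : DumOK s t) : DumOK t s := by
  obtain ⟨A, B, h⟩ := h
  refine ⟨B, A, ?_⟩
  constructor
  · exact h.leB
  · exact h.leA
  · exact h.bb
  · exact h.bb2
  · exact h.aa
  · exact h.aa2
  · intro g; exact (h.ab g).symm
  · intro g; exact (h.t2 g).symm
  · intro g; exact (h.t1 g).symm
  · intro g; exact (h.s2 g).symm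
  · intro g; exact (h.s1 g).symm

theorem DumOK.negLeft {s t : G} (h : DumOK s t) : DumOK (-s) t := by
  obtain ⟨A, B, h⟩ := h
  refine ⟨A, B, ?_⟩
  constructor
  · exact h.leA
  · exact h.leB
  · intro g; have := h.aa (g + -s); rw [neg_add_cancel_right] at this; exact this.symm
  · intro g; have := h.aa2 (g + -s + -s); rw [neg_add_cancel_right, neg_add_cancel_right] at this
    exact this.symm
  · exact h.bb
  · exact h.bb2
  · exact h.ab
  · intro g; have := h.s2 (g + -s); rw [neg_add_cancel_right] at this; exact this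
  · intro g; have := h.s1 (g + -s); rw [neg_add_cancel_right] at this; exact this
  · exact h.t1
  · exact h.t2

theorem DumOK.negRight {s t : G} (h : DumOK s t) : DumOK s (-t) := h.swap.negLeft.swap

theorem dumOK_neg_left {s t : G} : DumOK (-s) t ↔ DumOK s t :=
  ⟨fun h => by simpa using h.negLeft, fun h => h.negLeft⟩

theorem dumOK_neg_right {s t : G} : DumOK s (-t) ↔ DumOK s t :=
  ⟨fun h => by simpa using h.negRight, fun h => h.negRight⟩

end basic

/-- Finite check that a pair of label functions on `K` is compatible with all steps from the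
lists `E` (for the first cycle direction) and `F` (for the second one). -/
structure Check {K : Type*} [AddCommGroup K] (E F : List K) (A B : K → ℕ) : Prop where
  leA : ∀ j, A j ≤ 7
  leB : ∀ j, B j ≤ 7
  aa : ∀ j, ∀ e ∈ E, Far (A j) (A (j + e))
  aa2 : ∀ j, ∀ e ∈ E, ∀ e' ∈ E, A j ≠ A (j + e + e')
  bb : ∀ j, ∀ e ∈ F, Far (B j) (B (j + e))
  bb2 : ∀ j, ∀ e ∈ F, ∀ e' ∈ F, B j ≠ B (j + e + e')
  ab : ∀ j, Far (A j) (B j)
  s1 : ∀ j, ∀ e ∈ E, A j ≠ B (j + e)
  s2 : ∀ j, ∀ e ∈ E, A (j + e) ≠ B j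
  t1 : ∀ j, ∀ e ∈ F, A j ≠ B (j + e)
  t2 : ∀ j, ∀ e ∈ F, A (j + e) ≠ B j

/-- The map `φ` moves by an element of `E` when its argument moves by `s`. -/
def Steps {G K : Type*} [AddCommGroup G] [AddCommGroup K] (φ : G → K) (s : G) (E : List K) : Prop :=
  ∀ g, ∃ e ∈ E, φ (g + s) = φ g + e

theorem dumOK_of_check {G K : Type*} [AddCommGroup G] [AddCommGroup K] (φ : G → K) {s t : G}
    {E F : List K} (hs : Steps φ s E) (ht : Steps φ t F) {A B : K → ℕ} (h : Check E F A B) :
    DumOK s t := by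
  refine ⟨fun g => A (φ g), fun g => B (φ g), ?_⟩
  constructor
  · intro g; exact h.leA _
  · intro g; exact h.leB _
  · intro g
    obtain ⟨e, he, h1⟩ := hs g
    simp only [h1]; exact h.aa _ e he
  · intro g
    obtain ⟨e, he, h1⟩ := hs g
    obtain ⟨e', he', h2⟩ := hs (g + s)
    simp only [h2, h1]; exact h.aa2 _ e he e' he'
  · intro g
    obtain ⟨e, he, h1⟩ := ht g
    simp only [h1]; exact h.bb _ e he
  · intro g
    obtain ⟨e, he, h1⟩ := ht g
    obtain ⟨e', he', h2⟩ := ht (g + t)
    simp only [h2, h1]; exact h.bb2 _ e he e' he'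
  · intro g; exact h.ab _
  · intro g
    obtain ⟨e, he, h1⟩ := hs g
    simp only [h1]; exact h.s1 _ e he
  · intro g
    obtain ⟨e, he, h1⟩ := hs g
    simp only [h1]; exact h.s2 _ e he
  · intro g
    obtain ⟨e, he, h1⟩ := ht g
    simp only [h1]; exact h.t1 _ e he
  · intro g
    obtain ⟨e, he, h1⟩ := ht g
    simp only [h1]; exact h.t2 _ e he

/-- The coarse position, on a circle of length `N`, of an element of a cyclic group. -/
def coarse (N m : ℕ) (z : ZMod m) : ZMod N := ((N * z.val / m : ℕ) : ZMod N)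

theorem coarse_add (N m : ℕ) (hm : 0 < m) (z δ : ZMod m) :
    coarse N m (z + δ) = ((N * (z.val + δ.val) / m : ℕ) : ZMod N) := by
  have : NeZero m := ⟨hm.ne'⟩
  unfold coarse
  rw [ZMod.val_add]
  have hz := ZMod.val_lt z
  have hd := ZMod.val_lt δ
  rcases lt_or_ge (z.val + δ.val) m with h | h
  · rw [Nat.mod_eq_of_lt h]
  · have e1 : (z.val + δ.val) % m = z.val + δ.val - m := by
      rw [Nat.mod_eq_sub_mod h, Nat.mod_eq_of_lt]; omega
    rw [e1]
    obtain ⟨w, hw⟩ := Nat.exists_eq_add_of_le h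
    have e2 : z.val + δ.val - m = w := by omega
    rw [e2, hw]
    have e3 : N * (m + w) / m = N * w / m + N := by
      rw [Nat.mul_add, Nat.add_comm (N * m), Nat.add_mul_div_right _ _ hm]
    rw [e3]
    simp

theorem coarse_step (N m : ℕ) (hm : 0 < m) (δ : ZMod m) (lo hi : ℕ) (h1 : lo * m ≤ N * δ.val)
    (h2 : N * δ.val ≤ hi * m) (z : ZMod m) :
    ∃ e : ℕ, lo ≤ e ∧ e ≤ hi ∧ coarse N m (z + δ) = coarse N m z + (e : ZMod N) := by
  have e1 : N * z.val / m + lo ≤ N * (z.val + δ.val) / m := by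
    rw [← Nat.add_mul_div_right _ _ hm]
    apply Nat.div_le_div_right
    rw [Nat.mul_add]; omega
  have e2 : N * (z.val + δ.val) / m ≤ N * z.val / m + hi := by
    rw [← Nat.add_mul_div_right _ _ hm]
    apply Nat.div_le_div_right
    rw [Nat.mul_add]; omega
  refine ⟨N * (z.val + δ.val) / m - N * z.val / m, by omega, by omega, ?_⟩
  rw [coarse_add N m hm]
  unfold coarse
  rw [← Nat.cast_add]
  congr 1
  omega

/-- Steps of a character composed with the coarse position. -/
theorem steps_coarse {G : Type*} [AddCommGroup G] (N m : ℕ) (hm : 0 < m) (χ : G →+ ZMod m) (s : G)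
    (lo w : ℕ) (h1 : lo * m ≤ N * (χ s).val) (h2 : N * (χ s).val ≤ (lo + w) * m) :
    Steps (fun g => coarse N m (χ g)) s
      ((List.range (w + 1)).map (fun i => ((lo + i : ℕ) : ZMod N))) := by
  intro g
  obtain ⟨e, he1, he2, he3⟩ := coarse_step N m hm (χ s) lo (lo + w) h1 h2 (χ g)
  refine ⟨(e : ZMod N), ?_, ?_⟩
  · rw [List.mem_map]
    refine ⟨e - lo, ?_, ?_⟩
    · rw [List.mem_range]; omega
    · congr 1; omega
  · simp only [map_add]
    exact he3

/-- Label function given by a list. -/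
def lab (N : ℕ) (l : List ℕ) (j : ZMod N) : ℕ := l.getD j.val 0

end Pool.Agent.helper85.L21
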