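import Pool.Agent.helper85.L21.MixT

/-! # Two orbits of four-cycles from involutions -/

set_option autoImplicit false

namespace Pool.Agent.helper85.L21

/-- Valid labels for the graph with edges `U_g U_{g+t₁}`, `U_g U_{g+t₂}`, `V_g V_{g+t₃}`,
`V_g V_{g+t₄}`, `U_g V_g`, where the `tᵢ` are involutions. -/
structure Four {G : Type*} [AddCommGroup G] (t1 t2 t3 t4 : G) (A B : G → ℕ) : Prop where
  leA : ∀ g, A g ≤ 7
  leB : ∀ g, B g ≤ 7
  a1 : ∀ g, Far (A g) (A (g + t1))
  a2 : ∀ g, Far (A g) (A (g + t2))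
  a12 : ∀ g, A (g + t1) ≠ A (g + t2)
  b3 : ∀ g, Far (B g) (B (g + t3))
  b4 : ∀ g, Far (B g) (B (g + t4))
  b34 : ∀ g, B (g + t3) ≠ B (g + t4)
  ab : ∀ g, Far (A g) (B g)
  u1 : ∀ g, A (g + t1) ≠ B g
  u2 : ∀ g, A (g + t2) ≠ B g
  v3 : ∀ g, B (g + t3) ≠ A g
  v4 : ∀ g, B (g + t4) ≠ A g

def FourOK {G : Type*} [AddCommGroup G] (t1 t2 t3 t4 : G) : Prop :=
  ∃ A B : G → ℕ, Four t1 t2 t3 t4 A B

theorem four_of_phi {G K : Type*} [AddCommGroup G] [AddCommGroup K] {t1 t2 t3 t4 : G}
    {x1 x2 x3 x4 : K} (φ : G → K) (h1 : ∀ g, φ (g + t1) = φ g + x1)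
    (h2 : ∀ g, φ (g + t2) = φ g + x2) (h3 : ∀ g, φ (g + t3) = φ g + x3)
    (h4 : ∀ g, φ (g + t4) = φ g + x4) (h : FourOK x1 x2 x3 x4) : FourOK t1 t2 t3 t4 := by
  obtain ⟨A, B, h⟩ := h
  refine ⟨fun g => A (φ g), fun g => B (φ g), ?_⟩
  constructor
  · intro g; exact h.leA _
  · intro g; exact h.leB _
  · intro g; simpa only [h1] using h.a1 (φ g)
  · intro g; simpa only [h2] using h.a2 (φ g)
  · intro g; simpa only [h1, h2] using h.a12 (φ g)
  · intro g; simpa only [h3] using h.b3 (φ g)
  · intro g; simpa only [h4] using h.b4 (φ g)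
  · intro g; simpa only [h3, h4] using h.b34 (φ g)
  · intro g; exact h.ab _
  · intro g; simpa only [h1] using h.u1 (φ g)
  · intro g; simpa only [h2] using h.u2 (φ g)
  · intro g; simpa only [h3] using h.v3 (φ g)
  · intro g; simpa only [h4] using h.v4 (φ g)

theorem FourOK.comap {G H : Type*} [AddCommGroup G] [AddCommGroup H] (f : G →+ H)
    {t1 t2 t3 t4 : G} (h : FourOK (f t1) (f t2) (f t3) (f t4)) : FourOK t1 t2 t3 t4 :=
  four_of_phi f (fun g => map_add f g t1) (fun g => map_add f g t2) (fun g => map_add f g t3)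
    (fun g => map_add f g t4) h

theorem FourOK.swapR {G : Type*} [AddCommGroup G] {t1 t2 t3 t4 : G} (h : FourOK t1 t2 t3 t4) :
    FourOK t1 t2 t4 t3 := by
  obtain ⟨A, B, h⟩ := h
  exact ⟨A, B, ⟨h.leA, h.leB, h.a1, h.a2, h.a12, h.b4, h.b3, fun g => (h.b34 g).symm, h.ab,
    h.u1, h.u2, h.v4, h.v3⟩⟩

/-- Labels on the Klein four group from a list. -/
def labV (l : List ℕ) (p : ZMod 2 × ZMod 2) : ℕ := l.getD (p.1.val + 2 * p.2.val) 0

theorem four_a : FourOK ((1, 0) : ZMod 2 × ZMod 2) (0, 1) (1, 0) (0, 1) := by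
  refine ⟨labV [0, 2, 3, 5], labV [4, 6, 7, 0], ?_⟩
  constructor <;> decide +kernel

theorem four_b : FourOK ((1, 0) : ZMod 2 × ZMod 2) (0, 1) (1, 0) (1, 1) := by
  refine ⟨labV [0, 2, 3, 5], labV [4, 6, 1, 7], ?_⟩
  constructor <;> decide +kernel

theorem four_c : FourOK ((1, 0) : ZMod 2 × ZMod 2) (0, 1) (0, 1) (1, 1) := by
  refine ⟨labV [0, 2, 3, 6], labV [4, 5, 7, 1], ?_⟩
  constructor <;> decide +kernel

theorem four_klein (x3 x4 : ZMod 2 × ZMod 2)
    (h : (x3, x4) ∈ ([((1, 0), (0, 1)), ((0, 1), (1, 0)), ((1, 0), (1, 1)), ((1, 1), (1, 0)),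
      ((0, 1), (1, 1)), ((1, 1), (0, 1))] : List ((ZMod 2 × ZMod 2) × (ZMod 2 × ZMod 2)))) :
    FourOK ((1, 0) : ZMod 2 × ZMod 2) (0, 1) x3 x4 := by
  simp only [List.mem_cons, Prod.mk.injEq, List.not_mem_nil, or_false] at h
  obtain ⟨a, b⟩ := x3
  obtain ⟨c, d⟩ := x4
  simp only [Prod.mk.injEq] at h
  rcases h with ⟨⟨rfl, rfl⟩, ⟨rfl, rfl⟩⟩ | ⟨⟨rfl, rfl⟩, ⟨rfl, rfl⟩⟩ | ⟨⟨rfl, rfl⟩, ⟨rfl, rfl⟩⟩ |
    ⟨⟨rfl, rfl⟩, ⟨rfl, rfl⟩⟩ | ⟨⟨rfl, rfl⟩, ⟨rfl, rfl⟩⟩ | ⟨⟨rfl, rfl⟩, ⟨rfl, rfl⟩⟩
  · exact four_a
  · exact four_a.swapR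
  · exact four_b
  · exact four_b.swapR
  · exact four_c
  · exact four_c.swapR

/-- The case in which the two four-groups coincide. -/
theorem four_same {G : Type*} [AddCommGroup G] (t1 t2 t3 t4 : G) (h1 : t1 + t1 = 0)
    (h2 : t2 + t2 = 0) (h10 : t1 ≠ 0) (h20 : t2 ≠ 0) (h12 : t1 ≠ t2)
    (m3 : t3 = t1 ∨ t3 = t2 ∨ t3 = t1 + t2) (m4 : t4 = t1 ∨ t4 = t2 ∨ t4 = t1 + t2)
    (h34 : t3 ≠ t4) : FourOK t1 t2 t3 t4 := by
  have hx0 : t1 + t2 ≠ 0 := by
    intro h
    apply h12
    calc t1 = t1 + t2 + t2 := by rw [add_assoc, h2, add_zero]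
      _ = t2 := by rw [h, zero_add]
  obtain ⟨φ, p1, p2⟩ := exists_phi t1 t2 ((1, 0) : ZMod 2 × ZMod 2) ((0, 1) : ZMod 2 × ZMod 2) (by
    intro u v huv
    have e2 : ∀ u : ℤ, u % 2 = 0 → ((u : ℤ) : ZMod 2) = 0 := fun u hu =>
      (ZMod.intCast_zmod_eq_zero_iff_dvd u 2).2 (Int.dvd_of_emod_eq_zero hu)
    simp only [Prod.smul_mk, smul_zero, Prod.mk_add_mk, add_zero, zero_add, zsmul_eq_mul,
      mul_one]
    rcases zsmul_invol h1 u with ⟨hu, hu'⟩ | ⟨hu, hu'⟩ <;>
    rcases zsmul_invol h2 v with ⟨hv, hv'⟩ | ⟨hv, hv'⟩ <;>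
    rw [hu', hv'] at huv
    · rw [e2 u hu, e2 v hv]; rfl
    · exfalso; apply h20; simpa using huv
    · exfalso; apply h10; simpa using huv
    · exact absurd huv hx0)
  have p12 : ∀ g, φ (g + (t1 + t2)) = φ g + (1, 1) := by
    intro g
    rw [← add_assoc, p2, p1, add_assoc]; rfl
  have q : ∀ t, (t = t1 ∨ t = t2 ∨ t = t1 + t2) → ∃ x : ZMod 2 × ZMod 2,
      (∀ g, φ (g + t) = φ g + x) ∧ ((t = t1 ∧ x = (1, 0)) ∨ (t = t2 ∧ x = (0, 1)) ∨
        (t = t1 + t2 ∧ x = (1, 1))) := by
    rintro t (rfl | rfl | rfl)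
    · exact ⟨_, p1, Or.inl ⟨rfl, rfl⟩⟩
    · exact ⟨_, p2, Or.inr (Or.inl ⟨rfl, rfl⟩)⟩
    · exact ⟨_, p12, Or.inr (Or.inr ⟨rfl, rfl⟩)⟩
  obtain ⟨x3, p3, c3⟩ := q t3 m3
  obtain ⟨x4, p4, c4⟩ := q t4 m4
  apply four_of_phi φ p1 p2 p3 p4
  apply four_klein
  rcases c3 with ⟨e3, rfl⟩ | ⟨e3, rfl⟩ | ⟨e3, rfl⟩ <;>
  rcases c4 with ⟨e4, rfl⟩ | ⟨e4, rfl⟩ | ⟨e4, rfl⟩
  · exact absurd (e3.trans e4.symm) h34
  · simp
  · simp
  · simp
  · exact absurd (e3.trans e4.symm) h34
  · simp
  · simp
  · simp
  · exact absurd (e3.trans e4.symm) h34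

/-- The six elements which span the two four-groups. -/
def InW {G : Type*} [AddCommGroup G] (t1 t2 x : G) : Prop := x = t1 ∨ x = t2 ∨ x = t1 + t2

theorem four_all_aux (n : ℕ) : ∀ (G : Type*) [AddCommGroup G] [Finite G], Nat.card G = n →
    ∀ t1 t2 t3 t4 : G, t1 + t1 = 0 → t2 + t2 = 0 → t3 + t3 = 0 → t4 + t4 = 0 →
    t1 ≠ 0 → t2 ≠ 0 → t3 ≠ 0 → t4 ≠ 0 → t1 ≠ t2 → t3 ≠ t4 → FourOK t1 t2 t3 t4 := by
  induction n using Nat.strong_induction_on with
  | _ n ih =>
  intro G _ _ hcard t1 t2 t3 t4 h1 h2 h3 h4 h10 h20 h30 h40 h12 h34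
  by_cases hx : ∃ x : G, x ≠ 0 ∧ x + x = 0 ∧ ¬ InW t1 t2 x ∧ ¬ InW t3 t4 x
  · obtain ⟨x, hx0, hxx, hx12, hx34⟩ := hx
    unfold InW at hx12 hx34
    simp only [not_or] at hx12 hx34
    obtain ⟨a1, a2, a3⟩ := hx12
    obtain ⟨b1, b2, b3⟩ := hx34
    let N := AddSubgroup.zmultiples x
    apply FourOK.comap (QuotientAddGroup.mk' N)
    have h0 : ∀ y : G, y ≠ 0 → x ≠ y → (QuotientAddGroup.mk' N) y ≠ 0 := by
      intro y hy hy' h
      rw [QuotientAddGroup.mk'_apply, QuotientAddGroup.eq_zero_iff] at h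
      rcases mem_zmultiples_invol hxx h with h | h
      · exact hy h
      · exact hy' h.symm
    have hsum : ∀ y z : G, z + z = 0 → y + z = 0 → y = z := by
      intro y z hz h
      calc y = y + z + z := by rw [add_assoc, hz, add_zero]
        _ = z := by rw [h, zero_add]
    have hne : ∀ y z : G, z + z = 0 → y ≠ z → x ≠ y + z →
        (QuotientAddGroup.mk' N) y ≠ (QuotientAddGroup.mk' N) z := by
      intro y z hz hyz hxyz h
      have h5 : (QuotientAddGroup.mk' N) (y + z) = 0 := by
        rw [map_add, h, ← map_add, hz, map_zero]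
      exact h0 (y + z) (fun h6 => hyz (hsum y z hz h6)) hxyz h5
    have hNc : Nat.card (G ⧸ N) < n := by
      rw [← hcard]
      have e1 := AddSubgroup.card_eq_card_quotient_mul_card_addSubgroup N
      have e2 : 1 < Nat.card N := by
        rw [Nat.card_zmultiples]
        have hp : 0 < addOrderOf x := addOrderOf_pos x
        have h1' : addOrderOf x ≠ 1 := by
          intro h; exact hx0 (AddMonoid.addOrderOf_eq_one_iff.1 h)
        omega
      have e3 : 0 < Nat.card (G ⧸ N) := Nat.card_pos
      rw [e1]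
      nlinarith
    refine ih _ hNc (G ⧸ N) rfl _ _ _ _ ?_ ?_ ?_ ?_ ?_ ?_ ?_ ?_ ?_ ?_
    · rw [← map_add, h1, map_zero]
    · rw [← map_add, h2, map_zero]
    · rw [← map_add, h3, map_zero]
    · rw [← map_add, h4, map_zero]
    · exact h0 _ h10 a1
    · exact h0 _ h20 a2
    · exact h0 _ h30 b1
    · exact h0 _ h40 b2
    · exact hne _ _ h2 h12 a3
    · exact hne _ _ h4 h34 b3
  · -- every involution lies in one of the two four-groups
    have hall : ∀ x : G, x ≠ 0 → x + x = 0 → InW t1 t2 x ∨ InW t3 t4 x := by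
      intro x hx0 hxx
      by_contra hcon
      rw [not_or] at hcon
      exact hx ⟨x, hx0, hxx, hcon.1, hcon.2⟩
    have hdbl : ∀ y z : G, y + y = 0 → z + z = 0 → (y + z) + (y + z) = 0 := by
      intro y z hy hz
      calc (y + z) + (y + z) = (y + y) + (z + z) := by abel
        _ = 0 := by rw [hy, hz, add_zero]
    have hcancel : ∀ y z : G, z + z = 0 → y + z + z = y := by
      intro y z hz; rw [add_assoc, hz, add_zero]
    -- an element outside the first four-group forces equality
    have key : ∀ a b c d x : G, a + a = 0 → b + b = 0 → c + c = 0 → d + d = 0 → a ≠ 0 → b ≠ 0 →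
        c ≠ 0 → d ≠ 0 → a ≠ b → c ≠ d → x + x = 0 → x ≠ 0 → InW c d x → ¬ InW a b x →
        (∀ y : G, y ≠ 0 → y + y = 0 → InW a b y ∨ InW c d y) → False := by
      intro a b c d x ha hb hc hd ha0 hb0 hc0 hd0 hab hcd hx hx0 hxcd hxab hyp
      -- `a ∈ ⟨c,d⟩` and `b ∈ ⟨c,d⟩`
      have step : ∀ y z : G, y + y = 0 → InW a b y → (y = a ∧ z = b ∨ y = b ∧ z = a) →
          InW c d y := by
        intro y z hy hyab _
        have hyx0 : y + x ≠ 0 := by
          intro h
          apply hxab
          have : x = y := by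
            calc x = y + x + y := by
                  rw [add_comm y x, hcancel x y hy]
              _ = y := by rw [h, zero_add]
          rw [this]; exact hyab
        rcases hyp (y + x) hyx0 (hdbl y x hy hx) with h | h
        · -- then `x` is in the first four-group
          exfalso
          apply hxab
          unfold InW at h hyab ⊢
          have e : x = y + x + y := by rw [add_comm y x, hcancel x y hy]
          rcases hyab with rfl | rfl | rfl <;> rcases h with h | h | h <;> rw [h] at e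
          · exfalso; apply hx0; rw [e, hy]
          · right; right; rw [e]; abel
          · right; left; rw [e]
            calc y + b + y = (y + y) + b := by abel
              _ = b := by rw [hy, zero_add]
          · right; right; rw [e]
          · exfalso; apply hx0; rw [e, hy]
          · left; rw [e, hcancel a y hy]
          · right; left; rw [e]
            calc a + (a + b) = (a + a) + b := by abel
              _ = b := by rw [ha, zero_add]
          · left; rw [e]
            calc b + (a + b) = (b + b) + a := by abel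
              _ = a := by rw [hb, zero_add]
          · exfalso; apply hx0; rw [e, hy]
        · -- then `y` is in the second four-group
          unfold InW at h hxcd ⊢
          have e : y = y + x + x := (hcancel y x hx).symm
          rcases hxcd with rfl | rfl | rfl <;> rcases h with h | h | h <;> rw [h] at e
          · exfalso
            have : y = 0 := by rw [e, hx]
            rw [this, zero_add] at h
            rw [this] at hyab
            unfold InW at hyab
            rcases hyab with h' | h' | h'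
            · exact ha0 h'.symm
            · exact hb0 h'.symm
            · apply hab
              calc a = a + b + b := (hcancel a b hb).symm
                _ = b := by rw [← h', zero_add]
          · right; right; rw [e]; abel
          · right; left; rw [e]
            calc x + d + x = (x + x) + d := by abel
              _ = d := by rw [hx, zero_add]
          · right; right; rw [e]
          · exfalso
            have : y = 0 := by rw [e, hx]
            rw [this] at hyab
            unfold InW at hyab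
            rcases hyab with h' | h' | h'
            · exact ha0 h'.symm
            · exact hb0 h'.symm
            · apply hab
              calc a = a + b + b := (hcancel a b hb).symm
                _ = b := by rw [← h', zero_add]
          · left; rw [e, hcancel c x hx]
          · right; left; rw [e]
            calc c + (c + d) = (c + c) + d := by abel
              _ = d := by rw [hc, zero_add]
          · left; rw [e]
            calc d + (c + d) = (d + d) + c := by abel
              _ = c := by rw [hd, zero_add]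
          · exfalso
            have : y = 0 := by rw [e, hx]
            rw [this] at hyab
            unfold InW at hyab
            rcases hyab with h' | h' | h'
            · exact ha0 h'.symm
            · exact hb0 h'.symm
            · apply hab
              calc a = a + b + b := (hcancel a b hb).symm
                _ = b := by rw [← h', zero_add]
      have hac := step a b ha (Or.inl rfl) (Or.inl ⟨rfl, rfl⟩)
      have hbc := step b a hb (Or.inr (Or.inl rfl)) (Or.inr ⟨rfl, rfl⟩)
      -- then `c, d` lie in the first four-group, hence also `x`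
      apply hxab
      unfold InW at hac hbc hxcd ⊢
      rcases hac with rfl | rfl | rfl <;> rcases hbc with rfl | rfl | rfl
      · exact absurd rfl hab
      · exact hxcd
      · -- a = c, b = c + d
        rcases hxcd with h | h | h
        · left; exact h
        · right; right; rw [h]
          calc d = (a + a) + d := by rw [ha, zero_add]
            _ = a + (a + d) := by abel
        · right; left; exact h
      · rcases hxcd with h | h | h
        · right; left; exact h
        · left; exact h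
        · right; right; rw [h]; abel
      · exact absurd rfl hab
      · -- a = d, b = c + d
        rcases hxcd with h | h | h
        · right; right; rw [h]
          calc c = c + (a + a) := by rw [ha, add_zero]
            _ = a + (c + a) := by abel
        · left; exact h
        · right; left; exact h
      · -- a = c + d, b = c
        rcases hxcd with h | h | h
        · right; left; exact h
        · right; right; rw [h]
          calc d = d + (b + b) := by rw [hb, add_zero]
            _ = b + d + b := by abel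
        · left; exact h
      · -- a = c + d, b = d
        rcases hxcd with h | h | h
        · right; right; rw [h]
          calc c = c + (b + b) := by rw [hb, add_zero]
            _ = c + b + b := by abel
        · right; left; exact h
        · left; exact h
      · exact absurd rfl hab
    have m3 : InW t1 t2 t3 := by
      by_contra hcon
      exact key t1 t2 t3 t4 t3 h1 h2 h3 h4 h10 h20 h30 h40 h12 h34 h3 h30 (Or.inl rfl) hcon hall
    have m4 : InW t1 t2 t4 := by
      by_contra hcon
      exact key t1 t2 t3 t4 t4 h1 h2 h3 h4 h10 h20 h30 h40 h12 h34 h4 h40 (Or.inr (Or.inl rfl))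
        hcon hall
    exact four_same t1 t2 t3 t4 h1 h2 h10 h20 h12 m3 m4 h34

theorem four_all {G : Type*} [AddCommGroup G] [Finite G] (t1 t2 t3 t4 : G) (h1 : t1 + t1 = 0)
    (h2 : t2 + t2 = 0) (h3 : t3 + t3 = 0) (h4 : t4 + t4 = 0) (h10 : t1 ≠ 0) (h20 : t2 ≠ 0)
    (h30 : t3 ≠ 0) (h40 : t4 ≠ 0) (h12 : t1 ≠ t2) (h34 : t3 ≠ t4) : FourOK t1 t2 t3 t4 :=
  four_all_aux (Nat.card G) G rfl t1 t2 t3 t4 h1 h2 h3 h4 h10 h20 h30 h40 h12 h34

end Pool.Agent.helper85.L21
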