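import Pool.Agent.helper85.L21.Phi
import Pool.Agent.helper85.L21.Cyc

/-! # The graphs of dumbbell type over all finite abelian groups -/

set_option autoImplicit false

namespace Pool.Agent.helper85.L21

/-- There is a good character of the group with relation lattice generated by `(a,0)`,
`(-β,d)`. -/
def Chr (a d β : ℕ) : Prop := ∃ i l : ℕ, i < a ∧ l < d ∧
  GoodXY (a * d) (d * i) ((β * i) % a + a * l)

theorem dumOK_of_lattice {G : Type*} [AddCommGroup G] {s t : G} {a d β : ℕ} (ha : 0 < a)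
    (hd : 0 < d)
    (hrel : ∀ u v : ℤ, u • s + v • t = 0 → ∃ w z : ℤ, u = -(w * β) + a * z ∧ v = d * w)
    (h : Chr a d β) : DumOK s t := by
  obtain ⟨i, l, hi, hl, hg⟩ := h
  have hm : 0 < a * d := Nat.mul_pos ha hd
  have hne : NeZero (a * d) := ⟨hm.ne'⟩
  apply dumOK_of_rel (x := ((d * i : ℕ) : ZMod (a * d)))
    (y := (((β * i) % a + a * l : ℕ) : ZMod (a * d)))
  · intro u v huv
    obtain ⟨w, z, rfl, rfl⟩ := hrel u v huv
    obtain ⟨q, hq⟩ : ∃ q : ℕ, β * i = (β * i) % a + a * q := ⟨_, (Nat.mod_add_div _ _).symm⟩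
    have hz : (a : ZMod (a * d)) * (d : ZMod (a * d)) = 0 := by
      rw [← Nat.cast_mul]; exact ZMod.natCast_self _
    have hq' : ((β * i : ℕ) : ZMod (a * d)) = (((β * i) % a + a * q : ℕ) : ZMod (a * d)) :=
      congrArg _ hq
    push_cast at hq'
    rw [zsmul_eq_mul, zsmul_eq_mul]
    push_cast
    linear_combination (-(w : ZMod (a * d)) * d) * hq' + ((z : ZMod (a * d)) * i + w * l - w * q) * hz
  · apply dumOK_of_goodXY hm (AddMonoidHom.id _)
    simp only [AddMonoidHom.id_apply]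
    rw [ZMod.val_natCast, ZMod.val_natCast, Nat.mod_eq_of_lt, Nat.mod_eq_of_lt]
    · exact hg
    · have h1 : (β * i) % a < a := Nat.mod_lt _ ha
      have h2 : a * (l + 1) ≤ a * d := Nat.mul_le_mul_left a hl
      rw [Nat.mul_add] at h2
      omega
    · rw [Nat.mul_comm a d]
      exact Nat.mul_lt_mul_of_pos_left hi hd

theorem chr_ge8 (a d β i : ℕ) (ha : 0 < a) (hd : 8 ≤ d) (h1 : a ≤ 8 * i) (h2 : 8 * i ≤ 3 * a) :
    Chr a d β := by
  have hr : (β * i) % a < a := Nat.mod_lt _ ha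
  obtain ⟨r, hr'⟩ : ∃ r, r = (β * i) % a := ⟨_, rfl⟩
  rw [← hr'] at hr
  obtain ⟨m, hm⟩ : ∃ m, m = a * d := ⟨_, rfl⟩
  have hm8 : 8 * a ≤ m := by rw [hm, Nat.mul_comm 8]; exact Nat.mul_le_mul_left a hd
  have key : ∀ T : ℕ, 1 ≤ T → T ≤ 2 → ∃ l, l < d ∧ T * m ≤ 8 * (r + a * l) ∧
      8 * (r + a * l) ≤ (T + 1) * m := by
    intro T hT1 hT2
    obtain ⟨l, hl⟩ : ∃ l, l = (T * m - 8 * r + 8 * a - 1) / (8 * a) := ⟨_, rfl⟩
    have hTm : m ≤ T * m := Nat.le_mul_of_pos_left m hT1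
    have e1 : T * m - 8 * r + 8 * a - 1 < 8 * a * (l + 1) := by
      rw [hl]; exact Nat.lt_mul_div_succ _ (by omega)
    have e2 : 8 * a * l ≤ T * m - 8 * r + 8 * a - 1 := by
      rw [hl]; exact Nat.mul_div_le _ _
    have e3 : 8 * a * (l + 1) = 8 * (a * l) + 8 * a := by ring
    have e4 : 8 * a * l = 8 * (a * l) := by ring
    have e5 : (T + 1) * m = T * m + m := by ring
    refine ⟨l, ?_, by omega, by omega⟩
    have e6 : T * m ≤ 2 * m := Nat.mul_le_mul_right m hT2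
    have e7 : a * l < a * d := by rw [← hm]; omega
    exact Nat.lt_of_mul_lt_mul_left e7
  have hdi : ∀ c : ℕ, c * a ≤ 8 * i → c * m ≤ 8 * (d * i) := by
    intro c hc
    have := Nat.mul_le_mul_left d hc
    rw [hm]; nlinarith
  have hdi' : ∀ c : ℕ, 8 * i ≤ c * a → 8 * (d * i) ≤ c * m := by
    intro c hc
    have := Nat.mul_le_mul_left d hc
    rw [hm]; nlinarith
  by_cases h3 : 8 * i ≤ 2 * a
  · obtain ⟨l, hl, k1, k2⟩ := key 1 le_rfl (by norm_num)
    refine ⟨i, l, by omega, hl, ?_⟩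
    rw [← hr', ← hm]
    left
    have d1 := hdi 1 (by omega)
    have d2 := hdi' 2 h3
    exact ⟨by omega, by omega, Or.inl ⟨by omega, by omega⟩⟩
  · obtain ⟨l, hl, k1, k2⟩ := key 2 (by norm_num) le_rfl
    refine ⟨i, l, by omega, hl, ?_⟩
    rw [← hr', ← hm]
    right
    have d1 := hdi 2 (by omega)
    have d2 := hdi' 3 h2
    exact ⟨by omega, by omega, Or.inl ⟨by omega, by omega⟩⟩

theorem chr_of (a d β i l : ℕ) (hi : i < a) (hl : l < d)
    (h : GoodXY (a * d) (d * i) ((β * i) % a + a * l)) : Chr a d β := ⟨i, l, hi, hl, h⟩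

theorem chr4 (a β i : ℕ) (ha : 0 < a) (h1 : a ≤ 8 * i) (h2 : 8 * i ≤ 3 * a) : Chr a 4 β := by
  have hr : (β * i) % a < a := Nat.mod_lt _ ha
  by_contra hcon
  have f : ∀ l, l < 4 → ¬ GoodXY (a * 4) (4 * i) ((β * i) % a + a * l) :=
    fun l hl h => hcon (chr_of a 4 β i l (by omega) hl h)
  clear hcon
  generalize (β * i) % a = r at *
  have g0 := f 0 (by norm_num)
  have g1 := f 1 (by norm_num)
  have g2 := f 2 (by norm_num)
  have g3 := f 3 (by norm_num)
  clear f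
  unfold GoodXY at *
  omega

theorem chr6 (a β i : ℕ) (ha : 0 < a) (h1 : a ≤ 8 * i) (h2 : 8 * i ≤ 3 * a) : Chr a 6 β := by
  have hr : (β * i) % a < a := Nat.mod_lt _ ha
  by_contra hcon
  have f : ∀ l, l < 6 → ¬ GoodXY (a * 6) (6 * i) ((β * i) % a + a * l) :=
    fun l hl h => hcon (chr_of a 6 β i l (by omega) hl h)
  clear hcon
  generalize (β * i) % a = r at *
  have g0 := f 0 (by norm_num)
  have g1 := f 1 (by norm_num)
  have g2 := f 2 (by norm_num)
  have g4 := f 4 (by norm_num)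
  clear f
  unfold GoodXY at *
  omega

theorem chr7 (a β i : ℕ) (ha : 0 < a) (h1 : a ≤ 8 * i) (h2 : 8 * i ≤ 3 * a) : Chr a 7 β := by
  have hr : (β * i) % a < a := Nat.mod_lt _ ha
  by_contra hcon
  have f : ∀ l, l < 7 → ¬ GoodXY (a * 7) (7 * i) ((β * i) % a + a * l) :=
    fun l hl h => hcon (chr_of a 7 β i l (by omega) hl h)
  clear hcon
  generalize (β * i) % a = r at *
  have g0 := f 0 (by norm_num)
  have g1 := f 1 (by norm_num)
  have g2 := f 2 (by norm_num)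
  have g4 := f 4 (by norm_num)
  have g5 := f 5 (by norm_num)
  clear f
  unfold GoodXY at *
  omega

theorem chr2 (a β i : ℕ) (ha : 0 < a) (h1 : a ≤ 8 * i) (h2 : 8 * i ≤ 3 * a)
    (h3 : a ≤ 4 * ((β * i) % a)) (h4 : 4 * ((β * i) % a) ≤ 3 * a) : Chr a 2 β := by
  have hr : (β * i) % a < a := Nat.mod_lt _ ha
  by_contra hcon
  have f : ∀ l, l < 2 → ¬ GoodXY (a * 2) (2 * i) ((β * i) % a + a * l) :=
    fun l hl h => hcon (chr_of a 2 β i l (by omega) hl h)
  clear hcon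
  generalize (β * i) % a = r at *
  have g0 := f 0 (by norm_num)
  have g1 := f 1 (by norm_num)
  clear f
  unfold GoodXY at *
  omega

theorem chr3a (a β i : ℕ) (ha : 0 < a) (h1 : a ≤ 8 * i) (h2 : 8 * i ≤ 2 * a)
    (h3 : a ≤ 4 * ((β * i) % a)) (h4 : 4 * ((β * i) % a) ≤ 3 * a) : Chr a 3 β := by
  have hr : (β * i) % a < a := Nat.mod_lt _ ha
  by_contra hcon
  have f : ∀ l, l < 3 → ¬ GoodXY (a * 3) (3 * i) ((β * i) % a + a * l) :=
    fun l hl h => hcon (chr_of a 3 β i l (by omega) hl h)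
  clear hcon
  generalize (β * i) % a = r at *
  have g0 := f 0 (by norm_num)
  have g2 := f 2 (by norm_num)
  clear f
  unfold GoodXY at *
  omega

theorem chr3b (a β i : ℕ) (ha : 0 < a) (h1 : 2 * a ≤ 8 * i) (h2 : 8 * i ≤ 3 * a)
    (h3 : 4 * ((β * i) % a) ≤ a ∨ 3 * a ≤ 4 * ((β * i) % a)) : Chr a 3 β := by
  have hr : (β * i) % a < a := Nat.mod_lt _ ha
  by_contra hcon
  have f : ∀ l, l < 3 → ¬ GoodXY (a * 3) (3 * i) ((β * i) % a + a * l) :=
    fun l hl h => hcon (chr_of a 3 β i l (by omega) hl h)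
  clear hcon
  generalize (β * i) % a = r at *
  have g0 := f 0 (by norm_num)
  have g1 := f 1 (by norm_num)
  have g2 := f 2 (by norm_num)
  clear f
  unfold GoodXY at *
  omega

theorem chr5a (a β i : ℕ) (ha : 0 < a) (h1 : a ≤ 8 * i) (h2 : 8 * i ≤ 2 * a)
    (h3 : 8 * ((β * i) % a) ≤ 3 * a ∨ 5 * a ≤ 8 * ((β * i) % a)) : Chr a 5 β := by
  have hr : (β * i) % a < a := Nat.mod_lt _ ha
  by_contra hcon
  have f : ∀ l, l < 5 → ¬ GoodXY (a * 5) (5 * i) ((β * i) % a + a * l) :=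
    fun l hl h => hcon (chr_of a 5 β i l (by omega) hl h)
  clear hcon
  generalize (β * i) % a = r at *
  have g0 := f 0 (by norm_num)
  have g1 := f 1 (by norm_num)
  have g3 := f 3 (by norm_num)
  have g4 := f 4 (by norm_num)
  clear f
  unfold GoodXY at *
  omega

theorem chr5b (a β i : ℕ) (ha : 0 < a) (h1 : 2 * a ≤ 8 * i) (h2 : 8 * i ≤ 3 * a)
    (h3 : a ≤ 8 * ((β * i) % a)) (h4 : 8 * ((β * i) % a) ≤ 7 * a) : Chr a 5 β := by
  have hr : (β * i) % a < a := Nat.mod_lt _ ha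
  by_contra hcon
  have f : ∀ l, l < 5 → ¬ GoodXY (a * 5) (5 * i) ((β * i) % a + a * l) :=
    fun l hl h => hcon (chr_of a 5 β i l (by omega) hl h)
  clear hcon
  generalize (β * i) % a = r at *
  have g1 := f 1 (by norm_num)
  have g3 := f 3 (by norm_num)
  clear f
  unfold GoodXY at *
  omega

end Pool.Agent.helper85.L21
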