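import Pool.Agent.helper85.L21.Defs

/-! # From label functions on the group to labellings of the graph -/

set_option autoImplicit false

namespace Pool.Agent.helper85.L21

/-- A labelling of a graph with labels `0..7`, with the condition at distance two. -/
def Labelled {V : Type*} (Γ : SimpleGraph V) (f : V → ℕ) : Prop :=
  (∀ v, f v ≤ 7) ∧ (∀ u v, Γ.Adj u v → 2 ≤ |(f u : ℤ) - (f v : ℤ)|) ∧
    (∀ u v w, u ≠ v → Γ.Adj u w → Γ.Adj w v → f u ≠ f v)

theorem far_abs {a b : ℕ} (h : Far a b) : 2 ≤ |(a : ℤ) - (b : ℤ)| := by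
  unfold Far at h
  rcases h with h | h
  · rw [abs_of_nonpos (by omega)]; omega
  · rw [abs_of_nonneg (by omega)]; omega

/-- The list of neighbours of a vertex in the graph of dumbbell type. -/
def DumNb {G : Type*} [AddCommGroup G] (s t : G) (w v : Bool × G) : Prop :=
  (w.1 = false ∧ (v = (false, w.2 + s) ∨ w = (false, v.2 + s) ∧ v.1 = false ∨ v = (true, w.2))) ∨
  (w.1 = true ∧ (v = (true, w.2 + t) ∨ w = (true, v.2 + t) ∧ v.1 = true ∨ v = (false, w.2)))

theorem labelled_of_dum {G : Type*} [AddCommGroup G] {s t : G} {A B : G → ℕ} (h : Dum s t A B)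
    (Γ : SimpleGraph (Bool × G)) (hΓ : ∀ w v, Γ.Adj w v → DumNb s t w v) :
    Labelled Γ (fun v => bif v.1 then B v.2 else A v.2) := by
  refine ⟨?_, ?_, ?_⟩
  · rintro ⟨b, g⟩
    cases b
    · exact h.leA g
    · exact h.leB g
  · intro u v huv
    apply far_abs
    obtain ⟨b, g⟩ := u
    obtain ⟨b', g'⟩ := v
    have := hΓ _ _ huv
    unfold DumNb at this
    simp only [Prod.mk.injEq] at this
    rcases this with ⟨rfl, ⟨rfl, rfl⟩ | ⟨⟨_, rfl⟩, rfl⟩ | ⟨rfl, rfl⟩⟩ |
      ⟨rfl, ⟨rfl, rfl⟩ | ⟨⟨_, rfl⟩, rfl⟩ | ⟨rfl, rfl⟩⟩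
    · exact h.aa g
    · exact (h.aa g').symm
    · exact h.ab g'
    · exact h.bb g
    · exact (h.bb g').symm
    · exact (h.ab g').symm
  · intro u v w hne hu hv
    have h1 := hΓ _ _ hu.symm
    have h2 := hΓ _ _ hv
    obtain ⟨b, g⟩ := u
    obtain ⟨b', g'⟩ := v
    obtain ⟨c, x⟩ := w
    unfold DumNb at h1 h2
    simp only [Prod.mk.injEq] at h1 h2
    cases c
    · simp only [true_and, Bool.false_eq_true, false_and, or_false] at h1 h2
      rcases h1 with ⟨rfl, rfl⟩ | ⟨rfl, rfl⟩ | ⟨rfl, rfl⟩ <;>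
      rcases h2 with ⟨rfl, rfl⟩ | ⟨h2, rfl⟩ | ⟨rfl, rfl⟩
      · exact absurd rfl hne
      · subst h2; exact (h.aa2 g').symm
      · exact h.s2 _
      · exact h.aa2 g
      · exact absurd (by rw [add_right_cancel h2]) hne
      · exact h.s1 g
      · exact (h.s2 g).symm
      · subst h2; exact (h.s1 g').symm
      · exact absurd rfl hne
    · simp only [true_and, Bool.true_eq_false, false_and, false_or] at h1 h2
      rcases h1 with ⟨rfl, rfl⟩ | ⟨rfl, rfl⟩ | ⟨rfl, rfl⟩ <;>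
      rcases h2 with ⟨rfl, rfl⟩ | ⟨h2, rfl⟩ | ⟨rfl, rfl⟩
      · exact absurd rfl hne
      · subst h2; exact (h.bb2 g').symm
      · exact (h.t1 _).symm
      · exact h.bb2 g
      · exact absurd (by rw [add_right_cancel h2]) hne
      · exact (h.t2 g).symm
      · exact h.t1 g
      · subst h2; exact h.t2 g'
      · exact absurd rfl hne

end Pool.Agent.helper85.L21
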