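import Pool.Agent.helper85.L21.Patterns

/-! # Good multipliers for a residue class: large modulus -/

set_option autoImplicit false

namespace Pool.Agent.helper85.L21

/-- The pair `(x, y)` modulo `n` lies in one of the good rectangles (integer version). -/
def GoodZ (n x y : ℤ) : Prop :=
  (n ≤ 8 * x ∧ 8 * x ≤ 2 * n ∧ ((n ≤ 8 * y ∧ 8 * y ≤ 2 * n) ∨ (6 * n ≤ 8 * y ∧ 8 * y ≤ 7 * n))) ∨
  (2 * n ≤ 8 * x ∧ 8 * x ≤ 3 * n ∧
    ((2 * n ≤ 8 * y ∧ 8 * y ≤ 3 * n) ∨ (5 * n ≤ 8 * y ∧ 8 * y ≤ 6 * n)))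

theorem emod_of_sandwich {n y z w : ℤ} (h : w = y + n * z) (h0 : 0 ≤ y) (h1 : y < n) :
    w % n = y := by
  rw [h, Int.add_mul_emod_self_left]
  exact Int.emod_eq_of_lt h0 h1

theorem walk_aux (n k p q r : ℤ) (hn : 344 ≤ n) (hq1 : 1 ≤ q) (hq7 : q ≤ 7)
    (h : q * k = p * n + r) (hr : 6 * q + 1 ≤ r) (hr8 : 8 * r ≤ n) (c0 y0 z0 : ℤ)
    (h1 : n ≤ 8 * c0) (h2 : 8 * c0 ≤ n + 7) (h3 : c0 * k = y0 + n * z0) (_h0 : 0 ≤ y0)
    (T m : ℤ)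
    (hT : (T = 1 ∨ T = 6) ∧ m = 0 ∨ T = 9 ∧ m = 1) (hT1 : 8 * y0 ≤ T * n)
    (hT2 : T * n - 8 * y0 ≤ 4 * n) : ∃ c, GoodZ n c ((c * k) % n) := by
  obtain ⟨j, hj⟩ : ∃ j, j = (T * n - 8 * y0 + 8 * r - 1) / (8 * r) := ⟨_, rfl⟩
  have hr0 : 0 < 8 * r := by omega
  have hj1 : T * n - 8 * y0 ≤ 8 * r * j := by
    have := Int.lt_ediv_add_one_mul_self (T * n - 8 * y0 + 8 * r - 1) hr0
    rw [← hj] at this
    nlinarith
  have hj2 : 8 * r * j < T * n - 8 * y0 + 8 * r := by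
    have := Int.ediv_mul_le (T * n - 8 * y0 + 8 * r - 1) hr0.ne'
    rw [← hj] at this
    nlinarith
  have hj0 : 0 ≤ j := by
    rw [hj]; apply Int.ediv_nonneg <;> omega
  have hqj : 8 * (q * j) ≤ n - 7 := by
    by_contra hcon
    have e1 : n - 6 ≤ 8 * (q * j) := by omega
    have e2 : r * (n - 6) ≤ r * (8 * (q * j)) := mul_le_mul_of_nonneg_left e1 (by omega)
    have e3 : q * (8 * r * j) < q * (4 * n + 8 * r) := by
      apply mul_lt_mul_of_pos_left _ (by omega)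
      omega
    have e4 : r * (n - 6) < q * (4 * n + 8 * r) := by
      calc r * (n - 6) ≤ r * (8 * (q * j)) := e2
        _ = q * (8 * r * j) := by ring
        _ < _ := e3
    have e5 : (6 * q + 1) * (n - 6 - 8 * q) ≤ r * (n - 6 - 8 * q) :=
      mul_le_mul_of_nonneg_right hr (by omega)
    interval_cases q <;> nlinarith
  refine ⟨c0 + q * j, ?_⟩
  have hck : (c0 + q * j) * k = (y0 + j * r - m * n) + n * (z0 + j * p + m) := by
    calc (c0 + q * j) * k = c0 * k + j * (q * k) := by ring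
      _ = _ := by rw [h3, h]; ring
  have hrj : 8 * (j * r) = 8 * r * j := by ring
  have hc1 : n ≤ 8 * (c0 + q * j) := by
    have : 0 ≤ q * j := mul_nonneg (by omega) hj0
    omega
  have hc2 : 8 * (c0 + q * j) ≤ 2 * n := by omega
  rcases hT with ⟨rfl | rfl, rfl⟩ | ⟨rfl, rfl⟩
  · rw [emod_of_sandwich hck (by omega) (by omega)]
    left
    refine ⟨hc1, hc2, ?_⟩
    left; constructor <;> omega
  · rw [emod_of_sandwich hck (by omega) (by omega)]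
    left
    refine ⟨hc1, hc2, ?_⟩
    right; constructor <;> omega
  · rw [emod_of_sandwich hck (by omega) (by omega)]
    left
    refine ⟨hc1, hc2, ?_⟩
    left; constructor <;> omega

theorem walk (n k p q r : ℤ) (hn : 344 ≤ n) (hq1 : 1 ≤ q) (hq7 : q ≤ 7)
    (h : q * k = p * n + r) (hr : 6 * q + 1 ≤ r) (hr8 : 8 * r ≤ n) :
    ∃ c, GoodZ n c ((c * k) % n) := by
  have hn0 : 0 < n := by omega
  obtain ⟨c0, hc0⟩ : ∃ c0, c0 = (n + 7) / 8 := ⟨_, rfl⟩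
  have h1 : n ≤ 8 * c0 := by omega
  have h2 : 8 * c0 ≤ n + 7 := by omega
  obtain ⟨y0, hy0⟩ : ∃ y0, y0 = (c0 * k) % n := ⟨_, rfl⟩
  have h3 : c0 * k = y0 + n * ((c0 * k) / n) := by
    rw [hy0]; exact (Int.emod_add_mul_ediv _ _).symm
  have hy1 : 0 ≤ y0 := by rw [hy0]; exact Int.emod_nonneg _ (by omega)
  have hy2 : y0 < n := by rw [hy0]; exact Int.emod_lt_of_pos _ hn0
  by_cases a1 : 8 * y0 ≤ n
  · exact walk_aux n k p q r hn hq1 hq7 h hr hr8 c0 y0 _ h1 h2 h3 hy1 1 0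
      (Or.inl ⟨Or.inl rfl, rfl⟩) (by omega) (by omega)
  by_cases a2 : 8 * y0 ≤ 2 * n
  · refine ⟨c0, ?_⟩
    rw [← hy0]
    left
    refine ⟨h1, by omega, Or.inl ⟨by omega, a2⟩⟩
  by_cases a3 : 8 * y0 ≤ 6 * n
  · exact walk_aux n k p q r hn hq1 hq7 h hr hr8 c0 y0 _ h1 h2 h3 hy1 6 0
      (Or.inl ⟨Or.inr rfl, rfl⟩) (by omega) (by omega)
  by_cases a4 : 8 * y0 ≤ 7 * n
  · refine ⟨c0, ?_⟩
    rw [← hy0]
    left
    refine ⟨h1, by omega, Or.inr ⟨by omega, a4⟩⟩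
  · exact walk_aux n k p q r hn hq1 hq7 h hr hr8 c0 y0 _ h1 h2 h3 hy1 9 1
      (Or.inr ⟨rfl, rfl⟩) (by omega) (by omega)

/-- The conditions on a table entry `(q, r, l, a, b, D, τ)`. -/
def entOK (e : ℤ × ℤ × ℤ × ℤ × ℤ × ℤ × ℤ) : Prop :=
  let (q, r, l, a, b, D, τ) := e
  0 < D ∧ q * D ≤ 344 * (b - a) ∧
  ((D ≤ 8 * a ∧ 8 * b ≤ 2 * D ∧ (τ = 1 ∨ τ = 6)) ∨
    (2 * D ≤ 8 * a ∧ 8 * b ≤ 3 * D ∧ (τ = 2 ∨ τ = 5))) ∧
  τ * q * D ≤ 8 * (l * D + a * r) ∧ 8 * (l * D + b * r) ≤ (τ + 1) * q * D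

instance (e : ℤ × ℤ × ℤ × ℤ × ℤ × ℤ × ℤ) : Decidable (entOK e) := by
  unfold entOK; infer_instance

/-- A representative of a residue class in an interval. -/
theorem exists_residue (q p l lo : ℤ) (hq : 1 ≤ q) (hcop : IsCoprime p q) :
    ∃ c z, lo ≤ c ∧ c ≤ lo + q - 1 ∧ c * p - l = q * z := by
  obtain ⟨u, v, huv⟩ := hcop
  have e1 := Int.emod_nonneg (u * l - lo) (show q ≠ 0 by omega)
  have e2 := Int.emod_lt_of_pos (u * l - lo) (show 0 < q by omega)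
  have e3 := Int.emod_add_mul_ediv (u * l - lo) q
  refine ⟨lo + (u * l - lo) % q, -(v * l) - ((u * l - lo) / q) * p, by omega, by omega, ?_⟩
  have e4 : lo + (u * l - lo) % q = u * l - q * ((u * l - lo) / q) := by omega
  rw [e4]
  linear_combination l * huv

theorem entry (n k p q r l a b D τ : ℤ) (hn : 344 ≤ n) (hq : 1 ≤ q) (h : q * k = p * n + r)
    (hcop : IsCoprime p q) (hr : 0 ≤ r) (he : entOK (q, r, l, a, b, D, τ)) :
    ∃ c, GoodZ n c ((c * k) % n) := by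
  obtain ⟨hD, hlen, hcond, hlo, hhi⟩ := he
  obtain ⟨c, z, hc1, hc2, hcz⟩ := exists_residue q p l ((a * n + D - 1) / D) hq hcop
  have f1 := Int.lt_ediv_add_one_mul_self (a * n + D - 1) hD
  have f2 := Int.ediv_mul_le (a * n + D - 1) hD.ne'
  have hca : a * n ≤ D * c := by nlinarith
  have hqD : q * D ≤ n * (b - a) := by
    have h1 : 0 ≤ b - a := by nlinarith
    nlinarith
  have hcb : D * c ≤ b * n := by
    have : D * c ≤ D * ((a * n + D - 1) / D) + D * (q - 1) := by nlinarith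
    nlinarith
  have hqy : q * (c * k - z * n) = l * n + c * r := by
    linear_combination c * h + n * hcz
  obtain ⟨y, hy⟩ : ∃ y, y = c * k - z * n := ⟨_, rfl⟩
  rw [← hy] at hqy
  have hqD0 : 0 < q * D := mul_pos (by omega) hD
  have g1 : (q * D) * (τ * n) ≤ (q * D) * (8 * y) := by
    have e1 : a * n * r ≤ D * c * r := mul_le_mul_of_nonneg_right hca hr
    have e2 : τ * q * D * n ≤ 8 * (l * D + a * r) * n :=
      mul_le_mul_of_nonneg_right hlo (by omega)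
    have e3 : (q * D) * (8 * y) = 8 * (D * (l * n) + D * c * r) := by
      linear_combination 8 * D * hqy
    rw [e3]
    linarith
  have g2 : (q * D) * (8 * y) ≤ (q * D) * ((τ + 1) * n) := by
    have e1 : D * c * r ≤ b * n * r := mul_le_mul_of_nonneg_right hcb hr
    have e2 : 8 * (l * D + b * r) * n ≤ (τ + 1) * q * D * n :=
      mul_le_mul_of_nonneg_right hhi (by omega)
    have e3 : (q * D) * (8 * y) = 8 * (D * (l * n) + D * c * r) := by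
      linear_combination 8 * D * hqy
    rw [e3]
    linarith
  have g3 : τ * n ≤ 8 * y := le_of_mul_le_mul_left g1 hqD0
  have g4 : 8 * y ≤ (τ + 1) * n := le_of_mul_le_mul_left g2 hqD0
  have g5 : c * k = y + n * z := by rw [hy]; ring
  have g6 : ∀ s t : ℤ, s * D ≤ 8 * a → 8 * b ≤ t * D → s * n ≤ 8 * c ∧ 8 * c ≤ t * n := by
    intro s t hs ht
    constructor
    · have : D * (s * n) ≤ D * (8 * c) := by nlinarith
      exact le_of_mul_le_mul_left this hD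
    · have : D * (8 * c) ≤ D * (t * n) := by nlinarith
      exact le_of_mul_le_mul_left this hD
  refine ⟨c, ?_⟩
  rcases hcond with ⟨b1, b2, rfl | rfl⟩ | ⟨b1, b2, rfl | rfl⟩
  · obtain ⟨k1, k2⟩ := g6 1 2 (by omega) (by omega)
    rw [emod_of_sandwich g5 (by omega) (by omega)]
    left; exact ⟨by omega, by omega, Or.inl ⟨by omega, by omega⟩⟩
  · obtain ⟨k1, k2⟩ := g6 1 2 (by omega) (by omega)
    rw [emod_of_sandwich g5 (by omega) (by omega)]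
    left; exact ⟨by omega, by omega, Or.inr ⟨by omega, by omega⟩⟩
  · obtain ⟨k1, k2⟩ := g6 2 3 (by omega) (by omega)
    rw [emod_of_sandwich g5 (by omega) (by omega)]
    right; exact ⟨by omega, by omega, Or.inl ⟨by omega, by omega⟩⟩
  · obtain ⟨k1, k2⟩ := g6 2 3 (by omega) (by omega)
    rw [emod_of_sandwich g5 (by omega) (by omega)]
    right; exact ⟨by omega, by omega, Or.inr ⟨by omega, by omega⟩⟩

/-- The table of entries. -/
def tbl : List (ℤ × ℤ × ℤ × ℤ × ℤ × ℤ × ℤ) := [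
    (1, 1, 0, 1, 2, 8, 1), (1, 2, 0, 5, 6, 16, 5), (1, 4, 0, 6, 7, 32, 6),
    (1, 5, -1, 9, 10, 40, 1), (1, 6, -1, 9, 10, 48, 1), (2, 1, 1, 2, 3, 8, 5),
    (2, 2, 0, 1, 2, 8, 1), (2, 3, 1, 4, 6, 24, 6), (2, 4, 0, 5, 6, 16, 5),
    (2, 5, 0, 10, 12, 40, 5), (2, 6, -1, 5, 6, 24, 1), (2, 7, 0, 12, 14, 56, 6),
    (2, 8, 0, 6, 7, 32, 6), (2, 9, 0, 12, 14, 72, 6), (2, 10, -2, 9, 10, 40, 1),
    (2, 11, -2, 18, 20, 88, 1), (2, 12, -2, 9, 10, 48, 1), (3, 0, 1, 2, 3, 8, 2),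
    (3, 2, 2, 1, 2, 8, 6), (3, 3, 0, 1, 2, 8, 1), (3, 4, 0, 2, 3, 16, 1), (3, 5, 0, 5, 6, 40, 1),
    (3, 6, 0, 5, 6, 16, 5), (3, 7, 0, 15, 18, 56, 5), (3, 8, 1, 10, 13, 64, 6),
    (3, 9, 1, 10, 13, 72, 6), (3, 10, 1, 10, 13, 80, 6), (3, 11, 0, 18, 21, 88, 6),
    (3, 12, 0, 6, 7, 32, 6), (3, 13, 0, 18, 21, 104, 6), (3, 14, 0, 18, 21, 112, 6),
    (3, 15, -3, 9, 10, 40, 1), (3, 16, -3, 27, 30, 128, 1), (3, 17, -3, 27, 30, 136, 1),
    (3, 18, -3, 9, 10, 48, 1), (4, 0, 1, 1, 2, 8, 1), (4, 1, 1, 2, 3, 8, 2),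
    (4, 2, 2, 2, 3, 8, 5), (4, 3, 0, 4, 6, 24, 1), (4, 4, 0, 1, 2, 8, 1), (4, 5, 0, 5, 8, 40, 1),
    (4, 6, 1, 6, 8, 24, 5), (4, 7, 2, 8, 12, 56, 6), (4, 8, 0, 5, 6, 16, 5),
    (4, 9, 0, 20, 24, 72, 5), (4, 10, 0, 10, 12, 40, 5), (4, 11, 1, 16, 20, 88, 6),
    (4, 12, 1, 4, 5, 24, 6), (4, 13, 1, 16, 20, 104, 6), (4, 14, 0, 12, 14, 56, 6),
    (4, 15, 0, 24, 28, 120, 6), (4, 16, 0, 6, 7, 32, 6), (4, 17, 0, 24, 28, 136, 6),
    (4, 18, 0, 12, 14, 72, 6), (4, 19, 0, 24, 28, 152, 6), (4, 20, -4, 9, 10, 40, 1),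
    (4, 21, -4, 36, 40, 168, 1), (4, 22, -4, 18, 20, 88, 1), (4, 23, -4, 36, 40, 184, 1),
    (4, 24, -4, 9, 10, 48, 1), (5, 0, 1, 1, 2, 8, 1), (5, 1, 1, 1, 2, 8, 1),
    (5, 2, 1, 2, 3, 8, 2), (5, 3, 0, 5, 6, 24, 1), (5, 4, 0, 5, 8, 32, 1), (5, 5, 0, 1, 2, 8, 1),
    (5, 6, 3, 6, 11, 48, 6), (5, 7, 1, 17, 21, 56, 5), (5, 8, 1, 17, 22, 64, 5),
    (5, 9, -1, 13, 18, 72, 1), (5, 10, 0, 5, 6, 16, 5), (5, 11, 0, 25, 30, 88, 5),
    (5, 12, 0, 25, 30, 96, 5), (5, 13, 2, 14, 19, 104, 6), (5, 14, 1, 22, 27, 112, 6),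
    (5, 15, 1, 22, 27, 120, 6), (5, 16, 1, 22, 27, 128, 6), (5, 17, 1, 22, 27, 136, 6),
    (5, 18, 0, 30, 35, 144, 6), (5, 19, 0, 30, 35, 152, 6), (5, 20, 0, 6, 7, 32, 6),
    (5, 21, 0, 30, 35, 168, 6), (5, 22, 0, 30, 35, 176, 6), (5, 23, 0, 30, 35, 184, 6),
    (5, 24, 0, 30, 35, 192, 6), (5, 25, -5, 9, 10, 40, 1), (5, 26, -5, 45, 50, 208, 1),
    (5, 27, -5, 45, 50, 216, 1), (5, 28, -5, 45, 50, 224, 1), (5, 29, -5, 45, 50, 232, 1),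
    (5, 30, -5, 9, 10, 48, 1), (6, 0, 1, 1, 2, 8, 1), (6, 1, 1, 1, 2, 8, 1),
    (6, 2, 1, 1, 2, 8, 1), (6, 3, 1, 2, 3, 8, 2), (6, 4, 3, 2, 3, 8, 5), (6, 5, 4, 1, 2, 8, 6),
    (6, 6, 0, 1, 2, 8, 1), (6, 7, 2, 14, 20, 56, 5), (6, 8, 0, 2, 3, 16, 1),
    (6, 9, 3, 4, 6, 24, 6), (6, 10, 1, 11, 14, 40, 5), (6, 11, 1, 22, 28, 88, 5),
    (6, 12, 0, 5, 6, 16, 5), (6, 13, 0, 30, 36, 104, 5), (6, 14, 0, 15, 18, 56, 5),
    (6, 15, 0, 10, 12, 40, 5), (6, 16, 2, 10, 13, 64, 6), (6, 17, 1, 28, 34, 136, 6),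
    (6, 18, 1, 14, 17, 72, 6), (6, 19, 1, 28, 34, 152, 6), (6, 20, 1, 14, 17, 80, 6),
    (6, 21, 0, 12, 14, 56, 6), (6, 22, 0, 18, 21, 88, 6), (6, 23, 0, 36, 42, 184, 6),
    (6, 24, 0, 6, 7, 32, 6), (6, 25, 0, 36, 42, 200, 6), (6, 26, 0, 18, 21, 104, 6),
    (6, 27, 0, 12, 14, 72, 6), (6, 28, 0, 18, 21, 112, 6), (6, 29, 0, 36, 42, 232, 6),
    (6, 30, -6, 9, 10, 40, 1), (6, 31, -6, 54, 60, 248, 1), (6, 32, -6, 27, 30, 128, 1),
    (6, 33, -6, 18, 20, 88, 1), (6, 34, -6, 27, 30, 136, 1), (6, 35, -6, 54, 60, 280, 1),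
    (6, 36, -6, 9, 10, 48, 1), (7, 0, 1, 1, 2, 8, 1), (7, 1, 1, 1, 2, 8, 1),
    (7, 2, 1, 1, 2, 8, 1), (7, 3, 1, 1, 2, 8, 1), (7, 4, 1, 2, 3, 8, 2), (7, 5, 3, 11, 15, 40, 5),
    (7, 6, 3, 2, 3, 8, 5), (7, 7, 0, 1, 2, 8, 1), (7, 8, 0, 4, 7, 32, 1),
    (7, 9, 2, 19, 26, 72, 5), (7, 10, 4, 10, 17, 80, 6), (7, 11, -1, 15, 22, 88, 1),
    (7, 12, 1, 27, 34, 96, 5), (7, 13, 1, 27, 34, 104, 5), (7, 14, 0, 5, 6, 16, 5),
    (7, 15, 0, 35, 42, 120, 5), (7, 16, 0, 35, 42, 128, 5), (7, 17, 0, 35, 42, 136, 5),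
    (7, 18, 2, 26, 33, 144, 6), (7, 19, 2, 26, 33, 152, 6), (7, 20, 2, 26, 33, 160, 6),
    (7, 21, 1, 34, 41, 168, 6), (7, 22, 1, 34, 41, 176, 6), (7, 23, 1, 34, 41, 184, 6),
    (7, 24, 1, 34, 41, 192, 6), (7, 25, 0, 42, 49, 200, 6), (7, 26, 0, 42, 49, 208, 6),
    (7, 27, 0, 42, 49, 216, 6), (7, 28, 0, 6, 7, 32, 6), (7, 29, 0, 42, 49, 232, 6),
    (7, 30, 0, 42, 49, 240, 6), (7, 31, 0, 42, 49, 248, 6), (7, 32, 0, 42, 49, 256, 6),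
    (7, 33, 0, 42, 49, 264, 6), (7, 34, 0, 42, 49, 272, 6), (7, 35, -7, 9, 10, 40, 1),
    (7, 36, -7, 63, 70, 288, 1), (7, 37, -7, 63, 70, 296, 1), (7, 38, -7, 63, 70, 304, 1),
    (7, 39, -7, 63, 70, 312, 1), (7, 40, -7, 63, 70, 320, 1), (7, 41, -7, 63, 70, 328, 1),
    (7, 42, -7, 9, 10, 48, 1)]

theorem tbl_spec : ∀ q ∈ Finset.Icc (1 : ℤ) 7, ∀ r ∈ Finset.Icc (0 : ℤ) (6 * q),
    (q, r) ∉ ([(1, 0), (2, 0), (1, 3), (3, 1)] : List (ℤ × ℤ)) →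
    ∃ e ∈ tbl, e.1 = q ∧ e.2.1 = r ∧ entOK e := by
  decide +kernel

/-- Dirichlet's theorem with coprime numerator. -/
theorem dirichlet7 (n k : ℤ) (hn : 0 < n) :
    ∃ q p : ℤ, 1 ≤ q ∧ q ≤ 7 ∧ IsCoprime p q ∧ 8 * |q * k - p * n| ≤ n := by
  obtain ⟨j, q, hq0, hq7, hjq⟩ :=
    Real.exists_int_int_abs_mul_sub_le ((k : ℝ) / (n : ℝ)) (n := 7) (by norm_num)
  have hnR : (0 : ℝ) < (n : ℝ) := by exact_mod_cast hn
  have key : 8 * |q * k - j * n| ≤ n := by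
    have e1 : (q : ℝ) * ((k : ℝ) / n) - j = ((q * k - j * n : ℤ) : ℝ) / n := by
      push_cast; field_simp
    rw [e1, abs_div, abs_of_pos hnR, div_le_iff₀ hnR] at hjq
    have e2 : (8 : ℝ) * |((q * k - j * n : ℤ) : ℝ)| ≤ n := by
      norm_num at hjq ⊢
      linarith
    exact_mod_cast e2
  have hg : 0 < Int.gcd j q := Int.gcd_pos_of_ne_zero_right _ (by omega)
  obtain ⟨g, hgd⟩ : ∃ g : ℤ, g = (Int.gcd j q : ℤ) := ⟨_, rfl⟩
  have hg0 : 0 < g := by rw [hgd]; exact_mod_cast hg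
  obtain ⟨p', hp'⟩ : g ∣ j := by rw [hgd]; exact Int.gcd_dvd_left ..
  obtain ⟨q', hq'⟩ : g ∣ q := by rw [hgd]; exact Int.gcd_dvd_right ..
  have hq'0 : 0 < q' := by
    by_contra hcon
    have : g * q' ≤ 0 := mul_nonpos_of_nonneg_of_nonpos hg0.le (by omega)
    omega
  refine ⟨q', p', by omega, ?_, ?_, ?_⟩
  · have : q' ≤ g * q' := by nlinarith
    have h7 : ((7 : ℕ) : ℤ) = 7 := rfl
    omega
  · have hb := Int.gcd_eq_gcd_ab j q
    rw [← hgd] at hb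
    refine ⟨Int.gcdA j q, Int.gcdB j q, ?_⟩
    have : g * (Int.gcdA j q * p' + Int.gcdB j q * q') = g * 1 := by
      calc g * (Int.gcdA j q * p' + Int.gcdB j q * q')
          = (g * p') * Int.gcdA j q + (g * q') * Int.gcdB j q := by ring
        _ = j * Int.gcdA j q + q * Int.gcdB j q := by rw [← hp', ← hq']
        _ = g := hb.symm
        _ = g * 1 := by ring
    exact mul_left_cancel₀ hg0.ne' this
  · have e : q * k - j * n = g * (q' * k - p' * n) := by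
      rw [hp', hq']; ring
    rw [e, abs_mul, abs_of_pos hg0] at key
    have h0 : 0 ≤ |q' * k - p' * n| := abs_nonneg _
    nlinarith

theorem goodZ_neg (n k : ℤ) (hn : 0 < n) (h : ∃ c, GoodZ n c ((c * (-k)) % n)) :
    ∃ c, GoodZ n c ((c * k) % n) := by
  obtain ⟨c, hc⟩ := h
  refine ⟨c, ?_⟩
  have e0 := Int.emod_nonneg (c * k) hn.ne'
  have e1 := Int.emod_lt_of_pos (c * k) hn
  have e2 := Int.emod_add_mul_ediv (c * k) n
  rcases eq_or_lt_of_le e0 with h0 | h0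
  · exfalso
    have : (c * (-k)) % n = 0 := by
      apply emod_of_sandwich (z := -(c * k / n)) _ le_rfl hn
      linarith
    rw [this] at hc
    unfold GoodZ at hc
    omega
  · have : (c * (-k)) % n = n - (c * k) % n := by
      apply emod_of_sandwich (z := -(c * k / n) - 1) _ (by omega) (by omega)
      linarith
    rw [this] at hc
    unfold GoodZ at hc ⊢
    omega

theorem large_pos (n k p q r : ℤ) (hn : 344 ≤ n) (hq1 : 1 ≤ q) (hq7 : q ≤ 7)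
    (hcop : IsCoprime p q) (h : q * k = p * n + r) (hr0 : 0 ≤ r) (hr8 : 8 * r ≤ n) :
    (∃ c, GoodZ n c ((c * k) % n)) ∨ n ∣ 2 * k ∨ n ∣ k - 3 ∨ n ∣ 3 * k - 1 := by
  by_cases hr : 6 * q + 1 ≤ r
  · left; exact walk n k p q r hn hq1 hq7 h hr hr8
  by_cases hex : (q, r) ∈ ([(1, 0), (2, 0), (1, 3), (3, 1)] : List (ℤ × ℤ))
  · right
    simp only [List.mem_cons, Prod.mk.injEq, List.not_mem_nil, or_false] at hex
    rcases hex with ⟨rfl, rfl⟩ | ⟨rfl, rfl⟩ | ⟨rfl, rfl⟩ | ⟨rfl, rfl⟩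
    · left; exact ⟨2 * p, by linarith⟩
    · left; exact ⟨p, by linarith⟩
    · right; left; exact ⟨p, by linarith⟩
    · right; right; exact ⟨p, by linarith⟩
  · left
    obtain ⟨⟨q', r', l, a, b, D, τ⟩, _, e1, e2, e3⟩ :=
      tbl_spec q (Finset.mem_Icc.2 ⟨hq1, hq7⟩) r (Finset.mem_Icc.2 ⟨hr0, by omega⟩) hex
    simp only at e1 e2
    subst e1; subst e2
    exact entry n k p q' r' l a b D τ hn hq1 h hcop hr0 e3

/-- For a large modulus every residue class has a good multiplier, up to known families. -/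
theorem large (n k : ℤ) (hn : 344 ≤ n) :
    (∃ c, GoodZ n c ((c * k) % n)) ∨ n ∣ 2 * k ∨ n ∣ k - 3 ∨ n ∣ k + 3 ∨ n ∣ 3 * k - 1 ∨
      n ∣ 3 * k + 1 := by
  obtain ⟨q, p, hq1, hq7, hcop, habs⟩ := dirichlet7 n k (by omega)
  rcases le_total 0 (q * k - p * n) with h0 | h0
  · rw [abs_of_nonneg h0] at habs
    rcases large_pos n k p q (q * k - p * n) hn hq1 hq7 hcop (by ring) h0 habs with
      h | h | h | h
    · exact Or.inl h
    · exact Or.inr (Or.inl h)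
    · exact Or.inr (Or.inr (Or.inl h))
    · exact Or.inr (Or.inr (Or.inr (Or.inr (Or.inl h))))
  · rw [abs_of_nonpos h0] at habs
    have hcop' : IsCoprime (-p) q := hcop.neg_left
    rcases large_pos n (-k) (-p) q (-(q * k - p * n)) hn hq1 hq7 hcop' (by ring) (by omega)
      (by omega) with h | h | h | h
    · exact Or.inl (goodZ_neg n k (by omega) h)
    · right; left
      have : 2 * k = -(2 * -k) := by ring
      rw [this]; exact (dvd_neg).2 h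
    · right; right; right; left
      have : k + 3 = -(-k - 3) := by ring
      rw [this]; exact (dvd_neg).2 h
    · right; right; right; right; right
      have : 3 * k + 1 = -(3 * -k - 1) := by ring
      rw [this]; exact (dvd_neg).2 h

end Pool.Agent.helper85.L21
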