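import Pool.Agent.helper85.L21.TwoT

/-! # One orbit of cycles and one orbit of four-cycles from involutions -/

set_option autoImplicit false

namespace Pool.Agent.helper85.L21

/-- Valid labels for the graph with edges `U_g U_{g+r}`, `V_g V_{g+τ₁}`, `V_g V_{g+τ₂}`,
`U_g V_g`, where the `τᵢ` are involutions. -/
structure Mix {G : Type*} [AddCommGroup G] (r t1 t2 : G) (A B : G → ℕ) : Prop where
  leA : ∀ g, A g ≤ 7
  leB : ∀ g, B g ≤ 7
  aa : ∀ g, Far (A g) (A (g + r))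
  aa2 : ∀ g, A g ≠ A (g + r + r)
  b1 : ∀ g, Far (B g) (B (g + t1))
  b2 : ∀ g, Far (B g) (B (g + t2))
  b12 : ∀ g, B (g + t1) ≠ B (g + t2)
  ab : ∀ g, Far (A g) (B g)
  r1 : ∀ g, A g ≠ B (g + r)
  r2 : ∀ g, A (g + r) ≠ B g
  u1 : ∀ g, B (g + t1) ≠ A g
  u2 : ∀ g, B (g + t2) ≠ A g

def MixOK {G : Type*} [AddCommGroup G] (r t1 t2 : G) : Prop := ∃ A B : G → ℕ, Mix r t1 t2 A B

/-- Finite check on `K`. -/
structure CheckM {K : Type*} [AddCommGroup K] (E : List K) (x1 x2 : K) (A B : K → ℕ) : Prop where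
  leA : ∀ j, A j ≤ 7
  leB : ∀ j, B j ≤ 7
  aa : ∀ j, ∀ e ∈ E, Far (A j) (A (j + e))
  aa2 : ∀ j, ∀ e ∈ E, ∀ e' ∈ E, A j ≠ A (j + e + e')
  b1 : ∀ j, Far (B j) (B (j + x1))
  b2 : ∀ j, Far (B j) (B (j + x2))
  b12 : ∀ j, B (j + x1) ≠ B (j + x2)
  ab : ∀ j, Far (A j) (B j)
  r1 : ∀ j, ∀ e ∈ E, A j ≠ B (j + e)
  r2 : ∀ j, ∀ e ∈ E, A (j + e) ≠ B j
  u1 : ∀ j, B (j + x1) ≠ A j
  u2 : ∀ j, B (j + x2) ≠ A j

theorem mixOK_of_check {G K : Type*} [AddCommGroup G] [AddCommGroup K] (φ : G → K) {r t1 t2 : G}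
    {E : List K} {x1 x2 : K} (hs : Steps φ r E) (h1 : ∀ g, φ (g + t1) = φ g + x1)
    (h2 : ∀ g, φ (g + t2) = φ g + x2) {A B : K → ℕ} (h : CheckM E x1 x2 A B) :
    MixOK r t1 t2 := by
  refine ⟨fun g => A (φ g), fun g => B (φ g), ?_⟩
  constructor
  · intro g; exact h.leA _
  · intro g; exact h.leB _
  · intro g
    obtain ⟨e, he, p⟩ := hs g
    simp only [p]; exact h.aa _ e he
  · intro g
    obtain ⟨e, he, p⟩ := hs g
    obtain ⟨e', he', p'⟩ := hs (g + r)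
    simp only [p', p]; exact h.aa2 _ e he e' he'
  · intro g; simp only [h1]; exact h.b1 _
  · intro g; simp only [h2]; exact h.b2 _
  · intro g; simp only [h1, h2]; exact h.b12 _
  · intro g; exact h.ab _
  · intro g
    obtain ⟨e, he, p⟩ := hs g
    simp only [p]; exact h.r1 _ e he
  · intro g
    obtain ⟨e, he, p⟩ := hs g
    simp only [p]; exact h.r2 _ e he
  · intro g; simp only [h1]; exact h.u1 _
  · intro g; simp only [h2]; exact h.u2 _

theorem MixOK.swap {G : Type*} [AddCommGroup G] {r t1 t2 : G} (h : MixOK r t1 t2) :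
    MixOK r t2 t1 := by
  obtain ⟨A, B, h⟩ := h
  exact ⟨A, B, ⟨h.leA, h.leB, h.aa, h.aa2, h.b2, h.b1, fun g => (h.b12 g).symm, h.ab, h.r1, h.r2,
    h.u2, h.u1⟩⟩

/-- Labels on `ZMod 8 × ZMod 2 × ZMod 2` from a list. -/
def lab3 (l : List ℕ) (p : ZMod 8 × ZMod 2 × ZMod 2) : ℕ :=
  l.getD (4 * p.1.val + 2 * p.2.1.val + p.2.2.val) 0

/-- Labels on `ZMod N × ZMod 2` from a list. -/
def lab2 (N : ℕ) (l : List ℕ) (p : ZMod N × ZMod 2) : ℕ :=
  l.getD (2 * p.1.val + p.2.val) 0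

theorem alpha1 : CheckM ([(1, 0, 0), (2, 0, 0)] : List (ZMod 8 × ZMod 2 × ZMod 2)) (0, 1, 0)
    (0, 0, 1)
    (lab3 [0, 5, 6, 3, 5, 2, 3, 0, 2, 7, 0, 5, 7, 4, 5, 2,
      4, 1, 2, 7, 1, 6, 7, 4, 6, 3, 4, 1, 3, 0, 1, 6])
    (lab3 [4, 1, 2, 7, 1, 6, 7, 4, 6, 3, 4, 1, 3, 0, 1, 6,
      0, 5, 6, 3, 5, 2, 3, 0, 2, 7, 0, 5, 7, 4, 5, 2]) := by
  constructor <;> decide +kernel

theorem alpha2 : CheckM ([(2, 0, 0), (3, 0, 0)] : List (ZMod 8 × ZMod 2 × ZMod 2)) (0, 1, 0)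
    (0, 0, 1)
    (lab3 [6, 2, 7, 0, 4, 6, 0, 2, 4, 6, 0, 2, 0, 0, 4, 4,
      0, 0, 4, 4, 2, 4, 2, 7, 2, 4, 2, 7, 6, 2, 7, 0])
    (lab3 [3, 7, 1, 5, 7, 1, 3, 5, 7, 1, 3, 5, 3, 5, 6, 1,
      5, 3, 1, 6, 7, 1, 5, 3, 7, 1, 5, 3, 1, 7, 3, 5]) := by
  constructor <;> decide +kernel

theorem beta2 : CheckM ([(2, 0), (3, 0)] : List (ZMod 8 × ZMod 2)) (4, 0) (0, 1)
    (lab2 8 [0, 0, 0, 0, 2, 2, 2, 2, 4, 4, 4, 4, 6, 6, 6, 6])
    (lab2 8 [3, 5, 3, 5, 5, 7, 5, 7, 1, 7, 1, 7, 1, 3, 1, 3]) := by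
  constructor <;> decide +kernel

theorem beta6 : CheckM ([(1, 0)] : List (ZMod 6 × ZMod 2)) (3, 0) (0, 1)
    (lab2 6 [7, 5, 3, 1, 6, 6, 1, 3, 3, 0, 0, 2])
    (lab2 6 [2, 0, 0, 4, 2, 4, 5, 7, 5, 7, 5, 7]) := by
  constructor <;> decide +kernel

theorem gamma1 : CheckM ([(1, 0), (2, 0)] : List (ZMod 8 × ZMod 2)) (0, 1) (4, 1)
    (lab2 8 [4, 6, 7, 1, 2, 4, 5, 7, 0, 2, 3, 5, 6, 0, 1, 3])
    (lab2 8 [0, 2, 3, 5, 6, 0, 1, 3, 4, 6, 7, 1, 2, 4, 5, 7]) := by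
  constructor <;> decide +kernel

theorem gamma2 : CheckM ([(2, 0), (3, 0)] : List (ZMod 8 × ZMod 2)) (0, 1) (4, 1)
    (lab2 8 [0, 0, 0, 0, 2, 2, 2, 2, 4, 4, 4, 4, 6, 6, 6, 6])
    (lab2 8 [3, 5, 3, 5, 5, 7, 5, 7, 1, 7, 1, 7, 1, 3, 1, 3]) := by
  constructor <;> decide +kernel

theorem odd_window (m : ℕ) (hm : 2 ≤ m) (h3 : m ≠ 3) :
    ∃ w : ℕ, m ≤ 2 * (2 * w + 1) ∧ 4 * (2 * w + 1) ≤ 3 * m := by
  by_cases h : m = 2
  · exact ⟨0, by omega, by omega⟩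
  · exact ⟨(m + 1) / 4, by omega, by omega⟩

theorem coarse_half (m : ℕ) (hm : 0 < 2 * m) (z : ZMod (2 * m)) :
    coarse 8 (2 * m) (z + (m : ZMod (2 * m))) = coarse 8 (2 * m) z + 4 := by
  have hne : NeZero (2 * m) := ⟨hm.ne'⟩
  have hvm : ((m : ZMod (2 * m))).val = m := by
    rw [ZMod.val_natCast, Nat.mod_eq_of_lt (by omega)]
  obtain ⟨e, he1, he2, he3⟩ := coarse_step 8 (2 * m) hm (m : ZMod (2 * m)) 4 4
    (by rw [hvm]; omega) (by rw [hvm]; omega) z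
  have e4 : e = 4 := by omega
  rw [he3, e4]
  rfl

theorem odd_mul_half (m w : ℕ) :
    ((2 * w + 1 : ℕ) : ZMod (2 * m)) * (m : ZMod (2 * m)) = (m : ZMod (2 * m)) := by
  have h0 : ((2 * m : ℕ) : ZMod (2 * m)) = 0 := ZMod.natCast_self _
  push_cast at h0 ⊢
  linear_combination (w : ZMod (2 * m)) * h0

/-- The case in which the four-group meets the cyclic group trivially. -/
theorem mix_alpha {G : Type*} [AddCommGroup G] [Finite G] (r t1 t2 : G) (hr : r + r ≠ 0)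
    (h1 : t1 + t1 = 0) (h2 : t2 + t2 = 0) (n1 : t1 ∉ AddSubgroup.zmultiples r)
    (n2 : t2 ∉ AddSubgroup.zmultiples r) (n12 : t1 + t2 ∉ AddSubgroup.zmultiples r) :
    MixOK r t1 t2 := by
  obtain ⟨a, ha⟩ : ∃ a, a = addOrderOf r := ⟨_, rfl⟩
  have ha0 : 0 < a := by rw [ha]; exact addOrderOf_pos r
  have hne : NeZero a := ⟨ha0.ne'⟩
  have har : a • r = 0 := by rw [ha]; exact addOrderOf_nsmul_eq_zero r
  have ha3 : 3 ≤ a := by
    by_contra hcon
    apply hr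
    have h12 : a = 1 ∨ a = 2 := by omega
    rcases h12 with h | h
    · rw [h, one_nsmul] at har; rw [har, add_zero]
    · rw [h, two_nsmul] at har; exact har
  obtain ⟨i, hi⟩ : ∃ i, i = (a + 7) / 8 := ⟨_, rfl⟩
  have hvi : ((i : ℕ) : ZMod a).val = i := by
    rw [ZMod.val_natCast, Nat.mod_eq_of_lt (by omega)]
  have e2 : ∀ u : ℤ, u % 2 = 0 → ((u : ℤ) : ZMod 2) = 0 := fun u hu =>
    (ZMod.intCast_zmod_eq_zero_iff_dvd u 2).2 (Int.dvd_of_emod_eq_zero hu)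
  obtain ⟨ψ, p1, p2, p3⟩ := exists_phi3 r t1 t2 (((i : ZMod a), 0, 0) : ZMod a × ZMod 2 × ZMod 2)
    ((0, 1, 0) : ZMod a × ZMod 2 × ZMod 2) ((0, 0, 1) : ZMod a × ZMod 2 × ZMod 2) (by
    intro u v w huvw
    have key : ∀ x : G, u • r + x = 0 → x ∈ AddSubgroup.zmultiples r := by
      intro x hx
      have : x = (-u) • r := by
        rw [neg_smul]; exact eq_neg_of_add_eq_zero_right hx
      rw [this]
      exact AddSubgroup.zsmul_mem_zmultiples _ _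
    rcases zsmul_invol h1 v with ⟨hv, hv'⟩ | ⟨hv, hv'⟩ <;>
    rcases zsmul_invol h2 w with ⟨hw, hw'⟩ | ⟨hw, hw'⟩ <;>
    rw [hv', hw'] at huvw
    · rw [add_zero, add_zero] at huvw
      have h3 := addOrderOf_dvd_iff_zsmul_eq_zero.2 huvw
      rw [← ha] at h3
      have h4 := (ZMod.intCast_zmod_eq_zero_iff_dvd u a).2 h3
      have e7 : u • (((i : ZMod a), 0, 0) : ZMod a × ZMod 2 × ZMod 2) +
          v • ((0, 1, 0) : ZMod a × ZMod 2 × ZMod 2) +
          w • ((0, 0, 1) : ZMod a × ZMod 2 × ZMod 2)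
          = ((u : ZMod a) * i, (v : ZMod 2), (w : ZMod 2)) := by
        ext
        · simp [zsmul_eq_mul]
        · simp [zsmul_eq_mul]
        · simp [zsmul_eq_mul]
      rw [e7, h4, e2 v hv, e2 w hw, zero_mul]
      rfl
    · exfalso; apply n2; apply key; rw [add_zero] at huvw; exact huvw
    · exfalso; apply n1; apply key; rw [add_zero] at huvw; exact huvw
    · exfalso; apply n12; apply key; rw [← add_assoc]; exact huvw)
  let φ : G → ZMod 8 × ZMod 2 × ZMod 2 := fun g => (coarse 8 a (ψ g).1, (ψ g).2)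
  have q2 : ∀ g, φ (g + t1) = φ g + (0, 1, 0) := by
    intro g
    simp only [φ, p2, Prod.fst_add, Prod.snd_add, add_zero, Prod.mk_add_mk]
  have q3 : ∀ g, φ (g + t2) = φ g + (0, 0, 1) := by
    intro g
    simp only [φ, p3, Prod.fst_add, Prod.snd_add, add_zero, Prod.mk_add_mk]
  by_cases hb : 8 * i ≤ 2 * a
  · refine mixOK_of_check φ ?_ q2 q3 alpha1
    intro g
    obtain ⟨e, he1, he2, he3⟩ := coarse_step 8 a ha0 (i : ZMod a) 1 2
      (by rw [hvi]; omega) (by rw [hvi]; omega) (ψ g).1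
    refine ⟨((e : ZMod 8), 0, 0), ?_, ?_⟩
    · have : e = 1 ∨ e = 2 := by omega
      rcases this with rfl | rfl
      · left
      · right; left
    · simp only [φ, p1, Prod.fst_add, Prod.snd_add, he3, Prod.mk_add_mk]
  · refine mixOK_of_check φ ?_ q2 q3 alpha2
    intro g
    obtain ⟨e, he1, he2, he3⟩ := coarse_step 8 a ha0 (i : ZMod a) 2 3
      (by rw [hvi]; omega) (by rw [hvi]; omega) (ψ g).1
    refine ⟨((e : ZMod 8), 0, 0), ?_, ?_⟩
    · have : e = 2 ∨ e = 3 := by omega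
      rcases this with rfl | rfl
      · left
      · right; left
    · simp only [φ, p1, Prod.fst_add, Prod.snd_add, he3, Prod.mk_add_mk]

/-- The case in which one of the two involutions lies in the cyclic group. -/
theorem mix_beta {G : Type*} [AddCommGroup G] [Finite G] (r t1 t2 : G) (hr : r + r ≠ 0)
    (h1 : t1 + t1 = 0) (h2 : t2 + t2 = 0) (h10 : t1 ≠ 0) (m1 : t1 ∈ AddSubgroup.zmultiples r)
    (n2 : t2 ∉ AddSubgroup.zmultiples r) : MixOK r t1 t2 := by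
  obtain ⟨m, hm0, ha, rfl⟩ := invol_in_cyclic h1 h10 m1
  have hm0' : 0 < 2 * m := by omega
  have hne : NeZero (2 * m) := ⟨hm0'.ne'⟩
  have har : (2 * m) • r = 0 := by rw [← ha]; exact addOrderOf_nsmul_eq_zero r
  have hm2 : 2 ≤ m := by
    by_contra hcon
    have hm1 : m = 1 := by omega
    subst hm1
    apply hr
    simpa [two_nsmul] using har
  have e2 : ∀ u : ℤ, u % 2 = 0 → ((u : ℤ) : ZMod 2) = 0 := fun u hu =>
    (ZMod.intCast_zmod_eq_zero_iff_dvd u 2).2 (Int.dvd_of_emod_eq_zero hu)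
  -- the map, for an odd multiplier
  have map : ∀ w0 : ℕ, ∃ ψ : G → ZMod (2 * m) × ZMod 2,
      (∀ g, ψ (g + r) = ψ g + (((2 * w0 + 1 : ℕ) : ZMod (2 * m)), 0)) ∧
      (∀ g, ψ (g + (m : ℤ) • r) = ψ g + ((m : ZMod (2 * m)), 0)) ∧
      (∀ g, ψ (g + t2) = ψ g + (0, 1)) := by
    intro w0
    apply exists_phi3
    intro u v w huvw
    rcases zsmul_invol h2 w with ⟨hw, hw'⟩ | ⟨hw, hw'⟩
    · rw [hw', add_zero, ← mul_smul, ← add_smul] at huvw
      have h3 := addOrderOf_dvd_iff_zsmul_eq_zero.2 huvw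
      rw [ha] at h3
      have h4 := (ZMod.intCast_zmod_eq_zero_iff_dvd _ (2 * m)).2 h3
      push_cast at h4
      have h5 := odd_mul_half m w0
      have e7 : u • ((((2 * w0 + 1 : ℕ) : ZMod (2 * m)), 0) : ZMod (2 * m) × ZMod 2) +
          v • (((m : ZMod (2 * m)), 0) : ZMod (2 * m) × ZMod 2) +
          w • ((0, 1) : ZMod (2 * m) × ZMod 2)
          = ((u : ZMod (2 * m)) * ((2 * w0 + 1 : ℕ) : ZMod (2 * m)) +
            (v : ZMod (2 * m)) * (m : ZMod (2 * m)), (w : ZMod 2)) := by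
        ext
        · simp [zsmul_eq_mul]; ring
        · simp [zsmul_eq_mul]
      have e8 : (u : ZMod (2 * m)) * ((2 * w0 + 1 : ℕ) : ZMod (2 * m)) +
            (v : ZMod (2 * m)) * (m : ZMod (2 * m)) = 0 := by
        linear_combination ((2 * w0 + 1 : ℕ) : ZMod (2 * m)) * h4 - (v : ZMod (2 * m)) * h5
      rw [e7, e8, e2 w hw]
      rfl
    · exfalso
      apply n2
      rw [hw', ← mul_smul, ← add_smul] at huvw
      have : t2 = (-(u + v * m)) • r := by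
        rw [neg_smul]; exact eq_neg_of_add_eq_zero_right huvw
      rw [this]
      exact AddSubgroup.zsmul_mem_zmultiples _ _
  by_cases hm3 : m = 3
  · subst hm3
    obtain ⟨ψ, p1, p2, p3⟩ := map 0
    refine mixOK_of_check ψ ?_ p2 p3 beta6
    intro g
    exact ⟨(1, 0), by simp, by simpa using p1 g⟩
  · obtain ⟨w, hw1, hw2⟩ := odd_window m hm2 hm3
    obtain ⟨ψ, p1, p2, p3⟩ := map w
    have hvi : ((2 * w + 1 : ℕ) : ZMod (2 * m)).val = 2 * w + 1 := by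
      rw [ZMod.val_natCast, Nat.mod_eq_of_lt (by omega)]
    let φ : G → ZMod 8 × ZMod 2 := fun g => (coarse 8 (2 * m) (ψ g).1, (ψ g).2)
    have q2 : ∀ g, φ (g + (m : ℤ) • r) = φ g + (4, 0) := by
      intro g
      simp only [φ, p2, Prod.fst_add, Prod.snd_add, add_zero, Prod.mk_add_mk, coarse_half m hm0']
    have q3 : ∀ g, φ (g + t2) = φ g + (0, 1) := by
      intro g
      simp only [φ, p3, Prod.fst_add, Prod.snd_add, add_zero, Prod.mk_add_mk]
    refine mixOK_of_check φ ?_ q2 q3 beta2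
    intro g
    obtain ⟨e, he1, he2, he3⟩ := coarse_step 8 (2 * m) hm0' ((2 * w + 1 : ℕ) : ZMod (2 * m)) 2 3
      (by rw [hvi]; omega) (by rw [hvi]; omega) (ψ g).1
    refine ⟨((e : ZMod 8), 0), ?_, ?_⟩
    · have : e = 2 ∨ e = 3 := by omega
      rcases this with rfl | rfl
      · left
      · right; left
    · simp only [φ, p1, Prod.fst_add, Prod.snd_add, he3, Prod.mk_add_mk, add_zero]

/-- The case in which the sum of the two involutions lies in the cyclic group. -/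
theorem mix_gamma {G : Type*} [AddCommGroup G] [Finite G] (r t1 t2 : G) (hr : r + r ≠ 0)
    (h1 : t1 + t1 = 0) (h2 : t2 + t2 = 0) (h12 : t1 ≠ t2)
    (m12 : t1 + t2 ∈ AddSubgroup.zmultiples r)
    (n1 : t1 ∉ AddSubgroup.zmultiples r) : MixOK r t1 t2 := by
  have h3 : (t1 + t2) + (t1 + t2) = 0 := by
    calc (t1 + t2) + (t1 + t2) = (t1 + t1) + (t2 + t2) := by abel
      _ = 0 := by rw [h1, h2, add_zero]
  have h30 : t1 + t2 ≠ 0 := by
    intro h
    apply h12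
    calc t1 = t1 + t2 + t2 := by rw [add_assoc, h2, add_zero]
      _ = t2 := by rw [h, zero_add]
  obtain ⟨m, hm0, ha, hmr⟩ := invol_in_cyclic h3 h30 m12
  have ht2 : t2 = (m : ℤ) • r + t1 := by
    rw [← hmr]
    calc t2 = t2 + (t1 + t1) := by rw [h1, add_zero]
      _ = t1 + t2 + t1 := by abel
  have hm0' : 0 < 2 * m := by omega
  have hne : NeZero (2 * m) := ⟨hm0'.ne'⟩
  have har : (2 * m) • r = 0 := by rw [← ha]; exact addOrderOf_nsmul_eq_zero r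
  have hm2 : 2 ≤ m := by
    by_contra hcon
    have hm1 : m = 1 := by omega
    subst hm1
    apply hr
    simpa [two_nsmul] using har
  have e2 : ∀ u : ℤ, u % 2 = 0 → ((u : ℤ) : ZMod 2) = 0 := fun u hu =>
    (ZMod.intCast_zmod_eq_zero_iff_dvd u 2).2 (Int.dvd_of_emod_eq_zero hu)
  have map : ∀ w0 : ℕ, ∃ ψ : G → ZMod (2 * m) × ZMod 2,
      (∀ g, ψ (g + r) = ψ g + (((2 * w0 + 1 : ℕ) : ZMod (2 * m)), 0)) ∧
      (∀ g, ψ (g + t1) = ψ g + (0, 1)) ∧
      (∀ g, ψ (g + t2) = ψ g + ((m : ZMod (2 * m)), 1)) := by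
    intro w0
    apply exists_phi3
    intro u v w huvw
    have huvw' : (u + w * m) • r + (v + w) • t1 = 0 := by
      rw [ht2, smul_add, ← mul_smul] at huvw
      rw [add_smul, add_smul]
      calc _ = u • r + v • t1 + ((w * m) • r + w • t1) := by abel
        _ = 0 := huvw
    rcases zsmul_invol h1 (v + w) with ⟨hw, hw'⟩ | ⟨hw, hw'⟩
    · rw [hw', add_zero] at huvw'
      have h3 := addOrderOf_dvd_iff_zsmul_eq_zero.2 huvw'
      rw [ha] at h3
      have h4 := (ZMod.intCast_zmod_eq_zero_iff_dvd _ (2 * m)).2 h3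
      push_cast at h4
      have h5 := odd_mul_half m w0
      have e7 : u • ((((2 * w0 + 1 : ℕ) : ZMod (2 * m)), 0) : ZMod (2 * m) × ZMod 2) +
          v • ((0, 1) : ZMod (2 * m) × ZMod 2) +
          w • (((m : ZMod (2 * m)), 1) : ZMod (2 * m) × ZMod 2)
          = ((u : ZMod (2 * m)) * ((2 * w0 + 1 : ℕ) : ZMod (2 * m)) +
            (w : ZMod (2 * m)) * (m : ZMod (2 * m)), ((v + w : ℤ) : ZMod 2)) := by
        ext
        · simp [zsmul_eq_mul]; ring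
        · simp [zsmul_eq_mul]
      have e8 : (u : ZMod (2 * m)) * ((2 * w0 + 1 : ℕ) : ZMod (2 * m)) +
            (w : ZMod (2 * m)) * (m : ZMod (2 * m)) = 0 := by
        linear_combination ((2 * w0 + 1 : ℕ) : ZMod (2 * m)) * h4 - (w : ZMod (2 * m)) * h5
      rw [e7, e8, e2 _ hw]
      rfl
    · exfalso
      apply n1
      rw [hw'] at huvw'
      have : t1 = (-(u + w * m)) • r := by
        rw [neg_smul]; exact eq_neg_of_add_eq_zero_right huvw'
      rw [this]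
      exact AddSubgroup.zsmul_mem_zmultiples _ _
  by_cases hm3 : m = 3
  · subst hm3
    obtain ⟨ψ, p1, p2, p3⟩ := map 0
    let φ : G → ZMod 8 × ZMod 2 := fun g => (coarse 8 (2 * 3) (ψ g).1, (ψ g).2)
    have q2 : ∀ g, φ (g + t1) = φ g + (0, 1) := by
      intro g
      simp only [φ, p2, Prod.fst_add, Prod.snd_add, add_zero, Prod.mk_add_mk]
    have q3 : ∀ g, φ (g + t2) = φ g + (4, 1) := by
      intro g
      simp only [φ, p3, Prod.fst_add, Prod.snd_add, Prod.mk_add_mk, coarse_half 3 hm0']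
    refine mixOK_of_check φ ?_ q2 q3 gamma1
    intro g
    have hvi : ((2 * 0 + 1 : ℕ) : ZMod (2 * 3)).val = 1 := by decide
    obtain ⟨e, he1, he2, he3⟩ := coarse_step 8 (2 * 3) hm0' ((2 * 0 + 1 : ℕ) : ZMod (2 * 3)) 1 2
      (by rw [hvi]; omega) (by rw [hvi]; omega) (ψ g).1
    refine ⟨((e : ZMod 8), 0), ?_, ?_⟩
    · have : e = 1 ∨ e = 2 := by omega
      rcases this with rfl | rfl
      · left
      · right; left
    · simp only [φ, p1, Prod.fst_add, Prod.snd_add, he3, Prod.mk_add_mk, add_zero]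
  · obtain ⟨w, hw1, hw2⟩ := odd_window m hm2 hm3
    obtain ⟨ψ, p1, p2, p3⟩ := map w
    have hvi : ((2 * w + 1 : ℕ) : ZMod (2 * m)).val = 2 * w + 1 := by
      rw [ZMod.val_natCast, Nat.mod_eq_of_lt (by omega)]
    let φ : G → ZMod 8 × ZMod 2 := fun g => (coarse 8 (2 * m) (ψ g).1, (ψ g).2)
    have q2 : ∀ g, φ (g + t1) = φ g + (0, 1) := by
      intro g
      simp only [φ, p2, Prod.fst_add, Prod.snd_add, add_zero, Prod.mk_add_mk]
    have q3 : ∀ g, φ (g + t2) = φ g + (4, 1) := by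
      intro g
      simp only [φ, p3, Prod.fst_add, Prod.snd_add, Prod.mk_add_mk, coarse_half m hm0']
    refine mixOK_of_check φ ?_ q2 q3 gamma2
    intro g
    obtain ⟨e, he1, he2, he3⟩ := coarse_step 8 (2 * m) hm0' ((2 * w + 1 : ℕ) : ZMod (2 * m)) 2 3
      (by rw [hvi]; omega) (by rw [hvi]; omega) (ψ g).1
    refine ⟨((e : ZMod 8), 0), ?_, ?_⟩
    · have : e = 2 ∨ e = 3 := by omega
      rcases this with rfl | rfl
      · left
      · right; left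
    · simp only [φ, p1, Prod.fst_add, Prod.snd_add, he3, Prod.mk_add_mk, add_zero]

/-- All finite abelian groups. -/
theorem mix_all {G : Type*} [AddCommGroup G] [Finite G] (r t1 t2 : G) (hr : r + r ≠ 0)
    (h1 : t1 + t1 = 0) (h2 : t2 + t2 = 0) (h10 : t1 ≠ 0) (h20 : t2 ≠ 0) (h12 : t1 ≠ t2) :
    MixOK r t1 t2 := by
  by_cases n1 : t1 ∈ AddSubgroup.zmultiples r
  · apply mix_beta r t1 t2 hr h1 h2 h10 n1
    intro n2
    obtain ⟨m, _, ha, e1⟩ := invol_in_cyclic h1 h10 n1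
    obtain ⟨m', _, ha', e2⟩ := invol_in_cyclic h2 h20 n2
    apply h12
    have : m = m' := by omega
    rw [e1, e2, this]
  by_cases n2 : t2 ∈ AddSubgroup.zmultiples r
  · exact (mix_beta r t2 t1 hr h2 h1 h20 n2 n1).swap
  by_cases n12 : t1 + t2 ∈ AddSubgroup.zmultiples r
  · exact mix_gamma r t1 t2 hr h1 h2 h12 n12 n1
  · exact mix_alpha r t1 t2 hr h1 h2 n1 n2 n12

end Pool.Agent.helper85.L21
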