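import Pool.Agent.helper85.L21.Graph

/-! # The Petersen graph as a graph with two orbits of a group of order five -/

set_option autoImplicit false

namespace Pool.Agent.helper85.L21

/-- The Petersen graph on the two-element subsets of a five-element set. -/
def Pet : SimpleGraph {s : Finset (Fin 5) // s.card = 2} :=
  SimpleGraph.fromRel
    (fun s t : {s : Finset (Fin 5) // s.card = 2} => Disjoint s.1 t.1)

/-- Adjacency in the generalized Petersen graph `P(5,2)`. -/
def PAdj (u v : Bool × ZMod 5) : Bool :=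
  match u, v with
  | (false, i), (false, j) => decide (j = i + 1 ∨ i = j + 1)
  | (true, i), (true, j) => decide (j = i + 2 ∨ i = j + 2)
  | (false, i), (true, j) => decide (i = j)
  | (true, i), (false, j) => decide (i = j)

theorem pcard : ∀ u : Bool × ZMod 5,
    (if u.1 then ({2 * u.2 + 2, 2 * u.2 + 4} : Finset (ZMod 5)) else {2 * u.2, 2 * u.2 + 1}).card
      = 2 := by
  decide +kernel

/-- The explicit bijection. -/
def pmap (u : Bool × ZMod 5) : {s : Finset (Fin 5) // s.card = 2} :=
  ⟨if u.1 then ({2 * u.2 + 2, 2 * u.2 + 4} : Finset (ZMod 5)) else {2 * u.2, 2 * u.2 + 1}, pcard u⟩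

theorem pmap_inj : ∀ u v : Bool × ZMod 5, pmap u = pmap v → u = v := by
  decide +kernel

theorem pmap_surj : ∀ s : {s : Finset (Fin 5) // s.card = 2}, ∃ u, pmap u = s := by
  decide +kernel

theorem pmap_adj : ∀ u v : Bool × ZMod 5,
    PAdj u v = true ↔ (pmap u ≠ pmap v ∧ (Disjoint (pmap u).1 (pmap v).1 ∨
      Disjoint (pmap v).1 (pmap u).1)) := by
  decide +kernel

/-- A graph with a bijective parametrization of this shape is the Petersen graph. -/
theorem iso_of_param {V : Type*} (Γ : SimpleGraph V) (g : Bool × ZMod 5 → V)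
    (hg : Function.Bijective g) (hadj : ∀ u v, Γ.Adj (g u) (g v) ↔ PAdj u v = true) :
    Nonempty (Γ ≃g Pet) := by
  let e : V ≃ Bool × ZMod 5 := (Equiv.ofBijective g hg).symm
  let f : (Bool × ZMod 5) ≃ {s : Finset (Fin 5) // s.card = 2} :=
    Equiv.ofBijective pmap ⟨fun u v h => pmap_inj u v h, pmap_surj⟩
  refine ⟨⟨e.trans f, ?_⟩⟩
  intro a b
  have ha : g (e a) = a := (Equiv.ofBijective g hg).apply_symm_apply a
  have hb : g (e b) = b := (Equiv.ofBijective g hg).apply_symm_apply b
  have h1 : Γ.Adj a b ↔ PAdj (e a) (e b) = true := by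
    rw [← hadj, ha, hb]
  rw [h1, pmap_adj]
  show Pet.Adj (pmap (e a)) (pmap (e b)) ↔ _
  rw [Pet, SimpleGraph.fromRel_adj]

end Pool.Agent.helper85.L21
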