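import Pool.Agent.helper85.L21.BiT
import Pool.Agent.helper85.L21.Pet

/-! # Cubic graphs with a semiregular abelian group with at most two orbits -/

set_option autoImplicit false

namespace Pool.Agent.helper85.L21

section
variable {V A : Type*} [AddCommGroup A] [AddAction A V]

theorem vadd_inj_of_free (hfree : ∀ (a : A) (v : V), a +ᵥ v = v → a = 0) {a b : A} {x : V}
    (h : a +ᵥ x = b +ᵥ x) : a = b := by
  have h1 : (-b + a) +ᵥ x = x := by
    rw [add_vadd, h, neg_vadd_vadd]
  have h2 := hfree _ _ h1
  calc a = b + (-b + a) := by abel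
    _ = b := by rw [h2, add_zero]

theorem adj_iff_sub (Γ : SimpleGraph V)
    (hadj : ∀ (a : A) (u v : V), Γ.Adj u v → Γ.Adj (a +ᵥ u) (a +ᵥ v)) (a b : A) (x y : V) :
    Γ.Adj (a +ᵥ x) (b +ᵥ y) ↔ Γ.Adj x ((b - a) +ᵥ y) := by
  constructor
  · intro h
    have h1 := hadj (-a) _ _ h
    rw [neg_vadd_vadd, ← add_vadd] at h1
    have e : -a + b = b - a := by abel
    rwa [e] at h1
  · intro h
    have h1 := hadj a _ _ h
    rw [← add_vadd] at h1
    have e : a + (b - a) = b := by abel
    rwa [e] at h1

end

/-- One orbit. -/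
theorem one_orbit {V A : Type*} [Fintype V] [AddCommGroup A] [AddAction A V]
    (Γ : SimpleGraph V) [DecidableRel Γ.Adj] (hreg : Γ.IsRegularOfDegree 3)
    (hfree : ∀ (a : A) (v : V), a +ᵥ v = v → a = 0)
    (hadj : ∀ (a : A) (u v : V), Γ.Adj u v → Γ.Adj (a +ᵥ u) (a +ᵥ v)) (u0 : V)
    (horb : ∀ w, ∃ a : A, w = a +ᵥ u0) : ∃ f : V → ℕ, Labelled Γ f := by
  classical
  have hinj : Function.Injective (fun a : A => a +ᵥ u0) := fun a b h => vadd_inj_of_free hfree h
  have hfin : Finite A := Finite.of_injective _ hinj
  have : Fintype A := Fintype.ofFinite A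
  let C : Finset A := Finset.univ.filter fun c => Γ.Adj u0 (c +ᵥ u0)
  have hC : ∀ c, c ∈ C ↔ Γ.Adj u0 (c +ᵥ u0) := by intro c; simp [C]
  have hcard : C.card = 3 := by
    have h1 : C.image (fun a : A => a +ᵥ u0) = Γ.neighborFinset u0 := by
      ext w
      rw [Finset.mem_image, SimpleGraph.mem_neighborFinset]
      constructor
      · rintro ⟨c, hc, rfl⟩; exact (hC c).1 hc
      · intro hw
        obtain ⟨a, rfl⟩ := horb w
        exact ⟨a, (hC a).2 hw, rfl⟩
    rw [← Finset.card_image_of_injective C hinj, h1]
    exact hreg u0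
  have hsym : ∀ c ∈ C, -c ∈ C := by
    intro c hc
    rw [hC] at hc ⊢
    have h1 := hadj (-c) _ _ hc
    rw [neg_vadd_vadd] at h1
    exact h1.symm
  have h0 : (0 : A) ∉ C := by
    rw [hC, zero_vadd]; exact Γ.irrefl
  obtain ⟨f, hf⟩ := uni_all hsym h0 hcard
  choose idx hidx using horb
  have hidx' : ∀ a : A, idx (a +ᵥ u0) = a := fun a =>
    (vadd_inj_of_free hfree (hidx (a +ᵥ u0)).symm)
  refine ⟨fun w => f (idx w), ?_, ?_, ?_⟩
  · intro w; exact hf.le _
  · intro u v huv
    rw [hidx u, hidx v] at huv ⊢
    simp only [hidx']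
    rw [adj_iff_sub Γ hadj] at huv
    have h1 := hf.ff (idx u) _ ((hC _).2 huv)
    have e : idx u + (idx v - idx u) = idx v := by abel
    rw [e] at h1
    exact far_abs h1
  · intro u v w huv h1 h2
    have h1' := h1.symm
    rw [hidx w, hidx u, adj_iff_sub Γ hadj] at h1'
    rw [hidx w, hidx v, adj_iff_sub Γ hadj] at h2
    have hne : idx u - idx w ≠ idx v - idx w := by
      intro h
      apply huv
      rw [hidx u, hidx v, sub_left_injective h]
    have h3 := hf.ne (idx w) _ ((hC _).2 h1') _ ((hC _).2 h2) hne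
    have e1 : idx w + (idx u - idx w) = idx u := by abel
    have e2 : idx w + (idx v - idx w) = idx v := by abel
    rw [e1, e2] at h3
    exact h3

/-- A closed set of vertices of a connected graph is everything. -/
theorem closed_eq_univ {V : Type*} (Γ : SimpleGraph V) (hconn : Γ.Connected) (I : V → Prop)
    (x : V) (hx : I x) (hcl : ∀ u v, I u → Γ.Adj u v → I v) : ∀ v, I v := by
  intro v
  obtain ⟨p⟩ := hconn.preconnected x v
  induction p with
  | nil => exact hx
  | cons h _ ih => exact ih (hcl _ _ hx h)

/-- Two orbits. -/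
theorem two_orbits {V A : Type*} [Fintype V] [AddCommGroup A] [AddAction A V]
    (Γ : SimpleGraph V) [DecidableRel Γ.Adj] (hconn : Γ.Connected)
    (hreg : Γ.IsRegularOfDegree 3)
    (hfree : ∀ (a : A) (v : V), a +ᵥ v = v → a = 0)
    (hadj : ∀ (a : A) (u v : V), Γ.Adj u v → Γ.Adj (a +ᵥ u) (a +ᵥ v)) (u0 v0 : V)
    (hdis : ∀ a : A, v0 ≠ a +ᵥ u0)
    (horb : ∀ w, ∃ a : A, w = a +ᵥ u0 ∨ w = a +ᵥ v0) :
    (∃ f : V → ℕ, Labelled Γ f) ∨ Nonempty (Γ ≃g Pet) := by
  classical
  have hinj : Function.Injective (fun a : A => a +ᵥ u0) := fun a b h => vadd_inj_of_free hfree h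
  have hinj' : Function.Injective (fun a : A => a +ᵥ v0) := fun a b h => vadd_inj_of_free hfree h
  have hfin : Finite A := Finite.of_injective _ hinj
  have : Fintype A := Fintype.ofFinite A
  have hdis' : ∀ a b : A, a +ᵥ u0 ≠ b +ᵥ v0 := by
    intro a b h
    apply hdis (-b + a)
    rw [add_vadd, h, neg_vadd_vadd]
  have hA := adj_iff_sub (A := A) Γ hadj
  let R : Finset A := Finset.univ.filter fun c => Γ.Adj u0 (c +ᵥ u0)
  let L : Finset A := Finset.univ.filter fun c => Γ.Adj v0 (c +ᵥ v0)
  let S : Finset A := Finset.univ.filter fun c => Γ.Adj u0 (c +ᵥ v0)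
  have hR : ∀ c, c ∈ R ↔ Γ.Adj u0 (c +ᵥ u0) := by intro c; simp [R]
  have hL : ∀ c, c ∈ L ↔ Γ.Adj v0 (c +ᵥ v0) := by intro c; simp [L]
  have hS : ∀ c, c ∈ S ↔ Γ.Adj u0 (c +ᵥ v0) := by intro c; simp [S]
  have hS' : ∀ c, Γ.Adj v0 (c +ᵥ u0) ↔ -c ∈ S := by
    intro c
    rw [hS]
    constructor
    · intro h
      have h1 := hadj (-c) _ _ h
      rw [neg_vadd_vadd] at h1
      exact h1.symm
    · intro h
      have h1 := hadj c _ _ h
      rw [← add_vadd, add_neg_cancel, zero_vadd] at h1
      exact h1.symm
  have hcard1 : R.card + S.card = 3 := by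
    have h1 : R.image (fun a : A => a +ᵥ u0) ∪ S.image (fun a : A => a +ᵥ v0)
        = Γ.neighborFinset u0 := by
      ext w
      rw [Finset.mem_union, Finset.mem_image, Finset.mem_image, SimpleGraph.mem_neighborFinset]
      constructor
      · rintro (⟨c, hc, rfl⟩ | ⟨c, hc, rfl⟩)
        · exact (hR c).1 hc
        · exact (hS c).1 hc
      · intro hw
        obtain ⟨a, rfl | rfl⟩ := horb w
        · left; exact ⟨a, (hR a).2 hw, rfl⟩
        · right; exact ⟨a, (hS a).2 hw, rfl⟩
    have h2 : Disjoint (R.image (fun a : A => a +ᵥ u0)) (S.image (fun a : A => a +ᵥ v0)) := by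
      rw [Finset.disjoint_left]
      intro w hw hw'
      rw [Finset.mem_image] at hw hw'
      obtain ⟨a, _, rfl⟩ := hw
      obtain ⟨b, _, hb⟩ := hw'
      exact hdis' a b hb.symm
    rw [← Finset.card_image_of_injective R hinj, ← Finset.card_image_of_injective S hinj',
      ← Finset.card_union_of_disjoint h2, h1]
    exact hreg u0
  have hcard2 : L.card + S.card = 3 := by
    have hinj'' : Function.Injective (fun a : A => (-a) +ᵥ u0) := fun a b h =>
      neg_injective (vadd_inj_of_free hfree h)
    have h1 : L.image (fun a : A => a +ᵥ v0) ∪ S.image (fun a : A => (-a) +ᵥ u0)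
        = Γ.neighborFinset v0 := by
      ext w
      rw [Finset.mem_union, Finset.mem_image, Finset.mem_image, SimpleGraph.mem_neighborFinset]
      constructor
      · rintro (⟨c, hc, rfl⟩ | ⟨c, hc, rfl⟩)
        · exact (hL c).1 hc
        · rw [hS', neg_neg]; exact hc
      · intro hw
        obtain ⟨a, rfl | rfl⟩ := horb w
        · right
          refine ⟨-a, (hS' a).1 hw, ?_⟩
          rw [neg_neg]
        · left; exact ⟨a, (hL a).2 hw, rfl⟩
    have h2 : Disjoint (L.image (fun a : A => a +ᵥ v0)) (S.image (fun a : A => (-a) +ᵥ u0)) := by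
      rw [Finset.disjoint_left]
      intro w hw hw'
      rw [Finset.mem_image] at hw hw'
      obtain ⟨a, _, rfl⟩ := hw
      obtain ⟨b, _, hb⟩ := hw'
      exact hdis' (-b) a hb
    rw [← Finset.card_image_of_injective L hinj', ← Finset.card_image_of_injective S hinj'',
      ← Finset.card_union_of_disjoint h2, h1]
    exact hreg v0
  have hRsym : ∀ c ∈ R, -c ∈ R := by
    intro c hc
    rw [hR] at hc ⊢
    have h1 := hadj (-c) _ _ hc
    rw [neg_vadd_vadd] at h1
    exact h1.symm
  have hLsym : ∀ c ∈ L, -c ∈ L := by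
    intro c hc
    rw [hL] at hc ⊢
    have h1 := hadj (-c) _ _ hc
    rw [neg_vadd_vadd] at h1
    exact h1.symm
  have h0R : (0 : A) ∉ R := by
    rw [hR, zero_vadd]; exact Γ.irrefl
  have h0L : (0 : A) ∉ L := by
    rw [hL, zero_vadd]; exact Γ.irrefl
  rcases bi_all hRsym hLsym h0R h0L hcard1 hcard2 with ⟨FA, FB, hf⟩ | ⟨s, c, hs5, eR, eL, eS⟩
  · left
    -- the labelling
    choose idx hidx using horb
    let F : V → ℕ := fun w => if w = idx w +ᵥ u0 then FA (idx w) else FB (idx w)
    have FU : ∀ a : A, F (a +ᵥ u0) = FA a := by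
      intro a
      rcases hidx (a +ᵥ u0) with h | h
      · have h1 : idx (a +ᵥ u0) = a := (vadd_inj_of_free hfree h).symm
        simp only [F, h1, if_true]
      · exact absurd h (hdis' _ _)
    have FV : ∀ a : A, F (a +ᵥ v0) = FB a := by
      intro a
      rcases hidx (a +ᵥ v0) with h | h
      · exact absurd h.symm (hdis' _ _)
      · have h1 : idx (a +ᵥ v0) = a := (vadd_inj_of_free hfree h).symm
        have h2 : ¬ (a +ᵥ v0 = a +ᵥ u0) := fun h3 => hdis' a a h3.symm
        simp only [F, h1, if_neg h2]
    have cases : ∀ w : V, ∃ a : A, w = a +ᵥ u0 ∨ w = a +ᵥ v0 := fun w => ⟨idx w, hidx w⟩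
    refine ⟨F, ?_, ?_, ?_⟩
    · intro w
      obtain ⟨a, rfl | rfl⟩ := cases w
      · rw [FU]; exact hf.leA a
      · rw [FV]; exact hf.leB a
    · intro u v huv
      apply far_abs
      obtain ⟨a, rfl | rfl⟩ := cases u <;> obtain ⟨b, rfl | rfl⟩ := cases v
      · rw [FU, FU]
        rw [hA, ← hR] at huv
        have h1 := hf.aa a _ huv
        rwa [show a + (b - a) = b by abel] at h1
      · rw [FU, FV]
        rw [hA, ← hS] at huv
        have h1 := hf.ab a _ huv
        rwa [show a + (b - a) = b by abel] at h1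
      · rw [FV, FU]
        have huv' := huv.symm
        rw [hA, ← hS] at huv'
        have h1 := hf.ab b _ huv'
        rw [show b + (a - b) = a by abel] at h1
        exact h1.symm
      · rw [FV, FV]
        rw [hA, ← hL] at huv
        have h1 := hf.bb a _ huv
        rwa [show a + (b - a) = b by abel] at h1
    · intro u v w huv h1 h2
      have h1' := h1.symm
      obtain ⟨g, rfl | rfl⟩ := cases w
      · obtain ⟨a, rfl | rfl⟩ := cases u <;> obtain ⟨b, rfl | rfl⟩ := cases v
        · rw [hA, ← hR] at h1' h2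
          have hne : a - g ≠ b - g := fun h => huv (by rw [sub_left_injective h])
          have h3 := hf.uu1 g _ h1' _ h2 hne
          rw [show g + (a - g) = a by abel, show g + (b - g) = b by abel] at h3
          rw [FU, FU]; exact h3
        · rw [hA, ← hR] at h1'
          rw [hA, ← hS] at h2
          have h3 := hf.uv1 g _ h1' _ h2
          rw [show g + (a - g) = a by abel, show g + (b - g) = b by abel] at h3
          rw [FU, FV]; exact h3
        · rw [hA, ← hS] at h1'
          rw [hA, ← hR] at h2
          have h3 := hf.uv1 g _ h2 _ h1'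
          rw [show g + (a - g) = a by abel, show g + (b - g) = b by abel] at h3
          rw [FU, FV]; exact h3.symm
        · rw [hA, ← hS] at h1' h2
          have hne : a - g ≠ b - g := fun h => huv (by rw [sub_left_injective h])
          have h3 := hf.vv1 g _ h1' _ h2 hne
          rw [show g + (a - g) = a by abel, show g + (b - g) = b by abel] at h3
          rw [FV, FV]; exact h3
      · obtain ⟨a, rfl | rfl⟩ := cases u <;> obtain ⟨b, rfl | rfl⟩ := cases v
        · rw [hA, hS'] at h1' h2
          have hne : -(a - g) ≠ -(b - g) := fun h =>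
            huv (by rw [sub_left_injective (neg_injective h)])
          have h3 := hf.uu2 g _ h1' _ h2 hne
          rw [show g - -(a - g) = a by abel, show g - -(b - g) = b by abel] at h3
          rw [FU, FU]; exact h3
        · rw [hA, hS'] at h1'
          rw [hA, ← hL] at h2
          have h3 := hf.uv2 g _ h2 _ h1'
          rw [show g - -(a - g) = a by abel, show g + (b - g) = b by abel] at h3
          rw [FU, FV]; exact h3.symm
        · rw [hA, ← hL] at h1'
          rw [hA, hS'] at h2
          have h3 := hf.uv2 g _ h1' _ h2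
          rw [show g + (a - g) = a by abel, show g - -(b - g) = b by abel] at h3
          rw [FV, FU]; exact h3
        · rw [hA, ← hL] at h1' h2
          have hne : a - g ≠ b - g := fun h => huv (by rw [sub_left_injective h])
          have h3 := hf.vv2 g _ h1' _ h2 hne
          rw [show g + (a - g) = a by abel, show g + (b - g) = b by abel] at h3
          rw [FV, FV]; exact h3
  · right
    -- the Petersen graph
    have h5 : (5 : ℤ) • s = 0 := by
      have := addOrderOf_nsmul_eq_zero s
      rw [hs5] at this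
      exact_mod_cast this
    let ι : ZMod 5 →+ A := ZMod.lift 5 ⟨zmultiplesHom A s, by simpa using h5⟩
    have ι1 : ι 1 = s := by
      have h := ZMod.lift_coe 5 ⟨zmultiplesHom A s, by simpa using h5⟩ 1
      simp only [Int.cast_one, zmultiplesHom_apply, one_smul] at h
      exact h
    have ι2 : ι 2 = s + s := by
      have : (2 : ZMod 5) = 1 + 1 := by decide
      rw [this, map_add, ι1]
    have ιker : ∀ z : ZMod 5, ι z = 0 → z = 0 := by
      intro z hz
      have hv : z = ((z.val : ℕ) : ZMod 5) := (ZMod.natCast_zmod_val z).symm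
      have h1 : z.val • s = 0 := by
        rw [hv] at hz
        have : ι ((z.val : ℕ) : ZMod 5) = z.val • s := by
          rw [← nsmul_one, map_nsmul, ι1]
        rw [this] at hz
        exact hz
      have h2 := addOrderOf_dvd_iff_nsmul_eq_zero.2 h1
      rw [hs5] at h2
      have h3 : z.val = 0 := Nat.eq_zero_of_dvd_of_lt h2 (ZMod.val_lt z)
      rw [hv, h3]; rfl
    have ιinj : Function.Injective ι := (injective_iff_map_eq_zero ι).2 ιker
    have memR : ∀ i j : ZMod 5, (ι j - ι i ∈ R) ↔ (j = i + 1 ∨ i = j + 1) := by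
      intro i j
      rw [eR, Finset.mem_insert, Finset.mem_singleton, ← ι1]
      constructor
      · rintro (h | h)
        · left; apply ιinj; rw [map_add, ← h]; abel
        · right; apply ιinj
          rw [map_add]
          have : ι i = ι j - (ι j - ι i) := by abel
          rw [this, h]; abel
      · rintro (rfl | rfl)
        · left; rw [map_add]; abel
        · right; rw [map_add]; abel
    have memL : ∀ i j : ZMod 5, (ι j - ι i ∈ L) ↔ (j = i + 2 ∨ i = j + 2) := by
      intro i j
      rw [eL, Finset.mem_insert, Finset.mem_singleton, ← ι2]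
      constructor
      · rintro (h | h)
        · left; apply ιinj; rw [map_add, ← h]; abel
        · right; apply ιinj
          rw [map_add]
          have : ι i = ι j - (ι j - ι i) := by abel
          rw [this, h]; abel
      · rintro (rfl | rfl)
        · left; rw [map_add]; abel
        · right; rw [map_add]; abel
    let g : Bool × ZMod 5 → V := fun p => if p.1 then (ι p.2 + c) +ᵥ v0 else ι p.2 +ᵥ u0
    have gF : ∀ i, g (false, i) = ι i +ᵥ u0 := fun i => by simp [g]
    have gT : ∀ i, g (true, i) = (ι i + c) +ᵥ v0 := fun i => by simp [g]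
    have adjFF : ∀ i j, Γ.Adj (g (false, i)) (g (false, j)) ↔ (j = i + 1 ∨ i = j + 1) := by
      intro i j
      rw [gF, gF, hA, ← hR, memR]
    have adjTT : ∀ i j, Γ.Adj (g (true, i)) (g (true, j)) ↔ (j = i + 2 ∨ i = j + 2) := by
      intro i j
      rw [gT, gT, hA, ← hL, show ι j + c - (ι i + c) = ι j - ι i by abel, memL]
    have adjFT : ∀ i j, Γ.Adj (g (false, i)) (g (true, j)) ↔ i = j := by
      intro i j
      rw [gF, gT, hA, ← hS, eS, Finset.mem_singleton]
      constructor
      · intro h
        apply ιinj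
        have : ι i = ι j + c - (ι j + c - ι i) := by abel
        rw [this, h]; abel
      · rintro rfl; abel
    apply iso_of_param Γ g
    · constructor
      · rintro ⟨b, i⟩ ⟨b', j⟩ h
        cases b <;> cases b'
        · rw [gF, gF] at h
          rw [ιinj (vadd_inj_of_free hfree h)]
        · rw [gF, gT] at h
          exact absurd h (hdis' _ _)
        · rw [gF, gT] at h
          exact absurd h.symm (hdis' _ _)
        · rw [gT, gT] at h
          have h1 := vadd_inj_of_free hfree h
          rw [ιinj (add_right_cancel h1)]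
      · have hclosed : ∀ u v, (∃ p, g p = u) → Γ.Adj u v → ∃ p, g p = v := by
          rintro u v ⟨⟨b, i⟩, rfl⟩ huv
          cases b
          · obtain ⟨a, rfl | rfl⟩ := horb v
            · rw [gF, hA, ← hR, eR, Finset.mem_insert, Finset.mem_singleton, ← ι1] at huv
              rcases huv with h | h
              · refine ⟨(false, i + 1), ?_⟩
                rw [gF, map_add, ← h]; congr 1; abel
              · refine ⟨(false, i - 1), ?_⟩
                rw [gF, map_sub]; congr 1
                have : a = ι i + (a - ι i) := by abel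
                rw [this, h]; abel
            · rw [gF, hA, ← hS, eS, Finset.mem_singleton] at huv
              refine ⟨(true, i), ?_⟩
              rw [gT, ← huv]; congr 1; abel
          · obtain ⟨a, rfl | rfl⟩ := horb v
            · rw [gT, hA, hS', eS, Finset.mem_singleton] at huv
              refine ⟨(false, i), ?_⟩
              rw [gF]; congr 1
              have : a = (ι i + c) - (-(a - (ι i + c))) := by abel
              rw [this, huv]; abel
            · rw [gT, hA, ← hL, eL, Finset.mem_insert, Finset.mem_singleton, ← ι2] at huv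
              rcases huv with h | h
              · refine ⟨(true, i + 2), ?_⟩
                rw [gT, map_add, ← h]; congr 1; abel
              · refine ⟨(true, i - 2), ?_⟩
                rw [gT, map_sub]; congr 1
                have : a = (ι i + c) + (a - (ι i + c)) := by abel
                rw [this, h]; abel
        exact closed_eq_univ Γ hconn (fun v => ∃ p, g p = v) (g (false, 0)) ⟨_, rfl⟩ hclosed
    · rintro ⟨b, i⟩ ⟨b', j⟩
      cases b <;> cases b'
      · rw [adjFF]; simp only [PAdj, decide_eq_true_eq]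
      · rw [adjFT]; simp only [PAdj, decide_eq_true_eq]
      · rw [SimpleGraph.adj_comm, adjFT]; simp only [PAdj, decide_eq_true_eq]
        exact eq_comm
      · rw [adjTT]; simp only [PAdj, decide_eq_true_eq]

/-- At most two orbits. -/
theorem orbit_main {V A : Type*} [Fintype V] [AddCommGroup A] [AddAction A V]
    (Γ : SimpleGraph V) [DecidableRel Γ.Adj] (hconn : Γ.Connected)
    (hreg : Γ.IsRegularOfDegree 3)
    (hfree : ∀ (a : A) (v : V), a +ᵥ v = v → a = 0)
    (hadj : ∀ (a : A) (u v : V), Γ.Adj u v → Γ.Adj (a +ᵥ u) (a +ᵥ v)) (u0 v0 : V)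
    (horb : ∀ w, ∃ a : A, w = a +ᵥ u0 ∨ w = a +ᵥ v0) :
    (∃ f : V → ℕ, Labelled Γ f) ∨ Nonempty (Γ ≃g Pet) := by
  by_cases hdis : ∀ a : A, v0 ≠ a +ᵥ u0
  · exact two_orbits Γ hconn hreg hfree hadj u0 v0 hdis horb
  · left
    simp only [ne_eq, not_forall, not_not] at hdis
    obtain ⟨b, hb⟩ := hdis
    apply one_orbit Γ hreg hfree hadj u0
    intro w
    obtain ⟨a, rfl | rfl⟩ := horb w
    · exact ⟨a, rfl⟩
    · exact ⟨a + b, by rw [hb, add_vadd]⟩

end Pool.Agent.helper85.L21
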