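import Pool.Agent.helper85.L21.Defs

/-! # Checked periodic patterns -/

set_option autoImplicit false

namespace Pool.Agent.helper85.L21

/-- Boolean version of `Far`. -/
def farb (a b : ℕ) : Bool := Nat.ble (a + 2) b || Nat.ble (b + 2) a

theorem farb_iff {a b : ℕ} : farb a b = true ↔ Far a b := by
  unfold farb Far
  rw [Bool.or_eq_true, Nat.ble_eq, Nat.ble_eq]

/-- Label of position `j` on the circle of length `N`. -/
def gl (N : ℕ) (l : List ℕ) (j : ℕ) : ℕ := l.getD (j % N) 0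

/-- Executable check on the circle of length `N`. -/
def chk (N : ℕ) (E F A B : List ℕ) : Bool :=
  (List.range N).all fun j =>
    Nat.ble (gl N A j) 7 && Nat.ble (gl N B j) 7 && farb (gl N A j) (gl N B j) &&
    (E.all fun e => farb (gl N A j) (gl N A (j + e)) && !(Nat.beq (gl N A j) (gl N B (j + e))) &&
      !(Nat.beq (gl N A (j + e)) (gl N B j)) &&
      (E.all fun e' => !(Nat.beq (gl N A j) (gl N A (j + e + e'))))) &&
    (F.all fun e => farb (gl N B j) (gl N B (j + e)) && !(Nat.beq (gl N A j) (gl N B (j + e))) &&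
      !(Nat.beq (gl N A (j + e)) (gl N B j)) &&
      (F.all fun e' => !(Nat.beq (gl N B j) (gl N B (j + e + e')))))

theorem not_beq_iff {a b : ℕ} : (!(Nat.beq a b)) = true ↔ a ≠ b := by
  rw [Bool.not_eq_true', ← Bool.not_eq_true, Nat.beq_eq]

theorem lab_add (N : ℕ) (hN : 0 < N) (l : List ℕ) (j : ZMod N) (e : ℕ) :
    lab N l (j + (e : ZMod N)) = gl N l (j.val + e) := by
  have : NeZero N := ⟨hN.ne'⟩
  unfold lab gl
  rw [ZMod.val_add, ZMod.val_natCast, Nat.add_mod_mod]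

theorem lab_add2 (N : ℕ) (hN : 0 < N) (l : List ℕ) (j : ZMod N) (e e' : ℕ) :
    lab N l (j + (e : ZMod N) + (e' : ZMod N)) = gl N l (j.val + e + e') := by
  rw [add_assoc, ← Nat.cast_add, lab_add N hN, Nat.add_assoc]

theorem lab_zero (N : ℕ) (hN : 0 < N) (l : List ℕ) (j : ZMod N) :
    lab N l j = gl N l j.val := by
  have : NeZero N := ⟨hN.ne'⟩
  unfold lab gl
  rw [Nat.mod_eq_of_lt (ZMod.val_lt j)]

theorem check_of_chk {N : ℕ} (hN : 0 < N) {E F A B : List ℕ} (h : chk N E F A B = true) :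
    Check (E.map (fun e : ℕ => (e : ZMod N))) (F.map (fun e : ℕ => (e : ZMod N)))
      (lab N A) (lab N B) := by
  have : NeZero N := ⟨hN.ne'⟩
  unfold chk at h
  rw [List.all_eq_true] at h
  have key : ∀ j : ZMod N, _ := fun j => h j.val (List.mem_range.2 (ZMod.val_lt j))
  simp only [Bool.and_eq_true, List.all_eq_true, farb_iff, not_beq_iff, Nat.ble_eq] at key
  constructor
  · intro j; rw [lab_zero N hN]; exact (key j).1.1.1.1
  · intro j; rw [lab_zero N hN]; exact (key j).1.1.1.2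
  · intro j e he
    obtain ⟨f, hf, rfl⟩ := List.mem_map.1 he
    rw [lab_zero N hN A j, lab_add N hN]; exact ((key j).1.2 f hf).1.1.1
  · intro j e he e' he'
    obtain ⟨f, hf, rfl⟩ := List.mem_map.1 he
    obtain ⟨f', hf', rfl⟩ := List.mem_map.1 he'
    rw [lab_zero N hN A j, lab_add2 N hN]; exact ((key j).1.2 f hf).2 f' hf'
  · intro j e he
    obtain ⟨f, hf, rfl⟩ := List.mem_map.1 he
    rw [lab_zero N hN B j, lab_add N hN]; exact ((key j).2 f hf).1.1.1
  · intro j e he e' he'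
    obtain ⟨f, hf, rfl⟩ := List.mem_map.1 he
    obtain ⟨f', hf', rfl⟩ := List.mem_map.1 he'
    rw [lab_zero N hN B j, lab_add2 N hN]; exact ((key j).2 f hf).2 f' hf'
  · intro j; rw [lab_zero N hN, lab_zero N hN]; exact (key j).1.1.2
  · intro j e he
    obtain ⟨f, hf, rfl⟩ := List.mem_map.1 he
    rw [lab_zero N hN A j, lab_add N hN]; exact ((key j).1.2 f hf).1.1.2
  · intro j e he
    obtain ⟨f, hf, rfl⟩ := List.mem_map.1 he
    rw [lab_zero N hN B j, lab_add N hN]; exact ((key j).1.2 f hf).1.2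
  · intro j e he
    obtain ⟨f, hf, rfl⟩ := List.mem_map.1 he
    rw [lab_zero N hN A j, lab_add N hN]; exact ((key j).2 f hf).1.1.2
  · intro j e he
    obtain ⟨f, hf, rfl⟩ := List.mem_map.1 he
    rw [lab_zero N hN B j, lab_add N hN]; exact ((key j).2 f hf).1.2

/-- Direct labelling on a cyclic quotient. -/
theorem dumOK_direct {G : Type*} [AddCommGroup G] {N : ℕ} (hN : 0 < N) (χ : G →+ ZMod N) {s t : G}
    {x y : ℕ} (hs : χ s = (x : ZMod N)) (ht : χ t = (y : ZMod N)) (A B : List ℕ)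
    (h : chk N [x] [y] A B = true) : DumOK s t := by
  refine dumOK_of_check (fun g => χ g) ?_ ?_ (check_of_chk hN h)
  · intro g; exact ⟨(x : ZMod N), by simp, by simp [hs]⟩
  · intro g; exact ⟨(y : ZMod N), by simp, by simp [ht]⟩

/-- Pattern on the coarse circle. -/
theorem dumOK_coarse {G : Type*} [AddCommGroup G] {m : ℕ} (hm : 0 < m) (χ : G →+ ZMod m) {s t : G}
    (N : ℕ) (hN : 0 < N) (p q w w' : ℕ) (A B : List ℕ)
    (h : chk N ((List.range (w + 1)).map (fun i => p + i))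
      ((List.range (w' + 1)).map (fun i => q + i)) A B = true)
    (h1 : p * m ≤ N * (χ s).val) (h2 : N * (χ s).val ≤ (p + w) * m)
    (h3 : q * m ≤ N * (χ t).val) (h4 : N * (χ t).val ≤ (q + w') * m) : DumOK s t := by
  refine dumOK_of_check (fun g => coarse N m (χ g)) ?_ ?_ (check_of_chk hN h)
  · rw [List.map_map]
    exact steps_coarse N m hm χ s p w h1 h2
  · rw [List.map_map]
    exact steps_coarse N m hm χ t q w' h3 h4

/-- The pair `(x, y)` modulo `m` lies in one of the good rectangles. -/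
def GoodXY (m x y : ℕ) : Prop :=
  (m ≤ 8 * x ∧ 8 * x ≤ 2 * m ∧ ((m ≤ 8 * y ∧ 8 * y ≤ 2 * m) ∨ (6 * m ≤ 8 * y ∧ 8 * y ≤ 7 * m))) ∨
  (2 * m ≤ 8 * x ∧ 8 * x ≤ 3 * m ∧
    ((2 * m ≤ 8 * y ∧ 8 * y ≤ 3 * m) ∨ (5 * m ≤ 8 * y ∧ 8 * y ≤ 6 * m)))

instance (m x y : ℕ) : Decidable (GoodXY m x y) := by unfold GoodXY; infer_instance

theorem band1 {G : Type*} [AddCommGroup G] {m : ℕ} (hm : 0 < m) (χ : G →+ ZMod m) {s t : G}
    (h1 : m ≤ 8 * (χ s).val) (h2 : 8 * (χ s).val ≤ 2 * m)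
    (h3 : m ≤ 8 * (χ t).val) (h4 : 8 * (χ t).val ≤ 2 * m) : DumOK s t := by
  refine dumOK_coarse hm χ 8 (by norm_num) 1 1 1 1 [6,1,4,7,2,5,0,3] [2,5,0,3,6,1,4,7]
    (by decide +kernel) ?_ ?_ ?_ ?_ <;> omega

theorem band2 {G : Type*} [AddCommGroup G] {m : ℕ} (hm : 0 < m) (χ : G →+ ZMod m) {s t : G}
    (h1 : 2 * m ≤ 8 * (χ s).val) (h2 : 8 * (χ s).val ≤ 3 * m)
    (h3 : 2 * m ≤ 8 * (χ t).val) (h4 : 8 * (χ t).val ≤ 3 * m) : DumOK s t := by
  refine dumOK_coarse hm χ 8 (by norm_num) 2 2 1 1 [0,0,2,2,4,4,6,6] [3,3,5,5,7,7,1,1]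
    (by decide +kernel) ?_ ?_ ?_ ?_ <;> omega

theorem val_neg_of_pos {m : ℕ} (z : ZMod m) (hm : 0 < m) (hz : 0 < z.val) :
    (-z).val = m - z.val := by
  have : NeZero m := ⟨hm.ne'⟩
  rw [ZMod.neg_val]
  have : z ≠ 0 := by rintro rfl; simp at hz
  simp [this]

theorem dumOK_of_goodXY {G : Type*} [AddCommGroup G] {m : ℕ} (hm : 0 < m) (χ : G →+ ZMod m)
    {s t : G} (h : GoodXY m (χ s).val (χ t).val) : DumOK s t := by
  rcases h with ⟨h1, h2, ⟨h3, h4⟩ | ⟨h3, h4⟩⟩ | ⟨h1, h2, ⟨h3, h4⟩ | ⟨h3, h4⟩⟩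
  · exact band1 hm χ h1 h2 h3 h4
  · rw [← dumOK_neg_right]
    have hv : (χ (-t)).val = m - (χ t).val := by
      rw [map_neg]; exact val_neg_of_pos _ hm (by omega)
    exact band1 hm χ h1 h2 (by omega) (by omega)
  · exact band2 hm χ h1 h2 h3 h4
  · rw [← dumOK_neg_right]
    have hv : (χ (-t)).val = m - (χ t).val := by
      rw [map_neg]; exact val_neg_of_pos _ hm (by omega)
    exact band2 hm χ h1 h2 (by omega) (by omega)

end Pool.Agent.helper85.L21
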