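import Mathlib

/-! # Maps compatible with finitely many elements of an abelian group -/

set_option autoImplicit false

namespace Pool.Agent.helper85.L21

/-- If every integer relation between the `s i` holds between the `x i`, there is a map on the
group that moves by `x i` along `s i`. -/
theorem exists_phi_fin {G K ι : Type*} [AddCommGroup G] [AddCommGroup K] [Fintype ι]
    (s : ι → G) (x : ι → K)
    (h : ∀ c : ι → ℤ, ∑ i, c i • s i = 0 → ∑ i, c i • x i = 0) :
    ∃ φ : G → K, ∀ i g, φ (g + s i) = φ g + x i := by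
  classical
  let Ψ : (ι → ℤ) →+ G :=
    { toFun := fun c => ∑ i, c i • s i
      map_zero' := by simp
      map_add' := by intro a b; simp [add_smul, Finset.sum_add_distrib] }
  let Χ : (ι → ℤ) →+ K :=
    { toFun := fun c => ∑ i, c i • x i
      map_zero' := by simp
      map_add' := by intro a b; simp [add_smul, Finset.sum_add_distrib] }
  have hΨ : ∀ c, Ψ c = ∑ i, c i • s i := fun c => rfl
  have hΧ : ∀ c, Χ c = ∑ i, c i • x i := fun c => rfl
  have hker : ∀ c, Ψ c = 0 → Χ c = 0 := h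
  let H : AddSubgroup G := Ψ.range
  let rep : G → G := fun g => (QuotientAddGroup.mk g : G ⧸ H).out
  have hrep : ∀ g, -rep g + g ∈ H := by
    intro g
    have : (QuotientAddGroup.mk (rep g) : G ⧸ H) = QuotientAddGroup.mk g :=
      Quotient.out_eq _
    exact QuotientAddGroup.eq.1 this
  have hrep' : ∀ g, ∃ c, Ψ c = -rep g + g := fun g => hrep g
  choose p hp using hrep'
  have hadd : ∀ g z, z ∈ H → rep (g + z) = rep g := by
    intro g z hz
    have : (QuotientAddGroup.mk (g + z) : G ⧸ H) = QuotientAddGroup.mk g := by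
      apply QuotientAddGroup.eq.2
      have : -(g + z) + g = -z := by abel
      rw [this]; exact H.neg_mem hz
    simp only [rep, this]
  have hsi : ∀ i, Ψ (Pi.single i 1) = s i := by
    intro i
    rw [hΨ, Finset.sum_eq_single i]
    · simp
    · intro j _ hj; simp [hj]
    · intro hi; exact absurd (Finset.mem_univ i) hi
  have hxi : ∀ i, Χ (Pi.single i 1) = x i := by
    intro i
    rw [hΧ, Finset.sum_eq_single i]
    · simp
    · intro j _ hj; simp [hj]
    · intro hi; exact absurd (Finset.mem_univ i) hi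
  refine ⟨fun g => Χ (p g), ?_⟩
  intro i g
  have hs : s i ∈ H := ⟨Pi.single i 1, hsi i⟩
  have h1 := hp g
  have h2 := hp (g + s i)
  rw [hadd g (s i) hs] at h2
  have h3 : Ψ (p (g + s i) - p g - Pi.single i 1) = 0 := by
    rw [map_sub, map_sub, h1, h2, hsi]; abel
  have h4 := hker _ h3
  rw [map_sub, map_sub, hxi] at h4
  calc Χ (p (g + s i)) = (Χ (p (g + s i)) - Χ (p g) - x i) + (Χ (p g) + x i) := by abel
    _ = _ := by rw [h4, zero_add]

/-- Three elements. -/
theorem exists_phi3 {G K : Type*} [AddCommGroup G] [AddCommGroup K] (s1 s2 s3 : G) (x1 x2 x3 : K)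
    (h : ∀ u v w : ℤ, u • s1 + v • s2 + w • s3 = 0 → u • x1 + v • x2 + w • x3 = 0) :
    ∃ φ : G → K, (∀ g, φ (g + s1) = φ g + x1) ∧ (∀ g, φ (g + s2) = φ g + x2) ∧
      (∀ g, φ (g + s3) = φ g + x3) := by
  obtain ⟨φ, hφ⟩ := exists_phi_fin ![s1, s2, s3] ![x1, x2, x3] (by
    intro c hc
    simp only [Fin.sum_univ_three, Matrix.cons_val_zero, Matrix.cons_val_one,
      Matrix.cons_val] at hc ⊢
    exact h _ _ _ hc)
  exact ⟨φ, fun g => hφ 0 g, fun g => hφ 1 g, fun g => hφ 2 g⟩

/-- Integer multiples of an element of order two. -/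
theorem zsmul_invol {G : Type*} [AddCommGroup G] {τ : G} (h : τ + τ = 0) (u : ℤ) :
    (u % 2 = 0 ∧ u • τ = 0) ∨ (u % 2 = 1 ∧ u • τ = τ) := by
  have h2 : (2 : ℤ) • τ = 0 := by rw [two_zsmul, h]
  rcases Int.emod_two_eq_zero_or_one u with hu | hu
  · left
    refine ⟨hu, ?_⟩
    obtain ⟨k, hk⟩ := Int.dvd_of_emod_eq_zero hu
    rw [hk, mul_comm, mul_smul, h2, smul_zero]
  · right
    refine ⟨hu, ?_⟩
    have : u = 2 * (u / 2) + 1 := by omega
    rw [this, add_smul, one_smul, mul_comm, mul_smul, h2, smul_zero, zero_add]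

/-- An element of order two in a cyclic group is half the way round. -/
theorem invol_in_cyclic {G : Type*} [AddCommGroup G] [Finite G] {r τ : G} (hτ : τ + τ = 0)
    (hτ0 : τ ≠ 0) (hm : τ ∈ AddSubgroup.zmultiples r) :
    ∃ m : ℕ, 0 < m ∧ addOrderOf r = 2 * m ∧ τ = (m : ℤ) • r := by
  obtain ⟨k, rfl⟩ := AddSubgroup.mem_zmultiples_iff.1 hm
  obtain ⟨a, ha⟩ : ∃ a, a = addOrderOf r := ⟨_, rfl⟩
  have ha0 : 0 < a := by rw [ha]; exact addOrderOf_pos r
  have hz : ∀ u : ℤ, u • r = 0 ↔ (a : ℤ) ∣ u := by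
    intro u
    rw [ha, addOrderOf_dvd_iff_zsmul_eq_zero]
  have h1 : (a : ℤ) ∣ k + k := by rw [← hz, add_smul]; exact hτ
  have h2 : ¬ (a : ℤ) ∣ k := by rw [← hz]; exact hτ0
  obtain ⟨z, hz'⟩ := h1
  have hzo : z % 2 = 1 := by
    rcases Int.emod_two_eq_zero_or_one z with h | h
    · exfalso
      apply h2
      obtain ⟨w, hw⟩ := Int.dvd_of_emod_eq_zero h
      refine ⟨w, ?_⟩
      have : 2 * k = 2 * (a * w) := by rw [hw] at hz'; linarith
      linarith
    · exact h
  have hae : (a : ℤ) % 2 = 0 := by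
    have h3 : ((a : ℤ) * z) % 2 = 0 := by rw [← hz']; omega
    rw [Int.mul_emod, hzo, mul_one] at h3
    omega
  obtain ⟨m, hm'⟩ : ∃ m : ℕ, a = 2 * m := ⟨a / 2, by omega⟩
  refine ⟨m, by omega, by rw [← ha, hm'], ?_⟩
  have h4 : (k - m) • r = 0 := by
    rw [hz]
    refine ⟨z / 2, ?_⟩
    have e1 : z = 2 * (z / 2) + 1 := by omega
    rw [hm'] at hz' ⊢
    push_cast at hz' ⊢
    generalize z / 2 = y at *
    subst e1
    linarith
  rw [sub_smul] at h4
  exact sub_eq_zero.1 h4

end Pool.Agent.helper85.L21
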