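import Pool.Agent.helper85.L21.Large

/-! # The cyclic case: small moduli, special families, conclusion -/

set_option autoImplicit false

namespace Pool.Agent.helper85.L21

/-- Search for a good multiplier. -/
def srch (n k : ℕ) : ℕ → ℕ → Bool
  | 0, _ => false
  | f + 1, c =>
    (let y := c * k % n
     (Nat.ble n (8 * c) && Nat.ble (8 * c) (2 * n) &&
        ((Nat.ble n (8 * y) && Nat.ble (8 * y) (2 * n)) ||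
          (Nat.ble (6 * n) (8 * y) && Nat.ble (8 * y) (7 * n)))) ||
      (Nat.ble (2 * n) (8 * c) && Nat.ble (8 * c) (3 * n) &&
        ((Nat.ble (2 * n) (8 * y) && Nat.ble (8 * y) (3 * n)) ||
          (Nat.ble (5 * n) (8 * y) && Nat.ble (8 * y) (6 * n))))) || srch n k f (c + 1)

theorem srch_spec (n k : ℕ) : ∀ f c, srch n k f c = true → ∃ c, GoodXY n c (c * k % n) := by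
  intro f
  induction f with
  | zero => intro c h; simp [srch] at h
  | succ f ih =>
    intro c h
    rw [srch, Bool.or_eq_true] at h
    rcases h with h | h
    · refine ⟨c, ?_⟩
      simp only [Bool.or_eq_true, Bool.and_eq_true, Nat.ble_eq] at h
      unfold GoodXY
      omega
    · exact ih _ h

/-- Exceptional pairs, which need labellings of their own. -/
def excs : List (ℕ × ℕ) :=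
  [(10, 2), (13, 2), (13, 6), (17, 4), (19, 7), (19, 8), (25, 7), (25, 10), (26, 7), (26,
  11), (27, 6), (29, 8), (29, 11), (34, 13), (37, 8), (37, 14), (38, 7), (38, 11), (39,
  15), (49, 18), (49, 19), (50, 7), (50, 15), (54, 21), (58, 11), (58, 21), (74, 23), (74,
  29), (78, 15), (98, 19), (98, 31)]

/-- Explicit labellings. -/
def dirs : List (ℕ × ℕ × List ℕ × List ℕ) := [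
    (10, 2,
      [3,5,2,4,1,7,0,2,4,1],
      [0,0,6,6,3,3,5,5,7,7]),
    (13, 2,
      [5,0,6,2,0,4,2,0,6,2,0,4,2],
      [1,3,3,5,5,7,7,3,3,5,5,7,7]),
    (13, 6,
      [3,5,0,2,5,1,3,0,4,1,5,2,0],
      [1,2,3,4,3,4,5,6,7,6,7,6,7]),
    (17, 4,
      [4,6,0,5,2,4,6,0,7,1,3,0,2,4,1,3,0],
      [1,2,4,1,6,0,1,3,3,5,5,5,5,7,7,7,7]),
    (19, 7,
      [4,7,3,6,2,5,1,4,2,0,3,1,4,0,2,4,1,3,0],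
      [2,1,1,0,0,0,3,0,5,5,5,5,6,6,7,7,7,7,7]),
    (19, 8,
      [6,3,7,4,0,2,5,1,3,0,2,4,0,2,4,1,3,0,2],
      [0,1,1,1,3,4,3,4,5,5,5,7,7,6,6,6,7,7,7]),
    (25, 7,
      [0,2,4,0,2,4,0,2,4,0,2,4,0,2,4,0,2,4,0,2,4,0,2,4,6],
      [3,5,1,3,5,1,3,5,1,3,5,1,3,5,1,3,5,7,6,7,7,6,7,7,1]),
    (25, 10,
      [4,7,3,0,7,5,0,2,5,0,4,1,3,0,2,4,0,2,4,1,5,2,0,3,1],
      [0,2,1,2,3,1,3,4,1,2,2,5,5,5,5,6,6,6,6,6,7,7,7,7,7]),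
    (26, 7,
      [0,4,2,6,4,1,6,0,7,1,6,0,2,7,0,2,7,0,2,4,0,3,1,6,4,2],
      [6,6,0,0,7,3,3,3,3,3,3,3,5,5,5,5,5,5,5,1,2,7,7,0,7,7]),
    (26, 11,
      [1,6,4,7,5,3,0,5,3,0,4,2,0,3,1,4,0,5,1,3,0,4,1,3,0,4],
      [3,2,0,3,0,1,2,2,1,2,1,5,5,5,5,7,7,7,6,6,6,6,7,7,7,7]),
    (27, 6,
      [5,2,0,6,3,5,0,3,1,7,2,0,4,2,7,1,4,2,0,3,1,4,2,0,4,2,0],
      [3,4,4,1,1,1,6,6,6,3,5,3,1,0,0,5,0,5,5,5,5,7,7,7,7,7,7]),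
    (29, 8,
      [0,4,6,2,0,6,3,1,6,4,2,6,3,0,6,2,4,1,3,0,2,4,0,2,5,3,1,4,2],
      [5,2,3,4,4,4,0,4,2,0,0,1,1,2,4,0,0,5,5,5,5,7,7,7,7,7,7,7,7]),
    (29, 11,
      [4,1,5,7,0,4,6,3,5,2,0,3,6,4,1,3,0,2,4,1,3,0,4,2,0,4,1,3,0],
      [2,3,0,2,2,1,1,0,0,4,4,5,0,2,5,5,5,5,6,6,6,6,7,7,7,7,7,7,7]),
    (34, 13,
      [5,7,1,5,7,1,4,6,2,5,3,0,5,2,6,0,4,2,0,3,1,4,2,0,4,1,5,2,0,4,2,0,3,1],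
      [3,4,4,3,0,3,0,3,0,0,1,2,3,0,1,2,1,5,5,5,5,6,6,6,6,6,7,7,7,7,7,7,7,7]),
    (37, 8,
      [0,3,5,2,0,3,6,4,7,0,3,1,7,4,0,7,4,1,7,3,6,4,2,0,4,2,0,3,1,4,0,2,5,3,0,4,2],
      [5,1,1,4,4,1,1,1,2,6,6,6,2,6,3,3,6,3,2,0,0,0,5,5,1,5,5,5,5,7,7,7,7,7,7,7,7]),
    (37, 14,
      [3,7,2,5,7,4,0,3,6,4,0,5,1,4,0,6,2,0,4,2,0,3,1,4,0,2,4,0,2,5,3,1,4,0,2,4,0],
      [1,4,0,1,3,1,2,1,0,2,2,3,3,2,5,1,4,3,1,5,5,5,5,6,6,6,6,6,7,7,7,7,7,7,7,7,7]),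
    (38, 7,
      [5,0,6,4,0,5,3,6,2,0,3,1,4,2,5,1,4,2,7,5,0,4,2,6,3,1,4,2,0,3,1,4,0,5,1,3,0,2],
      [3,3,3,2,2,1,0,0,5,5,6,6,6,6,7,7,7,0,3,3,3,1,0,0,5,5,0,5,5,5,5,7,7,7,7,7,7,7]),
    (38, 11,
      [0,5,2,6,4,0,6,4,0,5,1,7,0,6,4,7,1,3,0,2,6,0,4,1,3,0,2,4,0,3,1,5,0,4,2,0,4,2],
      [3,1,4,0,2,3,1,1,3,3,4,5,3,1,2,0,5,5,5,5,1,2,2,5,5,5,5,7,7,7,7,7,7,7,7,7,7,7]),
    (39, 15,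
      [4,7,2,4,7,2,4,1,6,0,5,2,0,5,2,0,6,2,0,4,1,3,0,2,4,0,2,4,1,3,5,0,2,4,0,2,4,0,2],
      [1,1,0,1,0,0,0,3,3,2,3,4,3,3,4,3,4,4,3,2,5,5,5,5,6,6,6,6,6,6,7,7,7,7,7,7,7,7,7]),
    (49, 18,
      [4,7,1,5,7,4,6,3,1,6,0,3,6,4,0,3,5,0,2,4,0,6,1,3,0,2,4,1,3,0,2,4,0,3,1,4,0,5,3,0,2,4,0,2,
      4,1,3,0,2],
      [0,3,4,0,2,1,2,0,5,3,2,1,0,2,2,1,2,3,5,1,2,3,5,5,5,5,0,5,5,5,5,6,6,6,6,6,7,7,7,7,7,7,7,7,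
      7,7,7,7,7]),
    (49, 19,
      [5,7,2,4,7,5,3,7,0,4,6,3,0,5,3,1,5,2,0,4,2,6,0,3,6,4,1,3,0,2,4,0,2,4,0,3,1,4,0,3,1,4,0,2,
      4,1,3,0,2],
      [3,3,0,1,1,2,0,2,2,1,0,1,4,1,0,4,0,4,3,1,5,3,5,5,0,2,5,5,5,5,6,6,6,6,6,6,6,6,7,7,7,7,7,7,
      7,7,7,7,7]),
    (50, 7,
      [0,4,6,3,5,0,4,2,7,3,0,6,4,0,7,3,0,4,6,2,0,3,1,5,3,1,4,0,2,6,4,0,6,2,4,6,2,0,4,1,3,0,2,4,
      1,5,2,0,4,2],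
      [3,2,1,1,1,3,1,6,0,5,5,3,1,6,1,5,2,2,0,5,4,5,7,7,7,7,7,7,7,0,1,5,3,0,1,0,5,3,2,5,5,5,5,7,
      7,7,7,7,7,7]),
    (50, 15,
      [6,1,4,6,1,5,0,3,6,0,2,4,6,0,2,6,4,7,3,6,4,0,3,1,4,6,3,0,2,6,4,2,0,3,1,4,0,3,1,4,2,0,3,1,
      4,0,3,1,4,2],
      [0,3,0,2,3,3,4,1,2,5,5,1,3,3,4,3,0,2,0,0,1,2,5,5,2,0,5,5,5,0,1,5,5,5,5,7,7,7,7,7,7,7,7,7,
      7,7,7,7,7,7]),
    (54, 21,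
      [5,2,4,7,5,3,7,5,1,4,0,6,3,0,5,2,0,5,3,0,2,5,1,6,0,5,1,6,4,2,0,3,1,4,2,0,3,1,4,0,3,1,5,3,
      0,4,1,5,3,1,4,0,3,1],
      [0,0,1,1,0,0,2,2,3,2,2,2,1,4,3,4,3,1,1,4,4,3,4,3,3,2,4,0,0,5,5,5,5,6,6,6,6,6,6,6,6,6,7,7,
      7,7,7,7,7,7,7,7,7,7]),
    (58, 11,
      [6,1,5,0,6,2,5,0,6,2,0,3,6,4,0,5,2,0,3,5,0,2,4,1,5,0,6,1,7,4,6,1,7,4,2,6,1,4,2,0,3,1,4,2,
      0,3,1,4,2,0,4,2,0,4,1,3,0,2],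
      [0,4,3,2,4,4,1,4,4,4,4,5,2,1,6,1,6,6,6,1,6,6,7,7,7,3,3,3,3,0,3,3,3,1,0,0,5,0,5,5,5,5,0,5,
      5,5,5,7,7,7,7,7,7,7,7,7,7,7]),
    (58, 21,
      [5,7,3,5,7,2,4,6,2,4,0,2,6,4,2,6,0,5,2,0,5,2,0,4,1,6,2,0,6,2,0,6,4,2,0,3,1,4,0,2,4,0,2,4,
      1,5,3,1,4,2,0,4,2,0,4,2,0,3],
      [0,1,0,0,3,0,1,3,0,1,3,5,0,1,0,3,2,3,4,3,1,4,3,2,3,0,4,3,1,4,3,1,1,5,5,5,5,6,6,6,6,6,7,7,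
      7,7,7,7,7,7,7,7,7,7,7,7,7,7]),
    (74, 23,
      [6,1,3,6,4,0,6,3,0,6,3,5,0,2,6,4,0,6,4,1,6,4,1,7,3,6,4,7,2,0,6,3,0,4,6,2,0,3,1,4,6,0,2,4,
      6,0,4,2,0,3,1,4,0,2,5,3,1,4,0,6,3,1,4,0,6,1,4,2,0,4,2,0,4,2],
      [0,4,0,0,2,3,1,1,4,1,0,1,3,7,0,2,5,3,2,3,3,0,3,5,0,2,2,0,5,5,4,1,5,2,3,5,5,5,5,2,1,5,5,0,
      3,5,1,5,5,5,5,7,7,7,7,7,7,7,7,2,7,7,7,7,3,7,7,7,7,7,7,7,7,7]),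
    (74, 29,
      [5,7,2,5,3,7,4,1,7,3,5,7,3,6,0,3,5,2,0,5,3,0,2,5,3,0,2,5,0,6,4,2,6,3,1,4,6,3,0,6,4,1,3,0,
      2,4,0,3,1,4,0,3,1,4,2,0,3,1,4,0,3,5,0,3,5,2,0,3,1,5,2,0,4,2],
      [0,3,0,0,0,2,2,3,0,1,1,2,0,2,2,1,1,4,4,2,1,4,4,0,1,4,4,1,4,3,1,5,4,5,5,0,0,5,5,3,0,5,5,5,
      5,6,6,6,6,6,6,6,6,6,6,6,6,6,7,7,7,7,7,7,7,7,7,7,7,7,7,7,7,7]),
    (78, 15,
      [4,6,2,5,0,3,6,2,0,6,3,1,6,0,2,6,1,3,0,2,4,7,0,2,5,7,1,5,2,0,5,2,4,0,7,1,4,7,5,0,7,4,6,1,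
      7,4,2,6,4,2,0,3,1,4,2,0,3,1,4,2,0,3,1,4,0,2,4,0,5,1,3,0,2,4,1,3,0,2],
      [0,3,0,1,4,1,4,4,4,4,5,4,4,4,4,3,5,5,6,6,6,2,6,6,1,0,6,0,6,6,7,7,7,3,3,3,0,3,3,3,3,0,3,3,
      3,1,0,0,1,5,5,5,5,0,5,5,5,5,0,5,5,5,5,7,7,7,7,7,7,7,7,7,7,7,7,7,7,7]),
    (98, 19,
      [6,4,0,6,3,0,6,2,0,5,2,0,6,2,5,1,6,3,0,6,3,0,7,4,2,5,0,2,4,7,0,5,2,4,1,7,4,1,5,3,1,4,7,1,
      5,7,4,1,7,0,6,2,7,4,1,3,7,2,4,6,3,1,6,4,1,3,0,2,4,0,3,1,6,0,4,1,3,0,2,4,0,5,2,4,1,3,0,2,4,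
      1,3,5,1,4,2,0,4,2],
      [0,1,3,4,1,4,4,4,3,1,4,4,4,4,0,4,4,1,4,2,5,5,2,6,6,1,6,6,6,1,6,1,6,6,6,0,6,6,7,7,7,0,3,3,
      3,3,0,3,3,3,3,0,3,0,5,0,0,0,1,0,5,5,0,0,5,5,5,5,1,5,5,5,2,2,2,5,5,5,5,7,7,7,7,7,7,7,7,7,7,
      7,7,7,7,7,7,7,7,7]),
    (98, 31,
      [6,4,1,6,2,0,3,5,0,6,2,5,7,4,6,1,5,7,4,0,3,6,2,4,6,0,4,7,0,6,4,7,1,6,4,7,5,2,6,3,0,6,4,2,
      0,3,1,4,7,1,3,6,2,7,3,1,4,0,3,6,2,0,4,1,3,0,2,4,1,5,3,0,2,4,1,3,0,2,4,6,3,1,4,2,6,1,4,0,3,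
      1,4,2,0,3,6,0,4,2],
      [0,0,3,0,4,4,1,2,2,1,0,3,0,2,0,3,0,0,2,2,5,0,0,0,3,5,1,1,3,1,1,5,5,0,2,0,1,4,0,5,5,3,0,5,
      5,5,5,2,5,5,5,0,5,5,5,5,2,5,5,1,4,3,2,7,5,5,5,7,7,7,7,7,7,7,7,7,7,7,7,2,7,7,7,7,3,7,7,7,7,
      7,7,7,7,7,4,7,7,7]),
    (7, 3,
      [7,2,5,7,3,6,4],
      [5,4,3,2,0,1,0]),
    (8, 3,
      [0,6,2,0,3,1,4,2],
      [3,1,4,5,5,6,7,7]),
    (9, 3,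
      [4,2,6,0,3,1,4,2,0],
      [1,0,3,5,5,5,7,7,7]),
    (10, 3,
      [4,6,2,7,0,3,1,4,0,2],
      [1,3,0,3,5,5,5,7,7,7]),
    (11, 3,
      [3,5,0,4,6,1,3,0,2,4,1],
      [0,1,3,2,3,5,5,5,7,7,7]),
    (12, 3,
      [4,6,2,7,4,6,0,3,1,4,0,2],
      [1,3,0,3,0,3,5,5,5,7,7,7]),
    (13, 3,
      [4,6,2,5,7,2,6,1,3,0,4,2,0],
      [2,1,4,0,3,0,3,5,5,5,7,7,7]),
    (14, 3,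
      [3,6,4,2,5,7,2,6,1,3,0,2,4,0],
      [1,2,1,6,0,3,0,3,5,5,5,7,7,7]),
    (15, 3,
      [3,6,2,0,7,5,1,4,7,1,3,0,4,2,0],
      [1,4,4,6,2,0,3,0,3,5,5,5,7,7,7]),
    (16, 3,
      [6,0,2,5,1,3,5,1,4,6,1,3,0,4,1,3],
      [2,4,4,0,6,6,7,3,0,3,5,5,5,7,7,7]),
    (17, 3,
      [4,6,0,2,4,1,3,5,1,4,6,1,3,0,4,2,0],
      [1,3,4,5,0,6,7,7,3,0,3,5,5,5,7,7,7]),
    (18, 3,
      [5,0,6,4,2,6,4,2,5,1,4,6,0,3,1,4,0,2],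
      [3,3,3,0,5,0,7,7,7,3,0,3,5,5,5,7,7,7]),
    (19, 3,
      [4,6,0,7,2,0,7,4,2,6,1,4,6,1,3,0,4,2,0],
      [1,3,3,3,5,5,5,0,7,0,3,0,3,5,5,5,7,7,7]),
    (20, 3,
      [4,6,0,7,1,4,2,0,4,1,5,3,6,0,2,6,1,3,0,2],
      [0,3,3,3,5,7,5,7,2,7,2,0,2,4,5,4,7,7,7,5]),
    (21, 3,
      [3,6,4,7,0,6,4,2,6,4,2,5,1,4,6,0,3,1,4,2,0],
      [1,1,1,5,3,3,0,5,0,7,7,7,3,0,3,5,5,5,7,7,7]),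
    (22, 3,
      [3,6,4,0,2,7,5,3,1,6,4,2,5,1,4,6,1,3,0,4,2,0],
      [1,1,1,6,4,3,2,0,5,0,7,7,7,3,0,3,5,5,5,7,7,7]),
    (23, 3,
      [4,2,5,0,4,7,1,4,0,2,6,4,2,5,1,4,6,1,3,0,4,2,0],
      [1,0,1,6,6,3,3,2,5,5,0,7,7,7,3,0,3,5,5,5,7,7,7]),
    (24, 3,
      [3,6,2,0,7,3,0,6,4,0,2,6,4,2,5,1,4,6,1,3,0,4,2,0],
      [1,4,4,6,1,6,2,3,2,5,5,0,7,7,7,3,0,3,5,5,5,7,7,7]),
    (25, 3,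
      [6,2,0,7,2,0,4,7,1,6,0,2,6,4,2,5,1,4,6,1,3,0,4,2,0],
      [3,4,4,5,6,6,1,3,3,3,5,5,0,7,7,7,3,0,3,5,5,5,7,7,7]),
    (26, 3,
      [4,6,0,2,7,0,2,4,7,1,6,0,2,6,4,2,5,1,4,6,1,3,0,4,2,0],
      [1,3,4,5,5,6,7,1,3,3,3,5,5,0,7,7,7,3,0,3,5,5,5,7,7,7]),
    (27, 3,
      [6,1,4,7,1,3,6,2,4,7,1,6,0,2,6,4,2,5,1,4,6,0,3,1,4,0,2],
      [3,3,0,5,5,5,0,0,1,3,3,3,5,5,0,7,7,7,3,0,3,5,5,5,7,7,7]),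
    (28, 3,
      [4,6,0,7,2,0,4,2,0,4,6,1,7,0,2,6,4,2,5,1,4,6,1,3,0,4,2,0],
      [1,3,3,3,5,5,6,7,7,1,3,3,3,5,5,0,7,7,7,3,0,3,5,5,5,7,7,7]),
    (29, 3,
      [6,4,0,7,5,1,7,4,2,6,4,7,1,6,0,2,6,4,2,5,1,4,6,1,3,0,4,2,0],
      [1,1,2,3,3,4,5,6,0,0,1,3,3,3,5,5,0,7,7,7,3,0,3,5,5,5,7,7,7]),
    (30, 3,
      [3,6,4,2,0,6,4,1,7,2,6,4,7,1,6,0,2,6,4,2,5,1,4,6,0,3,1,4,2,0],
      [1,1,1,5,3,3,7,5,5,0,0,1,3,3,3,5,5,0,7,7,7,3,0,3,5,5,5,7,7,7]),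
    (31, 3,
      [3,6,4,2,0,6,2,7,1,3,6,2,4,7,1,6,0,2,6,4,2,5,1,4,6,1,3,0,4,2,0],
      [1,1,1,6,3,3,0,5,5,5,0,0,1,3,3,3,5,5,0,7,7,7,3,0,3,5,5,5,7,7,7]),
    (32, 3,
      [4,1,5,0,2,7,1,5,3,1,4,2,6,4,7,1,6,0,2,6,4,2,5,1,4,6,1,3,0,4,2,0],
      [2,3,2,6,6,4,4,0,6,7,7,0,0,1,3,3,3,5,5,0,7,7,7,3,0,3,5,5,5,7,7,7]),
    (33, 3,
      [0,5,2,0,4,2,0,4,7,1,3,7,2,6,4,7,1,6,0,2,6,4,2,5,1,4,6,1,3,0,4,1,3],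
      [2,3,4,6,6,6,3,1,3,5,5,5,0,0,1,3,3,3,5,5,0,7,7,7,3,0,3,5,5,5,7,7,7]),
    (34, 3,
      [6,2,0,5,7,3,5,0,4,6,1,3,7,2,6,4,7,1,6,0,2,6,4,2,5,1,4,6,1,3,0,4,2,0],
      [3,4,4,1,1,6,7,3,1,3,5,5,5,0,0,1,3,3,3,5,5,0,7,7,7,3,0,3,5,5,5,7,7,7]),
    (35, 3,
      [4,6,0,2,4,0,2,5,0,4,6,1,3,7,2,6,4,7,1,6,0,2,6,4,2,5,1,4,6,1,3,0,4,2,0],
      [1,3,4,5,1,6,7,7,3,1,3,5,5,5,0,0,1,3,3,3,5,5,0,7,7,7,3,0,3,5,5,5,7,7,7])]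

theorem dirs_ok : ∀ e ∈ dirs, chk e.1 [1] [e.2.1] e.2.2.1 e.2.2.2 = true := by
  decide +kernel

theorem excs_dirs : ∀ e ∈ excs, ∃ d ∈ dirs, d.1 = e.1 ∧ d.2.1 = e.2 := by
  decide +kernel

theorem threes_dirs : ∀ n ∈ List.range 36, 7 ≤ n → ∃ d ∈ dirs, d.1 = n ∧ d.2.1 = 3 := by
  decide +kernel

theorem dumOK_of_dirs {n k : ℕ} (hn : 0 < n) (h : ∃ d ∈ dirs, d.1 = n ∧ d.2.1 = k) :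
    DumOK (1 : ZMod n) (k : ZMod n) := by
  obtain ⟨⟨n', k', A, B⟩, hd, h1, h2⟩ := h
  simp only at h1 h2
  subst h1; subst h2
  have := dirs_ok _ hd
  exact dumOK_direct hn (AddMonoidHom.id (ZMod n')) (x := 1) (y := k') (by simp) (by simp) A B this

/-- The small case, for half of the residue classes, as one finite check. -/
def smallChk (n k : ℕ) : Bool :=
  Nat.beq (2 * k % n) 0 || Nat.beq k 3 || Nat.beq ((k + 3) % n) 0 || Nat.beq (3 * k % n) 1 ||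
    Nat.beq ((3 * k + 1) % n) 0 || Nat.beq n 5 || (excs.contains (n, k)) ||
    srch n k (n / 4 + 3) (n / 8)

def smallAll (n : ℕ) : Bool := (List.range (n / 2 + 1)).all fun k => smallChk n k

theorem small_a : ∀ n ∈ List.range 100, 3 ≤ n → smallAll n = true := by
  decide +kernel

theorem small_b : ∀ n ∈ List.range 100, smallAll (n + 100) = true := by
  decide +kernel

theorem small_c : ∀ n ∈ List.range 80, smallAll (n + 200) = true := by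
  decide +kernel

theorem small_d : ∀ n ∈ List.range 64, smallAll (n + 280) = true := by
  decide +kernel

theorem small_all (n : ℕ) (h3 : 3 ≤ n) (h : n < 344) : smallAll n = true := by
  by_cases a : n < 100
  · exact small_a n (List.mem_range.2 a) h3
  by_cases b : n < 200
  · have := small_b (n - 100) (List.mem_range.2 (by omega))
    rwa [Nat.sub_add_cancel (by omega)] at this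
  by_cases c : n < 280
  · have := small_c (n - 200) (List.mem_range.2 (by omega))
    rwa [Nat.sub_add_cancel (by omega)] at this
  · have := small_d (n - 280) (List.mem_range.2 (by omega))
    rwa [Nat.sub_add_cancel (by omega)] at this

end Pool.Agent.helper85.L21
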