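import Pool.Agent.helper85.L21.Phi

/-! # Bipartite graphs `U_g ~ V_g, V_{g+s}, V_{g+t}`: definitions and patterns -/

set_option autoImplicit false

namespace Pool.Agent.helper85.L21

/-- The two label functions `A`, `B` on the group `G` give a valid labelling with labels `0..7` of
the bipartite cubic graph with vertices `U_g`, `V_g` and edges `U_g V_g`, `U_g V_{g+s}`,
`U_g V_{g+t}`. -/
structure The {G : Type*} [AddCommGroup G] (s t : G) (A B : G → ℕ) : Prop where
  leA : ∀ g, A g ≤ 7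
  leB : ∀ g, B g ≤ 7
  f0 : ∀ g, Far (A g) (B g)
  f1 : ∀ g, Far (A g) (B (g + s))
  f2 : ∀ g, Far (A g) (B (g + t))
  a1 : ∀ g, A g ≠ A (g + s)
  a2 : ∀ g, A g ≠ A (g + t)
  a3 : ∀ g, A (g + s) ≠ A (g + t)
  b1 : ∀ g, B g ≠ B (g + s)
  b2 : ∀ g, B g ≠ B (g + t)
  b3 : ∀ g, B (g + s) ≠ B (g + t)

/-- Some pair of label functions works. -/
def TheOK {G : Type*} [AddCommGroup G] (s t : G) : Prop := ∃ A B : G → ℕ, The s t A B

section basic
variable {G H : Type*} [AddCommGroup G] [AddCommGroup H]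

theorem TheOK.swap {s t : G} (h : TheOK s t) : TheOK t s := by
  obtain ⟨A, B, h⟩ := h
  exact ⟨A, B, ⟨h.leA, h.leB, h.f0, h.f2, h.f1, h.a2, h.a1, fun g => (h.a3 g).symm,
    h.b2, h.b1, fun g => (h.b3 g).symm⟩⟩

theorem TheOK.neg {s t : G} (h : TheOK s t) : TheOK (-s) (-t) := by
  obtain ⟨A, B, h⟩ := h
  refine ⟨B, A, ⟨h.leB, h.leA, fun g => (h.f0 g).symm, ?_, ?_, ?_, ?_, ?_, ?_, ?_, ?_⟩⟩
  · intro g; have := h.f1 (g + -s); rw [neg_add_cancel_right] at this; exact this.symm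
  · intro g; have := h.f2 (g + -t); rw [neg_add_cancel_right] at this; exact this.symm
  · intro g; have := h.b1 (g + -s); rw [neg_add_cancel_right] at this; exact this.symm
  · intro g; have := h.b2 (g + -t); rw [neg_add_cancel_right] at this; exact this.symm
  · intro g
    have := h.b3 (g + -s + -t)
    have e1 : g + -s + -t + s = g + -t := by abel
    have e2 : g + -s + -t + t = g + -s := by abel
    rw [e1, e2] at this; exact this.symm
  · intro g; have := h.a1 (g + -s); rw [neg_add_cancel_right] at this; exact this.symm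
  · intro g; have := h.a2 (g + -t); rw [neg_add_cancel_right] at this; exact this.symm
  · intro g
    have := h.a3 (g + -s + -t)
    have e1 : g + -s + -t + s = g + -t := by abel
    have e2 : g + -s + -t + t = g + -s := by abel
    rw [e1, e2] at this; exact this.symm

/-- Translate the connection set. -/
theorem TheOK.shift {s t : G} (h : TheOK s t) : TheOK (-s) (t - s) := by
  obtain ⟨A, B, h⟩ := h
  refine ⟨A, fun g => B (g + s), ⟨h.leA, fun g => h.leB _, h.f1, ?_, ?_, ?_, ?_, ?_, ?_, ?_, ?_⟩⟩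
  · intro g
    have e : g + -s + s = g := by abel
    simpa only [e] using h.f0 g
  · intro g
    have e : g + (t - s) + s = g + t := by abel
    simpa only [e] using h.f2 g
  · intro g; have := h.a1 (g + -s); rw [neg_add_cancel_right] at this; exact this.symm
  · intro g
    have := h.a3 (g + -s)
    have e : g + -s + t = g + (t - s) := by abel
    rw [neg_add_cancel_right, e] at this
    exact this
  · intro g
    have := h.a2 (g + -s)
    have e : g + -s + t = g + (t - s) := by abel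
    rw [e] at this
    exact this
  · intro g
    have e : g + -s + s = g := by abel
    simpa only [e] using (h.b1 g).symm
  · intro g
    have e : g + (t - s) + s = g + t := by abel
    simpa only [e] using h.b3 g
  · intro g
    have e : g + -s + s = g := by abel
    have e' : g + (t - s) + s = g + t := by abel
    simpa only [e, e'] using h.b2 g

theorem TheOK.flip {s t : G} (h : TheOK s (s - t)) : TheOK s t := by
  have h1 := h.neg.shift
  have e1 : - -s = s := neg_neg s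
  have e2 : -(s - t) - -s = t := by abel
  rwa [e1, e2] at h1

end basic

/-- Finite check on `K`. -/
structure CheckT {K : Type*} [AddCommGroup K] (E F : List K) (A B : K → ℕ) : Prop where
  leA : ∀ j, A j ≤ 7
  leB : ∀ j, B j ≤ 7
  f0 : ∀ j, Far (A j) (B j)
  f1 : ∀ j, ∀ e ∈ E, Far (A j) (B (j + e))
  f2 : ∀ j, ∀ e ∈ F, Far (A j) (B (j + e))
  a1 : ∀ j, ∀ e ∈ E, A j ≠ A (j + e)
  a2 : ∀ j, ∀ e ∈ F, A j ≠ A (j + e)
  a3 : ∀ j, ∀ e ∈ E, ∀ e' ∈ F, A (j + e) ≠ A (j + e')
  b1 : ∀ j, ∀ e ∈ E, B j ≠ B (j + e)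
  b2 : ∀ j, ∀ e ∈ F, B j ≠ B (j + e)
  b3 : ∀ j, ∀ e ∈ E, ∀ e' ∈ F, B (j + e) ≠ B (j + e')

theorem theOK_of_check {G K : Type*} [AddCommGroup G] [AddCommGroup K] (φ : G → K) {s t : G}
    {E F : List K} (hs : Steps φ s E) (ht : Steps φ t F) {A B : K → ℕ} (h : CheckT E F A B) :
    TheOK s t := by
  refine ⟨fun g => A (φ g), fun g => B (φ g), ?_⟩
  constructor
  · intro g; exact h.leA _
  · intro g; exact h.leB _
  · intro g; exact h.f0 _
  · intro g
    obtain ⟨e, he, h1⟩ := hs g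
    simp only [h1]; exact h.f1 _ e he
  · intro g
    obtain ⟨e, he, h1⟩ := ht g
    simp only [h1]; exact h.f2 _ e he
  · intro g
    obtain ⟨e, he, h1⟩ := hs g
    simp only [h1]; exact h.a1 _ e he
  · intro g
    obtain ⟨e, he, h1⟩ := ht g
    simp only [h1]; exact h.a2 _ e he
  · intro g
    obtain ⟨e, he, h1⟩ := hs g
    obtain ⟨e', he', h2⟩ := ht g
    simp only [h1, h2]; exact h.a3 _ e he e' he'
  · intro g
    obtain ⟨e, he, h1⟩ := hs g
    simp only [h1]; exact h.b1 _ e he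
  · intro g
    obtain ⟨e, he, h1⟩ := ht g
    simp only [h1]; exact h.b2 _ e he
  · intro g
    obtain ⟨e, he, h1⟩ := hs g
    obtain ⟨e', he', h2⟩ := ht g
    simp only [h1, h2]; exact h.b3 _ e he e' he'

/-- Executable check on the circle of length `N`. -/
def chkT (N : ℕ) (E F A B : List ℕ) : Bool :=
  (List.range N).all fun j =>
    Nat.ble (gl N A j) 7 && Nat.ble (gl N B j) 7 && farb (gl N A j) (gl N B j) &&
    (E.all fun e => farb (gl N A j) (gl N B (j + e)) && !(Nat.beq (gl N A j) (gl N A (j + e))) &&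
      !(Nat.beq (gl N B j) (gl N B (j + e))) &&
      (F.all fun e' => !(Nat.beq (gl N A (j + e)) (gl N A (j + e'))) &&
        !(Nat.beq (gl N B (j + e)) (gl N B (j + e'))))) &&
    (F.all fun e => farb (gl N A j) (gl N B (j + e)) && !(Nat.beq (gl N A j) (gl N A (j + e))) &&
      !(Nat.beq (gl N B j) (gl N B (j + e))))

theorem checkT_of_chkT {N : ℕ} (hN : 0 < N) {E F A B : List ℕ} (h : chkT N E F A B = true) :
    CheckT (E.map (fun e : ℕ => (e : ZMod N))) (F.map (fun e : ℕ => (e : ZMod N)))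
      (lab N A) (lab N B) := by
  have : NeZero N := ⟨hN.ne'⟩
  unfold chkT at h
  rw [List.all_eq_true] at h
  have key : ∀ j : ZMod N, _ := fun j => h j.val (List.mem_range.2 (ZMod.val_lt j))
  simp only [Bool.and_eq_true, List.all_eq_true, farb_iff, not_beq_iff, Nat.ble_eq] at key
  constructor
  · intro j; rw [lab_zero N hN]; exact (key j).1.1.1.1
  · intro j; rw [lab_zero N hN]; exact (key j).1.1.1.2
  · intro j; rw [lab_zero N hN, lab_zero N hN]; exact (key j).1.1.2
  · intro j e he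
    obtain ⟨f, hf, rfl⟩ := List.mem_map.1 he
    rw [lab_zero N hN A j, lab_add N hN]; exact ((key j).1.2 f hf).1.1.1
  · intro j e he
    obtain ⟨f, hf, rfl⟩ := List.mem_map.1 he
    rw [lab_zero N hN A j, lab_add N hN]; exact ((key j).2 f hf).1.1
  · intro j e he
    obtain ⟨f, hf, rfl⟩ := List.mem_map.1 he
    rw [lab_zero N hN A j, lab_add N hN]; exact ((key j).1.2 f hf).1.1.2
  · intro j e he
    obtain ⟨f, hf, rfl⟩ := List.mem_map.1 he
    rw [lab_zero N hN A j, lab_add N hN]; exact ((key j).2 f hf).1.2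
  · intro j e he e' he'
    obtain ⟨f, hf, rfl⟩ := List.mem_map.1 he
    obtain ⟨f', hf', rfl⟩ := List.mem_map.1 he'
    rw [lab_add N hN, lab_add N hN]; exact (((key j).1.2 f hf).2 f' hf').1
  · intro j e he
    obtain ⟨f, hf, rfl⟩ := List.mem_map.1 he
    rw [lab_zero N hN B j, lab_add N hN]; exact ((key j).1.2 f hf).1.2
  · intro j e he
    obtain ⟨f, hf, rfl⟩ := List.mem_map.1 he
    rw [lab_zero N hN B j, lab_add N hN]; exact ((key j).2 f hf).2
  · intro j e he e' he'
    obtain ⟨f, hf, rfl⟩ := List.mem_map.1 he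
    obtain ⟨f', hf', rfl⟩ := List.mem_map.1 he'
    rw [lab_add N hN, lab_add N hN]; exact (((key j).1.2 f hf).2 f' hf').2

/-- Direct labelling on a cyclic quotient. -/
theorem theOK_direct {G : Type*} [AddCommGroup G] {N : ℕ} (hN : 0 < N) (χ : G →+ ZMod N) {s t : G}
    {x y : ℕ} (hs : χ s = (x : ZMod N)) (ht : χ t = (y : ZMod N)) (A B : List ℕ)
    (h : chkT N [x] [y] A B = true) : TheOK s t := by
  refine theOK_of_check (fun g => χ g) ?_ ?_ (checkT_of_chkT hN h)
  · intro g; exact ⟨(x : ZMod N), by simp, by simp [hs]⟩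
  · intro g; exact ⟨(y : ZMod N), by simp, by simp [ht]⟩

/-- Pattern on the coarse circle. -/
theorem theOK_coarse {G : Type*} [AddCommGroup G] {m : ℕ} (hm : 0 < m) (χ : G →+ ZMod m) {s t : G}
    (N : ℕ) (hN : 0 < N) (p q w w' : ℕ) (A B : List ℕ)
    (h : chkT N ((List.range (w + 1)).map (fun i => p + i))
      ((List.range (w' + 1)).map (fun i => q + i)) A B = true)
    (h1 : p * m ≤ N * (χ s).val) (h2 : N * (χ s).val ≤ (p + w) * m)
    (h3 : q * m ≤ N * (χ t).val) (h4 : N * (χ t).val ≤ (q + w') * m) : TheOK s t := by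
  refine theOK_of_check (fun g => coarse N m (χ g)) ?_ ?_ (checkT_of_chkT hN h)
  · rw [List.map_map]
    exact steps_coarse N m hm χ s p w h1 h2
  · rw [List.map_map]
    exact steps_coarse N m hm χ t q w' h3 h4

/-- The pair `(x, y)` modulo `m` lies in one of the good squares. -/
def GoodT (m x y : ℕ) : Prop :=
  (m ≤ 8 * x ∧ 8 * x ≤ 2 * m ∧
    ((3 * m ≤ 8 * y ∧ 8 * y ≤ 4 * m) ∨ (6 * m ≤ 8 * y ∧ 8 * y ≤ 7 * m))) ∨
  (2 * m ≤ 8 * x ∧ 8 * x ≤ 3 * m ∧ 5 * m ≤ 8 * y ∧ 8 * y ≤ 6 * m) ∨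
  (3 * m ≤ 8 * x ∧ 8 * x ≤ 4 * m ∧ m ≤ 8 * y ∧ 8 * y ≤ 2 * m)

instance (m x y : ℕ) : Decidable (GoodT m x y) := by unfold GoodT; infer_instance

theorem theOK_of_goodT {G : Type*} [AddCommGroup G] {m : ℕ} (hm : 0 < m) (χ : G →+ ZMod m)
    {s t : G} (h : GoodT m (χ s).val (χ t).val) : TheOK s t := by
  have sq13 : ∀ s t : G, m ≤ 8 * (χ s).val → 8 * (χ s).val ≤ 2 * m → 3 * m ≤ 8 * (χ t).val →
      8 * (χ t).val ≤ 4 * m → TheOK s t := by
    intro s t h1 h2 h3 h4
    refine theOK_coarse hm χ 8 (by norm_num) 1 3 1 1 [0,1,2,3,4,5,6,7] [2,3,4,5,6,7,0,1]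
      (by decide +kernel) ?_ ?_ ?_ ?_ <;> omega
  rcases h with ⟨h1, h2, ⟨h3, h4⟩ | ⟨h3, h4⟩⟩ | ⟨h1, h2, h3, h4⟩ | ⟨h1, h2, h3, h4⟩
  · exact sq13 s t h1 h2 h3 h4
  · refine theOK_coarse hm χ 8 (by norm_num) 1 6 1 1 [0,1,2,3,4,5,6,7] [4,5,6,7,0,1,2,3]
      (by decide +kernel) ?_ ?_ ?_ ?_ <;> omega
  · refine theOK_coarse hm χ 8 (by norm_num) 2 5 1 1 [6,1,4,7,2,5,0,3] [2,5,0,3,6,1,4,7]
      (by decide +kernel) ?_ ?_ ?_ ?_ <;> omega
  · exact (sq13 t s h3 h4 h1 h2).swap

theorem theOK_of_phi {G K : Type*} [AddCommGroup G] [AddCommGroup K] {s t : G} {x y : K}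
    (φ : G → K) (h1 : ∀ g, φ (g + s) = φ g + x) (h2 : ∀ g, φ (g + t) = φ g + y)
    (h : TheOK x y) : TheOK s t := by
  obtain ⟨A, B, h⟩ := h
  refine ⟨fun g => A (φ g), fun g => B (φ g), ?_⟩
  constructor
  · intro g; exact h.leA _
  · intro g; exact h.leB _
  · intro g; exact h.f0 _
  · intro g; simpa only [h1] using h.f1 (φ g)
  · intro g; simpa only [h2] using h.f2 (φ g)
  · intro g; simpa only [h1] using h.a1 (φ g)
  · intro g; simpa only [h2] using h.a2 (φ g)
  · intro g; simpa only [h1, h2] using h.a3 (φ g)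
  · intro g; simpa only [h1] using h.b1 (φ g)
  · intro g; simpa only [h2] using h.b2 (φ g)
  · intro g; simpa only [h1, h2] using h.b3 (φ g)

theorem theOK_of_rel {G K : Type*} [AddCommGroup G] [AddCommGroup K] {s t : G} {x y : K}
    (h : ∀ u v : ℤ, u • s + v • t = 0 → u • x + v • y = 0) (hxy : TheOK x y) : TheOK s t := by
  obtain ⟨φ, h1, h2⟩ := exists_phi s t x y h
  exact theOK_of_phi φ h1 h2 hxy

end Pool.Agent.helper85.L21
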