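import Pool.Agent.helper85.L21.ThetaLarge

/-! # The bipartite family over cyclic groups -/

set_option autoImplicit false

namespace Pool.Agent.helper85.L21

/-- Executable test. -/
def goodTb (m x y : ℕ) : Bool :=
  (Nat.ble m (8 * x) && Nat.ble (8 * x) (2 * m) &&
      ((Nat.ble (3 * m) (8 * y) && Nat.ble (8 * y) (4 * m)) ||
        (Nat.ble (6 * m) (8 * y) && Nat.ble (8 * y) (7 * m)))) ||
    ((Nat.ble (2 * m) (8 * x) && Nat.ble (8 * x) (3 * m) && Nat.ble (5 * m) (8 * y) &&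
        Nat.ble (8 * y) (6 * m)) ||
      (Nat.ble (3 * m) (8 * x) && Nat.ble (8 * x) (4 * m) && Nat.ble m (8 * y) &&
        Nat.ble (8 * y) (2 * m)))

theorem goodTb_spec {m x y : ℕ} (h : goodTb m x y = true) : GoodT m x y := by
  unfold goodTb at h
  simp only [Bool.or_eq_true, Bool.and_eq_true, Nat.ble_eq] at h
  unfold GoodT
  omega

/-- Search for a good multiplier. -/
def srchT (n k k' : ℕ) : ℕ → ℕ → Bool
  | 0, _ => false
  | f + 1, c => goodTb n c (c * k % n) || goodTb n c (c * k' % n) || srchT n k k' f (c + 1)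

theorem srchT_spec (n k k' : ℕ) : ∀ f c, srchT n k k' f c = true →
    ∃ c, GoodT n c (c * k % n) ∨ GoodT n c (c * k' % n) := by
  intro f
  induction f with
  | zero => intro c h; simp [srchT] at h
  | succ f ih =>
    intro c h
    rw [srchT, Bool.or_eq_true, Bool.or_eq_true] at h
    rcases h with (h | h) | h
    · exact ⟨c, Or.inl (goodTb_spec h)⟩
    · exact ⟨c, Or.inr (goodTb_spec h)⟩
    · exact ih _ h

/-- Exceptional pairs, which need labellings of their own. -/
def excsT : List (ℕ × ℕ) :=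
  [(7, 4), (9, 3), (9, 4), (10, 5), (11, 3), (13, 4), (17, 5), (18, 7), (19, 8), (22, 9),
  (27, 7), (34, 13)]

/-- Explicit labellings. -/
def dirsT : List (ℕ × ℕ × List ℕ × List ℕ) := [
    (7, 4,
      [0,1,0,1,2,3,2],
      [4,5,6,7,6,7,5]),
    (9, 3,
      [2,5,0,3,1,2,0,3,1],
      [4,0,3,6,7,4,5,6,7]),
    (9, 4,
      [7,2,1,2,1,4,0,3,0],
      [2,4,5,4,5,6,7,6,7]),
    (10, 5,
      [7,0,2,0,1,3,4,1,3,2],
      [0,2,4,5,4,5,6,7,6,7]),
    (11, 3,
      [6,7,1,0,2,3,1,0,2,4,5],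
      [0,2,3,4,5,6,7,4,5,6,7]),
    (13, 4,
      [2,1,7,1,0,2,0,2,3,4,3,0,5],
      [0,5,4,3,6,7,5,4,5,6,7,6,7]),
    (17, 5,
      [0,5,2,0,1,3,1,3,2,0,2,0,1,4,3,1,2],
      [4,2,0,4,5,6,7,6,7,4,5,4,5,6,7,6,7]),
    (18, 7,
      [7,6,7,6,7,0,1,2,0,2,0,3,4,0,1,4,1,2],
      [0,1,2,3,2,3,4,5,4,5,4,5,6,7,6,7,6,7]),
    (19, 8,
      [7,6,7,1,0,2,0,1,0,2,0,3,4,1,2,3,1,3,2],
      [0,2,3,4,5,4,5,4,5,4,5,6,7,6,7,6,7,6,7]),
    (22, 9,
      [7,6,7,6,7,0,1,2,1,2,0,1,2,1,2,4,0,4,1,2,3,0],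
      [3,0,2,3,2,3,4,5,4,5,4,5,4,5,6,7,6,7,6,7,6,7]),
    (27, 7,
      [6,7,0,1,0,2,0,2,1,3,2,3,1,3,0,2,0,1,2,0,2,4,1,2,3,1,3],
      [0,2,3,4,5,4,5,4,5,6,7,6,7,6,7,4,5,4,5,4,5,6,7,6,7,6,7]),
    (34, 13,
      [7,6,7,6,7,6,7,6,7,0,1,2,1,2,0,2,0,2,0,1,2,1,2,4,0,4,1,4,1,4,1,2,3,0],
      [3,0,2,3,2,3,2,3,2,3,4,5,4,5,4,5,4,5,4,5,4,5,6,7,6,7,6,7,6,7,6,7,6,7])]

theorem dirsT_ok : ∀ e ∈ dirsT, chkT e.1 [1] [e.2.1] e.2.2.1 e.2.2.2 = true := by
  decide +kernel

theorem excsT_dirs : ∀ e ∈ excsT, ∃ d ∈ dirsT, d.1 = e.1 ∧ d.2.1 = e.2 := by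
  decide +kernel

theorem theOK_of_dirsT {n k : ℕ} (hn : 0 < n) (h : ∃ d ∈ dirsT, d.1 = n ∧ d.2.1 = k) :
    TheOK (1 : ZMod n) (k : ZMod n) := by
  obtain ⟨⟨n', k', A, B⟩, hd, h1, h2⟩ := h
  simp only at h1 h2
  subst h1; subst h2
  have := dirsT_ok _ hd
  exact theOK_direct hn (AddMonoidHom.id (ZMod n')) (x := 1) (y := k') (by simp) (by simp) A B this

/-- The small case as one finite check. -/
def smallChkT (n k : ℕ) : Bool :=
  Nat.beq k 0 || Nat.beq k 1 || (excsT.contains (n, k)) ||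
    srchT n k (n + 1 - k) (n / 2 - n / 8 + 1) (n / 8)

def smallAllT (n : ℕ) : Bool := (List.range ((n + 1) / 2 + 1)).all fun k => smallChkT n k

theorem smallT_a : ∀ n ∈ List.range 100, 3 ≤ n → smallAllT n = true := by
  decide +kernel

theorem smallT_b : ∀ n ∈ List.range 100, smallAllT (n + 100) = true := by
  decide +kernel

theorem smallT_c : ∀ n ∈ List.range 80, smallAllT (n + 200) = true := by
  decide +kernel

theorem smallT_d : ∀ n ∈ List.range 64, smallAllT (n + 280) = true := by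
  decide +kernel

theorem smallT_all (n : ℕ) (h3 : 3 ≤ n) (h : n < 344) : smallAllT n = true := by
  by_cases a : n < 100
  · exact smallT_a n (List.mem_range.2 a) h3
  by_cases b : n < 200
  · have := smallT_b (n - 100) (List.mem_range.2 (by omega))
    rwa [Nat.sub_add_cancel (by omega)] at this
  by_cases c : n < 280
  · have := smallT_c (n - 200) (List.mem_range.2 (by omega))
    rwa [Nat.sub_add_cancel (by omega)] at this
  · have := smallT_d (n - 280) (List.mem_range.2 (by omega))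
    rwa [Nat.sub_add_cancel (by omega)] at this

theorem theOK_of_mult {n : ℕ} (hn : 0 < n) {k c : ℕ} (hc : c < n)
    (h : GoodT n c (c * k % n)) : TheOK (1 : ZMod n) (k : ZMod n) := by
  have : NeZero n := ⟨hn.ne'⟩
  apply theOK_of_rel (x := (c : ZMod n)) (y := (c * k : ZMod n))
  · intro u v huv
    rw [zsmul_eq_mul, zsmul_eq_mul] at huv ⊢
    linear_combination (c : ZMod n) * huv
  · apply theOK_of_goodT hn (AddMonoidHom.id _)
    simp only [AddMonoidHom.id_apply]
    rw [← Nat.cast_mul, ZMod.val_natCast, ZMod.val_natCast, Nat.mod_eq_of_lt hc]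
    exact h

theorem cycT_nat (n k : ℕ) (hn : 3 ≤ n) (hk : 2 * k ≤ n + 1) (h0 : k ≠ 0) (h1 : k ≠ 1) :
    TheOK (1 : ZMod n) (k : ZMod n) := by
  have hn0 : 0 < n := by omega
  have hne : NeZero n := ⟨hn0.ne'⟩
  have hcast : ((n + 1 - k : ℕ) : ZMod n) = 1 - (k : ZMod n) := by
    rw [Nat.cast_sub (by omega)]; push_cast; rw [ZMod.natCast_self]; ring
  by_cases big : 344 ≤ n
  · rcases theta_large (n : ℤ) (k : ℤ) (by exact_mod_cast big) with ⟨c, hc⟩ | h | h | h
    · have hc0 : 0 ≤ c := by unfold GoodTZ at hc; omega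
      lift c to ℕ using hc0
      have hm : ((c : ℤ) * (k : ℤ)) % (n : ℤ) = ((c * k % n : ℕ) : ℤ) := by push_cast; rfl
      rw [hm] at hc
      apply theOK_of_mult hn0 (c := c)
      · unfold GoodTZ at hc; omega
      · unfold GoodTZ at hc; unfold GoodT; omega
    · exfalso
      have h' : n ∣ k := by exact_mod_cast h
      have := Nat.le_of_dvd (by omega) h'
      omega
    · exfalso
      obtain ⟨z, hz⟩ := h
      have hz0 : 0 < z := by
        by_contra hcon
        have : (n : ℤ) * z ≤ 0 := mul_nonpos_of_nonneg_of_nonpos (by omega) (by omega)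
        omega
      have : (n : ℤ) * 1 ≤ n * z := mul_le_mul_of_nonneg_left (by omega) (by omega)
      omega
    · -- `k - 1` is the involution
      obtain ⟨z, hz⟩ := h
      have hz0 : 0 < z := by
        by_contra hcon
        have : (n : ℤ) * z ≤ 0 := mul_nonpos_of_nonneg_of_nonpos (by omega) (by omega)
        omega
      have hz1 : z < 2 := by
        by_contra hcon
        have : (n : ℤ) * 2 ≤ n * z := mul_le_mul_of_nonneg_left (by omega) (by omega)
        omega
      have hz2 : z = 1 := by omega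
      rw [hz2] at hz
      have hkn : n = 2 * (k - 1) := by omega
      apply TheOK.flip
      have e : (1 : ZMod n) - (k : ZMod n) = ((k - 1 : ℕ) : ZMod n) := by
        have e1 : ((2 * (k - 1) : ℕ) : ZMod n) = 0 := by rw [← hkn]; exact ZMod.natCast_self n
        rw [Nat.cast_mul] at e1
        rw [Nat.cast_sub (by omega)] at e1 ⊢
        push_cast at e1 ⊢
        linear_combination -e1
      rw [e]
      obtain ⟨m, hm⟩ : ∃ m, m = k - 1 := ⟨_, rfl⟩
      rw [← hm] at hkn ⊢
      obtain ⟨w, hw⟩ : ∃ w, w = n / 16 + 1 := ⟨_, rfl⟩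
      have hcm : ((2 * w + 1) * m) % n = m := by
        have : (2 * w + 1) * m = m + n * w := by rw [hkn]; ring
        rw [this, Nat.add_mul_mod_self_left, Nat.mod_eq_of_lt (by omega)]
      apply theOK_of_mult hn0 (c := 2 * w + 1) (by omega)
      rw [hcm]
      left
      exact ⟨by omega, by omega, Or.inl ⟨by omega, by omega⟩⟩
  · have hs := smallT_all n hn (by omega)
    unfold smallAllT at hs
    rw [List.all_eq_true] at hs
    have hs' := hs k (List.mem_range.2 (by omega))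
    unfold smallChkT at hs'
    simp only [Bool.or_eq_true, Nat.beq_eq] at hs'
    rcases hs' with ((h | h) | h) | h
    · exact absurd h h0
    · exact absurd h h1
    · have h' : (n, k) ∈ excsT := by simpa using h
      exact theOK_of_dirsT hn0 (excsT_dirs (n, k) h')
    · obtain ⟨c, hc | hc⟩ := srchT_spec n k _ _ _ h
      · apply theOK_of_mult hn0 (c := c) _ hc
        unfold GoodT at hc; omega
      · apply TheOK.flip
        rw [← hcast]
        apply theOK_of_mult hn0 (c := c) _ hc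
        unfold GoodT at hc; omega

/-- The cyclic case of the bipartite family. -/
theorem cycT (n : ℕ) (hn : 3 ≤ n) (k : ZMod n) (h0 : k ≠ 0) (h1 : k ≠ 1) :
    TheOK (1 : ZMod n) k := by
  have hn0 : 0 < n := by omega
  have hne : NeZero n := ⟨hn0.ne'⟩
  have key : ∀ k : ZMod n, k ≠ 0 → k ≠ 1 → 2 * k.val ≤ n + 1 → TheOK (1 : ZMod n) k := by
    intro k h0 h1 hle
    have := cycT_nat n k.val hn hle ?_ ?_
    · rwa [ZMod.natCast_zmod_val] at this
    · intro h; apply h0; rw [← ZMod.natCast_zmod_val k, h]; simp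
    · intro h; apply h1; rw [← ZMod.natCast_zmod_val k, h]; simp
  by_cases hle : 2 * k.val ≤ n + 1
  · exact key k h0 h1 hle
  · apply TheOK.flip
    apply key
    · intro h; exact h1 (sub_eq_zero.1 h).symm
    · intro h; exact h0 (by simpa using h)
    · have e : (1 : ZMod n) - k = ((n + 1 - k.val : ℕ) : ZMod n) := by
        have := ZMod.val_lt k
        rw [Nat.cast_sub (by omega)]; push_cast
        rw [ZMod.natCast_self, ZMod.natCast_zmod_val]; ring
      rw [e, ZMod.val_natCast, Nat.mod_eq_of_lt (by omega)]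
      omega

end Pool.Agent.helper85.L21
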