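import Pool.Agent.helper85.L21.Theta
import Pool.Agent.helper85.L21.Large

/-! # Good multipliers for the bipartite family: large modulus -/

set_option autoImplicit false

namespace Pool.Agent.helper85.L21

/-- Integer version of `GoodT`. -/
def GoodTZ (n x y : ℤ) : Prop :=
  (n ≤ 8 * x ∧ 8 * x ≤ 2 * n ∧
    ((3 * n ≤ 8 * y ∧ 8 * y ≤ 4 * n) ∨ (6 * n ≤ 8 * y ∧ 8 * y ≤ 7 * n))) ∨
  (2 * n ≤ 8 * x ∧ 8 * x ≤ 3 * n ∧ 5 * n ≤ 8 * y ∧ 8 * y ≤ 6 * n) ∨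
  (3 * n ≤ 8 * x ∧ 8 * x ≤ 4 * n ∧ n ≤ 8 * y ∧ 8 * y ≤ 2 * n)

/-- A walk with many small steps reaches a target arc. -/
theorem walk_core (n k p q r : ℤ) (hn : 344 ≤ n) (hq1 : 1 ≤ q) (hq7 : q ≤ 7)
    (h : q * k = p * n + r) (hr : 6 * q + 1 ≤ r) (hr8 : 8 * r ≤ n) (c0 y0 z0 : ℤ)
    (h1 : n ≤ 8 * c0) (h2 : 8 * c0 ≤ n + 7) (h3 : c0 * k = y0 + n * z0)
    (T : ℤ) (hT1 : 8 * y0 ≤ T * n) (hT2 : T * n - 8 * y0 ≤ 4 * n) :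
    ∃ c y z, n ≤ 8 * c ∧ 8 * c ≤ 2 * n ∧ c * k = y + n * z ∧ T * n ≤ 8 * y ∧
      8 * y ≤ (T + 1) * n := by
  obtain ⟨j, hj⟩ : ∃ j, j = (T * n - 8 * y0 + 8 * r - 1) / (8 * r) := ⟨_, rfl⟩
  have hr0 : 0 < 8 * r := by omega
  have hj1 : T * n - 8 * y0 ≤ 8 * r * j := by
    have := Int.lt_ediv_add_one_mul_self (T * n - 8 * y0 + 8 * r - 1) hr0
    rw [← hj] at this
    nlinarith
  have hj2 : 8 * r * j < T * n - 8 * y0 + 8 * r := by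
    have := Int.ediv_mul_le (T * n - 8 * y0 + 8 * r - 1) hr0.ne'
    rw [← hj] at this
    nlinarith
  have hj0 : 0 ≤ j := by
    rw [hj]; apply Int.ediv_nonneg <;> omega
  have hqj : 8 * (q * j) ≤ n - 7 := by
    by_contra hcon
    have e1 : n - 6 ≤ 8 * (q * j) := by omega
    have e2 : r * (n - 6) ≤ r * (8 * (q * j)) := mul_le_mul_of_nonneg_left e1 (by omega)
    have e3 : q * (8 * r * j) < q * (4 * n + 8 * r) := by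
      apply mul_lt_mul_of_pos_left _ (by omega)
      omega
    have e4 : r * (n - 6) < q * (4 * n + 8 * r) := by
      calc r * (n - 6) ≤ r * (8 * (q * j)) := e2
        _ = q * (8 * r * j) := by ring
        _ < _ := e3
    have e5 : (6 * q + 1) * (n - 6 - 8 * q) ≤ r * (n - 6 - 8 * q) :=
      mul_le_mul_of_nonneg_right hr (by omega)
    interval_cases q <;> nlinarith
  have hrj : 8 * (j * r) = 8 * r * j := by ring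
  have hT : (T + 1) * n = T * n + n := by ring
  refine ⟨c0 + q * j, y0 + j * r, z0 + j * p, ?_, ?_, ?_, ?_, ?_⟩
  · have : 0 ≤ q * j := mul_nonneg (by omega) hj0
    omega
  · omega
  · calc (c0 + q * j) * k = c0 * k + j * (q * k) := by ring
      _ = _ := by rw [h3, h]; ring
  · omega
  · omega

theorem theta_walk_pos (n k p q r : ℤ) (hn : 344 ≤ n) (hq1 : 1 ≤ q) (hq7 : q ≤ 7)
    (h : q * k = p * n + r) (hr : 6 * q + 1 ≤ r) (hr8 : 8 * r ≤ n) :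
    ∃ c, GoodTZ n c ((c * k) % n) := by
  have hn0 : 0 < n := by omega
  obtain ⟨c0, hc0⟩ : ∃ c0, c0 = (n + 7) / 8 := ⟨_, rfl⟩
  have h1 : n ≤ 8 * c0 := by omega
  have h2 : 8 * c0 ≤ n + 7 := by omega
  obtain ⟨y0, hy0⟩ : ∃ y0, y0 = (c0 * k) % n := ⟨_, rfl⟩
  have h3 : c0 * k = y0 + n * ((c0 * k) / n) := by
    rw [hy0]; exact (Int.emod_add_mul_ediv _ _).symm
  have hy1 : 0 ≤ y0 := by rw [hy0]; exact Int.emod_nonneg _ (by omega)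
  have hy2 : y0 < n := by rw [hy0]; exact Int.emod_lt_of_pos _ hn0
  by_cases a1 : 8 * y0 ≤ 3 * n
  · obtain ⟨c, y, z, e1, e2, e3, e4, e5⟩ := walk_core n k p q r hn hq1 hq7 h hr hr8 c0 y0 _ h1 h2
      h3 3 (by omega) (by omega)
    refine ⟨c, ?_⟩
    rw [emod_of_sandwich e3 (by omega) (by omega)]
    left; exact ⟨e1, e2, Or.inl ⟨by omega, by omega⟩⟩
  by_cases a2 : 8 * y0 ≤ 6 * n
  · obtain ⟨c, y, z, e1, e2, e3, e4, e5⟩ := walk_core n k p q r hn hq1 hq7 h hr hr8 c0 y0 _ h1 h2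
      h3 6 (by omega) (by omega)
    refine ⟨c, ?_⟩
    rw [emod_of_sandwich e3 (by omega) (by omega)]
    left; exact ⟨e1, e2, Or.inr ⟨by omega, by omega⟩⟩
  by_cases a3 : 8 * y0 ≤ 7 * n
  · refine ⟨c0, ?_⟩
    rw [← hy0]
    left
    refine ⟨h1, by omega, Or.inr ⟨by omega, a3⟩⟩
  · obtain ⟨c, y, z, e1, e2, e3, e4, e5⟩ := walk_core n k p q r hn hq1 hq7 h hr hr8 c0 y0 _ h1 h2
      h3 11 (by omega) (by omega)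
    refine ⟨c, ?_⟩
    have e6 : c * k = (y - n) + n * (z + 1) := by rw [e3]; ring
    rw [emod_of_sandwich e6 (by omega) (by omega)]
    left; exact ⟨e1, e2, Or.inl ⟨by omega, by omega⟩⟩

theorem theta_walk_neg (n k p q r : ℤ) (hn : 344 ≤ n) (hq1 : 1 ≤ q) (hq7 : q ≤ 7)
    (h : q * k = p * n - r) (hr : 6 * q + 1 ≤ r) (hr8 : 8 * r ≤ n) :
    ∃ c, GoodTZ n c ((c * k) % n) := by
  have hn0 : 0 < n := by omega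
  have h' : q * (-k) = (-p) * n + r := by linarith
  obtain ⟨c0, hc0⟩ : ∃ c0, c0 = (n + 7) / 8 := ⟨_, rfl⟩
  have h1 : n ≤ 8 * c0 := by omega
  have h2 : 8 * c0 ≤ n + 7 := by omega
  obtain ⟨y0, hy0⟩ : ∃ y0, y0 = (c0 * (-k)) % n := ⟨_, rfl⟩
  have h3 : c0 * (-k) = y0 + n * ((c0 * (-k)) / n) := by
    rw [hy0]; exact (Int.emod_add_mul_ediv _ _).symm
  have hy1 : 0 ≤ y0 := by rw [hy0]; exact Int.emod_nonneg _ (by omega)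
  have hy2 : y0 < n := by rw [hy0]; exact Int.emod_lt_of_pos _ hn0
  -- target arcs for the negated second coordinate: [1,2] and [4,5], in eighths
  by_cases a1 : 8 * y0 ≤ n
  · obtain ⟨c, y, z, e1, e2, e3, e4, e5⟩ := walk_core n (-k) (-p) q r hn hq1 hq7 h' hr hr8 c0 y0 _
      h1 h2 h3 1 (by omega) (by omega)
    refine ⟨c, ?_⟩
    have e6 : c * k = (n - y) + n * (-z - 1) := by linarith
    rw [emod_of_sandwich e6 (by omega) (by omega)]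
    left; exact ⟨e1, e2, Or.inr ⟨by omega, by omega⟩⟩
  by_cases a2 : 8 * y0 ≤ 4 * n
  · obtain ⟨c, y, z, e1, e2, e3, e4, e5⟩ := walk_core n (-k) (-p) q r hn hq1 hq7 h' hr hr8 c0 y0 _
      h1 h2 h3 4 (by omega) (by omega)
    refine ⟨c, ?_⟩
    have e6 : c * k = (n - y) + n * (-z - 1) := by linarith
    rw [emod_of_sandwich e6 (by omega) (by omega)]
    left; exact ⟨e1, e2, Or.inl ⟨by omega, by omega⟩⟩
  by_cases a3 : 8 * y0 ≤ 5 * n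
  · refine ⟨c0, ?_⟩
    have e6 : c0 * k = (n - y0) + n * (-((c0 * (-k)) / n) - 1) := by linarith
    rw [emod_of_sandwich e6 (by omega) (by omega)]
    left; exact ⟨h1, by omega, Or.inl ⟨by omega, by omega⟩⟩
  · obtain ⟨c, y, z, e1, e2, e3, e4, e5⟩ := walk_core n (-k) (-p) q r hn hq1 hq7 h' hr hr8 c0 y0 _
      h1 h2 h3 9 (by omega) (by omega)
    refine ⟨c, ?_⟩
    have e6 : c * k = (2 * n - y) + n * (-z - 2) := by linarith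
    rw [emod_of_sandwich e6 (by omega) (by omega)]
    left; exact ⟨e1, e2, Or.inr ⟨by omega, by omega⟩⟩

/-- The conditions on a table entry `(q, r, l, a, b, D, X, Y)`. -/
def entTOK (e : ℤ × ℤ × ℤ × ℤ × ℤ × ℤ × ℤ × ℤ) : Prop :=
  let (q, r, l, a, b, D, X, Y) := e
  0 < D ∧ q * D ≤ 344 * (b - a) ∧
  ((X = 1 ∧ Y = 3) ∨ (X = 1 ∧ Y = 6) ∨ (X = 2 ∧ Y = 5) ∨ (X = 3 ∧ Y = 1)) ∧
  X * D ≤ 8 * a ∧ 8 * b ≤ (X + 1) * D ∧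
  Y * q * D ≤ 8 * (l * D + a * r) ∧ 8 * (l * D + a * r) ≤ (Y + 1) * q * D ∧
  Y * q * D ≤ 8 * (l * D + b * r) ∧ 8 * (l * D + b * r) ≤ (Y + 1) * q * D

instance (e : ℤ × ℤ × ℤ × ℤ × ℤ × ℤ × ℤ × ℤ) : Decidable (entTOK e) := by
  unfold entTOK; infer_instance

theorem entryT (n k p q r l a b D X Y : ℤ) (hn : 344 ≤ n) (hq : 1 ≤ q) (h : q * k = p * n + r)
    (hcop : IsCoprime p q) (he : entTOK (q, r, l, a, b, D, X, Y)) :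
    ∃ c, GoodTZ n c ((c * k) % n) := by
  obtain ⟨hD, hlen, hcond, hx1, hx2, hlo, hhi, hlo', hhi'⟩ := he
  obtain ⟨c, z, hc1, hc2, hcz⟩ := exists_residue q p l ((a * n + D - 1) / D) hq hcop
  have f1 := Int.lt_ediv_add_one_mul_self (a * n + D - 1) hD
  have f2 := Int.ediv_mul_le (a * n + D - 1) hD.ne'
  have hca : a * n ≤ D * c := by nlinarith
  have hqD : q * D ≤ n * (b - a) := by
    have h1 : 0 ≤ b - a := by nlinarith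
    nlinarith
  have hcb : D * c ≤ b * n := by
    have : D * c ≤ D * ((a * n + D - 1) / D) + D * (q - 1) := by nlinarith
    nlinarith
  have hqy : q * (c * k - z * n) = l * n + c * r := by
    linear_combination c * h + n * hcz
  obtain ⟨y, hy⟩ : ∃ y, y = c * k - z * n := ⟨_, rfl⟩
  rw [← hy] at hqy
  have hqD0 : 0 < q * D := mul_pos (by omega) hD
  have e3 : (q * D) * (8 * y) = 8 * (D * (l * n) + D * c * r) := by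
    linear_combination 8 * D * hqy
  have g12 : (q * D) * (Y * n) ≤ (q * D) * (8 * y) ∧
      (q * D) * (8 * y) ≤ (q * D) * ((Y + 1) * n) := by
    have e2 := mul_le_mul_of_nonneg_right hlo (show 0 ≤ n by omega)
    have e2' := mul_le_mul_of_nonneg_right hlo' (show 0 ≤ n by omega)
    have e4 := mul_le_mul_of_nonneg_right hhi (show 0 ≤ n by omega)
    have e4' := mul_le_mul_of_nonneg_right hhi' (show 0 ≤ n by omega)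
    rw [e3]
    rcases le_total 0 r with hr | hr
    · have i1 := mul_le_mul_of_nonneg_right hca hr
      have i2 := mul_le_mul_of_nonneg_right hcb hr
      constructor <;> linarith
    · have i1 := mul_le_mul_of_nonpos_right hca hr
      have i2 := mul_le_mul_of_nonpos_right hcb hr
      constructor <;> linarith
  have g3 : Y * n ≤ 8 * y := le_of_mul_le_mul_left g12.1 hqD0
  have g4 : 8 * y ≤ (Y + 1) * n := le_of_mul_le_mul_left g12.2 hqD0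
  have g5 : c * k = y + n * z := by rw [hy]; ring
  have k1 : X * n ≤ 8 * c := by
    have : D * (X * n) ≤ D * (8 * c) := by nlinarith
    exact le_of_mul_le_mul_left this hD
  have k2 : 8 * c ≤ (X + 1) * n := by
    have : D * (8 * c) ≤ D * ((X + 1) * n) := by nlinarith
    exact le_of_mul_le_mul_left this hD
  refine ⟨c, ?_⟩
  rcases hcond with ⟨rfl, rfl⟩ | ⟨rfl, rfl⟩ | ⟨rfl, rfl⟩ | ⟨rfl, rfl⟩
  · rw [emod_of_sandwich g5 (by omega) (by omega)]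
    left; exact ⟨by omega, by omega, Or.inl ⟨by omega, by omega⟩⟩
  · rw [emod_of_sandwich g5 (by omega) (by omega)]
    left; exact ⟨by omega, by omega, Or.inr ⟨by omega, by omega⟩⟩
  · rw [emod_of_sandwich g5 (by omega) (by omega)]
    right; left; exact ⟨by omega, by omega, by omega, by omega⟩
  · rw [emod_of_sandwich g5 (by omega) (by omega)]
    right; right; exact ⟨by omega, by omega, by omega, by omega⟩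

/-- The table of entries for the bipartite family. -/
def tblT : List (ℤ × ℤ × ℤ × ℤ × ℤ × ℤ × ℤ × ℤ) := [
    (1, -6, 2, 9, 10, 48, 1, 6), (1, -5, 2, 9, 10, 40, 1, 6), (1, -4, 1, 4, 5, 32, 1, 3),
    (1, -3, 1, 4, 5, 24, 1, 3), (1, -2, 1, 6, 7, 16, 3, 1), (1, -1, 1, 1, 2, 8, 1, 6),
    (1, 2, 0, 3, 4, 16, 1, 3), (1, 3, 0, 3, 4, 24, 1, 3), (1, 4, 0, 6, 7, 32, 1, 6),
    (1, 5, 0, 6, 7, 40, 1, 6), (1, 6, -1, 11, 12, 48, 1, 3), (2, -12, 4, 9, 10, 48, 1, 6),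
    (2, -11, 4, 18, 20, 88, 1, 6), (2, -10, 4, 9, 10, 40, 1, 6), (2, -9, 4, 20, 22, 72, 2, 5),
    (2, -8, 2, 4, 5, 32, 1, 3), (2, -7, 2, 8, 10, 56, 1, 3), (2, -6, 2, 4, 5, 24, 1, 3),
    (2, -5, 2, 8, 10, 40, 1, 3), (2, -4, 2, 6, 7, 16, 3, 1), (2, -3, 2, 3, 4, 24, 1, 6),
    (2, -2, 2, 1, 2, 8, 1, 6), (2, -1, 1, 1, 2, 8, 1, 3), (2, 0, 1, 1, 2, 8, 1, 3),
    (2, 1, 0, 3, 4, 8, 3, 1), (2, 3, 1, 4, 6, 24, 1, 6), (2, 4, 0, 3, 4, 16, 1, 3),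
    (2, 5, 0, 6, 8, 40, 1, 3), (2, 6, 0, 3, 4, 24, 1, 3), (2, 7, 0, 12, 14, 56, 1, 6),
    (2, 8, 0, 6, 7, 32, 1, 6), (2, 9, 0, 12, 14, 72, 1, 6), (2, 10, 0, 6, 7, 40, 1, 6),
    (2, 11, 0, 12, 14, 88, 1, 6), (2, 12, -2, 11, 12, 48, 1, 3), (3, -18, 6, 9, 10, 48, 1, 6),
    (3, -17, 6, 27, 30, 136, 1, 6), (3, -16, 6, 27, 30, 128, 1, 6), (3, -15, 6, 9, 10, 40, 1, 6),
    (3, -14, 6, 30, 33, 112, 2, 5), (3, -13, 6, 30, 33, 104, 2, 5), (3, -12, 3, 4, 5, 32, 1, 3),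
    (3, -11, 3, 12, 15, 88, 1, 3), (3, -10, 3, 12, 15, 80, 1, 3), (3, -9, 3, 4, 5, 24, 1, 3),
    (3, -8, 3, 12, 15, 64, 1, 3), (3, -7, 4, 11, 14, 56, 1, 6), (3, -6, 3, 6, 7, 16, 3, 1),
    (3, -5, 3, 18, 20, 40, 3, 1), (3, -4, 2, 4, 7, 32, 1, 3), (3, -3, 3, 1, 2, 8, 1, 6),
    (3, -2, 3, 3, 4, 16, 1, 6), (3, -1, 1, 3, 4, 8, 3, 1), (3, 0, 2, 2, 3, 8, 2, 5),
    (3, 1, 0, 3, 4, 8, 3, 1), (3, 2, 1, 1, 2, 8, 1, 3), (3, 3, 1, 7, 9, 24, 2, 5),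
    (3, 4, 1, 4, 5, 16, 2, 5), (3, 5, 0, 9, 10, 40, 1, 3), (3, 6, 0, 3, 4, 16, 1, 3),
    (3, 7, 0, 9, 12, 56, 1, 3), (3, 8, 0, 9, 12, 64, 1, 3), (3, 9, 0, 3, 4, 24, 1, 3),
    (3, 10, 1, 10, 13, 80, 1, 6), (3, 11, 0, 18, 21, 88, 1, 6), (3, 12, 0, 6, 7, 32, 1, 6),
    (3, 13, 0, 18, 21, 104, 1, 6), (3, 14, 0, 18, 21, 112, 1, 6), (3, 15, 0, 6, 7, 40, 1, 6),
    (3, 16, 0, 18, 21, 128, 1, 6), (3, 17, 0, 18, 21, 136, 1, 6), (3, 18, -3, 11, 12, 48, 1, 3),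
    (4, -24, 8, 9, 10, 48, 1, 6), (4, -23, 8, 36, 40, 184, 1, 6), (4, -22, 8, 18, 20, 88, 1, 6),
    (4, -21, 8, 36, 40, 168, 1, 6), (4, -20, 8, 9, 10, 40, 1, 6), (4, -19, 8, 40, 44, 152, 2, 5),
    (4, -18, 8, 20, 22, 72, 2, 5), (4, -17, 8, 40, 44, 136, 2, 5), (4, -16, 4, 4, 5, 32, 1, 3),
    (4, -15, 4, 16, 20, 120, 1, 3), (4, -14, 4, 8, 10, 56, 1, 3), (4, -13, 4, 16, 20, 104, 1, 3),
    (4, -12, 4, 4, 5, 24, 1, 3), (4, -11, 4, 16, 20, 88, 1, 3), (4, -10, 4, 8, 10, 40, 1, 3),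
    (4, -9, 5, 12, 16, 72, 1, 6), (4, -8, 4, 6, 7, 16, 3, 1), (4, -7, 4, 24, 28, 56, 3, 1),
    (4, -6, 3, 4, 6, 24, 1, 3), (4, -5, 3, 16, 20, 40, 3, 1), (4, -4, 4, 1, 2, 8, 1, 6),
    (4, -3, 2, 3, 4, 8, 3, 1), (4, -2, 2, 1, 2, 8, 1, 3), (4, -1, 1, 3, 4, 8, 3, 1),
    (4, 0, 1, 3, 4, 8, 3, 1), (4, 1, 3, 1, 2, 8, 1, 6), (4, 2, 0, 3, 4, 8, 3, 1),
    (4, 3, 1, 4, 6, 24, 1, 3), (4, 4, 1, 1, 2, 8, 1, 3), (4, 5, 1, 5, 8, 40, 1, 3),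
    (4, 6, 1, 6, 8, 24, 2, 5), (4, 7, 2, 8, 12, 56, 1, 6), (4, 8, 0, 3, 4, 16, 1, 3),
    (4, 9, 0, 12, 16, 72, 1, 3), (4, 10, 0, 6, 8, 40, 1, 3), (4, 11, 0, 12, 16, 88, 1, 3),
    (4, 12, 0, 3, 4, 24, 1, 3), (4, 13, 1, 16, 20, 104, 1, 6), (4, 14, 0, 12, 14, 56, 1, 6),
    (4, 15, 0, 24, 28, 120, 1, 6), (4, 16, 0, 6, 7, 32, 1, 6), (4, 17, 0, 24, 28, 136, 1, 6),
    (4, 18, 0, 12, 14, 72, 1, 6), (4, 19, 0, 24, 28, 152, 1, 6), (4, 20, 0, 6, 7, 40, 1, 6),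
    (4, 21, 0, 24, 28, 168, 1, 6), (4, 22, 0, 12, 14, 88, 1, 6), (4, 23, 0, 24, 28, 184, 1, 6),
    (4, 24, -4, 11, 12, 48, 1, 3), (5, -30, 10, 9, 10, 48, 1, 6), (5, -29, 10, 45, 50, 232, 1, 6),
    (5, -28, 10, 45, 50, 224, 1, 6), (5, -27, 10, 45, 50, 216, 1, 6),
    (5, -26, 10, 45, 50, 208, 1, 6), (5, -25, 10, 9, 10, 40, 1, 6),
    (5, -24, 10, 50, 55, 192, 2, 5), (5, -23, 10, 50, 55, 184, 2, 5),
    (5, -22, 10, 50, 55, 176, 2, 5), (5, -21, 10, 50, 55, 168, 2, 5), (5, -20, 5, 4, 5, 32, 1, 3),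
    (5, -19, 5, 20, 25, 152, 1, 3), (5, -18, 5, 20, 25, 144, 1, 3),
    (5, -17, 5, 20, 25, 136, 1, 3), (5, -16, 5, 20, 25, 128, 1, 3), (5, -15, 5, 4, 5, 24, 1, 3),
    (5, -14, 5, 20, 25, 112, 1, 3), (5, -13, 5, 20, 25, 104, 1, 3), (5, -12, 6, 13, 18, 96, 1, 6),
    (5, -11, 6, 13, 18, 88, 1, 6), (5, -10, 5, 6, 7, 16, 3, 1), (5, -9, 5, 30, 35, 72, 3, 1),
    (5, -8, 6, 18, 23, 64, 2, 5), (5, -7, 4, 22, 27, 56, 3, 1), (5, -6, 5, 3, 5, 24, 1, 6),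
    (5, -5, 5, 1, 2, 8, 1, 6), (5, -4, 3, 1, 2, 8, 1, 3), (5, -3, 2, 9, 11, 24, 3, 1),
    (5, -2, 2, 3, 4, 8, 3, 1), (5, -1, 4, 1, 2, 8, 1, 6), (5, 0, 1, 3, 4, 8, 3, 1),
    (5, 1, 2, 1, 2, 8, 1, 3), (5, 2, 0, 3, 4, 8, 3, 1), (5, 3, 0, 9, 10, 24, 3, 1),
    (5, 4, 2, 9, 12, 32, 2, 5), (5, 5, 2, 10, 14, 40, 2, 5), (5, 6, 1, 7, 12, 48, 1, 3),
    (5, 7, 1, 7, 12, 56, 1, 3), (5, 8, 1, 17, 22, 64, 2, 5), (5, 9, -3, 29, 34, 72, 3, 1),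
    (5, 10, 0, 3, 4, 16, 1, 3), (5, 11, 0, 15, 20, 88, 1, 3), (5, 12, 0, 15, 20, 96, 1, 3),
    (5, 13, 0, 15, 20, 104, 1, 3), (5, 14, 0, 15, 20, 112, 1, 3), (5, 15, 0, 3, 4, 24, 1, 3),
    (5, 16, 1, 22, 27, 128, 1, 6), (5, 17, 1, 22, 27, 136, 1, 6), (5, 18, 0, 30, 35, 144, 1, 6),
    (5, 19, 0, 30, 35, 152, 1, 6), (5, 20, 0, 6, 7, 32, 1, 6), (5, 21, 0, 30, 35, 168, 1, 6),
    (5, 22, 0, 30, 35, 176, 1, 6), (5, 23, 0, 30, 35, 184, 1, 6), (5, 24, 0, 30, 35, 192, 1, 6),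
    (5, 25, 0, 6, 7, 40, 1, 6), (5, 26, 0, 30, 35, 208, 1, 6), (5, 27, 0, 30, 35, 216, 1, 6),
    (5, 28, 0, 30, 35, 224, 1, 6), (5, 29, 0, 30, 35, 232, 1, 6), (5, 30, -5, 11, 12, 48, 1, 3),
    (6, -36, 12, 9, 10, 48, 1, 6), (6, -35, 12, 54, 60, 280, 1, 6),
    (6, -34, 12, 27, 30, 136, 1, 6), (6, -33, 12, 18, 20, 88, 1, 6),
    (6, -32, 12, 27, 30, 128, 1, 6), (6, -31, 12, 54, 60, 248, 1, 6),
    (6, -30, 12, 9, 10, 40, 1, 6), (6, -29, 12, 60, 66, 232, 2, 5),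
    (6, -28, 12, 30, 33, 112, 2, 5), (6, -27, 12, 20, 22, 72, 2, 5),
    (6, -26, 12, 30, 33, 104, 2, 5), (6, -25, 12, 60, 66, 200, 2, 5), (6, -24, 6, 4, 5, 32, 1, 3),
    (6, -23, 6, 24, 30, 184, 1, 3), (6, -22, 6, 12, 15, 88, 1, 3), (6, -21, 6, 8, 10, 56, 1, 3),
    (6, -20, 6, 12, 15, 80, 1, 3), (6, -19, 6, 24, 30, 152, 1, 3), (6, -18, 6, 4, 5, 24, 1, 3),
    (6, -17, 6, 24, 30, 136, 1, 3), (6, -16, 6, 12, 15, 64, 1, 3), (6, -15, 6, 8, 10, 40, 1, 3),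
    (6, -14, 7, 7, 10, 56, 1, 6), (6, -13, 7, 14, 20, 104, 1, 6), (6, -12, 6, 6, 7, 16, 3, 1),
    (6, -11, 6, 36, 42, 88, 3, 1), (6, -10, 7, 7, 10, 40, 1, 6), (6, -9, 7, 20, 26, 72, 2, 5),
    (6, -8, 4, 4, 7, 32, 1, 3), (6, -7, 4, 8, 14, 56, 1, 3), (6, -6, 6, 1, 2, 8, 1, 6),
    (6, -5, 6, 6, 10, 40, 1, 6), (6, -4, 3, 3, 4, 8, 3, 1), (6, -3, 3, 1, 2, 8, 1, 3),
    (6, -2, 2, 3, 4, 8, 3, 1), (6, -1, 3, 1, 2, 8, 1, 3), (6, 0, 1, 3, 4, 8, 3, 1),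
    (6, 1, 1, 3, 4, 8, 3, 1), (6, 2, 0, 3, 4, 8, 3, 1), (6, 3, 0, 3, 4, 8, 3, 1),
    (6, 4, 2, 1, 2, 8, 1, 3), (6, 5, 4, 1, 2, 8, 1, 6), (6, 6, 2, 7, 9, 24, 2, 5),
    (6, 7, 2, 14, 20, 56, 2, 5), (6, 8, 1, 5, 8, 32, 1, 3), (6, 9, 1, 10, 16, 72, 1, 3),
    (6, 10, 1, 5, 8, 40, 1, 3), (6, 11, 1, 22, 28, 88, 2, 5), (6, 12, 0, 3, 4, 16, 1, 3),
    (6, 13, 0, 18, 24, 104, 1, 3), (6, 14, 0, 9, 12, 56, 1, 3), (6, 15, 0, 6, 8, 40, 1, 3),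
    (6, 16, 0, 9, 12, 64, 1, 3), (6, 17, 0, 18, 24, 136, 1, 3), (6, 18, 0, 3, 4, 24, 1, 3),
    (6, 19, 1, 28, 34, 152, 1, 6), (6, 20, 1, 14, 17, 80, 1, 6), (6, 21, 0, 12, 14, 56, 1, 6),
    (6, 22, 0, 18, 21, 88, 1, 6), (6, 23, 0, 36, 42, 184, 1, 6), (6, 24, 0, 6, 7, 32, 1, 6),
    (6, 25, 0, 36, 42, 200, 1, 6), (6, 26, 0, 18, 21, 104, 1, 6), (6, 27, 0, 12, 14, 72, 1, 6),
    (6, 28, 0, 18, 21, 112, 1, 6), (6, 29, 0, 36, 42, 232, 1, 6), (6, 30, 0, 6, 7, 40, 1, 6),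
    (6, 31, 0, 36, 42, 248, 1, 6), (6, 32, 0, 18, 21, 128, 1, 6), (6, 33, 0, 12, 14, 88, 1, 6),
    (6, 34, 0, 18, 21, 136, 1, 6), (6, 35, 0, 36, 42, 280, 1, 6), (6, 36, -6, 11, 12, 48, 1, 3),
    (7, -42, 14, 9, 10, 48, 1, 6), (7, -41, 14, 63, 70, 328, 1, 6),
    (7, -40, 14, 63, 70, 320, 1, 6), (7, -39, 14, 63, 70, 312, 1, 6),
    (7, -38, 14, 63, 70, 304, 1, 6), (7, -37, 14, 63, 70, 296, 1, 6),
    (7, -36, 14, 63, 70, 288, 1, 6), (7, -35, 14, 9, 10, 40, 1, 6),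
    (7, -34, 14, 70, 77, 272, 2, 5), (7, -33, 14, 70, 77, 264, 2, 5),
    (7, -32, 14, 70, 77, 256, 2, 5), (7, -31, 14, 70, 77, 248, 2, 5),
    (7, -30, 14, 70, 77, 240, 2, 5), (7, -29, 14, 70, 77, 232, 2, 5), (7, -28, 7, 4, 5, 32, 1, 3),
    (7, -27, 7, 28, 35, 216, 1, 3), (7, -26, 7, 28, 35, 208, 1, 3),
    (7, -25, 7, 28, 35, 200, 1, 3), (7, -24, 7, 28, 35, 192, 1, 3),
    (7, -23, 7, 28, 35, 184, 1, 3), (7, -22, 7, 28, 35, 176, 1, 3), (7, -21, 7, 4, 5, 24, 1, 3),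
    (7, -20, 7, 28, 35, 160, 1, 3), (7, -19, 7, 28, 35, 152, 1, 3),
    (7, -18, 7, 28, 35, 144, 1, 3), (7, -17, 9, 23, 30, 136, 1, 6),
    (7, -16, 8, 50, 57, 128, 3, 1), (7, -15, 8, 15, 22, 120, 1, 6), (7, -14, 7, 6, 7, 16, 3, 1),
    (7, -13, 7, 42, 49, 104, 3, 1), (7, -12, 8, 15, 22, 96, 1, 6), (7, -11, 8, 15, 22, 88, 1, 6),
    (7, -10, 8, 22, 29, 80, 2, 5), (7, -9, 5, 4, 6, 24, 1, 3), (7, -8, 7, 4, 7, 32, 1, 6),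
    (7, -7, 7, 1, 2, 8, 1, 6), (7, -6, 4, 3, 4, 8, 3, 1), (7, -5, 4, 1, 2, 8, 1, 3),
    (7, -4, 3, 3, 4, 8, 3, 1), (7, -3, 6, 1, 2, 8, 1, 6), (7, -2, 2, 3, 4, 8, 3, 1),
    (7, -1, 2, 3, 4, 8, 3, 1), (7, 0, 1, 3, 4, 8, 3, 1), (7, 1, 1, 3, 4, 8, 3, 1),
    (7, 2, 3, 1, 2, 8, 1, 3), (7, 3, 0, 3, 4, 8, 3, 1), (7, 4, 5, 1, 2, 8, 1, 6),
    (7, 5, 2, 1, 2, 8, 1, 3), (7, 6, 2, 1, 2, 8, 1, 3), (7, 7, 2, 7, 12, 56, 1, 3),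
    (7, 8, 4, 5, 8, 32, 1, 6), (7, 9, 2, 19, 26, 72, 2, 5), (7, 10, 1, 13, 20, 80, 1, 3),
    (7, 11, 1, 13, 20, 88, 1, 3), (7, 12, 1, 13, 20, 96, 1, 3), (7, 13, 1, 13, 20, 104, 1, 3),
    (7, 14, 0, 3, 4, 16, 1, 3), (7, 15, 0, 21, 28, 120, 1, 3), (7, 16, 0, 21, 28, 128, 1, 3),
    (7, 17, 0, 21, 28, 136, 1, 3), (7, 18, 0, 21, 28, 144, 1, 3), (7, 19, 0, 21, 28, 152, 1, 3),
    (7, 20, 0, 21, 28, 160, 1, 3), (7, 21, 0, 3, 4, 24, 1, 3), (7, 22, 1, 34, 41, 176, 1, 6),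
    (7, 23, 1, 34, 41, 184, 1, 6), (7, 24, 1, 34, 41, 192, 1, 6), (7, 25, 0, 42, 49, 200, 1, 6),
    (7, 26, 0, 42, 49, 208, 1, 6), (7, 27, 0, 42, 49, 216, 1, 6), (7, 28, 0, 6, 7, 32, 1, 6),
    (7, 29, 0, 42, 49, 232, 1, 6), (7, 30, 0, 42, 49, 240, 1, 6), (7, 31, 0, 42, 49, 248, 1, 6),
    (7, 32, 0, 42, 49, 256, 1, 6), (7, 33, 0, 42, 49, 264, 1, 6), (7, 34, 0, 42, 49, 272, 1, 6),
    (7, 35, 0, 6, 7, 40, 1, 6), (7, 36, 0, 42, 49, 288, 1, 6), (7, 37, 0, 42, 49, 296, 1, 6),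
    (7, 38, 0, 42, 49, 304, 1, 6), (7, 39, 0, 42, 49, 312, 1, 6), (7, 40, 0, 42, 49, 320, 1, 6),
    (7, 41, 0, 42, 49, 328, 1, 6), (7, 42, -7, 11, 12, 48, 1, 3)]

theorem tblT_spec : ∀ q ∈ Finset.Icc (1 : ℤ) 7, ∀ r ∈ Finset.Icc (-(6 * q)) (6 * q),
    (q, r) ∉ ([(1, 0), (1, 1), (2, 2)] : List (ℤ × ℤ)) →
    ∃ e ∈ tblT, e.1 = q ∧ e.2.1 = r ∧ entTOK e := by
  decide +kernel

/-- Large modulus, bipartite family. -/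
theorem theta_large (n k : ℤ) (hn : 344 ≤ n) :
    (∃ c, GoodTZ n c ((c * k) % n)) ∨ n ∣ k ∨ n ∣ k - 1 ∨ n ∣ 2 * (k - 1) := by
  obtain ⟨q, p, hq1, hq7, hcop, habs⟩ := dirichlet7 n k (by omega)
  obtain ⟨r, hr⟩ : ∃ r, r = q * k - p * n := ⟨_, rfl⟩
  rw [← hr] at habs
  have habs' := abs_le.1 (show |r| ≤ n / 8 by omega)
  by_cases c1 : 6 * q + 1 ≤ r
  · left; exact theta_walk_pos n k p q r hn hq1 hq7 (by linarith) c1 (by omega)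
  by_cases c2 : 6 * q + 1 ≤ -r
  · left; exact theta_walk_neg n k p q (-r) hn hq1 hq7 (by linarith) c2 (by omega)
  by_cases hex : (q, r) ∈ ([(1, 0), (1, 1), (2, 2)] : List (ℤ × ℤ))
  · right
    simp only [List.mem_cons, Prod.mk.injEq, List.not_mem_nil, or_false] at hex
    rcases hex with ⟨rfl, rfl⟩ | ⟨rfl, rfl⟩ | ⟨rfl, rfl⟩
    · left; exact ⟨p, by linarith⟩
    · right; left; exact ⟨p, by linarith⟩
    · right; right; exact ⟨p, by linarith⟩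
  · left
    obtain ⟨⟨q', r', l, a, b, D, X, Y⟩, _, e1, e2, e3⟩ :=
      tblT_spec q (Finset.mem_Icc.2 ⟨hq1, hq7⟩) r (Finset.mem_Icc.2 ⟨by omega, by omega⟩) hex
    simp only at e1 e2
    subst e1; subst e2
    exact entryT n k p q' r' l a b D X Y hn hq1 (by linarith) hcop e3

end Pool.Agent.helper85.L21
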