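import Pool.Agent.helper85.L21.CayT

/-! # Two orbits joined by two matchings -/

set_option autoImplicit false

namespace Pool.Agent.helper85.L21

/-- Valid labels for the graph with edges `U_g U_{g+τ}`, `V_g V_{g+τ'}`, `U_g V_g`,
`U_g V_{g+s}`. -/
structure Two {G : Type*} [AddCommGroup G] (τ τ' s : G) (A B : G → ℕ) : Prop where
  leA : ∀ g, A g ≤ 7
  leB : ∀ g, B g ≤ 7
  a : ∀ g, Far (A g) (A (g + τ))
  b : ∀ g, Far (B g) (B (g + τ'))
  ab0 : ∀ g, Far (A g) (B g)
  abs : ∀ g, Far (A g) (B (g + s))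
  aa : ∀ g, A g ≠ A (g + s)
  bb : ∀ g, B g ≠ B (g + s)
  u1 : ∀ g, A (g + τ) ≠ B g
  u2 : ∀ g, A (g + τ) ≠ B (g + s)
  v1 : ∀ g, B (g + τ') ≠ A g
  v2 : ∀ g, B (g + s + τ') ≠ A g

def TwoOK {G : Type*} [AddCommGroup G] (τ τ' s : G) : Prop := ∃ A B : G → ℕ, Two τ τ' s A B

theorem TwoOK.comap {G H : Type*} [AddCommGroup G] [AddCommGroup H] (f : G →+ H) {τ τ' s : G}
    (h : TwoOK (f τ) (f τ') (f s)) : TwoOK τ τ' s := by
  obtain ⟨A, B, h⟩ := h
  refine ⟨fun g => A (f g), fun g => B (f g), ?_⟩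
  constructor
  · intro g; exact h.leA _
  · intro g; exact h.leB _
  · intro g; simpa using h.a (f g)
  · intro g; simpa using h.b (f g)
  · intro g; exact h.ab0 _
  · intro g; simpa using h.abs (f g)
  · intro g; simpa using h.aa (f g)
  · intro g; simpa using h.bb (f g)
  · intro g; simpa using h.u1 (f g)
  · intro g; simpa using h.u2 (f g)
  · intro g; simpa using h.v1 (f g)
  · intro g; simpa using h.v2 (f g)

theorem two_of_cay {G K : Type*} [AddCommGroup G] [AddCommGroup K] {τ τ' s : G} {ρ θ : K}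
    (φ : G → K) (h1 : ∀ g, φ (g + s) = φ g + (ρ + ρ)) (h2 : ∀ g, φ (g + τ) = φ g + θ)
    (h3 : ∀ g, φ (g + τ') = φ g + θ) {f : K → ℕ} (h : Cay ρ θ f) :
    Two τ τ' s (fun g => f (φ g)) (fun g => f (φ g - ρ)) := by
  constructor
  · intro g; exact h.le _
  · intro g; exact h.le _
  · intro g; simp only [h2]; exact h.ft _
  · intro g
    have e : φ g + θ - ρ = φ g - ρ + θ := by abel
    simp only [h3, e]; exact h.ft _
  · intro g
    have := h.fr (φ g - ρ)
    rw [sub_add_cancel] at this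
    exact this.symm
  · intro g
    have e : φ g + (ρ + ρ) - ρ = φ g + ρ := by abel
    simp only [h1, e]; exact h.fr _
  · intro g
    have e : φ g + (ρ + ρ) = φ g + ρ + ρ := by abel
    simp only [h1, e]; exact h.fr2 _
  · intro g
    have e : φ g + (ρ + ρ) - ρ = φ g - ρ + ρ + ρ := by abel
    simp only [h1, e]; exact h.fr2 _
  · intro g
    have := h.c2 (φ g - ρ)
    rw [sub_add_cancel] at this
    simp only [h2]; exact this.symm
  · intro g
    have e : φ g + (ρ + ρ) - ρ = φ g + ρ := by abel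
    simp only [h1, h2, e]; exact (h.c1 _).symm
  · intro g
    have := h.c1 (φ g - ρ)
    rw [sub_add_cancel] at this
    have e : φ g + θ - ρ = φ g - ρ + θ := by abel
    simp only [h3, e]; exact this.symm
  · intro g
    have e : φ g + (ρ + ρ) + θ - ρ = φ g + ρ + θ := by abel
    simp only [h3, h1, e]; exact (h.c2 _).symm

theorem two_same {G : Type*} [AddCommGroup G] [Finite G] (τ s : G) (hτ : τ + τ = 0)
    (hτ0 : τ ≠ 0) (hs : s ≠ 0) : TwoOK τ τ s := by
  by_cases hm : τ ∈ AddSubgroup.zmultiples s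
  · obtain ⟨m, hm0, ha, rfl⟩ := invol_in_cyclic hτ hτ0 hm
    obtain ⟨f, hf⟩ := moebius_ok (2 * m) (by omega)
    obtain ⟨φ, h1, h2⟩ := exists_phi s ((m : ℤ) • s)
      ((1 : ZMod (2 * (2 * m))) + 1) (((2 * m : ℕ) : ZMod (2 * (2 * m)))) (by
        intro u v huv
        rw [← mul_smul, ← add_smul] at huv
        have h1 := addOrderOf_dvd_iff_zsmul_eq_zero.2 huv
        rw [ha] at h1
        obtain ⟨z, hz⟩ := h1
        have h3 : ((2 * (2 * m) : ℕ) : ZMod (2 * (2 * m))) = 0 := ZMod.natCast_self _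
        have h4 : ((u + v * m : ℤ) : ZMod (2 * (2 * m))) =
            (((2 * m : ℕ) * z : ℤ) : ZMod (2 * (2 * m))) := by
          rw [hz]
        push_cast at h3 h4
        rw [zsmul_eq_mul, zsmul_eq_mul]
        push_cast
        linear_combination 2 * h4 + (z : ZMod (2 * (2 * m))) * h3)
    exact ⟨_, _, two_of_cay φ h1 h2 h2 hf⟩
  · obtain ⟨n, hn⟩ : ∃ n, n = addOrderOf s := ⟨_, rfl⟩
    have hn0 : 0 < n := by rw [hn]; exact addOrderOf_pos s
    have hn2 : 2 ≤ n := by
      by_contra hcon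
      apply hs
      have := addOrderOf_nsmul_eq_zero s
      rw [← hn] at this
      have h12 : n = 1 := by omega
      rw [h12, one_nsmul] at this; exact this
    obtain ⟨f, hf⟩ := prism_ok (2 * n) (by omega)
    obtain ⟨φ, h1, h2⟩ := exists_phi s τ
      (((1, 0) : ZMod (2 * n) × ZMod 2) + (1, 0)) ((0, 1) : ZMod (2 * n) × ZMod 2) (by
        intro u v huv
        rcases zsmul_invol hτ v with ⟨hv, hv'⟩ | ⟨hv, hv'⟩
        · rw [hv', add_zero] at huv
          have h1 := addOrderOf_dvd_iff_zsmul_eq_zero.2 huv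
          rw [← hn] at h1
          obtain ⟨z, hz⟩ := h1
          have h3 := (ZMod.intCast_zmod_eq_zero_iff_dvd v 2).2 (Int.dvd_of_emod_eq_zero hv)
          have h4 : ((2 * n : ℕ) : ZMod (2 * n)) = 0 := ZMod.natCast_self _
          push_cast at h4
          have h5 : (u : ZMod (2 * n)) = (n : ZMod (2 * n)) * z := by
            rw [hz]; push_cast; ring
          have h6 : (u : ZMod (2 * n)) * (1 + 1) = 0 := by
            rw [h5]; linear_combination (z : ZMod (2 * n)) * h4
          have e7 : u • (((1, 0) : ZMod (2 * n) × ZMod 2) + (1, 0)) +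
              v • ((0, 1) : ZMod (2 * n) × ZMod 2)
              = ((u : ZMod (2 * n)) * (1 + 1), (v : ZMod 2)) := by
            ext
            · simp [zsmul_eq_mul]; ring
            · simp [zsmul_eq_mul]
          rw [e7, h6, h3]
          rfl
        · exfalso
          apply hm
          rw [hv'] at huv
          have : τ = (-u) • s := by
            rw [neg_smul]; exact eq_neg_of_add_eq_zero_right huv
          rw [this]
          exact AddSubgroup.zsmul_mem_zmultiples _ _)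
    exact ⟨_, _, two_of_cay φ h1 h2 h2 hf⟩

theorem mem_zmultiples_invol {G : Type*} [AddCommGroup G] {x y : G} (hx : x + x = 0)
    (h : y ∈ AddSubgroup.zmultiples x) : y = 0 ∨ y = x := by
  obtain ⟨k, rfl⟩ := AddSubgroup.mem_zmultiples_iff.1 h
  rcases zsmul_invol hx k with ⟨_, h⟩ | ⟨_, h⟩
  · left; exact h
  · right; exact h

theorem two_all {G : Type*} [AddCommGroup G] [Finite G] (τ τ' s : G) (hτ : τ + τ = 0)
    (hτ' : τ' + τ' = 0) (hτ0 : τ ≠ 0) (hτ0' : τ' ≠ 0) (hs : s ≠ 0) : TwoOK τ τ' s := by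
  by_cases he : τ = τ'
  · subst he; exact two_same τ s hτ hτ0 hs
  have hx : (τ + τ') + (τ + τ') = 0 := by
    calc (τ + τ') + (τ + τ') = (τ + τ) + (τ' + τ') := by abel
      _ = 0 := by rw [hτ, hτ', add_zero]
  have hx0 : τ + τ' ≠ 0 := by
    intro h
    apply he
    calc τ = τ + τ' + τ' := by rw [add_assoc, hτ', add_zero]
      _ = τ' := by rw [h, zero_add]
  by_cases hss : s = τ + τ'
  · obtain ⟨φ, h1, h2⟩ := exists_phi τ τ' ((1, 0) : ZMod 2 × ZMod 2) ((0, 1) : ZMod 2 × ZMod 2) (by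
      intro u v huv
      have e2 : ∀ u : ℤ, u % 2 = 0 → ((u : ℤ) : ZMod 2) = 0 := fun u hu =>
        (ZMod.intCast_zmod_eq_zero_iff_dvd u 2).2 (Int.dvd_of_emod_eq_zero hu)
      simp only [Prod.smul_mk, smul_zero, Prod.mk_add_mk, add_zero, zero_add, zsmul_eq_mul,
        mul_one]
      rcases zsmul_invol hτ u with ⟨hu, hu'⟩ | ⟨hu, hu'⟩ <;>
      rcases zsmul_invol hτ' v with ⟨hv, hv'⟩ | ⟨hv, hv'⟩ <;>
      rw [hu', hv'] at huv
      · rw [e2 u hu, e2 v hv]; rfl
      · exfalso; apply hτ0'; simpa using huv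
      · exfalso; apply hτ0; simpa using huv
      · exact absurd huv hx0)
    have h3 : ∀ g, φ (g + s) = φ g + (1, 1) := by
      intro g
      rw [hss, ← add_assoc, h2, h1, add_assoc]; rfl
    let F : ZMod 2 × ZMod 2 → ℕ := fun p => 2 * p.1.val
    let F' : ZMod 2 × ZMod 2 → ℕ := fun p => 4 + 2 * p.2.val
    have key : ∀ p : ZMod 2 × ZMod 2, F p ≤ 7 ∧ F' p ≤ 7 ∧ Far (F p) (F (p + (1, 0))) ∧
        Far (F' p) (F' (p + (0, 1))) ∧ Far (F p) (F' p) ∧ Far (F p) (F' (p + (1, 1))) ∧
        F p ≠ F (p + (1, 1)) ∧ F' p ≠ F' (p + (1, 1)) ∧ F (p + (1, 0)) ≠ F' p ∧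
        F (p + (1, 0)) ≠ F' (p + (1, 1)) ∧ F' (p + (0, 1)) ≠ F p ∧
        F' (p + (1, 1) + (0, 1)) ≠ F p := by decide +kernel
    refine ⟨fun g => F (φ g), fun g => F' (φ g), ?_⟩
    constructor <;> intro g <;> try simp only [h1, h2, h3]
    · exact (key _).1
    · exact (key _).2.1
    · exact (key _).2.2.1
    · exact (key _).2.2.2.1
    · exact (key _).2.2.2.2.1
    · exact (key _).2.2.2.2.2.1
    · exact (key _).2.2.2.2.2.2.1
    · exact (key _).2.2.2.2.2.2.2.1
    · exact (key _).2.2.2.2.2.2.2.2.1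
    · exact (key _).2.2.2.2.2.2.2.2.2.1
    · exact (key _).2.2.2.2.2.2.2.2.2.2.1
    · exact (key _).2.2.2.2.2.2.2.2.2.2.2
  · -- pass to the quotient by `τ + τ'`
    let N := AddSubgroup.zmultiples (τ + τ')
    apply TwoOK.comap (QuotientAddGroup.mk' N)
    have h0 : ∀ y : G, y ≠ 0 → y ≠ τ + τ' → (QuotientAddGroup.mk' N) y ≠ 0 := by
      intro y hy hy' h
      rw [QuotientAddGroup.mk'_apply, QuotientAddGroup.eq_zero_iff] at h
      rcases mem_zmultiples_invol hx h with h | h
      · exact hy h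
      · exact hy' h
    have hq : (QuotientAddGroup.mk' N) τ = (QuotientAddGroup.mk' N) τ' := by
      rw [QuotientAddGroup.mk'_apply, QuotientAddGroup.mk'_apply, QuotientAddGroup.eq]
      have : -τ + τ' = τ + τ' := by
        rw [neg_eq_of_add_eq_zero_left hτ]
      rw [this]
      exact AddSubgroup.mem_zmultiples _
    rw [← hq]
    apply two_same
    · rw [← map_add, hτ, map_zero]
    · apply h0 τ hτ0
      intro h
      apply hτ0'
      calc τ' = τ + τ' - τ := by abel
        _ = 0 := by rw [← h, sub_self]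
    · exact h0 s hs hss

end Pool.Agent.helper85.L21
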